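import Pool.Agent.H725.UG.Dat

/-!
# Free amalgams
-/

set_option autoImplicit false

namespace Pool.Agent.H725.UG

open Function
open Pool.Agent.E8helper92.BP (blk)

namespace Dat

variable {S : Sp} {X Y : Type}

theorem clq_pull (D : Dat S Y) (f : X → Y) {r : ℕ} (v : Fin r → X) :
    (D.pull f).Clq v ↔ D.Clq (fun i => f (v i)) := Iff.rfl

theorem lk_pull (D : Dat S Y) (f : X → Y) (K : Fin S.t → X) (a : X) :
    (D.pull f).Lk K a ↔ D.Lk (fun i => f (K i)) (f a) := Iff.rfl

/-- Existence of free amalgams. -/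
theorem amalgam {I : Type} [Nonempty I] (comp : Y → Option I) (Z : I → Type)
    (f : ∀ i, Z i → Y) (hf : ∀ i, Injective (f i))
    (hran : ∀ i y, (∃ z, f i z = y) ↔ comp y = none ∨ comp y = some i)
    (Q : ∀ i, Dat S (Z i)) (hQ : ∀ i, (Q i).Ok)
    (hcompat : ∀ i j, (Q i).pull (fun p : {p : Z i × Z j // f i p.1 = f j p.2} => p.1.1) =
      (Q j).pull (fun p : {p : Z i × Z j // f i p.1 = f j p.2} => p.1.2)) :
    ∃ D : Dat S Y, D.Ok ∧ (∀ i, D.pull (f i) = Q i) ∧
      (∀ a b, D.E a b → comp a = none ∨ comp b = none ∨ comp a = comp b) ∧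
      (∀ K a c i j, comp a = some i → comp c = some j → i ≠ j →
        (D.P K a c ↔ D.Lk K a ∧ D.Lk K c ∧ ∃ b, D.Lk K b ∧ D.E a b ∧ D.E b c)) := by
  classical
  let E : Y → Y → Prop := fun a b => ∃ i z z', f i z = a ∧ f i z' = b ∧ (Q i).E z z'
  let lk : (Fin S.t → Y) → Y → Prop := fun K a => (∀ i j, i ≠ j → E (K i) (K j)) ∧ ∀ i, E (K i) a
  let D : Dat S Y := {
    E := E
    P := fun K a c => (∃ i K' a' c', (∀ x, f i (K' x) = K x) ∧ f i a' = a ∧ f i c' = c ∧
      (Q i).P K' a' c') ∨ ((∃ i j, i ≠ j ∧ comp a = some i ∧ comp c = some j) ∧ lk K a ∧ lk K c ∧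
        ∃ b, lk K b ∧ E a b ∧ E b c)
    L := fun K => ∃ i K', (∀ x, f i (K' x) = K x) ∧ (Q i).L K'
    lab := fun v => if h : ∃ i, ∃ v' : Fin S.m → Z i, ∀ x, f i (v' x) = v x then
      (Q h.choose).lab h.choose_spec.choose else S.a₀ }
  -- the components of the compatibility condition
  have cE : ∀ i j (z z' : Z i) (y y' : Z j), f i z = f j y → f i z' = f j y' →
      (Q i).E z z' → (Q j).E y y' := by
    intro i j z z' y y' h1 h2 h
    have h3 := congrFun (congrFun (congrArg Dat.E (hcompat i j)) ⟨(z, y), h1⟩) ⟨(z', y'), h2⟩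
    exact cast h3 h
  have cP : ∀ i j (K : Fin S.t → Z i) (z z' : Z i) (K' : Fin S.t → Z j) (y y' : Z j),
      (∀ x, f i (K x) = f j (K' x)) → f i z = f j y → f i z' = f j y' →
      (Q i).P K z z' → (Q j).P K' y y' := by
    intro i j K z z' K' y y' h0 h1 h2 h
    have h3 := congrFun (congrFun (congrFun (congrArg Dat.P (hcompat i j))
      (fun x => ⟨(K x, K' x), h0 x⟩)) ⟨(z, y), h1⟩) ⟨(z', y'), h2⟩
    exact cast h3 h
  have cL : ∀ i j (K : Fin S.t → Z i) (K' : Fin S.t → Z j),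
      (∀ x, f i (K x) = f j (K' x)) → (Q i).L K → (Q j).L K' := by
    intro i j K K' h0 h
    have h3 := congrFun (congrArg Dat.L (hcompat i j)) (fun x => ⟨(K x, K' x), h0 x⟩)
    exact cast h3 h
  have clab : ∀ i j (v : Fin S.m → Z i) (v' : Fin S.m → Z j),
      (∀ x, f i (v x) = f j (v' x)) → (Q i).lab v = (Q j).lab v' := by
    intro i j v v' h0
    exact congrFun (congrArg Dat.lab (hcompat i j)) (fun x => ⟨(v x, v' x), h0 x⟩)
  have hpull : ∀ i, D.pull (f i) = Q i := by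
    intro i
    have e1 : (D.pull (f i)).E = (Q i).E := by
      funext a b
      apply propext
      constructor
      · rintro ⟨j, z, z', h1, h2, h⟩
        exact cE j i z z' a b h1 h2 h
      · intro h
        exact ⟨i, a, b, rfl, rfl, h⟩
    have e2 : (D.pull (f i)).P = (Q i).P := by
      funext K a c
      apply propext
      constructor
      · rintro (⟨j, K', a', c', h0, h1, h2, h⟩ | ⟨⟨k, l, hkl, h1, h2⟩, -⟩)
        · exact cP j i K' a' c' K a c h0 h1 h2 h
        · exfalso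
          have h3 := (hran i (f i a)).1 ⟨a, rfl⟩
          have h4 := (hran i (f i c)).1 ⟨c, rfl⟩
          rw [h1] at h3
          rw [h2] at h4
          simp only [reduceCtorEq, Option.some.injEq, false_or] at h3 h4
          exact hkl (h3.trans h4.symm)
      · intro h
        exact Or.inl ⟨i, K, a, c, fun _ => rfl, rfl, rfl, h⟩
    have e3 : (D.pull (f i)).L = (Q i).L := by
      funext K
      apply propext
      constructor
      · rintro ⟨j, K', h0, h⟩
        exact cL j i K' K h0 h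
      · intro h
        exact ⟨i, K, fun _ => rfl, h⟩
    have e4 : (D.pull (f i)).lab = (Q i).lab := by
      funext v
      have hex : ∃ j, ∃ v' : Fin S.m → Z j, ∀ x, f j (v' x) = f i (v x) := ⟨i, v, fun _ => rfl⟩
      have h1 : (D.pull (f i)).lab v = (Q hex.choose).lab hex.choose_spec.choose := dif_pos hex
      rw [h1]
      exact clab _ _ _ _ hex.choose_spec.choose_spec
    have e5 : ∀ (D₁ D₂ : Dat S (Z i)), D₁.E = D₂.E → D₁.P = D₂.P → D₁.L = D₂.L →
        D₁.lab = D₂.lab → D₁ = D₂ := by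
      rintro ⟨_, _, _, _⟩ ⟨_, _, _, _⟩ h1 h2 h3 h4
      simp only at h1 h2 h3 h4
      subst h1 h2 h3 h4
      rfl
    exact e5 _ _ e1 e2 e3 e4
  have hE1 : ∀ a b, D.E a b → comp a = none ∨ comp b = none ∨ comp a = comp b := by
    rintro a b ⟨i, z, z', rfl, rfl, -⟩
    have h3 := (hran i (f i z)).1 ⟨z, rfl⟩
    have h4 := (hran i (f i z')).1 ⟨z', rfl⟩
    rcases h3 with h3 | h3
    · exact Or.inl h3
    · rcases h4 with h4 | h4
      · exact Or.inr (Or.inl h4)
      · exact Or.inr (Or.inr (h3.trans h4.symm))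
  have hP3 : ∀ K a c i j, comp a = some i → comp c = some j → i ≠ j →
      (D.P K a c ↔ D.Lk K a ∧ D.Lk K c ∧ ∃ b, D.Lk K b ∧ D.E a b ∧ D.E b c) := by
    intro K a c i j hi hj hij
    constructor
    · rintro (⟨k, K', a', c', h0, h1, h2, h⟩ | ⟨-, h⟩)
      · exfalso
        have h3 := (hran k a).1 ⟨a', h1⟩
        have h4 := (hran k c).1 ⟨c', h2⟩
        rw [hi] at h3
        rw [hj] at h4
        simp only [reduceCtorEq, Option.some.injEq, false_or] at h3 h4
        exact hij (h3.trans h4.symm)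
      · exact h
    · intro h
      exact Or.inr ⟨⟨i, j, hij, hi, hj⟩, h⟩
  have hlk : ∀ i (K : Fin S.t → Z i) (a : Z i), (Q i).Lk K a → D.Lk (fun x => f i (K x)) (f i a) := by
    intro i K a h
    rw [← hpull i] at h
    exact h
  refine ⟨D, ?_, hpull, hE1, hP3⟩
  apply star D comp hE1 _ hP3
  · rintro K a c (⟨i, K', a', c', h0, rfl, rfl, h⟩ | ⟨-, h1, h2, -⟩)
    · obtain ⟨h1, h2, -⟩ := (hQ i).p0 _ _ _ h
      have h3 : (fun x => f i (K' x)) = K := funext h0
      rw [← h3]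
      exact ⟨hlk _ _ _ h1, hlk _ _ _ h2⟩
    · exact ⟨h1, h2⟩
  · rintro K ⟨i, K', h0, h⟩
    have h1 := (hQ i).l0 _ h
    rw [← hpull i] at h1
    have h3 : (fun x => f i (K' x)) = K := funext h0
    rw [← h3]
    exact h1
  · intro v hv
    by_cases hex : ∃ i, ∃ v' : Fin S.m → Z i, ∀ x, f i (v' x) = v x
    · obtain ⟨i, v', hv'⟩ := hex
      have h3 : (fun x => f i (v' x)) = v := funext hv'
      have h4 : D.lab v = (Q i).lab v' := by
        rw [← h3, ← hpull i]
        rfl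
      rw [h4]
      apply (hQ i).n0
      intro hc
      apply hv
      rw [← h3]
      rw [← hpull i] at hc
      exact hc
    · exact dif_neg hex
  · intro i
    refine okOn_of (f := f i) ?_ ?_
    · rw [hpull i]
      exact hQ i
    · intro y hy
      exact (hran i y).2 hy

/-- the structure without edges -/
def triv (S : Sp) (X : Type) : Dat S X where
  E _ _ := False
  P _ _ _ := False
  L _ := False
  lab _ := S.a₀

theorem triv_ok : (triv S X).Ok where
  symm _ _ h := h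
  irr _ h := h
  p0 _ _ _ h := h.elim
  l0 _ h := h.elim
  r1 _ _ _ _ _ _ _ h := h.elim
  r2 _ _ _ _ h := h.elim
  n0 _ _ := rfl
  tr w hw := by
    have h2 := S.hN
    have h : False := hw.1 ⟨0, by omega⟩ ⟨1, by omega⟩ (by simp)
    exact h.elim

theorem ext_of {D₁ D₂ : Dat S X} (h1 : D₁.E = D₂.E) (h2 : D₁.P = D₂.P) (h3 : D₁.L = D₂.L)
    (h4 : D₁.lab = D₂.lab) : D₁ = D₂ := by
  obtain ⟨_, _, _, _⟩ := D₁
  obtain ⟨_, _, _, _⟩ := D₂
  simp only at h1 h2 h3 h4
  subst h1 h2 h3 h4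
  rfl

/-- structures which agree on the members of an increasing cover are equal -/
theorem ext_cover {D₁ D₂ : Dat S X} (s : ℕ → Set X) (hs : Monotone s) (hc : ∀ x, ∃ n, x ∈ s n)
    (h : ∀ n, D₁.pull (Subtype.val : s n → X) = D₂.pull (Subtype.val : s n → X)) : D₁ = D₂ := by
  have hc2 : ∀ {r : ℕ} (v : Fin r → X), ∃ n, ∀ i, v i ∈ s n := by
    intro r v
    choose k hk using fun i => hc (v i)
    refine ⟨Finset.univ.sup k, fun i => hs (Finset.le_sup (Finset.mem_univ i)) (hk i)⟩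
  apply ext_of
  · funext a b
    obtain ⟨n, hn⟩ := hc a
    obtain ⟨k, hk⟩ := hc b
    exact congrFun (congrFun (congrArg Dat.E (h (max n k))) ⟨a, hs (le_max_left _ _) hn⟩)
      ⟨b, hs (le_max_right _ _) hk⟩
  · funext K a b
    obtain ⟨n, hn⟩ := hc a
    obtain ⟨k, hk⟩ := hc b
    obtain ⟨l, hl⟩ := hc2 K
    exact congrFun (congrFun (congrFun (congrArg Dat.P (h (max (max n k) l)))
      (fun i => ⟨K i, hs (le_max_right _ _) (hl i)⟩))
      ⟨a, hs ((le_max_left _ _).trans (le_max_left _ _)) hn⟩)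
      ⟨b, hs ((le_max_right _ _).trans (le_max_left _ _)) hk⟩
  · funext K
    obtain ⟨l, hl⟩ := hc2 K
    exact congrFun (congrArg Dat.L (h l)) (fun i => ⟨K i, hl i⟩)
  · funext K
    obtain ⟨l, hl⟩ := hc2 K
    exact congrFun (congrArg Dat.lab (h l)) (fun i => ⟨K i, hl i⟩)

/-- the rules can be checked on the members of an increasing cover -/
theorem ok_cover {D : Dat S X} (s : ℕ → Set X) (hs : Monotone s) (hc : ∀ x, ∃ n, x ∈ s n)
    (h : ∀ n, D.OkOn (s n)) : D.Ok := by
  have hc2 : ∀ {r : ℕ} (v : Fin r → X), ∃ n, ∀ i, v i ∈ s n := by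
    intro r v
    choose k hk using fun i => hc (v i)
    refine ⟨Finset.univ.sup k, fun i => hs (Finset.le_sup (Finset.mem_univ i)) (hk i)⟩
  have h3 : ∀ {r : ℕ} (v : Fin r → X) (a b c : X), ∃ n, (∀ i, v i ∈ s n) ∧ a ∈ s n ∧ b ∈ s n ∧ c ∈ s n := by
    intro r v a b c
    obtain ⟨n, hn⟩ := hc a
    obtain ⟨k, hk⟩ := hc b
    obtain ⟨k', hk'⟩ := hc c
    obtain ⟨l, hl⟩ := hc2 v
    refine ⟨n + k + k' + l, fun i => hs (by omega) (hl i), hs (by omega) hn, hs (by omega) hk,
      hs (by omega) hk'⟩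
  exact {
    symm := by
      intro a b hab
      obtain ⟨n, -, ha, hb, -⟩ := h3 (r := 0) Fin.elim0 a b a
      exact (h n).symm ha hb hab
    irr := by
      intro a
      obtain ⟨n, hn⟩ := hc a
      exact (h n).irr hn
    p0 := by
      intro K a c hP
      obtain ⟨n, hK, ha, hc, -⟩ := h3 K a c a
      exact (h n).p0 hK ha hc hP
    l0 := by
      intro K hL
      obtain ⟨n, hK⟩ := hc2 K
      exact (h n).toGOk.l0 (fun i => ⟨K i, hK i⟩) hL
    r1 := by
      intro K a b c h1 h2 h4 h5 h6 h7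
      obtain ⟨n, hK, ha, hb, hc⟩ := h3 K a b c
      exact (h n).r1 hK ha hb hc h1 h2 h4 h5 h6 h7
    r2 := by
      intro K a c d h1 h2 h4 h5
      obtain ⟨n, hK, ha, hb, hc⟩ := h3 K a c d
      exact (h n).r2 hK ha hb hc h1 h2 h4 h5
    n0 := by
      intro v hv
      obtain ⟨n, hK⟩ := hc2 v
      exact Ok.n0 (h n) (fun i => ⟨v i, hK i⟩) hv
    tr := by
      intro w hw
      obtain ⟨n, hK⟩ := hc2 w
      exact (h n).tr hK hw }

end Dat

end Pool.Agent.H725.UG
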