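import Pool.Agent.H725.UG.BackOK

/-!
# The reduction from the graph to the template
-/

set_option autoImplicit false

namespace Pool.Agent.H725.UG

open Function Pool.Agent.W994.AR Pool.Agent.NPC
open Pool.Agent.H593R3.FBC (Inst IsInst CSP Rels)
open Pool.Agent.E8helper92.BP (blk Blk okI okI_iff poly_okI CSPOf cspOf_iff)

theorem free_ok' {S : Sp} {X : Type} {R : X → X → Prop} (hR : ∀ x y, R x y → R y x)
    (hirr : ∀ x, ¬ R x x) (hcl : ∀ v : Fin (S.t + 3) → X, ¬ ∀ i j, i ≠ j → R (v i) (v j)) :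
    (Dat.free S R).GOk where
  symm := hR
  irr := hirr
  p0 K a c h := by
    refine ⟨h.1, h.2.1, h.2.2.1, ?_, h.2.1, h.1, h.2.2.1.symm, ?_⟩
    · intro h6
      obtain ⟨h1, h2, -, b, h3, h4, h5⟩ := h
      apply hcl (Fin.append K ![a, b, c])
      have hK : ∀ i (j : Fin 3), R (K i) ((![a, b, c] : Fin 3 → X) j) := by
        intro i j
        fin_cases j
        · exact h1.2 i
        · exact h3.2 i
        · exact h2.2 i
      intro i j
      refine Fin.addCases (fun i => ?_) (fun i => ?_) i <;>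
        refine Fin.addCases (fun j => ?_) (fun j => ?_) j
      · intro h
        rw [Fin.append_left, Fin.append_left]
        exact h1.1 i j (fun e => h (by rw [e]))
      · intro _
        rw [Fin.append_left, Fin.append_right]
        exact hK i j
      · intro _
        rw [Fin.append_left, Fin.append_right]
        exact hR _ _ (hK j i)
      · intro h
        rw [Fin.append_right, Fin.append_right]
        have hij : i ≠ j := fun e => h (by rw [e])
        fin_cases i <;> fin_cases j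
        · exact absurd rfl hij
        · exact h4
        · exact h6
        · exact hR _ _ h4
        · exact absurd rfl hij
        · exact h5
        · exact hR _ _ h6
        · exact hR _ _ h5
        · exact absurd rfl hij
    · obtain ⟨-, -, -, b, h3, h4, h5⟩ := h
      exact ⟨b, h3, hR _ _ h5, hR _ _ h4⟩
  l0 K h := by
    obtain ⟨a, c, d, -, -, h, -⟩ := h
    exact h.1
  r1 K a b c h1 h2 h3 h4 h5 h6 := ⟨h1, h3, h6, b, h2, h4, h5⟩
  r2 K a c d h1 h2 h3 h4 := ⟨a, c, d, h1, h2, h3, h4⟩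

variable {n : ℕ} {A : Type} {ar : Fin n → ℕ} {Nb : ℕ}

open Classical in
/-- the nonempty relations and the positions of their blocks -/
noncomputable def goodL (ε : Blk ar ≃ Fin Nb) (𝔸 : Str (Fin n) ar A) : List (ℕ × List ℕ) :=
  ((List.finRange n).filter (fun i => (𝔸 i).Nonempty)).map
    (fun i => (i.1, List.ofFn (fun j => (ε (Sum.inr ⟨i, j⟩)).1)))

theorem mem_goodL {ε : Blk ar ≃ Fin Nb} {𝔸 : Str (Fin n) ar A} {p : ℕ × List ℕ} :
    p ∈ goodL ε 𝔸 ↔ ∃ i, (𝔸 i).Nonempty ∧ p = (i.1, List.ofFn (fun j => (ε (Sum.inr ⟨i, j⟩)).1)) := by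
  unfold goodL
  simp only [List.mem_map, List.mem_filter, List.mem_finRange, true_and, decide_eq_true_eq]
  exact ⟨fun ⟨i, h, e⟩ => ⟨i, h, e.symm⟩, fun ⟨i, h, e⟩ => ⟨i, h, e.symm⟩⟩

/-- the reduction -/
noncomputable def backOf (S : Sp) (ε : Blk ar ≃ Fin S.Nb) (𝔸 : Str (Fin n) ar S.A) : Inst → Inst :=
  back S.t (S.Nb * S.m) S.m (ε (Sum.inl 0)).1 (ε (Sum.inl 1)).1 n (MkL S) (goodL ε 𝔸)

theorem poly_backOf (S : Sp) (ε : Blk ar ≃ Fin S.Nb) (𝔸 : Str (Fin n) ar S.A) :
    Poly (backOf S ε 𝔸) := poly_back _ _ _ _ _ _ _ _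

theorem csp_back {S : Sp} (ε : Blk ar ≃ Fin S.Nb) (𝔸 : Str (Fin n) ar S.A) (hW : S.W = Wset ε 𝔸)
    {D : Dat S ℕ} (hD : D.Ok) (hE : D.Ext) (J : Inst) :
    CSPOf (gstr D.E) J ↔ CSPOf 𝔸 (backOf S ε 𝔸 J) := by
  classical
  have ha0 : Nonempty S.A := ⟨S.a₀⟩
  have hN2 : 2 ≤ S.Nb * S.m := by
    have := S.hN
    omega
  rw [gstr_csp, cspOf_iff]
  -- homomorphisms
  have hhom : ∀ h : ℕ → ℕ, (∀ a b, (0, [a, b]) ∈ J.2 → D.E (h a) (h b)) →
      ∀ a b, Rel J.2 a b → D.E (h a) (h b) := by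
    intro h hh a b hab
    rcases rel_iff.1 hab with h1 | h1
    · exact hh _ _ h1
    · exact hD.symm _ _ (hh _ _ h1)
  by_cases hok : okG S.t J = true
  swap
  · have hback : backOf S ε 𝔸 J = ([], [(n, [])]) := by
      unfold backOf back
      rw [if_neg hok]
    rw [hback]
    constructor
    · rintro ⟨hI, h, hh⟩
      exfalso
      apply hok
      have hh' := hhom h hh
      unfold okG
      rw [Bool.and_eq_true, Bool.and_eq_true, okI_iff, List.all_eq_true, List.all_eq_true]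
      refine ⟨⟨hI, fun p _ => List.not_mem_nil⟩, ?_, ?_⟩
      · intro a _
        rw [Bool.not_eq_true', ← Bool.not_eq_true]
        intro h1
        exact hD.irr _ (hh' a a h1)
      · intro l hl
        rw [Bool.not_eq_true', ← Bool.not_eq_true]
        intro h1
        obtain ⟨h2, -⟩ := mem_tpl.1 hl
        have h3 : l = List.ofFn (fun i : Fin (S.t + 3) => l.getD i.1 0) := by
          apply List.ext_getElem
          · simp [h2]
          · intro i h4 h5
            rw [List.getElem_ofFn]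
            simp [List.getD_eq_getElem?_getD, List.getElem?_eq_getElem h4]
        rw [h3] at h1
        have h4 := cqB_iff.1 h1
        obtain ⟨a, b, hab, h5⟩ := Dat.no_large_clique hD.toGOk (fun i => h (l.getD i.1 0))
        exact h5 (hh' _ _ (h4 a b hab))
    · rintro ⟨hI, -⟩
      exfalso
      have h1 := (hI (n, []) (by simp)).1
      simp at h1
  have hok' := hok
  unfold okG at hok'
  rw [Bool.and_eq_true, Bool.and_eq_true, okI_iff, List.all_eq_true, List.all_eq_true] at hok'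
  obtain ⟨⟨hI, -⟩, hloop, hcl⟩ := hok'
  set N := J.1.length with hN
  have hlt : ∀ a b, Rel J.2 a b → a < N := by
    intro a b hab
    rcases rel_iff.1 hab with h1 | h1
    · exact (hI _ h1).2 a (by simp)
    · exact (hI _ h1).2 a (by simp)
  have hrg : ∀ a b, Rel J.2 a b → a ∈ List.range N := fun a b hab => List.mem_range.2 (hlt a b hab)
  -- the free structure
  have hF : (Dat.free S (Rel J.2)).GOk := by
    apply free_ok'
    · exact fun x y h => rel_symm h
    · intro x hx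
      have := hloop x (hrg _ _ hx)
      rw [Bool.not_eq_true'] at this
      rw [Rel, this] at hx
      exact Bool.false_ne_true hx
    · intro v hv
      have h1 : ∀ i, v i ∈ List.range N := by
        intro i
        have h2 : ∃ j, j ≠ i := by
          by_cases h3 : i = 0
          · exact ⟨1, by rw [h3]; exact Fin.ne_of_val_ne (by simp)⟩
          · exact ⟨0, Ne.symm h3⟩
        obtain ⟨j, hj⟩ := h2
        exact hrg _ _ (hv i j (Ne.symm hj))
      have h2 := hcl (List.ofFn v) (mem_tpl.2 ⟨by simp, fun x hx => by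
        rw [List.mem_ofFn] at hx
        obtain ⟨i, rfl⟩ := hx
        exact h1 i⟩)
      rw [Bool.not_eq_true'] at h2
      have h3 := cqB_iff.2 (fun i j hij => hv i j hij)
      rw [h2] at h3
      exact Bool.false_ne_true h3
  have htrlt : ∀ w : Fin (S.Nb * S.m) → ℕ, (Dat.free S (Rel J.2)).Trig w → ∀ x, w x < N := by
    intro w hw x
    have h2 : ∃ y, y ≠ x := by
      by_cases h3 : x = ⟨0, by omega⟩
      · exact ⟨⟨1, by omega⟩, by rw [h3]; exact Fin.ne_of_val_ne (by simp)⟩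
      · exact ⟨⟨0, by omega⟩, Ne.symm h3⟩
    obtain ⟨y, hy⟩ := h2
    exact hlt _ _ (hw.1 x y (Ne.symm hy))
  have hTL : ∀ l, l ∈ TL S.t (S.Nb * S.m) (MkL S) J ↔ ∃ w : Fin (S.Nb * S.m) → ℕ, l = List.ofFn w ∧
      (Dat.free S (Rel J.2)).Trig w := by
    intro l
    unfold TL
    rw [List.mem_filter, mem_tpl]
    constructor
    · rintro ⟨⟨h1, h2⟩, h3⟩
      have h4 : l = List.ofFn (fun i : Fin (S.Nb * S.m) => l.getD i.1 0) := by
        apply List.ext_getElem
        · simp [h1]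
        · intro i h4 h5
          rw [List.getElem_ofFn]
          simp [List.getD_eq_getElem?_getD, List.getElem?_eq_getElem h4]
      refine ⟨_, h4, ?_⟩
      rw [h4] at h3
      exact (trB_iff hrg).1 h3
    · rintro ⟨w, rfl, hw⟩
      refine ⟨⟨by simp, fun x hx => ?_⟩, (trB_iff hrg).2 hw⟩
      rw [List.mem_ofFn] at hx
      obtain ⟨i, rfl⟩ := hx
      exact List.mem_range.2 (htrlt w hw i)
  -- the classes
  set reps := repsOf S.t (S.Nb * S.m) S.m (ε (Sum.inl 0)).1 (ε (Sum.inl 1)).1 (MkL S) J with hreps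
  have hback : backOf S ε 𝔸 J = (List.replicate (N ^ S.m) (),
      (TL S.t (S.Nb * S.m) (MkL S) J).flatMap (newE S.m (goodL ε 𝔸) N reps)) := by
    unfold backOf back
    rw [if_pos hok]
  have hblk : ∀ (w : Fin (S.Nb * S.m) → ℕ), (Dat.free S (Rel J.2)).Trig w → ∀ (b : Fin S.Nb) i,
      blk w b i < N := fun w hw b i => htrlt w hw _
  have hQlt : ∀ p ∈ (TL S.t (S.Nb * S.m) (MkL S) J).map (fun w =>
      (codW S.m N w (ε (Sum.inl 0)).1, codW S.m N w (ε (Sum.inl 1)).1)),
      p.1 < N ^ S.m ∧ p.2 < N ^ S.m := by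
    intro p hp
    obtain ⟨l, hl, rfl⟩ := List.mem_map.1 hp
    obtain ⟨w, rfl, hw⟩ := (hTL l).1 hl
    simp only [codW_eq]
    exact ⟨cod_lt (hblk w hw _), cod_lt (hblk w hw _)⟩
  obtain ⟨r1, r2, r3⟩ := mrg_spec hQlt
  have hrepsd : reps = mrg ((TL S.t (S.Nb * S.m) (MkL S) J).map (fun w =>
      (codW S.m N w (ε (Sum.inl 0)).1, codW S.m N w (ε (Sum.inl 1)).1))) (N ^ S.m) := rfl
  rw [← hrepsd] at r1 r2 r3
  have hmem : ∀ p, p ∈ (backOf S ε 𝔸 J).2 ↔ ∃ (w : Fin (S.Nb * S.m) → ℕ) (i : Fin n),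
      (Dat.free S (Rel J.2)).Trig w ∧ (𝔸 i).Nonempty ∧
      p = (i.1, List.ofFn (fun j => reps.getD (cod N (blk w (ε (Sum.inr ⟨i, j⟩)))) 0)) := by
    intro p
    rw [hback]
    simp only [List.mem_flatMap]
    have hnew : ∀ (w : Fin (S.Nb * S.m) → ℕ) (i : Fin n),
        (List.ofFn (fun j => (ε (Sum.inr ⟨i, j⟩)).1)).map (fun b =>
          reps.getD (codW S.m N (List.ofFn w) b) 0) =
        List.ofFn (fun j => reps.getD (cod N (blk w (ε (Sum.inr ⟨i, j⟩)))) 0) := by
      intro w i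
      rw [List.map_ofFn]
      congr 1
      funext j
      show reps.getD (codW S.m N (List.ofFn w) (ε (Sum.inr ⟨i, j⟩)).1) 0 = _
      rw [codW_eq]
    constructor
    · rintro ⟨l, hl, hp⟩
      obtain ⟨w, rfl, hw⟩ := (hTL l).1 hl
      unfold newE at hp
      obtain ⟨q, hq, rfl⟩ := List.mem_map.1 hp
      obtain ⟨i, hi, rfl⟩ := mem_goodL.1 hq
      exact ⟨w, i, hw, hi, by rw [hnew]⟩
    · rintro ⟨w, i, hw, hi, rfl⟩
      refine ⟨_, (hTL _).2 ⟨w, rfl, hw⟩, ?_⟩
      unfold newE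
      exact List.mem_map.2 ⟨_, mem_goodL.2 ⟨i, hi, rfl⟩, by rw [hnew]⟩
  have hlen : (backOf S ε 𝔸 J).1.length = N ^ S.m := by
    rw [hback]
    simp
  constructor
  · rintro ⟨-, φ, hφ⟩
    have hφ' := hhom φ hφ
    have hwh : Dat.WHom (Dat.free S (Rel J.2)) D φ := Dat.free_whom hD.toGOk hφ'
    let H : ℕ → S.A := fun c => if hc : ∃ v : Fin S.m → ℕ, (∀ i, v i < N) ∧ cod N v = c then
      D.lab (fun i => φ (hc.choose i)) else S.a₀
    have hH : ∀ v : Fin S.m → ℕ, (∀ i, v i < N) → H (cod N v) = D.lab (fun i => φ (v i)) := by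
      intro v hv
      have hc : ∃ v' : Fin S.m → ℕ, (∀ i, v' i < N) ∧ cod N v' = cod N v := ⟨v, hv, rfl⟩
      have h1 : H (cod N v) = D.lab (fun i => φ (hc.choose i)) := dif_pos hc
      rw [h1, cod_inj hc.choose_spec.1 hv hc.choose_spec.2]
    have hHQ : ∀ p ∈ (TL S.t (S.Nb * S.m) (MkL S) J).map (fun w =>
      (codW S.m N w (ε (Sum.inl 0)).1, codW S.m N w (ε (Sum.inl 1)).1)), H p.1 = H p.2 := by
      intro p hp
      obtain ⟨l, hl, rfl⟩ := List.mem_map.1 hp
      obtain ⟨w, rfl, hw⟩ := (hTL l).1 hl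
      simp only [codW_eq]
      rw [hH _ (hblk w hw _), hH _ (hblk w hw _)]
      have h1 := hD.tr _ (hwh.trig hw)
      rw [hW] at h1
      exact h1.2
    have hHr : ∀ (w : Fin (S.Nb * S.m) → ℕ), (Dat.free S (Rel J.2)).Trig w → ∀ b,
        H (reps.getD (cod N (blk w b)) 0) = D.lab (fun i => φ (blk w b i)) := by
      intro w hw b
      rw [r3 H hHQ _ (cod_lt (hblk w hw b)), hH _ (hblk w hw b)]
    refine ⟨?_, H, ?_⟩
    · intro p hp
      obtain ⟨w, i, hw, hi, rfl⟩ := (hmem p).1 hp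
      refine ⟨by simp, ?_⟩
      intro a ha
      rw [List.mem_ofFn] at ha
      obtain ⟨j, rfl⟩ := ha
      rw [hlen]
      exact r1 _ (cod_lt (hblk w hw _))
    · intro i v hv
      obtain ⟨w, i', hw, hi, he⟩ := (hmem _).1 hv
      simp only [Prod.mk.injEq] at he
      obtain rfl : i = i' := Fin.ext he.1
      have h1 : v = fun j => reps.getD (cod N (blk w (ε (Sum.inr ⟨i, j⟩)))) 0 := List.ofFn_injective he.2
      rw [h1]
      simp only [hHr w hw]
      have h2 := hD.tr _ (hwh.trig hw)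
      rw [hW] at h2
      exact h2.1 i hi
  · rintro ⟨-, H, hH⟩
    refine ⟨hI, ?_⟩
    have hQ : ((Dat.free S (Rel J.2)).withLab (fun v => H (reps.getD (cod N v) 0))).Ok := by
      apply Dat.withLab_ok hF
      intro w hw
      rw [hW]
      refine ⟨fun i hi => ?_, ?_⟩
      · exact hH i (fun j => reps.getD (cod N (blk w (ε (Sum.inr ⟨i, j⟩)))) 0)
          ((hmem _).2 ⟨w, i, hw, hi, rfl⟩)
      · have h1 := r2 _ (List.mem_map.2 ⟨_, (hTL _).2 ⟨w, rfl, hw⟩, rfl⟩)
        simp only [codW_eq] at h1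
        show H _ = H _
        rw [h1]
    obtain ⟨e, -, -, h⟩ := hE.embed hQ ∅ (Dat.good_empty _ D)
    refine ⟨e, fun a b hab => ?_⟩
    have h1 := congrFun (congrFun (congrArg Dat.E h) a) b
    exact cast h1.symm (rel_iff.2 (Or.inl hab))

end Pool.Agent.H725.UG
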