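import Pool.Agent.H725.UG.RedOK
import Pool.Graph.R_seed8.H593R3.FBC.RedDefs

/-!
# The reduction from the graph to the template: the algorithm
-/

set_option autoImplicit false

namespace Pool.Agent.H725.UG

open Function Pool.Agent.W994.AR Pool.Agent.NPC
open Pool.Agent.H593R3.FBC (Inst IsInst CSP Rels poly_iterU sz_nat_le' sz_getD_le)
open Pool.Agent.E8helper92.BP (blk Blk okI okI_iff poly_okI CSPOf cspOf_iff)

/-- adjacency in the instance -/
def adB (E : List (ℕ × List ℕ)) (a b : ℕ) : Bool := decide ((0, [a, b]) ∈ E) || decide ((0, [b, a]) ∈ E)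

/-- all tuples of length `k` -/
def tpl (rg : List ℕ) : ℕ → List (List ℕ)
  | 0 => [[]]
  | k + 1 => (tpl rg k).flatMap (fun l => rg.map (fun x => x :: l))

/-- cliques -/
def cqB (r : ℕ) (E : List (ℕ × List ℕ)) (l : List ℕ) : Bool :=
  (PLof r).all (fun p => adB E (l.getD p.1 0) (l.getD p.2 0))

/-- links -/
def lkB (t : ℕ) (E : List (ℕ × List ℕ)) (K : List ℕ) (a : ℕ) : Bool :=
  cqB t E K && K.all (fun x => adB E x a)

/-- paths of length two in links -/
def paB (t : ℕ) (E : List (ℕ × List ℕ)) (rg K : List ℕ) (a c : ℕ) : Bool :=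
  lkB t E K a && (lkB t E K c && (!decide (a = c) && rg.any (fun b => lkB t E K b && (adB E a b && adB E b c))))

/-- marked tuples -/
def LB (t : ℕ) (E : List (ℕ × List ℕ)) (rg K : List ℕ) : Bool :=
  rg.any (fun a => rg.any (fun c => rg.any (fun d =>
    paB t E rg K a c && (adB E c d && (lkB t E K d && paB t E rg K d a)))))

/-- active constraints -/
def trB (t N : ℕ) (Mk : List (List ℕ)) (E : List (ℕ × List ℕ)) (rg w : List ℕ) : Bool :=
  cqB N E w && Mk.all (fun κ => LB t E rg (κ.map (fun x => w.getD x 0)))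

/-- the code of a tuple -/
def codF (n : ℕ) (g : ℕ → ℕ) : ℕ → ℕ
  | 0 => 0
  | k + 1 => codF n g k * n + g k

/-- the code of a block of a tuple -/
def codW (m : ℕ) (n : ℕ) (w : List ℕ) (b : ℕ) : ℕ := codF n (fun i => w.getD (i + m * b) 0) m

/-- identify two classes -/
def mst (r : List ℕ) (a b : ℕ) : List ℕ := r.map (fun y => if y = r.getD b 0 then r.getD a 0 else y)

/-- one step of the identification -/
def mrgS (s : List (ℕ × ℕ) × List ℕ) : List (ℕ × ℕ) × List ℕ :=
  (s.1.tail, mst s.2 (s.1.head?.getD (0, 0)).1 (s.1.head?.getD (0, 0)).2)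

/-- the identification of the pairs in `Q` -/
def mrg (Q : List (ℕ × ℕ)) (M : ℕ) : List ℕ := (mrgS^[Q.length] (Q, List.range M)).2

/-- the list of the active constraints -/
def TL (t N : ℕ) (Mk : List (List ℕ)) (J : Inst) : List (List ℕ) :=
  (tpl (List.range J.1.length) N).filter (trB t N Mk J.2 (List.range J.1.length))

/-- the new constraints -/
def newE (m : ℕ) (good : List (ℕ × List ℕ)) (n : ℕ) (reps : List ℕ) (w : List ℕ) :
    List (ℕ × List ℕ) :=
  good.map (fun p => (p.1, p.2.map (fun b => reps.getD (codW m n w b) 0)))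

/-- the classes -/
def repsOf (t N m e0 e1 : ℕ) (Mk : List (List ℕ)) (J : Inst) : List ℕ :=
  mrg ((TL t N Mk J).map (fun w => (codW m J.1.length w e0, codW m J.1.length w e1))) (J.1.length ^ m)

/-- the instance is a graph without loops and large cliques -/
def okG (t : ℕ) (J : Inst) : Bool :=
  okI [2] [] J && ((List.range J.1.length).all (fun a => !adB J.2 a a) &&
    (tpl (List.range J.1.length) (t + 3)).all (fun l => !cqB (t + 3) J.2 l))

/-- the reduction -/
def back (t N m e0 e1 bad : ℕ) (Mk : List (List ℕ)) (good : List (ℕ × List ℕ)) (J : Inst) : Inst :=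
  if okG t J then (List.replicate (J.1.length ^ m) (),
    (TL t N Mk J).flatMap (newE m good J.1.length (repsOf t N m e0 e1 Mk J)))
  else ([], [(bad, [])])

section poly

variable {α : Type} [TEnc α]

@[fun_prop]
theorem poly_adB {E : α → List (ℕ × List ℕ)} {a b : α → ℕ} (hE : Poly E) (ha : Poly a)
    (hb : Poly b) : Poly (fun x => adB (E x) (a x) (b x)) := by
  unfold adB
  fun_prop

theorem poly_tpl (k : ℕ) : Poly (fun rg : List ℕ => tpl rg k) := by
  induction k with
  | zero => exact NPC.Poly.const _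
  | succ k ih =>
    show Poly (fun rg : List ℕ => (tpl rg k).flatMap (fun l => rg.map (fun x => x :: l)))
    fun_prop

@[fun_prop]
theorem poly_tpl' (k : ℕ) {rg : α → List ℕ} (h : Poly rg) : Poly (fun x => tpl (rg x) k) :=
  (poly_tpl k).comp h

@[fun_prop]
theorem poly_cqB (r : ℕ) {E : α → List (ℕ × List ℕ)} {l : α → List ℕ} (hE : Poly E) (hl : Poly l) :
    Poly (fun x => cqB r (E x) (l x)) := by
  unfold cqB
  fun_prop

@[fun_prop]
theorem poly_lkB (t : ℕ) {E : α → List (ℕ × List ℕ)} {K : α → List ℕ} {a : α → ℕ} (hE : Poly E)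
    (hK : Poly K) (ha : Poly a) : Poly (fun x => lkB t (E x) (K x) (a x)) := by
  unfold lkB
  fun_prop

@[fun_prop]
theorem poly_paB (t : ℕ) {E : α → List (ℕ × List ℕ)} {rg K : α → List ℕ} {a c : α → ℕ} (hE : Poly E)
    (hr : Poly rg) (hK : Poly K) (ha : Poly a) (hc : Poly c) :
    Poly (fun x => paB t (E x) (rg x) (K x) (a x) (c x)) := by
  unfold paB
  fun_prop

@[fun_prop]
theorem poly_LB (t : ℕ) {E : α → List (ℕ × List ℕ)} {rg K : α → List ℕ} (hE : Poly E)
    (hr : Poly rg) (hK : Poly K) : Poly (fun x => LB t (E x) (rg x) (K x)) := by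
  unfold LB
  fun_prop

@[fun_prop]
theorem poly_trB (t N : ℕ) (Mk : List (List ℕ)) {E : α → List (ℕ × List ℕ)} {rg w : α → List ℕ}
    (hE : Poly E) (hr : Poly rg) (hw : Poly w) : Poly (fun x => trB t N Mk (E x) (rg x) (w x)) := by
  unfold trB
  fun_prop

theorem poly_codF {n : α → ℕ} {g : α → ℕ → ℕ} (hn : Poly n) (hg : ∀ k, Poly (fun x => g x k)) (k : ℕ) :
    Poly (fun x => codF (n x) (g x) k) := by
  induction k with
  | zero => exact NPC.Poly.const 0
  | succ k ih => exact NPC.Poly.add (NPC.Poly.mul ih hn) (hg k)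

@[fun_prop]
theorem poly_codW (m : ℕ) {n : α → ℕ} {w : α → List ℕ} {b : α → ℕ} (hn : Poly n) (hw : Poly w)
    (hb : Poly b) : Poly (fun x => codW m (n x) (w x) (b x)) := by
  unfold codW
  exact poly_codF hn (fun k => by fun_prop) m

@[fun_prop]
theorem poly_mst {r : α → List ℕ} {a b : α → ℕ} (hr : Poly r) (ha : Poly a) (hb : Poly b) :
    Poly (fun x => mst (r x) (a x) (b x)) := by
  unfold mst
  fun_prop

theorem poly_mrgS : Poly mrgS := by
  unfold mrgS
  fun_prop

theorem mst_length (r : List ℕ) (a b : ℕ) : (mst r a b).length = r.length := by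
  simp [mst]

theorem mem_mst {r : List ℕ} {a b M : ℕ} (hr : ∀ x ∈ r, x ≤ M) : ∀ x ∈ mst r a b, x ≤ M := by
  have hget : ∀ i, r.getD i 0 ≤ M := by
    intro i
    rw [List.getD_eq_getElem?_getD]
    rcases h : r[i]? with _ | y
    · exact Nat.zero_le _
    · exact hr _ (List.mem_of_getElem? h)
  intro x hx
  obtain ⟨y, hy, rfl⟩ := List.mem_map.1 hx
  split_ifs
  · exact hget a
  · exact hr y hy

theorem mrgS_iter (Q : List (ℕ × ℕ)) (M : ℕ) : ∀ k, (mrgS^[k] (Q, List.range M)).1 = Q.drop k ∧
    (mrgS^[k] (Q, List.range M)).2.length = M ∧ ∀ x ∈ (mrgS^[k] (Q, List.range M)).2, x ≤ M := by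
  intro k
  induction k with
  | zero => exact ⟨rfl, by simp, fun x hx => by simp at hx; omega⟩
  | succ k ih =>
    rw [Function.iterate_succ_apply']
    refine ⟨?_, ?_, ?_⟩
    · show ((mrgS^[k] (Q, List.range M)).1).tail = _
      rw [ih.1, List.tail_drop]
    · show (mst _ _ _).length = M
      rw [mst_length, ih.2.1]
    · exact mem_mst ih.2.2

theorem poly_mrg {Q : α → List (ℕ × ℕ)} {M : α → ℕ} (hQ : Poly Q) (hM : UPoly M) :
    Poly (fun x => mrg (Q x) (M x)) := by
  unfold mrg
  obtain ⟨q, hq⟩ := hQ.sz_le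
  obtain ⟨p, hp⟩ := Poly.sz_le hM
  have hML : ∀ x, M x ≤ p.eval (sz x) := by
    intro x
    have h1 := hp x
    have h2 : M x ≤ sz (List.replicate (M x) ()) := by
      generalize M x = k
      induction k with
      | zero => exact Nat.zero_le _
      | succ k ih =>
        rw [List.replicate_succ, sz_list_cons]
        omega
    omega
  refine Poly.snd (poly_iterU (F := fun _ : α => mrgS) (UPoly.length hQ) (by
      have := hM.range
      fun_prop) (poly_mrgS.comp (Poly.snd Poly.id)) (q + (p * (4 * p + 2) + 1) + 1) ?_)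
  intro x k hk
  obtain ⟨h1, h2, h3⟩ := mrgS_iter (Q x) (M x) k
  have h4 : sz (mrgS^[k] (Q x, List.range (M x))) = sz (mrgS^[k] (Q x, List.range (M x))).1 +
      sz (mrgS^[k] (Q x, List.range (M x))).2 + 1 := sz_pair _ _
  rw [h4, h1]
  have h5 := NPC.Poly.sz_drop_le (Q x) k
  have h6 := hq x
  have h7 := sz_le_length_mul (mrgS^[k] (Q x, List.range (M x))).2 (4 * M x + 1) (by
    intro y hy
    have h8 := sz_nat_le' y
    have h9 := h3 y hy
    omega)
  rw [h2] at h7
  have h8 := hML x
  simp only [Polynomial.eval_add, Polynomial.eval_mul, Polynomial.eval_ofNat, Polynomial.eval_one]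
  have h9 : M x * (4 * M x + 1 + 1) ≤ p.eval (sz x) * (4 * p.eval (sz x) + 2) :=
    Nat.mul_le_mul h8 (by omega)
  omega

theorem upoly_pow {n : α → ℕ} (hn : UPoly n) (m : ℕ) : UPoly (fun x => n x ^ m) := by
  have h := UPoly.eval hn (Polynomial.X ^ m)
  simpa using h

theorem poly_TL (t N : ℕ) (Mk : List (List ℕ)) : Poly (TL t N Mk) := by
  unfold TL
  have h1 : Poly (fun J : Inst => List.range J.1.length) := (UPoly.length (Poly.fst Poly.id)).range
  exact NPC.Poly.filter (p := fun (J : Inst) w => trB t N Mk J.2 (List.range J.1.length) w)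
    (by fun_prop) (by
      have h2 : Poly (fun q : Inst × List ℕ => List.range q.1.1.length) := h1.comp (NPC.Poly.fst NPC.Poly.id)
      fun_prop)

theorem poly_back (t N m e0 e1 bad : ℕ) (Mk : List (List ℕ)) (good : List (ℕ × List ℕ)) :
    Poly (back t N m e0 e1 bad Mk good) := by
  have h1 : Poly (fun J : Inst => List.range J.1.length) := (UPoly.length (Poly.fst Poly.id)).range
  have h2 := poly_TL t N Mk
  have h3 : Poly (okI [2] []) := poly_okI [2] []
  have h4 : Poly (okG t) := by
    unfold okG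
    fun_prop
  have h5 : UPoly (fun J : Inst => J.1.length ^ m) := upoly_pow (UPoly.length (Poly.fst Poly.id)) m
  have h5' : Poly (fun J : Inst => List.replicate (J.1.length ^ m) ()) := h5
  have h6 : Poly (repsOf t N m e0 e1 Mk) := by
    unfold repsOf
    refine poly_mrg ?_ h5
    fun_prop
  have h7 : Poly (fun J : Inst => (TL t N Mk J).flatMap (newE m good J.1.length
      (repsOf t N m e0 e1 Mk J))) := by
    unfold newE
    fun_prop
  have h8 : Poly (fun J => bif okG t J then (List.replicate (J.1.length ^ m) (),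
    (TL t N Mk J).flatMap (newE m good J.1.length (repsOf t N m e0 e1 Mk J)))
    else (([], [(bad, [])]) : Inst)) := by fun_prop
  refine h8.congr fun J => ?_
  unfold back
  cases okG t J <;> rfl

end poly

end Pool.Agent.H725.UG
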