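import Pool.Agent.H725.UG.Hom

/-!
# The structure is finitely bounded
-/

set_option autoImplicit false

namespace Pool.Agent.H725.UG

open Function Pool.Agent.W994.AR
open Pool.Agent.E8helper92.BP (blk blk_mk mk_blk lar mk_two)
open Pool.Agent.E8helper92.BP renaming mk → bmk

namespace Dat

variable {S : Sp} {σ : Type} {ar : σ → ℕ} {X Y : Type}

theorem GOk.congr {D D' : Dat S X} (h : D.GOk) (h1 : D.E = D'.E) (h2 : D.P = D'.P) (h3 : D.L = D'.L) :
    D'.GOk := by
  obtain ⟨_, _, _, _⟩ := D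
  obtain ⟨_, _, _, _⟩ := D'
  simp only at h1 h2 h3
  subst h1 h2 h3
  exact ⟨h.symm, h.irr, h.p0, h.l0, h.r1, h.r2⟩

/-- the rules for the graph part are local -/
theorem gok_local {G : Dat S X} [DecidableEq X] (h : ∀ T : Finset X, T.card ≤ S.t + 3 →
    (G.pull (Subtype.val : {x // x ∈ T} → X)).GOk) : G.GOk := by
  have key : ∀ (K : Fin S.t → X) (a b c : X), ∃ T : Finset X, T.card ≤ S.t + 3 ∧ (∀ i, K i ∈ T) ∧
      a ∈ T ∧ b ∈ T ∧ c ∈ T := by
    intro K a b c
    refine ⟨Finset.univ.image K ∪ {a, b, c}, ?_, ?_, ?_, ?_, ?_⟩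
    · refine (Finset.card_union_le _ _).trans ?_
      have h1 : (Finset.univ.image K).card ≤ S.t := by
        refine Finset.card_image_le.trans ?_
        simp
      have h2 : ({a, b, c} : Finset X).card ≤ 3 := Finset.card_le_three
      omega
    · intro i
      exact Finset.mem_union_left _ (Finset.mem_image_of_mem _ (Finset.mem_univ i))
    · simp
    · simp
    · simp
  constructor
  · intro a b hab
    obtain ⟨T, hT, -, ha, hb, -⟩ := key (fun _ => a) a b a
    exact (h T hT).symm ⟨a, ha⟩ ⟨b, hb⟩ hab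
  · intro a
    obtain ⟨T, hT, -, ha, -, -⟩ := key (fun _ => a) a a a
    exact (h T hT).irr ⟨a, ha⟩
  · intro K a c hP
    obtain ⟨T, hT, hK, ha, hc, -⟩ := key K a c a
    obtain ⟨h1, h2, h3, h4, h5⟩ := (h T hT).p0 (fun i => ⟨K i, hK i⟩) ⟨a, ha⟩ ⟨c, hc⟩ hP
    exact ⟨h1, h2, fun h => h3 (Subtype.ext h), h4, h5⟩
  · intro K hL
    obtain ⟨T, hT, hK, -⟩ := key K (K ⟨0, S.ht⟩) (K ⟨0, S.ht⟩) (K ⟨0, S.ht⟩)
    exact (h T hT).l0 (fun i => ⟨K i, hK i⟩) hL
  · intro K a b c h1 h2 h3 h4 h5 h6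
    obtain ⟨T, hT, hK, ha, hb, hc⟩ := key K a b c
    exact (h T hT).r1 (fun i => ⟨K i, hK i⟩) ⟨a, ha⟩ ⟨b, hb⟩ ⟨c, hc⟩ h1 h2 h3 h4 h5
      (fun h => h6 (congrArg Subtype.val h))
  · intro K a c d h1 h2 h3 h4
    obtain ⟨T, hT, hK, ha, hb, hc⟩ := key K a c d
    exact (h T hT).r2 (fun i => ⟨K i, hK i⟩) ⟨a, ha⟩ ⟨c, hb⟩ ⟨d, hc⟩ h1 h2 h3 h4

theorem str_finitelyBounded [Finite σ] {D : Dat S ℕ} (hD : D.Ok) (hE : D.Ext) {𝔹 : Str σ ar S.A}
    (hB : Homogeneous 𝔹) (hF : FinitelyBounded 𝔹)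
    (hW : ∀ α ∈ autGroup 𝔹, ∀ z ∈ S.W, (fun j => α (z j)) ∈ S.W) :
    FinitelyBounded (D.str 𝔹) := by
  classical
  have := Fintype.ofFinite σ
  have hm : 0 < S.m := by have := S.hm; omega
  obtain ⟨N, hN, hNB⟩ := hF
  obtain ⟨K0, hK0⟩ : ∃ K' : ℕ, ∀ Y ∈ N, Y.1 ≤ K' := by
    obtain ⟨K', hK'⟩ := (hN.image (fun Y => Y.1)).bddAbove
    exact ⟨K', fun Y hY => hK' ⟨Y, hY, rfl⟩⟩
  let K1 : ℕ := Finset.univ.sup ar
  have hK1 : ∀ j, ar j ≤ K1 := fun j => Finset.le_sup (f := ar) (Finset.mem_univ j)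
  let R : ℕ := 3 + 2 * K1 + K0 + S.Nb + (S.t + 3)
  let K : ℕ := R * S.m
  have hRK : R ≤ K := Nat.le_mul_of_pos_right _ hm
  have hfinK : {Y : Σ n : ℕ, Str (Sg σ) (sar S ar) (Fin n) | Y.1 ≤ K}.Finite := by
    have h1 : {Y : Σ n : ℕ, Str (Sg σ) (sar S ar) (Fin n) | Y.1 ≤ K} ⊆
        ⋃ n ∈ Set.Iic K, Set.range (fun Z : Str (Sg σ) (sar S ar) (Fin n) =>
          (⟨n, Z⟩ : Σ n : ℕ, Str (Sg σ) (sar S ar) (Fin n))) := by
      rintro ⟨n, Z⟩ hZ
      simp only [Set.mem_iUnion]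
      exact ⟨n, hZ, Z, rfl⟩
    refine Set.Finite.subset (Set.Finite.biUnion (Set.finite_Iic K) (fun n _ => ?_)) h1
    have := finite_str (σ := Sg σ) (sar S ar) n
    exact Set.finite_range _
  refine ⟨{Y | Y.1 ≤ K ∧ ¬ Embeds Y.2 (D.str 𝔹)}, hfinK.subset (fun Y hY => hY.1), ?_⟩
  intro n 𝕏
  constructor
  · intro hX Y hY hYX
    exact hY.2 (hYX.trans hX)
  intro hX
  -- small substructures embed
  have hloc0 : ∀ T : Finset (Fin n), T.card ≤ K → ∃ e : Fin n → ℕ,
      (∀ x ∈ T, ∀ y ∈ T, e x = e y → x = y) ∧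
      ∀ i (v : Fin (sar S ar i) → Fin n), (∀ j, v j ∈ T) →
        (v ∈ 𝕏 i ↔ (fun j => e (v j)) ∈ D.str 𝔹 i) := by
    intro T hT
    let ε : Fin T.card ≃ T := T.equivFin.symm
    let Y : Str (Sg σ) (sar S ar) (Fin T.card) := fun i => {v | (fun j => (ε (v j) : Fin n)) ∈ 𝕏 i}
    have hY : Embeds Y (D.str 𝔹) := by
      by_contra hcon
      exact hX ⟨T.card, Y⟩ ⟨hT, hcon⟩ ⟨fun x => (ε x : Fin n),
        Subtype.val_injective.comp ε.injective, fun i v => Iff.rfl⟩
    obtain ⟨e', he', h'⟩ := hY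
    refine ⟨fun x => if hx : x ∈ T then e' (ε.symm ⟨x, hx⟩) else 0, ?_, ?_⟩
    · intro x hx y hy hxy
      simp only [dif_pos hx, dif_pos hy] at hxy
      have := ε.symm.injective (he' hxy)
      exact congrArg Subtype.val this
    · intro i v hv
      have h1 := h' i (fun j => ε.symm ⟨v j, hv j⟩)
      have h2 : (fun j => (ε (ε.symm ⟨v j, hv j⟩) : Fin n)) = v := by
        funext j
        rw [Equiv.apply_symm_apply]
      have h3 : (fun j => if hx : v j ∈ T then e' (ε.symm ⟨v j, hx⟩) else 0) =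
          fun j => e' (ε.symm ⟨v j, hv j⟩) := by
        funext j
        rw [dif_pos (hv j)]
      rw [h3]
      rw [← h1]
      show v ∈ 𝕏 i ↔ (fun j => (ε (ε.symm ⟨v j, hv j⟩) : Fin n)) ∈ 𝕏 i
      rw [h2]
  let XE : Set (Fin 2 → Fin n) := 𝕏 .e
  let XP : Set (Fin (S.t + 2) → Fin n) := 𝕏 .p
  let XL : Set (Fin S.t → Fin n) := 𝕏 .l
  let X0 : Set (Fin (2 * S.m) → Fin n) := 𝕏 (.lb none)
  let X1 : ∀ i, Set (Fin (ar i * S.m) → Fin n) := fun i => 𝕏 (.lb (some i))
  -- the graph part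
  let G : Dat S (Fin n) := {
    E := fun a b => ![a, b] ∈ XE
    P := fun K a c => Fin.append K ![a, c] ∈ XP
    L := fun K => K ∈ XL
    lab := fun _ => S.a₀ }
  -- local embeddings preserve the graph part, and the relations between labels
  have hloc1 : ∀ T : Finset (Fin n), T.card ≤ K → ∃ e : Fin n → ℕ,
      (∀ x ∈ T, ∀ y ∈ T, e x = e y → x = y) ∧
      (∀ a ∈ T, ∀ b ∈ T, G.E a b ↔ D.E (e a) (e b)) ∧
      (∀ K a b, (∀ i, K i ∈ T) → a ∈ T → b ∈ T → (G.P K a b ↔ D.P (fun i => e (K i)) (e a) (e b))) ∧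
      (∀ K, (∀ i, K i ∈ T) → (G.L K ↔ D.L (fun i => e (K i)))) ∧
      (∀ v : Fin (2 * S.m) → Fin n, (∀ x, v x ∈ T) → (v ∈ X0 ↔ (fun j => e (v j)) ∈ D.relQ)) ∧
      ∀ i (v : Fin (ar i * S.m) → Fin n), (∀ x, v x ∈ T) →
        (v ∈ X1 i ↔ (fun j => e (v j)) ∈ D.relR (𝔹 i)) := by
    intro T hT
    obtain ⟨e, he1, he2⟩ := hloc0 T hT
    refine ⟨e, he1, ?_, ?_, ?_, ?_, ?_⟩
    · intro a ha b hb
      exact he2 .e ![a, b] (by
        intro j
        fin_cases j
        · exact ha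
        · exact hb)
    · intro K a b hK ha hb
      have h1 := he2 .p (Fin.append K ![a, b]) (by
        intro j
        refine Fin.addCases (fun i => ?_) (fun i => ?_) j
        · rw [Fin.append_left]
          exact hK i
        · rw [Fin.append_right]
          fin_cases i
          · exact ha
          · exact hb)
      have e2 : (fun j => e (Fin.append K ![a, b] j)) ∈ D.str 𝔹 .p ↔
          D.P (fun i => e (K i)) (e a) (e b) := by
        show D.P (fun i => e (Fin.append K ![a, b] (Fin.castAdd 2 i)))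
          (e (Fin.append K ![a, b] (Fin.natAdd S.t 0))) (e (Fin.append K ![a, b] (Fin.natAdd S.t 1))) ↔ _
        simp only [Fin.append_left, Fin.append_right]
        exact Iff.rfl
      exact h1.trans e2
    · intro K hK
      exact he2 .l K hK
    · intro v hv
      exact he2 (.lb none) v hv
    · intro i v hv
      exact he2 (.lb (some i)) v hv
  have hG : G.GOk := by
    apply gok_local
    intro T hT
    obtain ⟨e, he1, he2, he3, he4, -, -⟩ := hloc1 T (by
      have : S.t + 3 ≤ R := by simp only [R]; omega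
      omega)
    have h1 : (D.pull (fun x : {x // x ∈ T} => e x.1)).GOk := hD.toGOk.pull (by
      intro x y hxy
      exact Subtype.ext (he1 _ x.2 _ y.2 hxy))
    refine h1.congr ?_ ?_ ?_
    · funext a b
      exact propext (he2 _ a.2 _ b.2).symm
    · funext K a b
      exact propext (he3 _ _ _ (fun i => (K i).2) a.2 b.2).symm
    · funext K
      exact propext (he4 _ (fun i => (K i).2)).symm
  -- families of `m`-tuples
  have hloc2 : ∀ T : Finset (Fin n), T.card ≤ K → ∃ e : Fin n → ℕ,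
      (∀ K, (∀ i, K i ∈ T) → (G.L K ↔ D.L (fun i => e (K i)))) ∧
      (∀ (r : ℕ) (v : Fin r → Fin n), (∀ i, v i ∈ T) → (G.Clq v ↔ D.Clq (fun i => e (v i)))) ∧
      (∀ v w : Fin S.m → Fin n, (∀ i, v i ∈ T) → (∀ i, w i ∈ T) → (bmk ![v, w] ∈ X0 ↔
        D.Clq (fun a => e (v a)) ∧ D.Clq (fun a => e (w a)) ∧
          D.lab (fun a => e (v a)) = D.lab (fun a => e (w a)))) ∧
      ∀ i (u : Fin (ar i) → Fin S.m → Fin n), (∀ j a, u j a ∈ T) → (bmk u ∈ X1 i ↔
        (∀ j, D.Clq (fun a => e (u j a))) ∧ (fun j => D.lab (fun a => e (u j a))) ∈ 𝔹 i) := by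
    intro T hT
    obtain ⟨e, he1, he2, he3, he4, he5, he6⟩ := hloc1 T hT
    refine ⟨e, he4, ?_, ?_, ?_⟩
    · intro r v hv
      exact forall_congr' fun i => forall_congr' fun j => imp_congr_right fun _ =>
        he2 _ (hv i) _ (hv j)
    · intro v w hv hw
      rw [he5 (bmk ![v, w]) (by
        intro x
        show (![v, w] _ _) ∈ T
        generalize (finProdFinEquiv.symm x).1 = y
        fin_cases y
        · exact hv _
        · exact hw _)]
      rw [mk_pair]
      exact mem_relQ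
    · intro i u hu
      rw [he6 i (bmk u) (fun x => hu _ _)]
      exact mem_relR (D := D) (fun j a => e (u j a))
  have hlocT : ∀ (r : ℕ) (u : Fin r → Fin S.m → Fin n), r ≤ R → ∃ e : Fin n → ℕ,
      (∀ j, G.Clq (u j) ↔ D.Clq (fun a => e (u j a))) ∧
      (∀ j j', bmk ![u j, u j'] ∈ X0 ↔
        D.Clq (fun a => e (u j a)) ∧ D.Clq (fun a => e (u j' a)) ∧
          D.lab (fun a => e (u j a)) = D.lab (fun a => e (u j' a))) ∧
      ∀ i (s : Fin (ar i) → Fin r), (bmk (fun j => u (s j)) ∈ X1 i ↔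
        (∀ j, D.Clq (fun a => e (u (s j) a))) ∧ (fun j => D.lab (fun a => e (u (s j) a))) ∈ 𝔹 i) := by
    intro r u hr
    let T : Finset (Fin n) := Finset.univ.image (fun x : Fin r × Fin S.m => u x.1 x.2)
    have hT : T.card ≤ K := by
      refine (Finset.card_image_le).trans ?_
      rw [Finset.card_univ, Fintype.card_prod, Fintype.card_fin, Fintype.card_fin]
      exact Nat.mul_le_mul_right S.m hr
    obtain ⟨e, -, he2, he3, he4⟩ := hloc2 T hT
    have hmem : ∀ j a, u j a ∈ T := fun j a =>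
      Finset.mem_image.2 ⟨(j, a), Finset.mem_univ _, rfl⟩
    exact ⟨e, fun j => he2 _ (u j) (hmem j), fun j j' => he3 _ _ (hmem j) (hmem j'),
      fun i s => he4 i (fun j => u (s j)) (fun j => hmem (s j))⟩
  have hblk0 : ∀ (w : Fin (2 * S.m) → Fin n), w ∈ X0 → ∀ j, G.Clq (blk w j) := by
    intro w hw
    obtain ⟨e, he1, he2, -⟩ := hlocT 2 (blk w) (by simp only [R]; omega)
    have h1 := (he2 0 1).1 (by rw [mk_two]; exact hw)
    intro j
    rw [he1]
    fin_cases j
    · exact h1.1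
    · exact h1.2.1
  have hblk1 : ∀ i (w : Fin (ar i * S.m) → Fin n), w ∈ X1 i → ∀ j, G.Clq (blk w j) := by
    intro i w hw
    obtain ⟨e, he1, -, he2⟩ := hlocT (ar i) (blk w) (by
      have := hK1 i
      simp only [R]; omega)
    have h1 := (he2 i id).1 (by
      have h2 : bmk (fun j => blk w (id j)) = w := mk_blk w
      rw [h2]
      exact hw)
    intro j
    rw [he1]
    exact h1.1 j
  let T := {v : Fin S.m → Fin n // G.Clq v}
  -- the equivalence relation
  let Se : Setoid T := {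
    r := fun v w => bmk ![v.1, w.1] ∈ X0
    iseqv := by
      constructor
      · intro v
        obtain ⟨e, h1, he, -⟩ := hlocT 1 (fun _ => v.1) (by simp only [R]; omega)
        exact (he 0 0).2 ⟨(h1 0).1 v.2, (h1 0).1 v.2, rfl⟩
      · intro v w h
        obtain ⟨e, -, he, -⟩ := hlocT 2 ![v.1, w.1] (by simp only [R]; omega)
        have h1 := (he 0 1).1 h
        exact (he 1 0).2 ⟨h1.2.1, h1.1, h1.2.2.symm⟩
      · intro v w z h h'
        obtain ⟨e, -, he, -⟩ := hlocT 3 ![v.1, w.1, z.1] (by simp only [R]; omega)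
        have h1 := (he 0 1).1 h
        have h2 := (he 1 2).1 h'
        exact (he 0 2).2 ⟨h1.1, h2.2.1, h1.2.2.trans h2.2.2⟩ }
  let Q := Quotient Se
  have hQfin : Finite Q := inferInstance
  -- invariance of the relations
  have hinv : ∀ i (u u' : Fin (ar i) → T), (∀ j, Se.r (u j) (u' j)) →
      bmk (fun j => (u j).1) ∈ X1 i → bmk (fun j => (u' j).1) ∈ X1 i := by
    intro i u u' h h1
    obtain ⟨e, he0, he, he'⟩ := hlocT (ar i + ar i) (Fin.append (fun j => (u j).1) (fun j => (u' j).1)) (by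
      have := hK1 i
      simp only [R]; omega)
    have a1 := he' i (fun j => Fin.castAdd _ j)
    have a2 := he' i (fun j => Fin.natAdd _ j)
    simp only [Fin.append_left] at a1
    simp only [Fin.append_right] at a2
    rw [a2]
    rw [a1] at h1
    have h2 : ∀ j, D.Clq (fun a => e ((u j).1 a)) ∧ D.Clq (fun a => e ((u' j).1 a)) ∧
        D.lab (fun a => e ((u j).1 a)) = D.lab (fun a => e ((u' j).1 a)) := by
      intro j
      have h2 := he (Fin.castAdd _ j) (Fin.natAdd _ j)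
      simp only [Fin.append_left, Fin.append_right] at h2
      exact h2.1 (h j)
    refine ⟨fun j => (h2 j).2.1, ?_⟩
    have h3 : (fun j => D.lab (fun a => e ((u' j).1 a))) = fun j => D.lab (fun a => e ((u j).1 a)) :=
      funext fun j => (h2 j).2.2.symm
    rw [h3]
    exact h1.2
  let ℚ' : Str σ ar Q := fun i => {z | bmk (fun j => ((z j).out).1) ∈ X1 i}
  have hℚ : ∀ i (u : Fin (ar i) → T), (fun j => (Quotient.mk Se (u j))) ∈ ℚ' i ↔
      bmk (fun j => (u j).1) ∈ X1 i := by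
    intro i u
    have h1 : ∀ j, Se.r ((Quotient.mk Se (u j)).out) (u j) := fun j => Quotient.mk_out (u j)
    exact ⟨hinv i _ _ h1, hinv i _ _ (fun j => Se.iseqv.symm (h1 j))⟩
  -- families of classes
  have hcls : ∀ (r : ℕ) (u : Fin r → T) (e : Fin n → ℕ),
      (∀ j, D.Clq (fun a => e ((u j).1 a))) →
      (∀ j j', bmk ![(u j).1, (u j').1] ∈ X0 ↔
        D.Clq (fun a => e ((u j).1 a)) ∧ D.Clq (fun a => e ((u j').1 a)) ∧
          D.lab (fun a => e ((u j).1 a)) = D.lab (fun a => e ((u j').1 a))) →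
      (∀ i (s : Fin (ar i) → Fin r), (bmk (fun j => (u (s j)).1) ∈ X1 i ↔
        (∀ j, D.Clq (fun a => e ((u (s j)).1 a))) ∧
          (fun j => D.lab (fun a => e ((u (s j)).1 a))) ∈ 𝔹 i)) →
      (∀ j j', (Quotient.mk Se (u j) = Quotient.mk Se (u j') ↔
        D.lab (fun a => e ((u j).1 a)) = D.lab (fun a => e ((u j').1 a)))) ∧
      ∀ i (s : Fin (ar i) → Fin r), ((fun j => Quotient.mk Se (u (s j))) ∈ ℚ' i ↔
          (fun j => D.lab (fun a => e ((u (s j)).1 a))) ∈ 𝔹 i) := by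
    intro r u e h0 h1 h2
    refine ⟨fun j j' => ?_, fun i s => ?_⟩
    · constructor
      · intro h
        exact ((h1 j j').1 (Quotient.exact h)).2.2
      · intro h
        exact Quotient.sound ((h1 j j').2 ⟨h0 j, h0 j', h⟩)
    · rw [hℚ i (fun j => u (s j)), h2]
      exact ⟨fun h => h.2, fun h => ⟨fun j => h0 (s j), h⟩⟩
  have hemb : Embeds ℚ' 𝔹 := by
    obtain ⟨k, ⟨ε⟩⟩ := Finite.exists_equiv_fin Q
    let Y : Str σ ar (Fin k) := fun i => {v | (fun j => ε.symm (v j)) ∈ ℚ' i}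
    have h1 : Embeds ℚ' Y := by
      refine ⟨ε, ε.injective, fun i v => ?_⟩
      show _ ↔ (fun j => ε.symm (ε (v j))) ∈ ℚ' i
      simp
    refine h1.trans ?_
    rw [hNB]
    intro Z hZ hZY
    have h2 : Embeds Z.2 ℚ' := hZY.trans ⟨ε.symm, ε.symm.injective, fun i v => Iff.rfl⟩
    obtain ⟨q, hq, hq'⟩ := h2
    obtain ⟨e, he1, he2, he3⟩ := hlocT Z.1 (fun y => (q y).out.1) (by
      have := hK0 Z hZ
      simp only [R]; omega)
    obtain ⟨hc1, hc2⟩ := hcls Z.1 (fun y => (q y).out) e (fun j => (he1 j).1 (q j).out.2) he2 he3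
    refine (hNB Z.1 Z.2).1 ⟨fun y => D.lab (fun a => e ((q y).out.1 a)), ?_, ?_⟩ Z hZ
      ⟨id, injective_id, fun i v => Iff.rfl⟩
    · intro y y' h
      apply hq
      have h4 := (hc1 y y').2 h
      simpa using h4
    · intro i v
      rw [hq' i v]
      have h5 := hc2 i v
      simp only [Quotient.out_eq] at h5
      exact h5
  obtain ⟨ε, hε, hε'⟩ := hemb
  -- the structure with labels
  let Q' : Dat S (Fin n) := {
    E := G.E
    P := G.P
    L := G.L
    lab := fun v => if h : G.Clq v then ε (Quotient.mk Se ⟨v, h⟩) else S.a₀ }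
  have hQC : ∀ {r : ℕ} (v : Fin r → Fin n), Q'.Clq v ↔ G.Clq v := fun v => Iff.rfl
  have hQlab : ∀ (v : Fin S.m → Fin n) (h : G.Clq v), Q'.lab v = ε (Quotient.mk Se ⟨v, h⟩) :=
    fun v h => dif_pos h
  have hQok : Q'.Ok := by
    have hg : Q'.GOk := hG.congr rfl rfl rfl
    refine { toGOk := hg, n0 := fun v hv => dif_neg hv, tr := ?_ }
    intro w hw
    have hwb : ∀ j, G.Clq (blk w j) := by
      intro j a b hab
      apply hw.1
      intro h
      exact hab (congrArg Prod.snd (finProdFinEquiv.injective h))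
    let T' : Finset (Fin n) := Finset.univ.image w
    have hT' : T'.card ≤ K := by
      refine (Finset.card_image_le).trans ?_
      rw [Finset.card_univ, Fintype.card_fin]
      apply Nat.mul_le_mul_right
      simp only [R]
      omega
    have hmem : ∀ x, w x ∈ T' := fun x => Finset.mem_image_of_mem _ (Finset.mem_univ x)
    obtain ⟨e, heL, heC, he2, he3⟩ := hloc2 T' hT'
    have htr : D.Trig (fun x => e (w x)) := by
      refine ⟨(heC _ w hmem).1 hw.1, ?_⟩
      intro κ hκ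
      exact (heL _ (fun i => hmem _)).1 (hw.2 κ hκ)
    have h1 := hD.tr _ htr
    have hcl : ∀ j, D.Clq (fun a => e (blk w j a)) := fun j =>
      (heC _ (blk w j) (fun a => hmem _)).1 (hwb j)
    obtain ⟨hc1, hc2⟩ := hcls S.Nb (fun j => ⟨blk w j, hwb j⟩) e hcl
      (fun j j' => he2 _ _ (fun a => hmem _) (fun a => hmem _))
      (fun i s => he3 i (fun j => blk w (s j)) (fun j a => hmem _))
    obtain ⟨α, hα, hαv⟩ := hom_same hB (V := Fin S.Nb) (fun j => D.lab (fun a => e (blk w j a)))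
      (fun j => ε (Quotient.mk Se ⟨blk w j, hwb j⟩)) (by
        intro j j'
        rw [hε.eq_iff, hc1]) (by
        intro i s
        have h2 := hε' i (fun j => Quotient.mk Se ⟨blk w (s j), hwb (s j)⟩)
        exact (hc2 i s).symm.trans h2)
    have h3 := hW α hα _ h1
    have h4 : (fun j => Q'.lab (blk w j)) = fun j => α (D.lab (blk (fun x => e (w x)) j)) := by
      funext j
      rw [hQlab _ (hwb j)]
      exact (hαv j).symm
    rw [h4]
    exact h3
  obtain ⟨e, he, -, hpull⟩ := hE.embed hQok ∅ (good_empty Q' D)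
  have hEe : ∀ a b, D.E (e a) (e b) ↔ G.E a b := fun a b =>
    iff_of_eq (congrFun (congrFun (congrArg Dat.E hpull) a) b)
  have hPe : ∀ K a b, D.P (fun i => e (K i)) (e a) (e b) ↔ G.P K a b := fun K a b =>
    iff_of_eq (congrFun (congrFun (congrFun (congrArg Dat.P hpull) K) a) b)
  have hLe : ∀ K, D.L (fun i => e (K i)) ↔ G.L K := fun K =>
    iff_of_eq (congrFun (congrArg Dat.L hpull) K)
  have hCe : ∀ {r : ℕ} (v : Fin r → Fin n), D.Clq (fun i => e (v i)) ↔ G.Clq v := fun v =>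
    forall_congr' fun i => forall_congr' fun j => imp_congr_right fun _ => hEe _ _
  have hlabe : ∀ (v : Fin S.m → Fin n) (h : G.Clq v), D.lab (fun i => e (v i)) =
      ε (Quotient.mk Se ⟨v, h⟩) := by
    intro v h
    rw [← hQlab v h]
    exact congrFun (congrArg Dat.lab hpull) v
  have final0 : ∀ w : Fin (2 * S.m) → Fin n, w ∈ X0 ↔ (fun j => e (w j)) ∈ D.relQ := by
    intro w
    constructor
    · intro hw
      have h1 := hblk0 w hw
      refine ⟨fun j => (hCe _).2 (h1 j), ?_⟩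
      show D.lab (fun a => e (blk w 0 a)) = D.lab (fun a => e (blk w 1 a))
      rw [hlabe _ (h1 0), hlabe _ (h1 1)]
      congr 1
      apply Quotient.sound
      show bmk ![blk w 0, blk w 1] ∈ X0
      rw [mk_two]
      exact hw
    · rintro ⟨h1, h2⟩
      have h1' : ∀ j, G.Clq (blk w j) := fun j => (hCe _).1 (h1 j)
      change D.lab (fun a => e (blk w 0 a)) = D.lab (fun a => e (blk w 1 a)) at h2
      rw [hlabe _ (h1' 0), hlabe _ (h1' 1)] at h2
      have h3 := Quotient.exact (hε h2)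
      have h4 : bmk ![blk w 0, blk w 1] ∈ X0 := h3
      rw [mk_two] at h4
      exact h4
  have final1 : ∀ i (w : Fin (ar i * S.m) → Fin n), w ∈ X1 i ↔
      (fun j => e (w j)) ∈ D.relR (𝔹 i) := by
    intro i w
    have key : ∀ h1' : ∀ j, G.Clq (blk w j),
        ((fun j => D.lab (fun a => e (blk w j a))) ∈ 𝔹 i ↔ w ∈ X1 i) := by
      intro h1'
      have h3 : (fun j => D.lab (fun a => e (blk w j a))) =
          fun j => ε (Quotient.mk Se ⟨blk w j, h1' j⟩) := funext fun j => hlabe _ (h1' j)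
      rw [h3]
      rw [← hε' i (fun j => Quotient.mk Se ⟨blk w j, h1' j⟩)]
      rw [hℚ i (fun j => ⟨blk w j, h1' j⟩)]
      simp only
      have h4 : bmk (fun j => blk w j) = w := mk_blk w
      rw [h4]
    constructor
    · intro hw
      have h1 := hblk1 i w hw
      refine ⟨fun j => (hCe _).2 (h1 j), ?_⟩
      exact (key h1).2 hw
    · rintro ⟨h1, h2⟩
      have h1' : ∀ j, G.Clq (blk w j) := fun j => (hCe _).1 (h1 j)
      exact (key h1').1 h2
  have finalE : ∀ w : Fin 2 → Fin n, w ∈ XE ↔ D.E (e (w 0)) (e (w 1)) := by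
    intro w
    rw [hEe]
    show w ∈ XE ↔ ![w 0, w 1] ∈ XE
    have h1 : ![w 0, w 1] = w := by
      funext j
      fin_cases j <;> rfl
    rw [h1]
  have finalP : ∀ w : Fin (S.t + 2) → Fin n, w ∈ XP ↔ D.P (fun i => e (w (Fin.castAdd 2 i)))
      (e (w (Fin.natAdd S.t 0))) (e (w (Fin.natAdd S.t 1))) := by
    intro w
    rw [hPe]
    show w ∈ XP ↔ Fin.append (fun i => w (Fin.castAdd 2 i)) ![w (Fin.natAdd S.t 0),
      w (Fin.natAdd S.t 1)] ∈ XP
    have h1 : Fin.append (fun i => w (Fin.castAdd 2 i)) ![w (Fin.natAdd S.t 0),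
        w (Fin.natAdd S.t 1)] = w := by
      funext j
      refine Fin.addCases (fun i => ?_) (fun i => ?_) j
      · rw [Fin.append_left]
      · rw [Fin.append_right]
        fin_cases i <;> rfl
    rw [h1]
  refine ⟨e, he, ?_⟩
  rintro (_ | _ | _ | _ | i) w
  · exact finalE w
  · exact finalP w
  · exact (hLe w).symm
  · exact final0 w
  · exact final1 i w

end Dat

end Pool.Agent.H725.UG
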