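import Pool.Agent.H725.UG.K3
import Pool.Agent.H725.UG.FB

/-!
# Homomorphisms can be replaced by embeddings; injective polymorphisms
-/

set_option autoImplicit false

namespace Pool.Agent.H725.UG

open Function Pool.Agent.W994.AR
open Pool.Agent.E8helper92.BP (blk)

namespace Dat

variable {S : Sp} {X Y : Type}

/-- links in a graph -/
def flk (R : X → X → Prop) (K : Fin S.t → X) (a : X) : Prop :=
  (∀ i j, i ≠ j → R (K i) (K j)) ∧ ∀ i, R (K i) a

/-- paths of length two in links -/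
def fpa (R : X → X → Prop) (K : Fin S.t → X) (a c : X) : Prop :=
  flk R K a ∧ flk R K c ∧ a ≠ c ∧ ∃ b, flk R K b ∧ R a b ∧ R b c

/-- the structure generated by a graph -/
def free (S : Sp) (R : X → X → Prop) : Dat S X where
  E := R
  P := fpa R
  L K := ∃ a c d, fpa R K a c ∧ R c d ∧ flk R K d ∧ fpa R K d a
  lab _ := S.a₀

theorem free_whom {D : Dat S Y} (hD : D.GOk) {R : X → X → Prop} {φ : X → Y}
    (hφ : ∀ x y, R x y → D.E (φ x) (φ y)) : WHom (free S R) D φ := by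
  have hlk : ∀ K a, flk (S := S) R K a → D.Lk (fun i => φ (K i)) (φ a) := fun K a h =>
    ⟨fun i j hij => hφ _ _ (h.1 i j hij), fun i => hφ _ _ (h.2 i)⟩
  have hpa : ∀ K a c, fpa (S := S) R K a c → D.Pw (fun i => φ (K i)) (φ a) (φ c) := by
    rintro K a c ⟨h1, h2, -, b, h3, h4, h5⟩
    exact hD.r1w (hlk _ _ h1) (hlk _ _ h3) (hlk _ _ h2) (hφ _ _ h4) (hφ _ _ h5)
  refine ⟨hφ, hpa, ?_⟩
  rintro K ⟨a, c, d, h1, h2, h3, h4⟩
  exact hD.r2w (hpa _ _ _ h1) (hφ _ _ h2) (hlk _ _ h3) (hpa _ _ _ h4)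

theorem free_ok {D : Dat S Y} (hD : D.GOk) {R : X → X → Prop} (hR : ∀ x y, R x y → R y x)
    {φ : X → Y} (hφ : ∀ x y, R x y → D.E (φ x) (φ y)) : (free S R).GOk where
  symm := hR
  irr a h := hD.irr _ (hφ _ _ h)
  p0 K a c h := by
    refine ⟨h.1, h.2.1, h.2.2.1, ?_, h.2.1, h.1, h.2.2.1.symm, ?_⟩
    · intro h1
      exact hD.pw_not ((free_whom hD hφ).p _ _ _ h) (hφ _ _ h1)
    · obtain ⟨-, -, -, b, h3, h4, h5⟩ := h
      exact ⟨b, h3, hR _ _ h5, hR _ _ h4⟩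
  l0 K h := by
    obtain ⟨a, c, d, -, -, h, -⟩ := h
    exact h.1
  r1 K a b c h1 h2 h3 h4 h5 h6 := ⟨h1, h3, h6, b, h2, h4, h5⟩
  r2 K a c d h1 h2 h3 h4 := ⟨a, c, d, h1, h2, h3, h4⟩

/-- every countable graph with a homomorphism to the generic graph embeds as an induced subgraph -/
theorem hom_embed {D : Dat S ℕ} (hD : D.Ok) (hE : D.Ext) [Countable X] {R : X → X → Prop}
    (hR : ∀ x y, R x y → R y x) {φ : X → ℕ} (hφ : ∀ x y, R x y → D.E (φ x) (φ y)) :
    ∃ e : X → ℕ, Injective e ∧ ∀ x y, R x y ↔ D.E (e x) (e y) := by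
  have hQ : ((free S R).withLab (fun v => D.lab (fun i => φ (v i)))).Ok :=
    withLab_ok (free_ok hD.toGOk hR hφ) (fun w hw => hD.tr _ ((free_whom hD.toGOk hφ).trig hw))
  obtain ⟨e, he, -, h⟩ := hE.embed hQ ∅ (good_empty _ D)
  exact ⟨e, he, fun x y => (iff_of_eq (congrFun (congrFun (congrArg Dat.E h) x) y)).symm⟩

/-- there are no large cliques -/
theorem no_large_clique {D : Dat S ℕ} (hD : D.GOk) (u : Fin (S.t + 3) → ℕ) :
    ∃ a b, a ≠ b ∧ ¬ D.E (u a) (u b) := by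
  by_contra hcon
  push Not at hcon
  have h1 : ∀ j : Fin 3, D.Lk (fun i => u (Fin.castAdd 3 i)) (u (Fin.natAdd S.t j)) := by
    intro j
    refine ⟨fun i i' h => hcon _ _ (fun e => h (Fin.castAdd_injective _ _ e)), fun i => hcon _ _ ?_⟩
    intro e
    have := congrArg Fin.val e
    simp only [Fin.val_castAdd, Fin.val_natAdd] at this
    omega
  have h2 : ∀ j j' : Fin 3, j ≠ j' → D.E (u (Fin.natAdd S.t j)) (u (Fin.natAdd S.t j')) :=
    fun j j' h => hcon _ _ (fun e => h (Fin.natAdd_injective _ _ e))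
  have h3 := hD.r1w (h1 0) (h1 1) (h1 2) (h2 0 1 (by decide)) (h2 1 2 (by decide))
  exact hD.pw_not h3 (h2 0 2 (by decide))

/-- injective polymorphisms -/
theorem exists_pol {D : Dat S ℕ} (hD : D.Ok) (hE : D.Ext) {σ : Type} {ar : σ → ℕ}
    (𝔹 : Str σ ar S.A) {d : ℕ} (hd : 0 < d) :
    ∃ h : (Fin d → ℕ) → ℕ, Injective h ∧ IsPol (D.str 𝔹) h := by
  classical
  have : Nonempty (Fin d) := ⟨⟨0, hd⟩⟩
  have hQ : ((D.pow (Fin d)).withLab (fun v => D.lab (fun x => v x ⟨0, hd⟩))).Ok :=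
    withLab_ok (pow_ok hD.toGOk _) (fun w hw => hD.tr _ ((pow_proj D (Fin d) ⟨0, hd⟩).trig hw))
  obtain ⟨h, hh, -, hpull⟩ := hE.embed hQ ∅ (good_empty _ D)
  have hEe : ∀ a b : Fin d → ℕ, (∀ i, D.E (a i) (b i)) → D.E (h a) (h b) := fun a b hab =>
    cast (congrFun (congrFun (congrArg Dat.E hpull) a) b).symm hab
  have hPe : ∀ (K : Fin S.t → Fin d → ℕ) (a b : Fin d → ℕ), (a ≠ b ∧ ∀ i, D.Pw (fun x => K x i) (a i) (b i)) →
      D.P (fun x => h (K x)) (h a) (h b) := fun K a b hab =>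
    cast (congrFun (congrFun (congrFun (congrArg Dat.P hpull) K) a) b).symm hab
  have hLe : ∀ (K : Fin S.t → Fin d → ℕ), (∀ i, D.L (fun x => K x i)) →
      D.L (fun x => h (K x)) := fun K hab =>
    cast (congrFun (congrArg Dat.L hpull) K).symm hab
  have hCe : ∀ {r : ℕ} (v : Fin r → Fin d → ℕ), (∀ i, D.Clq (fun x => v x i)) →
      D.Clq (fun x => h (v x)) := fun v hv a b hab => hEe _ _ (fun i => hv i a b hab)
  have hlab : ∀ (v : Fin S.m → Fin d → ℕ), (∀ i, D.Clq (fun x => v x i)) →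
      D.lab (fun x => h (v x)) = D.lab (fun x => v x ⟨0, hd⟩) := by
    intro v hv
    have h1 := congrFun (congrArg Dat.lab hpull) v
    have h2 : (D.pow (Fin d)).Clq v := fun a b hab i => hv i a b hab
    exact h1.trans (if_pos h2)
  refine ⟨h, hh, ?_⟩
  have cQ : ∀ v : Fin d → Fin (2 * S.m) → ℕ, (∀ a, v a ∈ D.relQ) →
      (fun j => h (fun a => v a j)) ∈ D.relQ := by
    intro v hv
    refine ⟨fun j => hCe (fun x a => blk (v a) j x) (fun a => (hv a).1 j), ?_⟩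
    have h1 : ∀ j, D.lab (blk (fun j => h (fun a => v a j)) j) = D.lab (blk (v ⟨0, hd⟩) j) := fun j =>
      hlab (fun x a => blk (v a) j x) (fun a => (hv a).1 j)
    rw [h1, h1]
    exact (hv ⟨0, hd⟩).2
  have cR : ∀ i, ∀ v : Fin d → Fin (ar i * S.m) → ℕ, (∀ a, v a ∈ D.relR (𝔹 i)) →
      (fun j => h (fun a => v a j)) ∈ D.relR (𝔹 i) := by
    intro i v hv
    refine ⟨fun j => hCe (fun x a => blk (v a) j x) (fun a => (hv a).1 j), ?_⟩
    have h1 : (fun j => D.lab (blk (fun j => h (fun a => v a j)) j)) = fun j => D.lab (blk (v ⟨0, hd⟩) j) :=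
      funext fun j => hlab (fun x a => blk (v a) j x) (fun a => (hv a).1 j)
    rw [h1]
    exact (hv ⟨0, hd⟩).2
  rintro (_ | _ | _ | _ | i) v hv
  · exact hEe _ _ (fun a => hv a)
  · apply hPe
    refine ⟨?_, fun a => Or.inl (hv a)⟩
    intro e
    have h1 := hD.p0 _ _ _ (hv ⟨0, hd⟩)
    exact h1.2.2.1 (congrFun e ⟨0, hd⟩)
  · exact hLe _ (fun a => hv a)
  · exact cQ v hv
  · exact cR i v hv

end Dat

end Pool.Agent.H725.UG
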