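import Pool.Agent.H725.UG.BackDefs
import Pool.Agent.H725.UG.Extra

/-!
# Correctness of the reduction from the graph to the template
-/

set_option autoImplicit false

namespace Pool.Agent.H725.UG

open Function Pool.Agent.W994.AR Pool.Agent.NPC
open Pool.Agent.H593R3.FBC (Inst IsInst CSP Rels)
open Pool.Agent.E8helper92.BP (blk Blk okI okI_iff poly_okI CSPOf cspOf_iff)

theorem mem_tpl {rg : List ℕ} : ∀ {k : ℕ} {l : List ℕ}, l ∈ tpl rg k ↔ l.length = k ∧ ∀ x ∈ l, x ∈ rg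
  | 0, l => by
    constructor
    · intro h
      have : l = [] := by simpa [tpl] using h
      subst this
      simp
    · rintro ⟨h, -⟩
      have : l = [] := List.length_eq_zero_iff.1 h
      subst this
      simp [tpl]
  | k + 1, l => by
    unfold tpl
    rw [List.mem_flatMap]
    constructor
    · rintro ⟨l', h1, h2⟩
      obtain ⟨x, hx, rfl⟩ := List.mem_map.1 h2
      obtain ⟨h3, h4⟩ := mem_tpl.1 h1
      refine ⟨by simp [h3], ?_⟩
      intro y hy
      rcases List.mem_cons.1 hy with rfl | hy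
      · exact hx
      · exact h4 y hy
    · rintro ⟨h1, h2⟩
      rcases l with _ | ⟨x, l⟩
      · simp at h1
      · exact ⟨l, mem_tpl.2 ⟨by simpa using h1, fun y hy => h2 y (List.mem_cons_of_mem _ hy)⟩,
          List.mem_map.2 ⟨x, h2 x List.mem_cons_self, rfl⟩⟩

theorem ofFn_getD {r : ℕ} (w : Fin r → ℕ) {x : ℕ} (hx : x < r) : (List.ofFn w).getD x 0 = w ⟨x, hx⟩ := by
  rw [List.getD_eq_getElem?_getD, List.getElem?_ofFn, dif_pos hx]
  rfl

theorem cqB_iff {r : ℕ} {E : List (ℕ × List ℕ)} {w : Fin r → ℕ} :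
    cqB r E (List.ofFn w) = true ↔ ∀ i j, i ≠ j → adB E (w i) (w j) = true := by
  unfold cqB
  rw [List.all_eq_true]
  constructor
  · intro h i j hij
    have := h (i.1, j.1) (mem_PLof.2 ⟨i.2, j.2, fun e => hij (Fin.ext e)⟩)
    rwa [ofFn_getD w i.2, ofFn_getD w j.2] at this
  · rintro h ⟨x, y⟩ hxy
    obtain ⟨h1, h2, h3⟩ := mem_PLof.1 hxy
    simp only at h1 h2 h3
    rw [ofFn_getD w h1, ofFn_getD w h2]
    exact h _ _ (fun e => h3 (congrArg Fin.val e))

/-- adjacency as a relation -/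
def Rel (E : List (ℕ × List ℕ)) (a b : ℕ) : Prop := adB E a b = true

theorem rel_iff {E : List (ℕ × List ℕ)} {a b : ℕ} : Rel E a b ↔ (0, [a, b]) ∈ E ∨ (0, [b, a]) ∈ E := by
  unfold Rel adB
  simp

theorem rel_symm {E : List (ℕ × List ℕ)} {a b : ℕ} (h : Rel E a b) : Rel E b a := by
  rw [rel_iff] at *
  exact h.symm

section

variable {S : Sp} {E : List (ℕ × List ℕ)} {rg : List ℕ}

theorem lkB_iff {K : Fin S.t → ℕ} {a : ℕ} :
    lkB S.t E (List.ofFn K) a = true ↔ Dat.flk (S := S) (Rel E) K a := by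
  unfold lkB
  rw [Bool.and_eq_true, cqB_iff, List.all_eq_true]
  refine and_congr Iff.rfl ?_
  constructor
  · intro h i
    exact h _ (by rw [List.mem_ofFn]; exact ⟨i, rfl⟩)
  · intro h x hx
    rw [List.mem_ofFn] at hx
    obtain ⟨i, rfl⟩ := hx
    exact h i

theorem paB_iff (hrg : ∀ a b, Rel E a b → a ∈ rg) {K : Fin S.t → ℕ} {a c : ℕ} :
    paB S.t E rg (List.ofFn K) a c = true ↔ Dat.fpa (S := S) (Rel E) K a c := by
  unfold paB
  simp only [Bool.and_eq_true, lkB_iff, Bool.not_eq_true', decide_eq_false_iff_not, List.any_eq_true]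
  unfold Dat.fpa
  constructor
  · rintro ⟨h1, h2, h3, b, -, h4, h5, h6⟩
    exact ⟨h1, h2, h3, b, h4, h5, h6⟩
  · rintro ⟨h1, h2, h3, b, h4, h5, h6⟩
    exact ⟨h1, h2, h3, b, hrg _ _ h6, h4, h5, h6⟩

theorem LB_iff (hrg : ∀ a b, Rel E a b → a ∈ rg) {K : Fin S.t → ℕ} :
    LB S.t E rg (List.ofFn K) = true ↔ (Dat.free S (Rel E)).L K := by
  unfold LB
  simp only [Bool.and_eq_true, List.any_eq_true, paB_iff hrg, lkB_iff]
  constructor
  · rintro ⟨a, -, c, -, d, -, h1, h2, h3, h4⟩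
    exact ⟨a, c, d, h1, h2, h3, h4⟩
  · rintro ⟨a, c, d, h1, h2, h3, h4⟩
    obtain ⟨-, -, -, b, -, h5, -⟩ := id h1
    exact ⟨a, hrg _ _ h5, c, hrg _ _ h2, d, hrg _ _ (rel_symm h2), h1, h2, h3, h4⟩

open Classical in
/-- the list of the marked positions -/
noncomputable def MkL (S : Sp) : List (List ℕ) :=
  (Set.toFinite S.Mk).toFinset.toList.map (fun κ => List.ofFn (fun i => (κ i).1))

theorem mem_MkL {l : List ℕ} : l ∈ MkL S ↔ ∃ κ ∈ S.Mk, l = List.ofFn (fun i => (κ i).1) := by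
  unfold MkL
  simp only [List.mem_map, Finset.mem_toList, Set.Finite.mem_toFinset]
  exact ⟨fun ⟨κ, h, e⟩ => ⟨κ, h, e.symm⟩, fun ⟨κ, h, e⟩ => ⟨κ, h, e.symm⟩⟩

theorem trB_iff (hrg : ∀ a b, Rel E a b → a ∈ rg) {w : Fin (S.Nb * S.m) → ℕ} :
    trB S.t (S.Nb * S.m) (MkL S) E rg (List.ofFn w) = true ↔ (Dat.free S (Rel E)).Trig w := by
  unfold trB
  rw [Bool.and_eq_true, cqB_iff, List.all_eq_true]
  refine and_congr Iff.rfl ?_
  have key : ∀ κ : Fin S.t → Fin (S.Nb * S.m), (List.ofFn (fun i => (κ i).1)).map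
      (fun x => (List.ofFn w).getD x 0) = List.ofFn (fun i => w (κ i)) := by
    intro κ
    rw [List.map_ofFn]
    congr 1
    funext i
    exact ofFn_getD w (κ i).2
  constructor
  · intro h κ hκ
    have := h _ (mem_MkL.2 ⟨κ, hκ, rfl⟩)
    rw [key] at this
    exact (LB_iff hrg).1 this
  · intro h l hl
    obtain ⟨κ, hκ, rfl⟩ := mem_MkL.1 hl
    rw [key]
    exact (LB_iff hrg).2 (h κ hκ)

end

section code

theorem codF_inj {n : ℕ} {g g' : ℕ → ℕ} : ∀ {k : ℕ}, (∀ i < k, g i < n) → (∀ i < k, g' i < n) →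
    codF n g k = codF n g' k → ∀ i < k, g i = g' i
  | 0, _, _, _ => fun i hi => absurd hi (Nat.not_lt_zero i)
  | k + 1, h1, h2, h => by
    unfold codF at h
    have hn : 0 < n := lt_of_le_of_lt (Nat.zero_le _) (h1 k (Nat.lt_succ_self k))
    have a1 : (codF n g k * n + g k) / n = (codF n g' k * n + g' k) / n := by rw [h]
    have a2 : (codF n g k * n + g k) % n = (codF n g' k * n + g' k) % n := by rw [h]
    rw [Nat.mul_comm, Nat.mul_add_div hn, Nat.div_eq_of_lt (h1 k (Nat.lt_succ_self k)), Nat.mul_comm,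
      Nat.mul_add_div hn, Nat.div_eq_of_lt (h2 k (Nat.lt_succ_self k))] at a1
    rw [Nat.mul_comm, Nat.mul_add_mod, Nat.mod_eq_of_lt (h1 k (Nat.lt_succ_self k)), Nat.mul_comm,
      Nat.mul_add_mod, Nat.mod_eq_of_lt (h2 k (Nat.lt_succ_self k))] at a2
    intro i hi
    rcases Nat.lt_succ_iff_lt_or_eq.1 hi with hi | rfl
    · exact codF_inj (fun i hi => h1 i (Nat.lt_succ_of_lt hi)) (fun i hi => h2 i (Nat.lt_succ_of_lt hi))
        (by omega) i hi
    · exact a2

theorem codF_lt {n : ℕ} {g : ℕ → ℕ} : ∀ {k : ℕ}, (∀ i < k, g i < n) → codF n g k < n ^ k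
  | 0, _ => by simp [codF]
  | k + 1, h => by
    unfold codF
    have h1 := codF_lt (fun i hi => h i (Nat.lt_succ_of_lt hi)) (k := k)
    have h2 := h k (Nat.lt_succ_self k)
    rw [pow_succ]
    calc codF n g k * n + g k < codF n g k * n + n := by omega
      _ = (codF n g k + 1) * n := by ring
      _ ≤ n ^ k * n := Nat.mul_le_mul_right _ h1

theorem codF_congr {n : ℕ} {g g' : ℕ → ℕ} : ∀ {k : ℕ}, (∀ i < k, g i = g' i) → codF n g k = codF n g' k
  | 0, _ => rfl
  | k + 1, h => by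
    unfold codF
    rw [codF_congr (fun i hi => h i (Nat.lt_succ_of_lt hi)), h k (Nat.lt_succ_self k)]

/-- the code of a tuple -/
def cod {m : ℕ} (n : ℕ) (v : Fin m → ℕ) : ℕ := codF n (fun i => if h : i < m then v ⟨i, h⟩ else 0) m

theorem cod_inj {m n : ℕ} {v v' : Fin m → ℕ} (h1 : ∀ i, v i < n) (h2 : ∀ i, v' i < n)
    (h : cod n v = cod n v') : v = v' := by
  funext i
  have := codF_inj (fun i hi => by rw [dif_pos hi]; exact h1 _) (fun i hi => by rw [dif_pos hi]; exact h2 _)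
    h i.1 i.2
  rw [dif_pos i.2, dif_pos i.2] at this
  exact this

theorem cod_lt {m n : ℕ} {v : Fin m → ℕ} (h1 : ∀ i, v i < n) : cod n v < n ^ m :=
  codF_lt (fun i hi => by rw [dif_pos hi]; exact h1 _)

theorem codW_eq {m Nb n : ℕ} (w : Fin (Nb * m) → ℕ) (b : Fin Nb) :
    codW m n (List.ofFn w) b.1 = cod n (blk w b) := by
  unfold codW cod
  apply codF_congr
  intro i hi
  rw [dif_pos hi]
  have h1 : ((finProdFinEquiv (b, (⟨i, hi⟩ : Fin m)) : Fin (Nb * m)) : ℕ) = i + m * b := rfl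
  rw [ofFn_getD w (by rw [← h1]; exact Fin.isLt _)]
  rfl

end code

section merge

theorem getD_mst {r : List ℕ} {a b x : ℕ} (hx : x < r.length) :
    (mst r a b).getD x 0 = if r.getD x 0 = r.getD b 0 then r.getD a 0 else r.getD x 0 := by
  have h1 : r.getD x 0 = r[x] := by
    rw [List.getD_eq_getElem?_getD, List.getElem?_eq_getElem hx]
    rfl
  rw [h1]
  unfold mst
  rw [List.getD_eq_getElem?_getD, List.getElem?_map, List.getElem?_eq_getElem hx]
  rfl

theorem mrg_inv {Q : List (ℕ × ℕ)} {M : ℕ} (hQ : ∀ p ∈ Q, p.1 < M ∧ p.2 < M) : ∀ k ≤ Q.length,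
    (∀ x < M, ((mrgS^[k] (Q, List.range M)).2).getD x 0 < M) ∧
    (∀ p ∈ Q.take k, ((mrgS^[k] (Q, List.range M)).2).getD p.1 0 =
      ((mrgS^[k] (Q, List.range M)).2).getD p.2 0) ∧
    ∀ {β : Type} (h : ℕ → β), (∀ p ∈ Q, h p.1 = h p.2) → ∀ x < M,
      h (((mrgS^[k] (Q, List.range M)).2).getD x 0) = h x := by
  intro k
  induction k with
  | zero =>
    intro _
    have h1 : ∀ x < M, (List.range M).getD x 0 = x := by
      intro x hx
      rw [List.getD_eq_getElem?_getD, List.getElem?_range hx]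
      rfl
    refine ⟨fun x hx => ?_, fun p hp => by simp at hp, fun h _ x hx => ?_⟩
    · show (List.range M).getD x 0 < M
      rw [h1 x hx]
      exact hx
    · show h ((List.range M).getD x 0) = h x
      rw [h1 x hx]
  | succ k ih =>
    intro hk
    obtain ⟨i1, i2, i3⟩ := ih (by omega)
    obtain ⟨h1, h2, -⟩ := mrgS_iter Q M k
    rw [Function.iterate_succ_apply']
    set r := (mrgS^[k] (Q, List.range M)).2 with hr
    have hlt : k < Q.length := by omega
    have hhead : ((mrgS^[k] (Q, List.range M)).1.head?.getD (0, 0)) = Q[k] := by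
      rw [h1, List.head?_drop, List.getElem?_eq_getElem hlt]
      rfl
    have hstep : (mrgS (mrgS^[k] (Q, List.range M))).2 = mst r (Q[k]).1 (Q[k]).2 := by
      show mst _ ((mrgS^[k] (Q, List.range M)).1.head?.getD (0, 0)).1
        ((mrgS^[k] (Q, List.range M)).1.head?.getD (0, 0)).2 = _
      rw [hhead]
    rw [hstep]
    obtain ⟨ha, hb⟩ := hQ _ (List.getElem_mem hlt)
    refine ⟨fun x hx => ?_, fun p hp => ?_, fun h hh x hx => ?_⟩
    · rw [getD_mst (by rw [h2]; exact hx)]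
      split_ifs
      · exact i1 _ ha
      · exact i1 _ hx
    · have hp' : p ∈ Q := List.mem_of_mem_take hp
      obtain ⟨hp1, hp2⟩ := hQ p hp'
      rw [getD_mst (by rw [h2]; exact hp1), getD_mst (by rw [h2]; exact hp2)]
      rw [List.take_succ_eq_append_getElem hlt, List.mem_append] at hp
      rcases hp with hp | hp
      · rw [i2 p hp]
      · rw [List.mem_singleton] at hp
        subst hp
        rw [if_pos rfl]
        split_ifs with h5
        · rfl
        · rfl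
    · rw [getD_mst (by rw [h2]; exact hx)]
      split_ifs with h5
      · rw [i3 h hh _ ha, hh _ (List.getElem_mem hlt), ← i3 h hh _ hb, ← h5, i3 h hh _ hx]
      · exact i3 h hh _ hx

theorem mrg_spec {Q : List (ℕ × ℕ)} {M : ℕ} (hQ : ∀ p ∈ Q, p.1 < M ∧ p.2 < M) :
    (∀ x < M, (mrg Q M).getD x 0 < M) ∧
    (∀ p ∈ Q, (mrg Q M).getD p.1 0 = (mrg Q M).getD p.2 0) ∧
    ∀ {β : Type} (h : ℕ → β), (∀ p ∈ Q, h p.1 = h p.2) → ∀ x < M,
      h ((mrg Q M).getD x 0) = h x := by
  obtain ⟨h1, h2, h3⟩ := mrg_inv hQ Q.length le_rfl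
  rw [List.take_length] at h2
  exact ⟨h1, h2, h3⟩

end merge

end Pool.Agent.H725.UG
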