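import Pool.Agent.H725.UG.Cons

/-!
# Composition of pp-constructions with the one of `K_3`
-/

set_option autoImplicit false

namespace Pool.Agent.H725.UG

open Function Pool.Agent.W994.AR
open Pool.Agent.E8helper92.BP (k3_of_finite)

theorem pp_of_ppDef {ι : Type} {ar : ι → ℕ} {B V : Type} {𝔹 : Str ι ar B} {S : Set (V → B)}
    (h : PPDef 𝔹 S) : PP 𝔹 S := by
  obtain ⟨q, Φ, h⟩ := h
  exact ⟨Fin q, inferInstance, {φ | φ ∈ Φ}, Φ.finite_toSet, h⟩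

theorem k3_of_cons {ι κ : Type} {ar : ι → ℕ} {ar' : κ → ℕ} {B A : Type} {𝔹 : Str ι ar B}
    {𝔸 : Str κ ar' A} (hcons : PPCons 𝔹 𝔸) (h3 : PPConstructsK3 𝔸) : PPConstructsK3 𝔹 := by
  classical
  obtain ⟨d, R, hd, hR, ⟨f, hf⟩, ⟨g, hg⟩⟩ := hcons
  obtain ⟨n, E, hn, ⟨q, Φ, hE⟩, ⟨f', hf'⟩, ⟨g', hg'⟩⟩ := h3
  have hR' : ∀ i, PP 𝔹 (R i) := fun i => pp_of_ppDef (hR i)
  -- the variables
  let ρ : ((Fin n ⊕ Fin n) ⊕ Fin q) × Fin d → ((Fin n × Fin d) ⊕ (Fin n × Fin d)) ⊕ (Fin q × Fin d) :=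
    fun y => Sum.elim (fun x => Sum.inl (Sum.elim (fun x => Sum.inl (x, y.2))
      (fun x => Sum.inr (x, y.2)) x)) (fun x => Sum.inr (x, y.2)) y.1
  -- the atoms
  let AT : Atom κ ar' ((Fin n ⊕ Fin n) ⊕ Fin q) →
      Set (((Fin n × Fin d) ⊕ (Fin n × Fin d)) ⊕ (Fin q × Fin d) → B) := fun φ => match φ with
    | .eq x y => {z | ∀ a ∈ (Set.univ : Set (Fin d)), z ∈ {z | z (ρ (x, a)) = z (ρ (y, a))}}
    | .rel i x => {z | z ∘ (fun p : Fin (ar' i) × Fin d => ρ (x p.1, p.2)) ∈ R i}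
  have hAT : ∀ φ, PP 𝔹 (AT φ) := by
    rintro (⟨x, y⟩ | ⟨i, x⟩)
    · exact PP.iInter _ (Set.toFinite _) _ (fun a _ => PP.eq _ _)
    · exact (hR' i).subst _
  have hEP : PP 𝔹 {z : (Fin n × Fin d) ⊕ (Fin n × Fin d) → B | ∃ u : Fin q × Fin d → B,
      Sum.elim z u ∈ {z | ∀ φ ∈ {φ | φ ∈ Φ}, z ∈ AT φ}} :=
    PP.ex (PP.iInter _ Φ.finite_toSet _ (fun φ _ => hAT φ))
  have : Nonempty (Fin n × Fin d) := ⟨⟨0, by omega⟩, ⟨0, by omega⟩⟩
  refine k3_of_finite hEP (fun i x => f (f' i x.1) x.2) ?_ (fun z => g' (fun x => g (fun a => z (x, a)))) ?_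
  · intro i j hij
    obtain ⟨u, hu⟩ := (hE _).1 (hf' i j hij)
    refine ⟨fun x => f (u x.1) x.2, ?_⟩
    have hρ : ∀ y, Sum.elim (Sum.elim (fun x : Fin n × Fin d => f (f' i x.1) x.2)
        (fun x : Fin n × Fin d => f (f' j x.1) x.2)) (fun x : Fin q × Fin d => f (u x.1) x.2) (ρ y) =
        f (Sum.elim (Sum.elim (f' i) (f' j)) u y.1) y.2 := by
      rintro ⟨(x | x) | x, a⟩ <;> rfl
    intro φ hφ
    have h1 := hu φ hφ
    rcases φ with ⟨x, y⟩ | ⟨l, x⟩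
    · intro a _
      show _ = _
      rw [hρ, hρ]
      have h2 : Sum.elim (Sum.elim (f' i) (f' j)) u x = Sum.elim (Sum.elim (f' i) (f' j)) u y := h1
      rw [h2]
    · have h2 := hf l _ h1
      show _ ∘ _ ∈ R l
      convert h2 using 1
      funext p
      exact hρ _
  · rintro x y ⟨u, hu⟩
    apply hg'
    rw [hE]
    refine ⟨fun j => g (fun a => u (j, a)), ?_⟩
    have hρ : ∀ v : (Fin n ⊕ Fin n) ⊕ Fin q, g (fun a => Sum.elim (Sum.elim x y) u (ρ (v, a))) =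
        Sum.elim (Sum.elim (fun j => g (fun a => x (j, a))) (fun j => g (fun a => y (j, a))))
          (fun j => g (fun a => u (j, a))) v := by
      rintro ((v | v) | v) <;> rfl
    intro φ hφ
    have h1 := hu φ hφ
    rcases φ with ⟨v, v'⟩ | ⟨l, v⟩
    · show _ = _
      rw [← hρ, ← hρ]
      congr 1
      funext a
      exact h1 a trivial
    · have h2 := hg l _ h1
      show _ ∈ 𝔸 l
      convert h2 using 1
      funext j
      exact (hρ _).symm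

end Pool.Agent.H725.UG
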