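import Pool.Agent.H725.UG.Inf

/-!
# The graph pp-constructs the template
-/

set_option autoImplicit false

namespace Pool.Agent.H725.UG

open Function Pool.Agent.W994.AR
open Pool.Agent.E8helper92.BP (blk Blk)

/-- the tuple is a clique, and cycles of length five are attached to its marked subsets -/
def Tg {N0 m0 : ℕ} {X : Type} (E : X → X → Prop) (w : Fin (N0 * m0) → X) : Prop :=
  (∀ x y, x ≠ y → E (w x) (w y)) ∧ ∀ p q : Fin (N0 * m0), Gam p q →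
    ∃ c : Fin 5 → X, (∀ x, x ≠ p → x ≠ q → ∀ j, E (w x) (c j)) ∧ ∀ j, E (c j) (c (j + 1))

theorem Tg.trig {S : Sp} {X : Type} {D : Dat S X} (hD : D.GOk) (hMk : S.Mk = MkSet S.Nb S.m S.t)
    {w : Fin (S.Nb * S.m) → X} (h : Tg D.E w) : D.Trig w := by
  obtain ⟨h1, h2⟩ := h
  refine ⟨h1, ?_⟩
  intro κ hκ
  rw [hMk] at hκ
  obtain ⟨p, q, hpq, hp, hq⟩ := exists_pair S.hN κ
  obtain ⟨c, h3, h4⟩ := h2 p q (hκ.2 p q hpq hp hq)
  exact forced hD (g := c) (fun i j hij => h1 _ _ (fun e => hij (hκ.1 e)))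
    (fun i j => h3 _ (hp i) (hq i) j) h4

section PP

variable {E : ℕ → ℕ → Prop} {V : Type}

theorem pp_edge (x y : V) : PP (gstr E) {v : V → ℕ | E (v x) (v y)} :=
  PP.rel (𝔸 := gstr E) 0 ![x, y]

theorem pp_tg0 (N0 m0 : ℕ) : PP (gstr E) {w : Fin (N0 * m0) → ℕ | Tg E w} := by
  have h1 : PP (gstr E) {w : Fin (N0 * m0) → ℕ | ∀ x ∈ {x : Fin (N0 * m0) × Fin (N0 * m0) | x.1 ≠ x.2},
      w ∈ {w : Fin (N0 * m0) → ℕ | E (w x.1) (w x.2)}} :=
    PP.iInter _ (Set.toFinite _) _ (fun x _ => pp_edge x.1 x.2)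
  have h2 : ∀ x : Fin (N0 * m0) × Fin (N0 * m0), PP (gstr E)
      {w : Fin (N0 * m0) → ℕ | ∃ c : Fin 5 → ℕ, Sum.elim w c ∈
        {z : Fin (N0 * m0) ⊕ Fin 5 → ℕ | ∀ y ∈ {y : Fin (N0 * m0) × Fin 5 | y.1 ≠ x.1 ∧ y.1 ≠ x.2},
          z ∈ {z | E (z (Sum.inl y.1)) (z (Sum.inr y.2))}} ∩
        {z : Fin (N0 * m0) ⊕ Fin 5 → ℕ | ∀ j ∈ (Set.univ : Set (Fin 5)),
          z ∈ {z | E (z (Sum.inr j)) (z (Sum.inr (j + 1)))}}} := by
    intro x
    exact PP.ex (PP.inter (PP.iInter _ (Set.toFinite _) _ (fun y _ => pp_edge _ _))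
      (PP.iInter _ (Set.toFinite _) _ (fun j _ => pp_edge _ _)))
  have h3 := h1.inter (PP.iInter {x : Fin (N0 * m0) × Fin (N0 * m0) | Gam x.1 x.2} (Set.toFinite _) _
    (fun x _ => h2 x))
  convert h3 using 1
  ext w
  constructor
  · rintro ⟨h4, h5⟩
    refine ⟨fun x hx => h4 _ _ hx, fun x hx => ?_⟩
    obtain ⟨c, h6, h7⟩ := h5 x.1 x.2 hx
    exact ⟨c, fun y hy => h6 _ hy.1 hy.2 _, fun j _ => h7 j⟩
  · rintro ⟨h4, h5⟩
    refine ⟨fun x y hxy => h4 (x, y) hxy, fun p q hpq => ?_⟩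
    obtain ⟨c, h6, h7⟩ := h5 (p, q) hpq
    exact ⟨c, fun x hp hq j => h6 (x, j) ⟨hp, hq⟩, fun j => h7 j trivial⟩

theorem pp_tg {N0 m0 : ℕ} (s : Fin (N0 * m0) → V) : PP (gstr E) {v : V → ℕ | Tg E (v ∘ s)} :=
  (pp_tg0 N0 m0).subst s

end PP

/-- `𝔹` pp-constructs `𝔸` -/
def PPCons {ι κ : Type} {ar : ι → ℕ} {ar' : κ → ℕ} {B A : Type} (𝔹 : Str ι ar B)
    (𝔸 : Str κ ar' A) : Prop :=
  ∃ (n : ℕ) (R : ∀ i : κ, Set (Fin (ar' i) × Fin n → B)), 1 ≤ n ∧ (∀ i, PPDef 𝔹 (R i)) ∧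
    (∃ f : A → (Fin n → B), ∀ i, ∀ v ∈ 𝔸 i, (fun p => f (v p.1) p.2) ∈ R i) ∧
    (∃ g : (Fin n → B) → A, ∀ i, ∀ u ∈ R i, (fun j => g (fun x => u (j, x))) ∈ 𝔸 i)

/-- the relation of the pp-power -/
def Rl {n : ℕ} {A : Type} {ar : Fin n → ℕ} {Nb m : ℕ} (ε : Blk ar ≃ Fin Nb) (𝔸 : Str (Fin n) ar A)
    (E : ℕ → ℕ → Prop) (i : Fin n) : Set (Fin (ar i) × Fin m → ℕ) :=
  {u | (𝔸 i).Nonempty ∧ ∃ w : Fin (Nb * m) → ℕ, Tg E w ∧ ∀ j : Fin (ar i),
    ∃ w' : Fin (Nb * m) → ℕ, Tg E w' ∧ (∀ x, blk w' (ε (Sum.inl 0)) x = u (j, x)) ∧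
      ∀ x, blk w' (ε (Sum.inl 1)) x = blk w (ε (Sum.inr ⟨i, j⟩)) x}

theorem pp_rl {n : ℕ} {A : Type} {ar : Fin n → ℕ} {Nb m : ℕ} (ε : Blk ar ≃ Fin Nb)
    (𝔸 : Str (Fin n) ar A) (E : ℕ → ℕ → Prop) (hE : ∀ x, ¬ E x x) (i : Fin n) :
    PP (gstr E) (Rl (m := m) ε 𝔸 E i) := by
  by_cases hne : (𝔸 i).Nonempty
  swap
  · have h1 : PP (gstr E) {u : Fin (ar i) × Fin m → ℕ | ∃ x : Fin 1 → ℕ,
        Sum.elim u x ∈ {z : (Fin (ar i) × Fin m) ⊕ Fin 1 → ℕ | E (z (Sum.inr 0)) (z (Sum.inr 0))}} :=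
      PP.ex (pp_edge _ _)
    convert h1 using 1
    ext u
    constructor
    · rintro ⟨h, -⟩
      exact absurd h hne
    · rintro ⟨x, hx⟩
      exact absurd hx (hE _)
  · have h1 : ∀ j : Fin (ar i), PP (gstr E) {z : (Fin (ar i) × Fin m) ⊕ Fin (Nb * m) → ℕ |
        ∃ w' : Fin (Nb * m) → ℕ, Sum.elim z w' ∈
          ({z : ((Fin (ar i) × Fin m) ⊕ Fin (Nb * m)) ⊕ Fin (Nb * m) → ℕ | Tg E (z ∘ Sum.inr)} ∩
          ({z | ∀ x ∈ (Set.univ : Set (Fin m)), z ∈ {z : ((Fin (ar i) × Fin m) ⊕ Fin (Nb * m)) ⊕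
              Fin (Nb * m) → ℕ | z (Sum.inr (finProdFinEquiv (ε (Sum.inl 0), x))) =
                z (Sum.inl (Sum.inl (j, x)))}} ∩
          {z | ∀ x ∈ (Set.univ : Set (Fin m)), z ∈ {z : ((Fin (ar i) × Fin m) ⊕ Fin (Nb * m)) ⊕
              Fin (Nb * m) → ℕ | z (Sum.inr (finProdFinEquiv (ε (Sum.inl 1), x))) =
                z (Sum.inl (Sum.inr (finProdFinEquiv (ε (Sum.inr ⟨i, j⟩), x))))}}))} := by
      intro j
      exact PP.ex ((pp_tg _).inter ((PP.iInter _ (Set.toFinite _) _ (fun x _ => PP.eq _ _)).inter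
        (PP.iInter _ (Set.toFinite _) _ (fun x _ => PP.eq _ _))))
    have h2 : PP (gstr E) {u : Fin (ar i) × Fin m → ℕ | ∃ w : Fin (Nb * m) → ℕ, Sum.elim u w ∈
        ({z : (Fin (ar i) × Fin m) ⊕ Fin (Nb * m) → ℕ | Tg E (z ∘ Sum.inr)} ∩
        {z | ∀ j ∈ (Set.univ : Set (Fin (ar i))), z ∈ {z : (Fin (ar i) × Fin m) ⊕ Fin (Nb * m) → ℕ |
          ∃ w' : Fin (Nb * m) → ℕ, Sum.elim z w' ∈
          ({z : ((Fin (ar i) × Fin m) ⊕ Fin (Nb * m)) ⊕ Fin (Nb * m) → ℕ | Tg E (z ∘ Sum.inr)} ∩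
          ({z | ∀ x ∈ (Set.univ : Set (Fin m)), z ∈ {z : ((Fin (ar i) × Fin m) ⊕ Fin (Nb * m)) ⊕
              Fin (Nb * m) → ℕ | z (Sum.inr (finProdFinEquiv (ε (Sum.inl 0), x))) =
                z (Sum.inl (Sum.inl (j, x)))}} ∩
          {z | ∀ x ∈ (Set.univ : Set (Fin m)), z ∈ {z : ((Fin (ar i) × Fin m) ⊕ Fin (Nb * m)) ⊕
              Fin (Nb * m) → ℕ | z (Sum.inr (finProdFinEquiv (ε (Sum.inl 1), x))) =
                z (Sum.inl (Sum.inr (finProdFinEquiv (ε (Sum.inr ⟨i, j⟩), x))))}}))}})} :=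
      PP.ex ((pp_tg _).inter (PP.iInter _ (Set.toFinite _) _ (fun j _ => h1 j)))
    convert h2 using 1
    ext u
    constructor
    · rintro ⟨-, w, hw, h3⟩
      refine ⟨w, hw, fun j _ => ?_⟩
      obtain ⟨w', hw', h4, h5⟩ := h3 j
      exact ⟨w', hw', fun x _ => h4 x, fun x _ => h5 x⟩
    · rintro ⟨w, hw, h3⟩
      refine ⟨hne, w, hw, fun j => ?_⟩
      obtain ⟨w', hw', h4, h5⟩ := h3 j trivial
      exact ⟨w', hw', fun x => h4 x trivial, fun x => h5 x trivial⟩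

theorem graph_cons {S : Sp} {n : ℕ} {ar : Fin n → ℕ} (hS3 : 3 ≤ S.m) (ε : Blk ar ≃ Fin S.Nb)
    (𝔸 : Str (Fin n) ar S.A) [Countable S.A] (hW : S.W = Wset ε 𝔸) (hMk : S.Mk = MkSet S.Nb S.m S.t)
    {D : Dat S ℕ} (hD : D.Ok) (hE : D.Ext) : PPCons (gstr D.E) 𝔸 := by
  classical
  have hm : 0 < S.m := by omega
  have hε01 : ε (Sum.inl 0) ≠ ε (Sum.inl 1) := by
    intro h
    have := ε.injective h
    simp at this
  have hε01' : (ε (Sum.inl 0)).1 ≠ (ε (Sum.inl 1)).1 := fun h => hε01 (Fin.ext h)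
  have hεi : ∀ (i : Fin n) (j : Fin (ar i)) (x : Fin 2), ε (Sum.inr ⟨i, j⟩) ≠ ε (Sum.inl x) := by
    intro i j x h
    have := ε.injective h
    simp at this
  have hNb : 2 ≤ S.Nb := by
    have h1 := (ε (Sum.inl 0)).2
    have h2 := (ε (Sum.inl 1)).2
    omega
  refine ⟨S.m, Rl ε 𝔸 D.E, by omega, fun i => (pp_rl ε 𝔸 D.E hD.irr i).toPPDef, ?_, D.lab, ?_⟩
  swap
  · rintro i u ⟨hne, w, hw, h1⟩
    have h2 := hD.tr _ (hw.trig hD.toGOk hMk)
    rw [hW] at h2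
    have h3 := h2.1 i hne
    convert h3 using 1
    funext j
    obtain ⟨w', hw', h4, h5⟩ := h1 j
    have h6 := hD.tr _ (hw'.trig hD.toGOk hMk)
    rw [hW] at h6
    have h7 : blk w' (ε (Sum.inl 0)) = fun x => u (j, x) := funext h4
    have h8 : blk w' (ε (Sum.inl 1)) = blk w (ε (Sum.inr ⟨i, j⟩)) := funext h5
    have h9 := h6.2
    simp only [h7, h8] at h9
    exact h9
  · -- the infinite system
    let T : Type := Σ i : Fin n, {v : Fin (ar i) → S.A // v ∈ 𝔸 i}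
    let xv : T → ℕ → S.A := fun t j => if h : j < ar t.1 then t.2.1 ⟨j, h⟩ else S.a₀
    let pv : T → ℕ → ℕ := fun t j => if h : j < ar t.1 then (ε (Sum.inr ⟨t.1, ⟨j, h⟩⟩)).1 else 0
    let C : Type := {p : T × ℕ // p.2 ≤ ar p.1.1}
    have hx : ∀ c : C, c.1.2 ≠ 0 → pv c.1.1 (c.1.2 - 1) < S.Nb ∧
        pv c.1.1 (c.1.2 - 1) ≠ (ε (Sum.inl 0)).1 ∧ pv c.1.1 (c.1.2 - 1) ≠ (ε (Sum.inl 1)).1 := by
      intro c hc
      have h1 : c.1.2 - 1 < ar c.1.1.1 := by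
        have := c.2
        omega
      simp only [pv, dif_pos h1]
      exact ⟨Fin.isLt _, fun h => hεi _ _ 0 (Fin.ext h), fun h => hεi _ _ 1 (Fin.ext h)⟩
    let Y : Sys S.Nb (Blo S.A T) := famI (e0 := (ε (Sum.inl 0)).1) (e1 := (ε (Sum.inl 1)).1) (xv := xv)
      (pv := pv) (C := C) (kt := fun c => c.1.1) (kc := fun c => c.1.2) (Fin.isLt _) hε01' hx (Fin.isLt _)
    have hYB : ∀ (c : Y.C) j, Y.Bc c j = FI (ε (Sum.inl 0)).1 (ε (Sum.inl 1)).1 xv pv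
      (c : C).1.1 (c : C).1.2 j := fun c j => rfl
    -- the values
    have hr : ∀ i, ∃ q : Fin (ar i) → S.A, (𝔸 i).Nonempty → q ∈ 𝔸 i := by
      intro i
      by_cases h : (𝔸 i).Nonempty
      · exact ⟨h.some, fun _ => h.some_mem⟩
      · exact ⟨fun _ => S.a₀, fun h' => absurd h' h⟩
    choose r hr using hr
    let z : (∀ i, Fin (ar i) → S.A) → S.A → Fin S.Nb → S.A := fun q a b =>
      Sum.elim (fun _ : Fin 2 => a) (fun p : Σ i : Fin n, Fin (ar i) => q p.1 p.2) (ε.symm b)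
    have hz0 : ∀ q a (x : Fin 2), z q a (ε (Sum.inl x)) = a := by
      intro q a x
      simp only [z, Equiv.symm_apply_apply, Sum.elim_inl]
    have hz1 : ∀ q a i j, z q a (ε (Sum.inr ⟨i, j⟩)) = q i j := by
      intro q a i j
      simp only [z, Equiv.symm_apply_apply, Sum.elim_inr]
    have hzW : ∀ q a, (∀ i, (𝔸 i).Nonempty → q i ∈ 𝔸 i) → z q a ∈ S.W := by
      intro q a hq
      rw [hW]
      refine ⟨fun i hi => ?_, by rw [hz0, hz0]⟩
      have h1 : (fun j => z q a (ε (Sum.inr ⟨i, j⟩))) = q i := funext fun j => hz1 q a i j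
      rw [h1]
      exact hq i hi
    let qm : T → ∀ i, Fin (ar i) → S.A := fun t => Function.update r t.1 t.2.1
    have hqm : ∀ t i, (𝔸 i).Nonempty → qm t i ∈ 𝔸 i := by
      intro t i hi
      by_cases h : i = t.1
      · subst h
        simp only [qm, Function.update_self]
        exact t.2.2
      · simp only [qm, Function.update_of_ne h]
        exact hr i hi
    let val : Blo S.A T → S.A := fun B => match B with
      | .old a => a
      | .main t b => if h : b < S.Nb then z (qm t) S.a₀ ⟨b, h⟩ else S.a₀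
      | .priv t c b => if h : b < S.Nb then z r (xv t (c - 1)) ⟨b, h⟩ else S.a₀
    have hYW : ∀ c, (fun j => val (Y.Bc c j)) ∈ S.W := by
      intro c
      by_cases h0 : (c : C).1.2 = 0
      · have h1 : (fun j => val (Y.Bc c j)) = z (qm (c : C).1.1) S.a₀ := by
          funext j
          rw [hYB]
          unfold FI
          rw [if_pos h0]
          show (if h : j.1 < S.Nb then z (qm (c : C).1.1) S.a₀ ⟨j.1, h⟩ else S.a₀) = _
          rw [dif_pos j.2]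
        rw [h1]
        exact hzW _ _ (hqm _)
      · have h1 : (fun j => val (Y.Bc c j)) = z r (xv (c : C).1.1 ((c : C).1.2 - 1)) := by
          funext j
          rw [hYB]
          unfold FI
          rw [if_neg h0]
          by_cases h2 : j.1 = (ε (Sum.inl 0)).1
          · rw [if_pos h2]
            have h3 : j = ε (Sum.inl 0) := Fin.ext h2
            rw [h3, hz0]
          · rw [if_neg h2]
            by_cases h3 : j.1 = (ε (Sum.inl 1)).1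
            · rw [if_pos h3]
              have h4 : j = ε (Sum.inl 1) := Fin.ext h3
              rw [h4, hz0]
              have h5 : (c : C).1.2 - 1 < ar (c : C).1.1.1 := by
                have := (c : C).2
                omega
              show (if h : pv (c : C).1.1 ((c : C).1.2 - 1) < S.Nb then
                z (qm (c : C).1.1) S.a₀ ⟨pv (c : C).1.1 ((c : C).1.2 - 1), h⟩ else S.a₀) = _
              rw [dif_pos (hx c h0).1]
              have h6 : (⟨pv (c : C).1.1 ((c : C).1.2 - 1), (hx c h0).1⟩ : Fin S.Nb) =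
                  ε (Sum.inr ⟨(c : C).1.1.1, ⟨(c : C).1.2 - 1, h5⟩⟩) := by
                apply Fin.ext
                simp only [pv, dif_pos h5]
              rw [h6, hz1]
              simp only [qm, Function.update_self, xv, dif_pos h5]
            · rw [if_neg h3]
              show (if h : j.1 < S.Nb then z r (xv (c : C).1.1 ((c : C).1.2 - 1)) ⟨j.1, h⟩ else S.a₀) = _
              rw [dif_pos j.2]
        rw [h1]
        exact hzW _ _ hr
    have hQ := Sys.sys_ok (Y := Y) hS3 hNb hMk val hYW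
    have hT : Countable T := inferInstance
    have : Countable Y.C := inferInstanceAs (Countable {p : T × ℕ // p.2 ≤ ar p.1.1})
    have : Countable (Blo S.A T) := blo_countable _ _
    obtain ⟨φ, -, -, hφ⟩ := hE.embed hQ ∅ (Dat.good_empty _ D)
    have hadj : ∀ a b : Y.Vt S.m, Y.adj a b → D.E (φ a) (φ b) := by
      intro a b hab
      have h1 := congrFun (congrFun (congrArg Dat.E hφ) a) b
      exact cast h1.symm hab
    have hTg : ∀ c : Y.C, Tg D.E (fun x : Fin (S.Nb * S.m) => φ (Sum.inl (Y.w c x))) := by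
      intro c
      refine ⟨fun x y hxy => hadj _ _ ⟨fun h => hxy (Sys.w_inj (Y := Y) c h), c, Sys.T_w _ _,
        Sys.T_w _ _⟩, fun p q hpq => ⟨fun j => φ (Sum.inr (c, ⟨(p, q), hpq⟩, j)), ?_, ?_⟩⟩
      · intro x hp hq j
        exact hadj _ _ ⟨x, hp, hq, rfl⟩
      · intro j
        exact hadj _ _ ⟨rfl, rfl, Or.inl rfl⟩
    refine ⟨fun a x => φ (Sum.inl (.old a, x)), ?_⟩
    intro i v hv
    let t : T := ⟨i, ⟨v, hv⟩⟩
    refine ⟨⟨v, hv⟩, _, hTg (⟨(t, 0), Nat.zero_le _⟩ : C), fun j => ⟨_, hTg (⟨(t, j.1 + 1), j.2⟩ : C), ?_, ?_⟩⟩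
    · intro x
      show φ (Sum.inl (Y.w (⟨(t, j.1 + 1), j.2⟩ : C) (finProdFinEquiv (ε (Sum.inl 0), x)))) = _
      unfold Sys.w
      rw [bi_mk, ai_mk, hYB]
      unfold FI
      rw [if_neg (Nat.succ_ne_zero _), if_pos rfl]
      simp only [Nat.add_sub_cancel, xv, t, j.2, dif_pos]
    · intro x
      show φ (Sum.inl (Y.w (⟨(t, j.1 + 1), j.2⟩ : C) (finProdFinEquiv (ε (Sum.inl 1), x)))) =
        φ (Sum.inl (Y.w (⟨(t, 0), Nat.zero_le _⟩ : C) (finProdFinEquiv (ε (Sum.inr ⟨i, j⟩), x))))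
      unfold Sys.w
      rw [bi_mk, ai_mk, bi_mk, ai_mk, hYB, hYB]
      unfold FI
      rw [if_neg (Nat.succ_ne_zero _), if_neg hε01'.symm, if_pos rfl, if_pos rfl]
      simp only [Nat.add_sub_cancel, pv, t, j.2, dif_pos]

end Pool.Agent.H725.UG
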