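import Pool.Graph.R_pool_sql_team_seeded_b677cdb8.E8helper92.BP.Main

/-!
# Graphs with labelled cliques

The class of structures used for the construction of the graph templates, and its closure under free
amalgamation.
-/

set_option autoImplicit false

namespace Pool.Agent.H725.UG

open Function
open Pool.Agent.E8helper92.BP (blk)

/-- The parameters: `t + 2 = Nb * m` is the size of the cliques which carry constraints, `m` the size of the
labelled cliques, `A` the set of labels, `Mk` the positions of the marked subsets and `W` the constraint. -/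
structure Sp where
  /-- the size of the marked cliques -/
  t : ℕ
  /-- the size of the labelled cliques -/
  m : ℕ
  /-- the number of blocks -/
  Nb : ℕ
  /-- the labels -/
  A : Type
  /-- the default label -/
  a₀ : A
  /-- the marked positions -/
  Mk : Set (Fin t → Fin (Nb * m))
  /-- the constraint -/
  W : Set (Fin Nb → A)
  ht : 1 ≤ t
  hm : 2 ≤ m
  hN : t + 2 = Nb * m

/-- The structures: a graph `E`; `P K a c`: the points `a` and `c` are joined by a path of length two in the
common neighbourhood of the clique `K`; `L K`: the common neighbourhood of `K` contains a cycle of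
length five; the labels of the `m`-tuples. -/
structure Dat (S : Sp) (X : Type) where
  /-- the edges -/
  E : X → X → Prop
  /-- the marked pairs in a link -/
  P : (Fin S.t → X) → X → X → Prop
  /-- the marked tuples -/
  L : (Fin S.t → X) → Prop
  /-- the labels -/
  lab : (Fin S.m → X) → S.A

namespace Dat

variable {S : Sp} {X Y Z : Type}

/-- the structure induced along a map -/
def pull (D : Dat S Y) (f : X → Y) : Dat S X where
  E a b := D.E (f a) (f b)
  P K a c := D.P (fun i => f (K i)) (f a) (f c)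
  L K := D.L (fun i => f (K i))
  lab v := D.lab (fun i => f (v i))

theorem pull_pull (D : Dat S Y) (f : X → Y) (g : Z → X) :
    (D.pull f).pull g = D.pull (fun x => f (g x)) := rfl

theorem pull_id (D : Dat S Y) : D.pull id = D := rfl

/-- the tuple consists of pairwise adjacent points -/
def Clq (D : Dat S X) {r : ℕ} (v : Fin r → X) : Prop := ∀ i j, i ≠ j → D.E (v i) (v j)

/-- the point belongs to the link of the clique `K` -/
def Lk (D : Dat S X) (K : Fin S.t → X) (a : X) : Prop := D.Clq K ∧ ∀ i, D.E (K i) a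

/-- the rules for the graph part -/
structure GOk (D : Dat S X) : Prop where
  symm : ∀ a b, D.E a b → D.E b a
  irr : ∀ a, ¬ D.E a a
  p0 : ∀ K a c, D.P K a c → D.Lk K a ∧ D.Lk K c ∧ a ≠ c ∧ ¬ D.E a c ∧ D.P K c a
  l0 : ∀ K, D.L K → D.Clq K
  r1 : ∀ K a b c, D.Lk K a → D.Lk K b → D.Lk K c → D.E a b → D.E b c → a ≠ c → D.P K a c
  r2 : ∀ K a c d, D.P K a c → D.E c d → D.Lk K d → D.P K d a → D.L K

/-- the constraint is active at the tuple -/
def Trig (D : Dat S X) (w : Fin (S.Nb * S.m) → X) : Prop :=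
  D.Clq w ∧ ∀ κ ∈ S.Mk, D.L (fun i => w (κ i))

/-- all rules -/
structure Ok (D : Dat S X) : Prop extends GOk D where
  n0 : ∀ v : Fin S.m → X, ¬ D.Clq v → D.lab v = S.a₀
  tr : ∀ w : Fin (S.Nb * S.m) → X, D.Trig w → (fun j => D.lab (blk w j)) ∈ S.W

theorem GOk.pull {D : Dat S Y} (h : D.GOk) {f : X → Y} (hf : Injective f) : (D.pull f).GOk where
  symm a b := h.symm _ _
  irr a := h.irr _
  p0 K a c hP := by
    obtain ⟨h1, h2, h3, h4, h5⟩ := h.p0 _ _ _ hP
    exact ⟨h1, h2, fun h => h3 (congrArg f h), h4, h5⟩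
  l0 K hL := h.l0 _ hL
  r1 K a b c h1 h2 h3 h4 h5 h6 := h.r1 _ _ _ _ h1 h2 h3 h4 h5 (fun h => h6 (hf h))
  r2 K a c d h1 h2 h3 h4 := h.r2 _ _ _ _ h1 h2 h3 h4

theorem Ok.pull {D : Dat S Y} (h : D.Ok) {f : X → Y} (hf : Injective f) : (D.pull f).Ok where
  toGOk := h.toGOk.pull hf
  n0 v hv := h.n0 _ hv
  tr w hw := h.tr _ hw

theorem Clq.inj {D : Dat S X} (h : ∀ a, ¬ D.E a a) {r : ℕ} {v : Fin r → X} (hv : D.Clq v) :
    Injective v := by
  intro i j hij
  by_contra hne
  have := hv i j hne
  rw [hij] at this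
  exact h _ this

/-- the induced structure on a set satisfies the rules -/
def OkOn (D : Dat S X) (T : Set X) : Prop := (D.pull (Subtype.val : T → X)).Ok

section OkOn

variable {D : Dat S X} {T : Set X}

theorem OkOn.symm (h : D.OkOn T) {a b : X} (ha : a ∈ T) (hb : b ∈ T) (hab : D.E a b) : D.E b a :=
  Ok.toGOk h |>.symm ⟨a, ha⟩ ⟨b, hb⟩ hab

theorem OkOn.irr (h : D.OkOn T) {a : X} (ha : a ∈ T) : ¬ D.E a a :=
  Ok.toGOk h |>.irr ⟨a, ha⟩

theorem OkOn.p0 (h : D.OkOn T) {K : Fin S.t → X} {a c : X} (hK : ∀ i, K i ∈ T) (ha : a ∈ T)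
    (hc : c ∈ T) (hP : D.P K a c) : D.Lk K a ∧ D.Lk K c ∧ a ≠ c ∧ ¬ D.E a c ∧ D.P K c a := by
  obtain ⟨h1, h2, h3, h4, h5⟩ := Ok.toGOk h |>.p0 (fun i => ⟨K i, hK i⟩) ⟨a, ha⟩ ⟨c, hc⟩ hP
  exact ⟨h1, h2, fun h => h3 (Subtype.ext h), h4, h5⟩

theorem OkOn.r1 (h : D.OkOn T) {K : Fin S.t → X} {a b c : X} (hK : ∀ i, K i ∈ T) (ha : a ∈ T)
    (hb : b ∈ T) (hc : c ∈ T) (h1 : D.Lk K a) (h2 : D.Lk K b) (h3 : D.Lk K c) (h4 : D.E a b)
    (h5 : D.E b c) (h6 : a ≠ c) : D.P K a c :=
  Ok.toGOk h |>.r1 (fun i => ⟨K i, hK i⟩) ⟨a, ha⟩ ⟨b, hb⟩ ⟨c, hc⟩ h1 h2 h3 h4 h5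
    (fun h => h6 (congrArg Subtype.val h))

theorem OkOn.r2 (h : D.OkOn T) {K : Fin S.t → X} {a c d : X} (hK : ∀ i, K i ∈ T) (ha : a ∈ T)
    (hc : c ∈ T) (hd : d ∈ T) (h1 : D.P K a c) (h2 : D.E c d) (h3 : D.Lk K d) (h4 : D.P K d a) :
    D.L K :=
  Ok.toGOk h |>.r2 (fun i => ⟨K i, hK i⟩) ⟨a, ha⟩ ⟨c, hc⟩ ⟨d, hd⟩ h1 h2 h3 h4

theorem OkOn.tr (h : D.OkOn T) {w : Fin (S.Nb * S.m) → X} (hw : ∀ i, w i ∈ T)
    (h1 : D.Trig w) : (fun j => D.lab (blk w j)) ∈ S.W :=
  Ok.tr h (fun i => ⟨w i, hw i⟩) h1

theorem OkOn.ok_of_univ (h : D.OkOn Set.univ) : D.Ok :=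
  Ok.pull h (f := fun x => ⟨x, trivial⟩) (fun a b hab => congrArg Subtype.val hab)

/-- for a map with values in `T` -/
theorem OkOn.pull (h : D.OkOn T) {Z : Type} {f : Z → X} (hf : Injective f) (hfT : ∀ z, f z ∈ T) :
    (D.pull f).Ok :=
  Ok.pull h (f := fun x => ⟨f x, hfT x⟩) (fun a b hab => hf (congrArg Subtype.val hab))

theorem okOn_of {Z : Type} {f : Z → X} (h : (D.pull f).Ok) (hT : ∀ x ∈ T, ∃ z, f z = x) :
    D.OkOn T := by
  choose g hg using hT
  have h1 : D.pull (Subtype.val : T → X) = (D.pull f).pull (fun x : T => g x.1 x.2) := by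
    rw [pull_pull]
    congr 1
    funext x
    exact (hg x.1 x.2).symm
  unfold OkOn
  rw [h1]
  apply h.pull
  intro a b hab
  apply Subtype.ext
  rw [← hg a.1 a.2, ← hg b.1 b.2]
  exact congrArg f hab

end OkOn

/-- Free amalgams: the class is closed under free amalgamation of a family of structures over a common
substructure. The function `comp` gives the number of the structure to which the point belongs, and `none`
at the points of the common substructure. -/
theorem star {I : Type} [Nonempty I] (D : Dat S X) (comp : X → Option I)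
    (h1 : ∀ a b, D.E a b → comp a = none ∨ comp b = none ∨ comp a = comp b)
    (h2 : ∀ i, D.OkOn {x | comp x = none ∨ comp x = some i})
    (h3 : ∀ K a c i j, comp a = some i → comp c = some j → i ≠ j →
      (D.P K a c ↔ D.Lk K a ∧ D.Lk K c ∧ ∃ b, D.Lk K b ∧ D.E a b ∧ D.E b c))
    (h4 : ∀ K a c, D.P K a c → D.Lk K a ∧ D.Lk K c)
    (h5 : ∀ K, D.L K → D.Clq K)
    (h6 : ∀ v : Fin S.m → X, ¬ D.Clq v → D.lab v = S.a₀) : D.Ok := by
  classical
  -- cliques belong to one of the structures
  have hclq : ∀ {r : ℕ} (v : Fin r → X), D.Clq v → ∃ i, ∀ x, comp (v x) = none ∨ comp (v x) = some i := by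
    intro r v hv
    by_cases h : ∃ x i, comp (v x) = some i
    · obtain ⟨x, i, hx⟩ := h
      refine ⟨i, fun y => ?_⟩
      by_cases hxy : x = y
      · subst hxy
        exact Or.inr hx
      · rcases h1 _ _ (hv x y hxy) with h | h | h
        · rw [hx] at h
          simp at h
        · exact Or.inl h
        · exact Or.inr (h.symm.trans hx)
    · push Not at h
      refine ⟨Classical.arbitrary I, fun y => Or.inl ?_⟩
      rcases hc : comp (v y) with _ | i
      · rfl
      · exact absurd hc (h y i)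
  have hadj : ∀ a b i, comp a = some i → D.E b a → comp b = none ∨ comp b = some i := by
    intro a b i ha hab
    rcases h1 _ _ hab with h | h | h
    · exact Or.inl h
    · rw [ha] at h
      simp at h
    · exact Or.inr (h.trans ha)
  have hlk : ∀ K a i, comp a = some i → D.Lk K a → ∀ x, comp (K x) = none ∨ comp (K x) = some i :=
    fun K a i ha h x => hadj a _ i ha (h.2 x)
  have hsymm : ∀ a b, D.E a b → D.E b a := by
    intro a b hab
    have hex : ∃ i, (comp a = none ∨ comp a = some i) ∧ (comp b = none ∨ comp b = some i) := by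
      rcases ha : comp a with _ | i
      · rcases hb : comp b with _ | j
        · exact ⟨Classical.arbitrary I, Or.inl rfl, Or.inl rfl⟩
        · exact ⟨j, Or.inl rfl, Or.inr rfl⟩
      · refine ⟨i, Or.inr rfl, ?_⟩
        rcases h1 _ _ hab with h | h | h
        · rw [ha] at h
          simp at h
        · exact Or.inl h
        · exact Or.inr (h.symm.trans ha)
    obtain ⟨i, hi, hj⟩ := hex
    exact (h2 i).symm hi hj hab
  have hirr : ∀ a, ¬ D.E a a := by
    intro a
    rcases ha : comp a with _ | i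
    · exact (h2 (Classical.arbitrary I)).irr (Or.inl ha)
    · exact (h2 i).irr (Or.inr ha)
  -- two points of the same structure
  have hpair : ∀ a c, (∃ i j, comp a = some i ∧ comp c = some j ∧ i ≠ j) ∨
      ∃ i, (comp a = none ∨ comp a = some i) ∧ (comp c = none ∨ comp c = some i) := by
    intro a c
    rcases ha : comp a with _ | i
    · rcases hb : comp c with _ | j
      · exact Or.inr ⟨Classical.arbitrary I, Or.inl rfl, Or.inl rfl⟩
      · exact Or.inr ⟨j, Or.inl rfl, Or.inr rfl⟩
    · rcases hb : comp c with _ | j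
      · exact Or.inr ⟨i, Or.inr rfl, Or.inl rfl⟩
      · by_cases hij : i = j
        · subst hij
          exact Or.inr ⟨i, Or.inr rfl, Or.inr rfl⟩
        · exact Or.inl ⟨i, j, rfl, rfl, hij⟩
  -- the clique `K` together with two points of its link
  have hKpair : ∀ K a c, D.Lk K a → D.Lk K c →
      (∃ i j, comp a = some i ∧ comp c = some j ∧ i ≠ j) ∨
      ∃ i, (∀ x, comp (K x) = none ∨ comp (K x) = some i) ∧
        (comp a = none ∨ comp a = some i) ∧ (comp c = none ∨ comp c = some i) := by
    intro K a c hKa hKc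
    rcases hpair a c with h | ⟨i, hi, hj⟩
    · exact Or.inl h
    · refine Or.inr ?_
      rcases hi with hi | hi
      · rcases hj with hj | hj
        · obtain ⟨i', hi'⟩ := hclq K hKa.1
          exact ⟨i', hi', Or.inl hi, Or.inl hj⟩
        · exact ⟨i, hlk K c i hj hKc, Or.inl hi, Or.inr hj⟩
      · exact ⟨i, hlk K a i hi hKa, Or.inr hi, hj⟩
  have hp0 : ∀ K a c, D.P K a c → D.Lk K a ∧ D.Lk K c ∧ a ≠ c ∧ ¬ D.E a c ∧ D.P K c a := by
    intro K a c hP
    obtain ⟨hKa, hKc⟩ := h4 K a c hP
    rcases hKpair K a c hKa hKc with ⟨i, j, hi, hj, hij⟩ | ⟨i, hKi, hi, hj⟩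
    · refine ⟨hKa, hKc, ?_, ?_, ?_⟩
      · rintro rfl
        rw [hi] at hj
        exact hij (Option.some.inj hj)
      · intro hE
        rcases h1 _ _ hE with h | h | h
        · rw [hi] at h
          simp at h
        · rw [hj] at h
          simp at h
        · rw [hi, hj] at h
          exact hij (Option.some.inj h)
      · obtain ⟨-, -, b, hb, hab, hbc⟩ := (h3 K a c i j hi hj hij).1 hP
        exact (h3 K c a j i hj hi (Ne.symm hij)).2 ⟨hKc, hKa, b, hb, hsymm _ _ hbc, hsymm _ _ hab⟩
    · exact (h2 i).p0 hKi hi hj hP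
  have hr1 : ∀ K a b c, D.Lk K a → D.Lk K b → D.Lk K c → D.E a b → D.E b c → a ≠ c → D.P K a c := by
    intro K a b c hKa hKb hKc hab hbc hac
    rcases hKpair K a c hKa hKc with ⟨i, j, hi, hj, hij⟩ | ⟨i, hKi, hi, hj⟩
    · exact (h3 K a c i j hi hj hij).2 ⟨hKa, hKc, b, hKb, hab, hbc⟩
    · -- the point `b` may be assumed to be in the same structure
      rcases hb : comp b with _ | j'
      · exact (h2 i).r1 hKi hi (Or.inl hb) hj hKa hKb hKc hab hbc hac
      · exact (h2 j').r1 (hlk K b j' hb hKb) (hadj b a j' hb hab) (Or.inr hb)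
          (hadj b c j' hb (hsymm _ _ hbc)) hKa hKb hKc hab hbc hac
  have hr2 : ∀ K a c d, D.P K a c → D.E c d → D.Lk K d → D.P K d a → D.L K := by
    intro K a c d hP hcd hKd hP'
    obtain ⟨hKa, hKc, hac, hEac, hPca⟩ := hp0 _ _ _ hP
    obtain ⟨-, -, hda, hEda, hPad⟩ := hp0 _ _ _ hP'
    have hdc := hsymm _ _ hcd
    -- there are points of different structures, or not
    have hcases : (∃ i, (∀ x, comp (K x) = none ∨ comp (K x) = some i) ∧
        (comp a = none ∨ comp a = some i) ∧ (comp c = none ∨ comp c = some i) ∧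
        (comp d = none ∨ comp d = some i)) ∨ ∃ i j, i ≠ j ∧ comp a = some i ∧
        ((comp c = some j ∧ comp d = none) ∨ (comp c = none ∧ comp d = some j) ∨
          (comp c = some j ∧ comp d = some j)) := by
      rcases ha : comp a with _ | i
      · left
        rcases hc : comp c with _ | j
        · rcases hd : comp d with _ | j'
          · obtain ⟨i, hi⟩ := hclq K hKa.1
            exact ⟨i, hi, Or.inl rfl, Or.inl rfl, Or.inl rfl⟩
          · exact ⟨j', hlk K d j' hd hKd, Or.inl rfl, Or.inl rfl, Or.inr rfl⟩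
        · refine ⟨j, hlk K c j hc hKc, Or.inl rfl, Or.inr rfl, hadj c d j hc hdc⟩
      · rcases hc : comp c with _ | j
        · rcases hd : comp d with _ | j'
          · exact Or.inl ⟨i, hlk K a i ha hKa, Or.inr rfl, Or.inl rfl, Or.inl rfl⟩
          · by_cases hij : i = j'
            · subst hij
              exact Or.inl ⟨i, hlk K a i ha hKa, Or.inr rfl, Or.inl rfl, Or.inr rfl⟩
            · exact Or.inr ⟨i, j', hij, rfl, Or.inr (Or.inl ⟨rfl, rfl⟩)⟩
        · have hdj := hadj c d j hc hdc
          by_cases hij : i = j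
          · subst hij
            exact Or.inl ⟨i, hlk K a i ha hKa, Or.inr rfl, Or.inr rfl, hdj⟩
          · refine Or.inr ⟨i, j, hij, rfl, ?_⟩
            rcases hdj with hd | hd
            · exact Or.inl ⟨rfl, hd⟩
            · exact Or.inr (Or.inr ⟨rfl, hd⟩)
    rcases hcases with ⟨i, hKi, hi, hj, hk⟩ | ⟨i, j, hij, ha, ⟨hc, hd⟩ | ⟨hc, hd⟩ | ⟨hc, hd⟩⟩
    · exact (h2 i).r2 hKi hi hj hk hP hcd hKd hP'
    · -- Case A
      obtain ⟨-, -, b, hKb, hab, hbc⟩ := (h3 K a c i j ha hc hij).1 hP
      have hKi := hlk K a i ha hKa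
      have hKj := hlk K c j hc hKc
      have hb : comp b = none := by
        rcases hadj a b i ha (hsymm _ _ hab) with h | h
        · exact h
        · rcases hadj c b j hc hbc with h' | h'
          · exact h'
          · rw [h] at h'
            exact absurd (Option.some.inj h') hij
      have hbd : b ≠ d := by
        rintro rfl
        exact hEda (hsymm _ _ hab)
      have h7 : D.P K b d := (h2 j).r1 hKj (Or.inl hb) (Or.inr hc) (Or.inl hd) hKb hKc hKd hbc hcd hbd
      exact (h2 i).r2 hKi (Or.inl hd) (Or.inr ha) (Or.inl hb) hP' hab hKb h7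
    · -- Case B
      obtain ⟨-, -, b, hKb, hdb, hba⟩ := (h3 K d a j i hd ha (Ne.symm hij)).1 hP'
      have hKi := hlk K a i ha hKa
      have hKj := hlk K d j hd hKd
      have hb : comp b = none := by
        rcases hadj a b i ha hba with h | h
        · exact h
        · rcases hadj d b j hd (hsymm _ _ hdb) with h' | h'
          · exact h'
          · rw [h] at h'
            exact absurd (Option.some.inj h') hij
      have hcb : c ≠ b := by
        rintro rfl
        exact hEac (hsymm _ _ hba)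
      have h7 : D.P K c b := (h2 j).r1 hKj (Or.inl hc) (Or.inr hd) (Or.inl hb) hKc hKd hKb hcd hdb hcb
      exact (h2 i).r2 hKi (Or.inl hc) (Or.inl hb) (Or.inr ha) h7 hba hKa hP
    · -- Case C
      obtain ⟨-, -, b, hKb, hab, hbc⟩ := (h3 K a c i j ha hc hij).1 hP
      obtain ⟨-, -, b', hKb', hdb', hb'a⟩ := (h3 K d a j i hd ha (Ne.symm hij)).1 hP'
      have hKi := hlk K a i ha hKa
      have hKj := hlk K c j hc hKc
      have hb : comp b = none := by
        rcases hadj a b i ha (hsymm _ _ hab) with h | h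
        · exact h
        · rcases hadj c b j hc hbc with h' | h'
          · exact h'
          · rw [h] at h'
            exact absurd (Option.some.inj h') hij
      have hb' : comp b' = none := by
        rcases hadj a b' i ha hb'a with h | h
        · exact h
        · rcases hadj d b' j hd (hsymm _ _ hdb') with h' | h'
          · exact h'
          · rw [h] at h'
            exact absurd (Option.some.inj h') hij
      have hbd : b ≠ d := by
        rintro rfl
        rw [hb] at hd
        simp at hd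
      have h8 : D.P K b d := (h2 j).r1 hKj (Or.inl hb) (Or.inr hc) (Or.inr hd) hKb hKc hKd hbc hcd hbd
      have hbb' : b' ≠ b := by
        rintro rfl
        exact (hp0 _ _ _ h8).2.2.2.1 (hsymm _ _ hdb')
      have h7 : D.P K b' b := (h2 i).r1 hKi (Or.inl hb') (Or.inr ha) (Or.inl hb) hKb' hKa hKb hb'a hab hbb'
      have hcb' : c ≠ b' := by
        rintro rfl
        rw [hb'] at hc
        simp at hc
      have h9 : D.P K c b' := (h2 j).r1 hKj (Or.inr hc) (Or.inr hd) (Or.inl hb') hKc hKd hKb' hcd hdb' hcb'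
      exact (h2 j).r2 hKj (Or.inl hb') (Or.inl hb) (Or.inr hc) h7 hbc hKc h9
  exact {
    symm := hsymm
    irr := hirr
    p0 := hp0
    l0 := h5
    r1 := hr1
    r2 := hr2
    n0 := h6
    tr := by
      intro w hw
      obtain ⟨i, hi⟩ := hclq w hw.1
      exact (h2 i).tr hi hw }

end Dat

end Pool.Agent.H725.UG
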