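import Pool.Agent.H725.UG.Gen

/-!
# Embeddings into the generic structure, and back-and-forth
-/

set_option autoImplicit false

namespace Pool.Agent.H725.UG

open Function
open Pool.Agent.E8helper92.BP (blk)

theorem exists_chain {α : Type} [Preorder α] (good : α → Prop) (Q : ℕ → α → Prop)
    (h : ∀ p, good p → ∀ k, ∃ p', p ≤ p' ∧ good p' ∧ Q k p') (p₀ : α)
    (h0 : good p₀) : ∃ s : ℕ → α, s 0 = p₀ ∧ Monotone s ∧ (∀ n, good (s n)) ∧
      ∀ k, Q k (s (k + 1)) := by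
  choose nx h1 h2 h3 using h
  let s : ℕ → {p : α // good p} := fun n =>
    Nat.rec ⟨p₀, h0⟩ (fun k p => ⟨nx p.1 p.2 k, h2 p.1 p.2 k⟩) n
  refine ⟨fun n => (s n).1, rfl, ?_, fun n => (s n).2, fun k => ?_⟩
  · apply monotone_nat_of_le_succ
    intro n
    exact h1 (s n).1 (s n).2 n
  · exact h3 (s k).1 (s k).2 k

namespace Dat

variable {S : Sp} {X Y : Type}

/-- finite partial isomorphisms -/
def Good (Q : Dat S Y) (D : Dat S ℕ) (p : Finset (Y × ℕ)) : Prop :=
  (∀ x ∈ p, ∀ y ∈ p, x.1 = y.1 ↔ x.2 = y.2) ∧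
    Q.pull (fun z : {z // z ∈ p} => z.1.1) = D.pull (fun z : {z // z ∈ p} => z.1.2)

theorem Good.forth {Q : Dat S Y} (hQ : Q.Ok) {D : Dat S ℕ} (hD : D.Ext) {p : Finset (Y × ℕ)}
    (hp : Good Q D p) (G : Finset ℕ) (a : Y) (ha : ∀ b, (a, b) ∉ p) :
    ∃ b, b ∉ G ∧ (∀ x ∈ p, x.2 ≠ b) ∧ ∀ [DecidableEq Y], Good Q D (insert (a, b) p) := by
  classical
  have hinj1 : Injective (fun z : {z // z ∈ p} => z.1.1) := by
    intro z z' h
    have h2 := (hp.1 _ z.2 _ z'.2).1 h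
    exact Subtype.ext (Prod.ext h h2)
  have hinj2 : Injective (fun z : {z // z ∈ p} => z.1.2) := by
    intro z z' h
    have h2 := (hp.1 _ z.2 _ z'.2).2 h
    exact Subtype.ext (Prod.ext h2 h)
  have hne : ∀ z : {z // z ∈ p}, z.1.1 ≠ a := by
    intro z hz
    apply ha z.1.2
    rw [← hz]
    exact z.2
  have hinj3 : Injective (fun o : Option {z // z ∈ p} => o.elim a (fun z => z.1.1)) := by
    rintro (_ | z) (_ | z') h
    · rfl
    · exact absurd h.symm (hne z')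
    · exact absurd h (hne z)
    · exact congrArg some (hinj1 h)
  obtain ⟨b, hbG, hb, hbD⟩ := hD {z // z ∈ p} (Q.pull (fun o => o.elim a (fun z => z.1.1)))
    (fun z => z.1.2) G (hQ.pull hinj3) hinj2 hp.2
  refine ⟨b, hbG, fun x hx => hb ⟨x, hx⟩, ?_⟩
  intro _
  refine ⟨?_, ?_⟩
  · intro x hx y hy
    rw [Finset.mem_insert] at hx hy
    rcases hx with rfl | hx <;> rcases hy with rfl | hy
    · simp
    · exact ⟨fun h => absurd h.symm (hne ⟨y, hy⟩), fun h => absurd h.symm (hb ⟨y, hy⟩)⟩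
    · exact ⟨fun h => absurd h (hne ⟨x, hx⟩), fun h => absurd h (hb ⟨x, hx⟩)⟩
    · exact hp.1 x hx y hy
  · let r : {z // z ∈ insert (a, b) p} → Option {z // z ∈ p} := fun z =>
      if h : z.1 ∈ p then some ⟨z.1, h⟩ else none
    have hr : ∀ z : {z // z ∈ insert (a, b) p}, (z.1.1 = (r z).elim a (fun z => z.1.1)) ∧
        (z.1.2 = (r z).elim b (fun z => z.1.2)) := by
      intro z
      by_cases h : z.1 ∈ p
      · simp only [r, dif_pos h]
        exact ⟨rfl, rfl⟩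
      · have h1 : z.1 = (a, b) := (Finset.mem_insert.1 z.2).resolve_right h
        simp only [r, dif_neg h]
        rw [h1]
        exact ⟨rfl, rfl⟩
    have h1 : (fun z : {z // z ∈ insert (a, b) p} => z.1.1) =
        fun z => (r z).elim a (fun z => z.1.1) := funext fun z => (hr z).1
    have h2 : (fun z : {z // z ∈ insert (a, b) p} => z.1.2) =
        fun z => (r z).elim b (fun z => z.1.2) := funext fun z => (hr z).2
    rw [h1, h2]
    exact congrArg (fun B : Dat S (Option {z // z ∈ p}) => B.pull r) hbD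

theorem good_empty (Q : Dat S Y) (D : Dat S ℕ) : Good Q D ∅ := by
  refine ⟨by simp, ?_⟩
  have hempty : ∀ z : {z : Y × ℕ // z ∈ (∅ : Finset (Y × ℕ))}, False := fun z =>
    absurd z.2 (Finset.notMem_empty _)
  apply ext_of
  · funext z
    exact (hempty z).elim
  · funext K z
    exact (hempty z).elim
  · funext K
    exact (hempty (K ⟨0, S.ht⟩)).elim
  · funext K
    exact (hempty (K ⟨0, by have := S.hm; omega⟩)).elim

/-- the limit of a chain of partial isomorphisms -/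
theorem limit {Q : Dat S Y} {D : Dat S ℕ} (s : ℕ → Finset (Y × ℕ)) (hmono : Monotone s)
    (hgood : ∀ n, Good Q D (s n)) (hQ : ∀ y, ∃ n, ∃ b, (y, b) ∈ s n) :
    ∃ e : Y → ℕ, Injective e ∧ (∀ n, ∀ x ∈ s n, e x.1 = x.2) ∧ D.pull e = Q := by
  classical
  choose k e he using hQ
  have hes : ∀ n, ∀ x ∈ s n, e x.1 = x.2 := by
    intro n x hx
    have h1 := hmono (le_max_left n (k x.1)) hx
    have h2 := hmono (le_max_right n (k x.1)) (he x.1)
    exact ((hgood _).1 _ h2 _ h1).1 rfl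
  refine ⟨e, ?_, hes, ?_⟩
  · intro a b hab
    have h1 := hmono (le_max_left (k a) (k b)) (he a)
    have h2 := hmono (le_max_right (k a) (k b)) (he b)
    exact ((hgood _).1 _ h1 _ h2).2 hab
  · apply ext_cover (fun n => {y | ∃ b, (y, b) ∈ s n})
    · rintro n n' h y ⟨b, hb⟩
      exact ⟨b, hmono h hb⟩
    · intro y
      exact ⟨k y, e y, he y⟩
    · intro n
      have h1 : ∀ z : {y | ∃ b, (y, b) ∈ s n}, (z.1, e z.1) ∈ s n := by
        rintro ⟨y, b, hb⟩
        have := hes n _ hb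
        simp only at this
        simp only [this]
        exact hb
      have h2 := congrArg (fun B : Dat S {z // z ∈ s n} =>
        B.pull (fun z : {y | ∃ b, (y, b) ∈ s n} => ⟨(z.1, e z.1), h1 z⟩)) (hgood n).2
      exact h2.symm

/-- embeddings of countable structures extending a finite partial isomorphism -/
theorem Ext.embed [Countable Y] {D : Dat S ℕ} (hD : D.Ext) {Q : Dat S Y} (hQ : Q.Ok)
    (p₀ : Finset (Y × ℕ)) (h0 : Good Q D p₀) :
    ∃ e : Y → ℕ, Injective e ∧ (∀ x ∈ p₀, e x.1 = x.2) ∧ D.pull e = Q := by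
  classical
  obtain ⟨c, hc⟩ := exists_injective_nat Y
  obtain ⟨s, hs0, hmono, hgood, hs⟩ := exists_chain (Good Q D)
    (fun k p => ∀ y, c y = k → ∃ b, (y, b) ∈ p) (by
    intro p hp k
    by_cases h : ∃ y, c y = k ∧ ∀ b, (y, b) ∉ p
    · obtain ⟨y, rfl, hy⟩ := h
      obtain ⟨b, -, -, hb⟩ := hp.forth hQ hD ∅ y hy
      refine ⟨insert (y, b) p, Finset.subset_insert _ _, hb, ?_⟩
      intro y' hy'
      rw [hc hy']
      exact ⟨b, Finset.mem_insert_self _ _⟩
    · push Not at h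
      exact ⟨p, le_rfl, hp, h⟩) p₀ h0
  obtain ⟨e, he, hes, h⟩ := limit s hmono hgood (fun y => ⟨c y + 1, hs (c y) y rfl⟩)
  refine ⟨e, he, ?_, h⟩
  intro x hx
  rw [← hs0] at hx
  exact hes 0 x hx

theorem Good.swap {D₁ D₂ : Dat S ℕ} {p : Finset (ℕ × ℕ)} (h : Good D₁ D₂ p) :
    Good D₂ D₁ (p.image Prod.swap) := by
  have hmem : ∀ x : ℕ × ℕ, x ∈ p.image Prod.swap ↔ x.swap ∈ p := by
    intro x
    rw [Finset.mem_image]
    constructor
    · rintro ⟨y, hy, rfl⟩
      simpa using hy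
    · intro hx
      exact ⟨x.swap, hx, by simp⟩
  constructor
  · intro x hx y hy
    exact ((h.1 _ ((hmem x).1 hx) _ ((hmem y).1 hy))).symm
  · have h2 := congrArg (fun B : Dat S {z // z ∈ p} =>
      B.pull (fun z : {z // z ∈ p.image Prod.swap} => ⟨z.1.swap, (hmem _).1 z.2⟩)) h.2
    exact h2.symm

/-- back-and-forth -/
theorem Ext.iso {D₁ D₂ : Dat S ℕ} (hD₁ : D₁.Ok) (hD₂ : D₂.Ok) (hE₁ : D₁.Ext) (hE₂ : D₂.Ext)
    (p₀ : Finset (ℕ × ℕ)) (h0 : Good D₁ D₂ p₀) :
    ∃ g : Equiv.Perm ℕ, (∀ x ∈ p₀, g x.1 = x.2) ∧ D₂.pull g = D₁ := by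
  classical
  have hforth : ∀ (D D' : Dat S ℕ), D.Ok → D'.Ext → ∀ (p : Finset (ℕ × ℕ)), Good D D' p → ∀ k,
      ∃ p', p ⊆ p' ∧ Good D D' p' ∧ ∃ b, (k, b) ∈ p' := by
    intro D D' h1 h2 p hp k
    by_cases h : ∃ b, (k, b) ∈ p
    · exact ⟨p, subset_rfl, hp, h⟩
    · push Not at h
      obtain ⟨b, -, -, hb⟩ := hp.forth h1 h2 ∅ k h
      exact ⟨insert (k, b) p, Finset.subset_insert _ _, hb, b, Finset.mem_insert_self _ _⟩
  obtain ⟨s, hs0, hmono, hgood, hQ⟩ := exists_chain (Good D₁ D₂)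
    (fun k p => (∃ b, (k, b) ∈ p) ∧ ∃ a, (a, k) ∈ p) (by
    intro p hp k
    obtain ⟨p1, h1, hp1, b, hb⟩ := hforth D₁ D₂ hD₁ hE₂ p hp k
    obtain ⟨p2, h2, hp2, a, ha⟩ := hforth D₂ D₁ hD₂ hE₁ _ hp1.swap k
    refine ⟨p2.image Prod.swap, ?_, ?_, ⟨b, ?_⟩, ⟨a, ?_⟩⟩
    · intro x hx
      rw [Finset.mem_image]
      exact ⟨x.swap, h2 (Finset.mem_image_of_mem _ (h1 hx)), by simp⟩
    · exact hp2.swap
    · rw [Finset.mem_image]
      exact ⟨(b, k), h2 (Finset.mem_image.2 ⟨(k, b), hb, rfl⟩), rfl⟩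
    · rw [Finset.mem_image]
      exact ⟨(k, a), ha, rfl⟩)
    p₀ h0
  obtain ⟨e, he, hes, h⟩ := limit s hmono hgood (fun k => ⟨k + 1, (hQ k).1⟩)
  have hsurj : Surjective e := by
    intro b
    obtain ⟨a, ha⟩ := (hQ b).2
    exact ⟨a, hes _ _ ha⟩
  refine ⟨Equiv.ofBijective e ⟨he, hsurj⟩, ?_, ?_⟩
  · intro x hx
    rw [← hs0] at hx
    exact hes 0 x hx
  · exact h

open Classical in
/-- permuting the labels -/
noncomputable def twist (α : Equiv.Perm S.A) (D : Dat S X) : Dat S X where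
  E := D.E
  P := D.P
  L := D.L
  lab v := if D.Clq v then α (D.lab v) else S.a₀

theorem twist_pull (α : Equiv.Perm S.A) (D : Dat S X) {Z : Type} (f : Z → X) :
    twist α (D.pull f) = (twist α D).pull f := rfl

theorem twist_ok {α : Equiv.Perm S.A} (hα : ∀ z ∈ S.W, (fun j => α (z j)) ∈ S.W) {D : Dat S X}
    (hD : D.Ok) : (twist α D).Ok where
  symm := hD.symm
  irr := hD.irr
  p0 := hD.p0
  l0 := hD.l0
  r1 := hD.r1
  r2 := hD.r2
  n0 v hv := if_neg hv
  tr w hw := by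
    have h1 := hα _ (hD.tr w hw)
    have h2 : (fun j => (twist α D).lab (blk w j)) = fun j => α (D.lab (blk w j)) := by
      funext j
      have h3 : D.Clq (blk w j) := by
        intro a b hab
        apply hw.1
        intro h
        exact hab (congrArg Prod.snd (finProdFinEquiv.injective h))
      exact if_pos h3
    rw [h2]
    exact h1

theorem twist_symm {α : Equiv.Perm S.A} {D : Dat S X} (hD : ∀ v, ¬ D.Clq v → D.lab v = S.a₀) :
    twist α.symm (twist α D) = D := by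
  refine ext_of (D₁ := twist α.symm (twist α D)) (D₂ := D) rfl rfl rfl ?_
  funext v
  by_cases h : D.Clq v
  · have h1 : (twist α.symm (twist α D)).lab v = α.symm ((twist α D).lab v) := if_pos h
    have h2 : (twist α D).lab v = α (D.lab v) := if_pos h
    rw [h1, h2, Equiv.symm_apply_apply]
  · have h1 : (twist α.symm (twist α D)).lab v = S.a₀ := if_neg h
    rw [h1, hD v h]

theorem twist_ext {α : Equiv.Perm S.A} (hα : ∀ z ∈ S.W, (fun j => α.symm (z j)) ∈ S.W) {D : Dat S ℕ}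
    (hD : D.Ok) (hE : D.Ext) : (twist α D).Ext := by
  intro Z _ Q e G hQ he hcomp
  obtain ⟨n, hn, hn', h⟩ := hE Z (twist α.symm Q) e G (twist_ok hα hQ) he (by
    rw [← twist_pull, hcomp, twist_pull, twist_symm hD.n0])
  refine ⟨n, hn, hn', ?_⟩
  have h1 := congrArg (twist α) h
  rw [twist_pull] at h1
  rw [← h1]
  have h2 := twist_symm (α := α.symm) hQ.n0
  rw [Equiv.symm_symm] at h2
  exact h2.symm

end Dat

end Pool.Agent.H725.UG
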