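import Pool.Agent.H725.UG.Sys

/-!
# The systems of constraints which come from instances
-/

set_option autoImplicit false

namespace Pool.Agent.H725.UG

open Function

/-- the blocks of the constraint with number `c` which belongs to the constraint `t` of the
old instance -/
def Fb (n₀ K Nb e0 e1 : ℕ) (xv pv : ℕ → ℕ → ℕ) (t c b : ℕ) : ℕ :=
  if c = 0 then n₀ + (t * K + 0) * Nb + b
  else if b = e0 then xv t (c - 1)
  else if b = e1 then n₀ + (t * K + 0) * Nb + pv t (c - 1)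
  else n₀ + (t * K + c) * Nb + b

theorem new_inj {n₀ K Nb t c b t' c' b' : ℕ} (hc : c < K) (hc' : c' < K) (hb : b < Nb) (hb' : b' < Nb)
    (h : n₀ + (t * K + c) * Nb + b = n₀ + (t' * K + c') * Nb + b') : t = t' ∧ c = c' ∧ b = b' := by
  have h1 : (t * K + c) * Nb + b = (t' * K + c') * Nb + b' := by omega
  have hNb : 0 < Nb := by omega
  have hK : 0 < K := by omega
  have h2 : ((t * K + c) * Nb + b) / Nb = ((t' * K + c') * Nb + b') / Nb := by rw [h1]
  have h3 : ((t * K + c) * Nb + b) % Nb = ((t' * K + c') * Nb + b') % Nb := by rw [h1]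
  rw [Nat.mul_comm, Nat.mul_add_div hNb, Nat.div_eq_of_lt hb, Nat.mul_comm (t' * K + c'),
    Nat.mul_add_div hNb, Nat.div_eq_of_lt hb'] at h2
  rw [Nat.mul_comm, Nat.mul_add_mod, Nat.mod_eq_of_lt hb, Nat.mul_comm (t' * K + c'),
    Nat.mul_add_mod, Nat.mod_eq_of_lt hb'] at h3
  have h4 : t * K + c = t' * K + c' := by omega
  have h5 : (t * K + c) / K = (t' * K + c') / K := by rw [h4]
  have h6 : (t * K + c) % K = (t' * K + c') % K := by rw [h4]
  rw [Nat.mul_comm, Nat.mul_add_div hK, Nat.div_eq_of_lt hc, Nat.mul_comm t',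
    Nat.mul_add_div hK, Nat.div_eq_of_lt hc'] at h5
  rw [Nat.mul_comm, Nat.mul_add_mod, Nat.mod_eq_of_lt hc, Nat.mul_comm t',
    Nat.mul_add_mod, Nat.mod_eq_of_lt hc'] at h6
  exact ⟨by omega, h6, h3⟩

section

variable {n₀ K Nb e0 e1 : ℕ} {xv pv : ℕ → ℕ → ℕ} {C : Type} {kt kc : C → ℕ}

/-- the possible blocks -/
theorem Fb_cases {t c b : ℕ} (hc : c < K) (hb : b < Nb)
    (hx : c ≠ 0 → xv t (c - 1) < n₀ ∧ pv t (c - 1) < Nb ∧ pv t (c - 1) ≠ e0 ∧ pv t (c - 1) ≠ e1) :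
    (c ≠ 0 ∧ b = e0 ∧ Fb n₀ K Nb e0 e1 xv pv t c b = xv t (c - 1)) ∨
    (c ≠ 0 ∧ b = e1 ∧ Fb n₀ K Nb e0 e1 xv pv t c b = n₀ + (t * K + 0) * Nb + pv t (c - 1)) ∨
    ((c = 0 ∨ (b ≠ e0 ∧ b ≠ e1)) ∧ Fb n₀ K Nb e0 e1 xv pv t c b = n₀ + (t * K + c) * Nb + b) := by
  unfold Fb
  by_cases h0 : c = 0
  · rw [if_pos h0]
    subst h0
    exact Or.inr (Or.inr ⟨Or.inl rfl, rfl⟩)
  · rw [if_neg h0]
    by_cases h1 : b = e0
    · rw [if_pos h1]
      exact Or.inl ⟨h0, h1, rfl⟩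
    · rw [if_neg h1]
      by_cases h2 : b = e1
      · rw [if_pos h2]
        exact Or.inr (Or.inl ⟨h0, h2, rfl⟩)
      · rw [if_neg h2]
        exact Or.inr (Or.inr ⟨Or.inr ⟨h1, h2⟩, rfl⟩)

/-- private blocks determine the constraint -/
theorem Fb_new {t c b t' c' b' : ℕ} (hc : c < K) (hb : b < Nb)
    (hx : c ≠ 0 → xv t (c - 1) < n₀ ∧ pv t (c - 1) < Nb ∧ pv t (c - 1) ≠ e0 ∧ pv t (c - 1) ≠ e1)
    (hc' : c' < K) (hb' : b' < Nb) (h0 : c' ≠ 0)
    (h : Fb n₀ K Nb e0 e1 xv pv t c b = n₀ + (t' * K + c') * Nb + b') : t = t' ∧ c = c' := by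
  rcases Fb_cases hc hb hx with ⟨h1, h2, h3⟩ | ⟨h1, h2, h3⟩ | ⟨h1, h3⟩
  · rw [h3] at h
    have := (hx h1).1
    omega
  · rw [h3] at h
    have := (new_inj (by omega) hc' (hx h1).2.1 hb' h).2.1
    omega
  · rw [h3] at h
    have := new_inj hc hc' hb hb' h
    exact ⟨this.1, this.2.1⟩

/-- old blocks occur in links only -/
theorem Fb_old {t c b : ℕ} (hc : c < K) (hb : b < Nb)
    (hx : c ≠ 0 → xv t (c - 1) < n₀ ∧ pv t (c - 1) < Nb ∧ pv t (c - 1) ≠ e0 ∧ pv t (c - 1) ≠ e1)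
    (h : Fb n₀ K Nb e0 e1 xv pv t c b < n₀) : c ≠ 0 ∧ b = e0 := by
  rcases Fb_cases hc hb hx with ⟨h1, h2, h3⟩ | ⟨h1, h2, h3⟩ | ⟨h1, h3⟩
  · exact ⟨h1, h2⟩
  · rw [h3] at h
    omega
  · rw [h3] at h
    omega

/-- blocks of main constraints -/
theorem Fb_main {t c b t' b' : ℕ} (hc : c < K) (hb : b < Nb)
    (hx : c ≠ 0 → xv t (c - 1) < n₀ ∧ pv t (c - 1) < Nb ∧ pv t (c - 1) ≠ e0 ∧ pv t (c - 1) ≠ e1)
    (hb' : b' < Nb) (h : Fb n₀ K Nb e0 e1 xv pv t c b = n₀ + (t' * K + 0) * Nb + b') :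
    t = t' ∧ (c = 0 ∨ (b = e1 ∧ b' = pv t (c - 1))) := by
  rcases Fb_cases hc hb hx with ⟨h1, h2, h3⟩ | ⟨h1, h2, h3⟩ | ⟨h1, h3⟩
  · rw [h3] at h
    have := (hx h1).1
    omega
  · rw [h3] at h
    have := (new_inj (by omega) (by omega) (hx h1).2.1 hb' h)
    exact ⟨this.1, Or.inr ⟨h2, this.2.2.symm⟩⟩
  · rw [h3] at h
    have := new_inj hc (by omega) hb hb' h
    exact ⟨this.1, Or.inl this.2.1⟩

/-- the system of constraints -/
def famSys (hK : 0 < K) (he0 : e0 < Nb) (he1 : e1 < Nb) (he : e0 ≠ e1) (hkc : ∀ c, kc c < K)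
    (hx : ∀ c, kc c ≠ 0 → xv (kt c) (kc c - 1) < n₀ ∧ pv (kt c) (kc c - 1) < Nb ∧
      pv (kt c) (kc c - 1) ≠ e0 ∧ pv (kt c) (kc c - 1) ≠ e1) : Sys Nb ℕ where
  C := C
  Bc c b := Fb n₀ K Nb e0 e1 xv pv (kt c) (kc c) b
  inj := by
    intro c b b' h
    simp only at h
    apply Fin.ext
    rcases Fb_cases (hkc c) b.2 (hx c) with ⟨h1, h2, h3⟩ | ⟨h1, h2, h3⟩ | ⟨h1, h3⟩ <;>
      rcases Fb_cases (hkc c) b'.2 (hx c) with ⟨h1', h2', h3'⟩ | ⟨h1', h2', h3'⟩ | ⟨h1', h3'⟩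
    · rw [h2, h2']
    · rw [h3, h3'] at h
      have := (hx c h1).1
      omega
    · rw [h3, h3'] at h
      have := (hx c h1).1
      omega
    · rw [h3, h3'] at h
      have := (hx c h1).1
      omega
    · rw [h2, h2']
    · rw [h3, h3'] at h
      have := (new_inj (by omega) (hkc c) (hx c h1).2.1 b'.2 h).2.1
      omega
    · rw [h3, h3'] at h
      have := (hx c h1').1
      omega
    · rw [h3, h3'] at h
      have := (new_inj (hkc c) (by omega) b.2 (hx c h1').2.1 h).2.1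
      omega
    · rw [h3, h3'] at h
      exact (new_inj (hkc c) (hkc c) b.2 b'.2 h).2.2
  hI := by
    intro c c' h
    have heq : kt c = kt c' → kc c = kc c' → (fun b : Fin Nb => Fb n₀ K Nb e0 e1 xv pv (kt c) (kc c) b) =
        fun b : Fin Nb => Fb n₀ K Nb e0 e1 xv pv (kt c') (kc c') b := by
      intro h1 h2
      rw [h1, h2]
    by_cases h0 : kc c = 0
    · obtain ⟨j, hj⟩ := h ⟨e0, he0⟩
      simp only at hj
      have h1 : Fb n₀ K Nb e0 e1 xv pv (kt c) (kc c) e0 = n₀ + (kt c * K + 0) * Nb + e0 := by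
        unfold Fb
        rw [if_pos h0]
      rw [h1] at hj
      obtain ⟨h2, h3⟩ := Fb_main (hkc c') j.2 (hx c') he0 hj
      rcases h3 with h3 | ⟨-, h3⟩
      · exact heq h2.symm (h0.trans h3.symm)
      · by_cases h4 : kc c' = 0
        · exact heq h2.symm (h0.trans h4.symm)
        · exact absurd h3.symm (hx c' h4).2.2.1
    · obtain ⟨j, hj⟩ := h ⟨pv (kt c) (kc c - 1), (hx c h0).2.1⟩
      simp only at hj
      have h1 : Fb n₀ K Nb e0 e1 xv pv (kt c) (kc c) (pv (kt c) (kc c - 1)) =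
          n₀ + (kt c * K + kc c) * Nb + pv (kt c) (kc c - 1) := by
        unfold Fb
        rw [if_neg h0, if_neg (hx c h0).2.2.1, if_neg (hx c h0).2.2.2]
      rw [h1] at hj
      obtain ⟨h2, h3⟩ := Fb_new (hkc c') j.2 (hx c') (hkc c) (hx c h0).2.1 h0 hj
      exact heq h2.symm h3.symm
  hH := by
    classical
    intro T hT hco
    have hNb : 2 ≤ Nb := by omega
    have hother : ∀ B ∈ T, ∃ B' ∈ T, B' ≠ B := by
      intro B hB
      have h1 : 1 < T.card := by omega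
      obtain ⟨a, ha, b, hb, hab⟩ := Finset.one_lt_card.1 h1
      by_cases h2 : a = B
      · exact ⟨b, hb, fun e => hab (h2.trans e.symm)⟩
      · exact ⟨a, ha, h2⟩
    -- every block occurs in a constraint
    have hocc : ∀ B ∈ T, ∃ (c : C) (j : Fin Nb), Fb n₀ K Nb e0 e1 xv pv (kt c) (kc c) j = B := by
      intro B hB
      obtain ⟨B', hB', hne⟩ := hother B hB
      obtain ⟨c, ⟨j, hj⟩, -⟩ := hco B hB B' hB' hne.symm
      exact ⟨c, j, hj⟩
    -- it suffices that the constraints for the pairs with a fixed block agree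
    have hfin : ∀ B ∈ T, (∀ (c c' : C) (B' B'' : ℕ), B' ∈ T → B'' ∈ T → B' ≠ B → B'' ≠ B →
        (∃ j : Fin Nb, Fb n₀ K Nb e0 e1 xv pv (kt c) (kc c) j = B) →
        (∃ j : Fin Nb, Fb n₀ K Nb e0 e1 xv pv (kt c) (kc c) j = B') →
        (∃ j : Fin Nb, Fb n₀ K Nb e0 e1 xv pv (kt c') (kc c') j = B) →
        (∃ j : Fin Nb, Fb n₀ K Nb e0 e1 xv pv (kt c') (kc c') j = B'') →
        kt c = kt c' ∧ kc c = kc c') →
        ∃ c : C, ∀ B ∈ T, ∃ j : Fin Nb, Fb n₀ K Nb e0 e1 xv pv (kt c) (kc c) j = B := by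
      intro B hB hagree
      obtain ⟨B₁, hB₁, hne₁⟩ := hother B hB
      obtain ⟨c, h1, h2⟩ := hco B hB B₁ hB₁ hne₁.symm
      refine ⟨c, fun B₂ hB₂ => ?_⟩
      by_cases h3 : B₂ = B
      · rw [h3]
        exact h1
      · obtain ⟨c', h4, h5⟩ := hco B hB B₂ hB₂ (Ne.symm h3)
        obtain ⟨h6, h7⟩ := hagree c c' B₁ B₂ hB₁ hB₂ hne₁ h3 h1 h2 h4 h5
        rw [h6, h7]
        exact h5
    by_cases hpriv : ∃ B ∈ T, ∃ t c b, c ≠ 0 ∧ c < K ∧ b < Nb ∧ B = n₀ + (t * K + c) * Nb + b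
    · obtain ⟨B, hB, t, c, b, hc0, hcK, hb, rfl⟩ := hpriv
      apply hfin _ hB
      rintro c₁ c₂ _ _ _ _ _ _ ⟨j₁, hj₁⟩ - ⟨j₂, hj₂⟩ -
      have h1 := Fb_new (hkc c₁) j₁.2 (hx c₁) hcK hb hc0 hj₁
      have h2 := Fb_new (hkc c₂) j₂.2 (hx c₂) hcK hb hc0 hj₂
      exact ⟨h1.1.trans h2.1.symm, h1.2.trans h2.2.symm⟩
    · -- the blocks are old or main
      have htype : ∀ B ∈ T, B < n₀ ∨ ∃ t b, b < Nb ∧ B = n₀ + (t * K + 0) * Nb + b := by
        intro B hB
        obtain ⟨c, j, rfl⟩ := hocc B hB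
        rcases Fb_cases (hkc c) j.2 (hx c) with ⟨h1, h2, h3⟩ | ⟨h1, h2, h3⟩ | ⟨h1, h3⟩
        · rw [h3]
          exact Or.inl (hx c h1).1
        · rw [h3]
          exact Or.inr ⟨_, _, (hx c h1).2.1, rfl⟩
        · by_cases h4 : kc c = 0
          · right
            refine ⟨kt c, j, j.2, ?_⟩
            rw [h3, h4]
          · exact absurd ⟨_, hB, kt c, kc c, j, h4, hkc c, j.2, h3⟩ hpriv
      -- two main blocks belong to the same main constraint
      have hmm : ∀ t b t' b' (c : C), b < Nb → b' < Nb →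
          n₀ + (t * K + 0) * Nb + b ≠ n₀ + (t' * K + 0) * Nb + b' →
          (∃ j : Fin Nb, Fb n₀ K Nb e0 e1 xv pv (kt c) (kc c) j = n₀ + (t * K + 0) * Nb + b) →
          (∃ j : Fin Nb, Fb n₀ K Nb e0 e1 xv pv (kt c) (kc c) j = n₀ + (t' * K + 0) * Nb + b') →
          kt c = t ∧ t = t' ∧ kc c = 0 := by
        rintro t b t' b' c hb hb' hne ⟨j, hj⟩ ⟨j', hj'⟩
        obtain ⟨h1, h2⟩ := Fb_main (hkc c) j.2 (hx c) hb hj
        obtain ⟨h1', h2'⟩ := Fb_main (hkc c) j'.2 (hx c) hb' hj'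
        refine ⟨h1, h1.symm.trans h1', ?_⟩
        rcases h2 with h2 | ⟨h2, h3⟩
        · exact h2
        · rcases h2' with h2' | ⟨h2', h3'⟩
          · exact h2'
          · exfalso
            apply hne
            rw [← h1, ← h1', h3, h3']
      by_cases hold : ∃ x ∈ T, x < n₀
      · exfalso
        obtain ⟨x, hxT, hxlt⟩ := hold
        -- the other blocks are main blocks different from the two special ones
        have hrest : ∀ B ∈ T, B ≠ x → ∃ t b, b < Nb ∧ b ≠ e0 ∧ b ≠ e1 ∧ B = n₀ + (t * K + 0) * Nb + b := by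
          intro B hB hBx
          obtain ⟨c, ⟨j, hj⟩, ⟨j', hj'⟩⟩ := hco x hxT B hB (Ne.symm hBx)
          have h1 := Fb_old (hkc c) j.2 (hx c) (by rw [hj]; exact hxlt)
          rcases htype B hB with h2 | ⟨t, b, hb, rfl⟩
          · exfalso
            have h3 := Fb_old (hkc c) j'.2 (hx c) (by rw [hj']; exact h2)
            apply hBx
            rw [← hj, ← hj', h1.2, h3.2]
          · refine ⟨t, b, hb, ?_, ?_, rfl⟩
            · obtain ⟨h4, h5⟩ := Fb_main (hkc c) j'.2 (hx c) hb hj'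
              rcases h5 with h5 | ⟨-, h5⟩
              · exact absurd h5 h1.1
              · rw [h5]
                exact (hx c h1.1).2.2.1
            · obtain ⟨h4, h5⟩ := Fb_main (hkc c) j'.2 (hx c) hb hj'
              rcases h5 with h5 | ⟨-, h5⟩
              · exact absurd h5 h1.1
              · rw [h5]
                exact (hx c h1.1).2.2.2
        obtain ⟨B₁, hB₁, hne₁⟩ := hother x hxT
        obtain ⟨t₁, b₁, hb₁, -, -, hB₁e⟩ := hrest B₁ hB₁ hne₁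
        have hsub : T.erase x ⊆ (((Finset.range Nb).erase e0).erase e1).image
            (fun b => n₀ + (t₁ * K + 0) * Nb + b) := by
          intro B hB
          rw [Finset.mem_erase] at hB
          obtain ⟨t, b, hb, hb0, hb1, rfl⟩ := hrest B hB.2 hB.1
          have ht : t = t₁ := by
            by_cases h1 : n₀ + (t * K + 0) * Nb + b = B₁
            · rw [hB₁e] at h1
              exact (new_inj (by omega) (by omega) hb hb₁ h1).1
            · obtain ⟨c, h2, h3⟩ := hco _ hB.2 B₁ hB₁ h1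
              rw [hB₁e] at h3 h1
              exact (hmm t b t₁ b₁ c hb hb₁ h1 h2 h3).2.1
          subst ht
          refine Finset.mem_image.2 ⟨b, ?_, rfl⟩
          simp only [Finset.mem_erase, Finset.mem_range]
          exact ⟨hb1, hb0, hb⟩
        have h1 := Finset.card_le_card hsub
        have h2 := Finset.card_image_le (s := ((Finset.range Nb).erase e0).erase e1)
          (f := fun b => n₀ + (t₁ * K + 0) * Nb + b)
        rw [Finset.card_erase_of_mem hxT] at h1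
        rw [Finset.card_erase_of_mem (by simp [he.symm, he1]), Finset.card_erase_of_mem (by simp [he0]),
          Finset.card_range] at h2
        omega
      · push Not at hold
        have hT0 : ∃ B, B ∈ T := by
          have : 0 < T.card := by omega
          exact Finset.card_pos.1 this
        obtain ⟨B, hB⟩ := hT0
        apply hfin B hB
        intro c₁ c₂ B₁ B₂ hB₁ hB₂ hne₁ hne₂ h1 h2 h3 h4
        obtain ⟨t, b, hb, rfl⟩ := (htype B hB).resolve_left (not_lt.2 (hold B hB))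
        obtain ⟨t₁, b₁, hb₁, rfl⟩ := (htype B₁ hB₁).resolve_left (not_lt.2 (hold B₁ hB₁))
        obtain ⟨t₂, b₂, hb₂, rfl⟩ := (htype B₂ hB₂).resolve_left (not_lt.2 (hold B₂ hB₂))
        have a1 := hmm t b t₁ b₁ c₁ hb hb₁ hne₁.symm h1 h2
        have a2 := hmm t b t₂ b₂ c₂ hb hb₂ hne₂.symm h3 h4
        exact ⟨a1.1.trans a2.1.symm, a1.2.2.trans a2.2.2.symm⟩

end

end Pool.Agent.H725.UG
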