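import Pool.Agent.H725.UG.Emb

/-!
# The homogeneous structure
-/

set_option autoImplicit false

namespace Pool.Agent.H725.UG

open Function Pool.Agent.W994.AR
open Pool.Agent.E8helper92.BP (blk blk_mk mk_blk lar mk_two)
open Pool.Agent.E8helper92.BP renaming mk → bmk

/-- the signature of the new structure -/
inductive Sg (σ : Type) : Type
  | e : Sg σ
  | p : Sg σ
  | l : Sg σ
  | lb (o : Option σ) : Sg σ

instance {σ : Type} [Finite σ] : Finite (Sg σ) := by
  let f : Sg σ → Fin 3 ⊕ Option σ := fun x => match x with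
    | .e => Sum.inl 0
    | .p => Sum.inl 1
    | .l => Sum.inl 2
    | .lb o => Sum.inr o
  apply Finite.of_injective f
  rintro (_ | _ | _ | o) (_ | _ | _ | o') h <;> simp [f] at h <;> simp [h]

/-- the arities -/
def sar {σ : Type} (S : Sp) (ar : σ → ℕ) : Sg σ → ℕ
  | .e => 2
  | .p => S.t + 2
  | .l => S.t
  | .lb o => lar ar S.m o

variable {S : Sp} {σ : Type} {ar : σ → ℕ} {X Y : Type}

namespace Dat

/-- the relation for the edges -/
def relE (D : Dat S X) : Set (Fin 2 → X) := {v | D.E (v 0) (v 1)}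

/-- the relation for the marked pairs -/
def relP (D : Dat S X) : Set (Fin (S.t + 2) → X) :=
  {v | D.P (fun i => v (Fin.castAdd 2 i)) (v (Fin.natAdd S.t 0)) (v (Fin.natAdd S.t 1))}

/-- the relation for the marked tuples -/
def relL (D : Dat S X) : Set (Fin S.t → X) := {v | D.L v}

/-- the relation for the equality of labels -/
def relQ (D : Dat S X) : Set (Fin (2 * S.m) → X) :=
  {w | (∀ j, D.Clq (blk w j)) ∧ D.lab (blk w 0) = D.lab (blk w 1)}

/-- the relations between labels -/
def relR (D : Dat S X) {r : ℕ} (R : Set (Fin r → S.A)) : Set (Fin (r * S.m) → X) :=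
  {w | (∀ j, D.Clq (blk w j)) ∧ (fun j => D.lab (blk w j)) ∈ R}

/-- the structure -/
def str (D : Dat S X) (𝔹 : Str σ ar S.A) : Str (Sg σ) (sar S ar) X
  | .e => D.relE
  | .p => D.relP
  | .l => D.relL
  | .lb none => D.relQ
  | .lb (some i) => D.relR (𝔹 i)

variable {D : Dat S X}

theorem mem_relP {K : Fin S.t → X} {a c : X} :
    Fin.append K ![a, c] ∈ D.relP ↔ D.P K a c := by
  show D.P (fun i => Fin.append K ![a, c] (Fin.castAdd 2 i)) (Fin.append K ![a, c] (Fin.natAdd S.t 0))
    (Fin.append K ![a, c] (Fin.natAdd S.t 1)) ↔ _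
  simp only [Fin.append_left, Fin.append_right]
  exact Iff.rfl

theorem mem_relQ {v w : Fin S.m → X} : bmk ![v, w] ∈ D.relQ ↔ D.Clq v ∧ D.Clq w ∧ D.lab v = D.lab w := by
  show (_ ∧ _) ↔ _
  rw [blk_mk, blk_mk]
  constructor
  · rintro ⟨h1, h⟩
    have h2 := h1 0
    have h3 := h1 1
    rw [blk_mk] at h2 h3
    exact ⟨h2, h3, h⟩
  · rintro ⟨h1, h2, h⟩
    refine ⟨fun j => ?_, h⟩
    rw [blk_mk]
    fin_cases j
    · exact h1
    · exact h2

theorem mem_relR {r : ℕ} {R : Set (Fin r → S.A)} (u : Fin r → Fin S.m → X) :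
    bmk u ∈ D.relR R ↔ (∀ j, D.Clq (u j)) ∧ (fun j => D.lab (u j)) ∈ R := by
  show (_ ∧ _) ↔ _
  simp only [blk_mk]

theorem mk_pair {V W : Type} {m : ℕ} (v w : Fin m → V) (e : V → W) :
    (fun x => e (bmk ![v, w] x)) = bmk ![fun a => e (v a), fun a => e (w a)] := by
  funext j
  simp only [bmk]
  generalize (finProdFinEquiv.symm j).1 = x
  fin_cases x <;> rfl

/-- permutations which preserve the graph and move the labels by an automorphism of `𝔹` -/
theorem mem_autGroup {D : Dat S ℕ} {𝔹 : Str σ ar S.A} {g : Equiv.Perm ℕ}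
    {α : Equiv.Perm S.A} (hα : α ∈ autGroup 𝔹) (h : D.pull g = twist α D) :
    g ∈ autGroup (D.str 𝔹) := by
  have hE : ∀ a b, D.E (g a) (g b) ↔ D.E a b := fun a b =>
    iff_of_eq (congrFun (congrFun (congrArg Dat.E h) a) b)
  have hP : ∀ K a b, D.P (fun i => g (K i)) (g a) (g b) ↔ D.P K a b := fun K a b =>
    iff_of_eq (congrFun (congrFun (congrFun (congrArg Dat.P h) K) a) b)
  have hL : ∀ K, D.L (fun i => g (K i)) ↔ D.L K := fun K => iff_of_eq (congrFun (congrArg Dat.L h) K)
  have hC : ∀ {r : ℕ} (v : Fin r → ℕ), D.Clq (fun i => g (v i)) ↔ D.Clq v := fun v =>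
    forall_congr' fun i => forall_congr' fun j => imp_congr_right fun _ => hE _ _
  have hlab : ∀ v : Fin S.m → ℕ, D.Clq v → D.lab (fun i => g (v i)) = α (D.lab v) := by
    intro v hv
    have h1 := congrFun (congrArg Dat.lab h) v
    have h2 : (twist α D).lab v = α (D.lab v) := if_pos hv
    exact h1.trans h2
  have mQ : ∀ w, w ∈ D.relQ ↔ (fun j => g (w j)) ∈ D.relQ := by
    intro w
    constructor
    · rintro ⟨h1, h2⟩
      refine ⟨fun j => (hC _).2 (h1 j), ?_⟩
      show D.lab (fun a => g (blk w 0 a)) = D.lab (fun a => g (blk w 1 a))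
      rw [hlab _ (h1 0), hlab _ (h1 1), h2]
    · rintro ⟨h1, h2⟩
      have h1' : ∀ j, D.Clq (blk w j) := fun j => (hC _).1 (h1 j)
      refine ⟨h1', ?_⟩
      change D.lab (fun a => g (blk w 0 a)) = D.lab (fun a => g (blk w 1 a)) at h2
      rw [hlab _ (h1' 0), hlab _ (h1' 1)] at h2
      exact α.injective h2
  have mR : ∀ i w, w ∈ D.relR (𝔹 i) ↔ (fun j => g (w j)) ∈ D.relR (𝔹 i) := by
    intro i w
    have hiff := hα i
    constructor
    · rintro ⟨h1, h2⟩
      refine ⟨fun j => (hC _).2 (h1 j), ?_⟩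
      have h3 : (fun j => D.lab (fun a => g (blk w j a))) = fun j => α (D.lab (blk w j)) :=
        funext fun j => hlab _ (h1 j)
      show (fun j => D.lab (fun a => g (blk w j a))) ∈ 𝔹 i
      rw [h3]
      exact (hiff _).1 h2
    · rintro ⟨h1, h2⟩
      have h1' : ∀ j, D.Clq (blk w j) := fun j => (hC _).1 (h1 j)
      refine ⟨h1', ?_⟩
      have h3 : (fun j => D.lab (fun a => g (blk w j a))) = fun j => α (D.lab (blk w j)) :=
        funext fun j => hlab _ (h1' j)
      change (fun j => D.lab (fun a => g (blk w j a))) ∈ 𝔹 i at h2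
      rw [h3] at h2
      exact (hiff _).2 h2
  rintro (_ | _ | _ | _ | i) v
  · exact (hE _ _).symm
  · exact (hP _ _ _).symm
  · exact (hL _).symm
  · exact mQ v
  · exact mR i v

theorem str_homogeneous {D : Dat S ℕ} (hD : D.Ok) (hE : D.Ext) {𝔹 : Str σ ar S.A}
    (hB : Homogeneous 𝔹) (hW : ∀ α ∈ autGroup 𝔹, ∀ z ∈ S.W, (fun j => α (z j)) ∈ S.W) :
    Homogeneous (D.str 𝔹) := by
  classical
  intro F h hinj hrel
  have hEE : ∀ a ∈ F, ∀ b ∈ F, D.E (h a) (h b) ↔ D.E a b := by
    intro a ha b hb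
    have h1 := hrel .e ![a, b] (by
      intro j
      fin_cases j
      · exact ha
      · exact hb)
    exact h1.symm
  have hPP : ∀ K a b, (∀ i, K i ∈ F) → a ∈ F → b ∈ F →
      (D.P (fun i => h (K i)) (h a) (h b) ↔ D.P K a b) := by
    intro K a b hK ha hb
    have h1 := hrel .p (Fin.append K ![a, b]) (by
      intro j
      refine Fin.addCases (fun i => ?_) (fun i => ?_) j
      · rw [Fin.append_left]
        exact hK i
      · rw [Fin.append_right]
        fin_cases i
        · exact ha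
        · exact hb)
    have e1 : Fin.append K ![a, b] ∈ D.str 𝔹 .p ↔ D.P K a b := mem_relP
    have e2 : (fun j => h (Fin.append K ![a, b] j)) ∈ D.str 𝔹 .p ↔
        D.P (fun i => h (K i)) (h a) (h b) := by
      show D.P (fun i => h (Fin.append K ![a, b] (Fin.castAdd 2 i)))
        (h (Fin.append K ![a, b] (Fin.natAdd S.t 0))) (h (Fin.append K ![a, b] (Fin.natAdd S.t 1))) ↔ _
      simp only [Fin.append_left, Fin.append_right]
      exact Iff.rfl
    rw [← e1, ← e2]
    exact h1.symm
  have hLL : ∀ K, (∀ i, K i ∈ F) → (D.L (fun i => h (K i)) ↔ D.L K) := by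
    intro K hK
    exact (hrel .l K hK).symm
  have hCC : ∀ {r : ℕ} (v : Fin r → ℕ), (∀ i, v i ∈ F) → (D.Clq (fun i => h (v i)) ↔ D.Clq v) :=
    fun v hv => forall_congr' fun i => forall_congr' fun j => imp_congr_right fun _ =>
      hEE _ (hv i) _ (hv j)
  let V := {v : Fin S.m → F // D.Clq (fun i => (v i : ℕ))}
  have hC1 : ∀ v : V, D.Clq (fun a => (v.1 a : ℕ)) := fun v => v.2
  have hC2 : ∀ v : V, D.Clq (fun a => h (v.1 a : ℕ)) := fun v =>
    (hCC (fun a => (v.1 a : ℕ)) (fun a => (v.1 a).2)).2 v.2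
  obtain ⟨α, hα, hαv⟩ := hom_same hB (V := V) (fun v => D.lab (fun a => (v.1 a : ℕ)))
    (fun v => D.lab (fun a => h (v.1 a : ℕ))) (by
      intro v w
      have h1 := hrel (.lb none) (bmk ![fun a => (v.1 a : ℕ), fun a => (w.1 a : ℕ)]) (by
        intro j
        show (![fun a => (v.1 a : ℕ), fun a => (w.1 a : ℕ)] _ _) ∈ F
        generalize (finProdFinEquiv.symm j).1 = x
        fin_cases x
        · exact (v.1 _).2
        · exact (w.1 _).2)
      have e1 : bmk ![fun a => (v.1 a : ℕ), fun a => (w.1 a : ℕ)] ∈ D.str 𝔹 (.lb none) ↔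
          D.lab (fun a => (v.1 a : ℕ)) = D.lab (fun a => (w.1 a : ℕ)) :=
        (mem_relQ (D := D)).trans ⟨fun h => h.2.2, fun h => ⟨hC1 v, hC1 w, h⟩⟩
      have e2 : (fun j => h (bmk ![fun a => (v.1 a : ℕ), fun a => (w.1 a : ℕ)] j)) ∈
          D.str 𝔹 (.lb none) ↔ D.lab (fun a => h (v.1 a : ℕ)) = D.lab (fun a => h (w.1 a : ℕ)) := by
        rw [mk_pair]
        exact (mem_relQ (D := D)).trans ⟨fun h => h.2.2, fun h => ⟨hC2 v, hC2 w, h⟩⟩
      rw [← e1, ← e2]
      exact h1) (by
      intro i s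
      have h1 := hrel (.lb (some i)) (bmk (fun j a => ((s j).1 a : ℕ))) (by
        intro j
        exact ((s _).1 _).2)
      have e1 : bmk (fun j a => ((s j).1 a : ℕ)) ∈ D.str 𝔹 (.lb (some i)) ↔
          (fun j => D.lab (fun a => ((s j).1 a : ℕ))) ∈ 𝔹 i :=
        (mem_relR (D := D) _).trans ⟨fun h => h.2, fun h => ⟨fun j => hC1 (s j), h⟩⟩
      have e2 : (fun x => h (bmk (fun j a => ((s j).1 a : ℕ)) x)) ∈ D.str 𝔹 (.lb (some i)) ↔
          (fun j => D.lab (fun a => h ((s j).1 a : ℕ))) ∈ 𝔹 i :=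
        (mem_relR (D := D) (fun j a => h ((s j).1 a : ℕ))).trans
          ⟨fun h => h.2, fun h => ⟨fun j => hC2 (s j), h⟩⟩
      exact (e1.symm.trans (h1.trans e2)))
  have hgood : Good (twist α D) D (F.image (fun x => (x, h x))) := by
    have hz : ∀ z : {z // z ∈ F.image (fun x => (x, h x))}, z.1.1 ∈ F ∧ z.1.2 = h z.1.1 := by
      rintro ⟨z, hz⟩
      rw [Finset.mem_image] at hz
      obtain ⟨x, hx, rfl⟩ := hz
      exact ⟨hx, rfl⟩
    constructor
    · intro x hx y hy
      rw [Finset.mem_image] at hx hy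
      obtain ⟨x, hx, rfl⟩ := hx
      obtain ⟨y, hy, rfl⟩ := hy
      simp only
      exact ⟨fun e => by rw [e], hinj x hx y hy⟩
    · have h2 : (fun z : {z // z ∈ F.image (fun x => (x, h x))} => z.1.2) = fun z => h z.1.1 :=
        funext fun z => (hz z).2
      rw [h2]
      apply ext_of
      · funext a b
        exact propext (hEE _ (hz a).1 _ (hz b).1).symm
      · funext K a b
        exact propext (hPP _ _ _ (fun i => (hz (K i)).1) (hz a).1 (hz b).1).symm
      · funext K
        exact propext (hLL _ (fun i => (hz (K i)).1)).symm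
      · funext v
        by_cases hv : D.Clq (fun i => (v i).1.1)
        · have h3 : ((twist α D).pull (fun z : {z // z ∈ F.image (fun x => (x, h x))} => z.1.1)).lab v =
            α (D.lab (fun i => (v i).1.1)) := if_pos hv
          rw [h3]
          exact hαv ⟨fun i => ⟨(v i).1.1, (hz (v i)).1⟩, hv⟩
        · have h3 : ((twist α D).pull (fun z : {z // z ∈ F.image (fun x => (x, h x))} => z.1.1)).lab v =
            S.a₀ := if_neg hv
          rw [h3]
          symm
          apply hD.n0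
          intro h4
          exact hv ((hCC (fun i => (v i).1.1) (fun i => (hz (v i)).1)).1 h4)
  obtain ⟨g, hg, hg'⟩ := Ext.iso (twist_ok (hW α hα) hD) hD
    (twist_ext (hW α.symm ((autGroup 𝔹).inv_mem hα)) hD hE) hE _ hgood
  exact ⟨g, mem_autGroup hα hg', fun x hx => hg _ (Finset.mem_image_of_mem _ hx)⟩

theorem twist_one {D : Dat S X} (hD : ∀ v, ¬ D.Clq v → D.lab v = S.a₀) : twist 1 D = D := by
  refine ext_of (D₁ := twist 1 D) (D₂ := D) rfl rfl rfl ?_
  funext v
  by_cases h : D.Clq v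
  · exact if_pos h
  · exact (if_neg h).trans (hD v h).symm

/-- isomorphisms between small induced subgraphs extend -/
theorem graph_homogeneous {D : Dat S ℕ} (hD : D.Ok) (hE : D.Ext) (𝔹 : Str σ ar S.A) {k : ℕ}
    (hk : k < S.t) (hkm : k < S.m) (u v : Fin k → ℕ) (hu : Injective u) (hv : Injective v)
    (huv : ∀ i j, D.E (u i) (u j) ↔ D.E (v i) (v j)) :
    ∃ g ∈ autGroup (D.str 𝔹), ∀ i, g (u i) = v i := by
  classical
  have hz : ∀ z : {z // z ∈ Finset.univ.image (fun i => (u i, v i))}, ∃ i, z.1 = (u i, v i) := by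
    rintro ⟨z, hz⟩
    rw [Finset.mem_image] at hz
    obtain ⟨i, -, rfl⟩ := hz
    exact ⟨i, rfl⟩
  choose c hc using hz
  have hcinj : Injective c := by
    intro z z' h
    apply Subtype.ext
    rw [hc z, hc z', h]
  have hnc : ∀ {r : ℕ} (K : Fin r → {z // z ∈ Finset.univ.image (fun i => (u i, v i))})
      (f : {z // z ∈ Finset.univ.image (fun i => (u i, v i))} → ℕ), k < r → ¬ D.Clq (fun i => f (K i)) := by
    intro r K f hr hcl
    have h1 : Injective (fun i => c (K i)) := by
      intro i j hij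
      by_contra hne
      have h2 := hcl i j hne
      have h3 : K i = K j := hcinj hij
      simp only [h3] at h2
      exact hD.irr _ h2
    have h2 := Fintype.card_le_of_injective _ h1
    simp at h2
    omega
  have hgood : Good D D (Finset.univ.image (fun i => (u i, v i))) := by
    constructor
    · intro x hx y hy
      rw [Finset.mem_image] at hx hy
      obtain ⟨i, -, rfl⟩ := hx
      obtain ⟨j, -, rfl⟩ := hy
      simp only
      exact ⟨fun e => by rw [hu e], fun e => by rw [hv e]⟩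
    · apply ext_of
      · funext a b
        show D.E a.1.1 b.1.1 = D.E a.1.2 b.1.2
        rw [hc a, hc b]
        exact propext (huv _ _)
      · funext K a b
        apply propext
        constructor
        · intro h
          exact absurd (hD.p0 _ _ _ h).1.1 (hnc K (fun z => z.1.1) hk)
        · intro h
          exact absurd (hD.p0 _ _ _ h).1.1 (hnc K (fun z => z.1.2) hk)
      · funext K
        apply propext
        constructor
        · intro h
          exact absurd (hD.l0 _ h) (hnc K (fun z => z.1.1) hk)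
        · intro h
          exact absurd (hD.l0 _ h) (hnc K (fun z => z.1.2) hk)
      · funext K
        exact (hD.n0 _ (hnc K (fun z => z.1.1) hkm)).trans (hD.n0 _ (hnc K (fun z => z.1.2) hkm)).symm
  obtain ⟨g, hg, hg'⟩ := Ext.iso hD hD hE hE _ hgood
  refine ⟨g, mem_autGroup (autGroup 𝔹).one_mem (α := 1) ?_, fun i => ?_⟩
  · rw [twist_one hD.n0]
    exact hg'
  · exact hg (u i, v i) (Finset.mem_image_of_mem _ (Finset.mem_univ i))

theorem str_noAlgebraicity {D : Dat S ℕ} (hD : D.Ok) (hE : D.Ext) (𝔹 : Str σ ar S.A) :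
    Pool.Agent.E8helper92.BP.NoAlgebraicity (autGroup (D.str 𝔹)) := by
  classical
  intro F a ha hfin
  have hgood : Good D D (F.image (fun x => (x, x))) := by
    have hz : ∀ z : {z // z ∈ F.image (fun x => (x, x))}, z.1.2 = z.1.1 := by
      rintro ⟨z, hz⟩
      rw [Finset.mem_image] at hz
      obtain ⟨x, hx, rfl⟩ := hz
      rfl
    constructor
    · intro x hx y hy
      rw [Finset.mem_image] at hx hy
      obtain ⟨x, hx, rfl⟩ := hx
      obtain ⟨y, hy, rfl⟩ := hy
      exact Iff.rfl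
    · congr 1
      funext z
      exact (hz z).symm
  obtain ⟨b, hb, -, hb'⟩ := hgood.forth hD hE hfin.toFinset a (by
    intro b hb
    rw [Finset.mem_image] at hb
    obtain ⟨x, hx, hx'⟩ := hb
    simp only [Prod.mk.injEq] at hx'
    rw [hx'.1] at hx
    exact ha hx)
  obtain ⟨g, hg, hg'⟩ := Ext.iso hD hD hE hE _ hb'
  apply hb
  rw [Set.Finite.mem_toFinset]
  refine ⟨g, mem_autGroup (autGroup 𝔹).one_mem (α := 1) ?_, fun x hx => ?_, ?_⟩
  · rw [twist_one hD.n0]
    exact hg'
  · exact hg (x, x) (Finset.mem_insert_of_mem (Finset.mem_image_of_mem _ hx))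
  · exact hg (a, b) (Finset.mem_insert_self _ _)

/-- all small graphs embed -/
theorem graph_universal {D : Dat S ℕ} (hE : D.Ext) {k : ℕ}
    (hk : k < S.t) (hkm : k < S.m) (R : Fin k → Fin k → Prop) (hs : ∀ i j, R i j → R j i)
    (hi : ∀ i, ¬ R i i) :
    ∃ e : Fin k → ℕ, Injective e ∧ ∀ i j, D.E (e i) (e j) ↔ R i j := by
  let Q : Dat S (Fin k) := {
    E := R
    P := fun _ _ _ => False
    L := fun _ => False
    lab := fun _ => S.a₀ }
  have hnc : ∀ {r : ℕ} (v : Fin r → Fin k), Q.Clq v → r ≤ k := by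
    intro r v hv
    have h1 := Clq.inj (D := Q) hi hv
    have h2 := Fintype.card_le_of_injective _ h1
    simpa using h2
  have hQ : Q.Ok := {
    symm := hs
    irr := hi
    p0 := fun _ _ _ h => h.elim
    l0 := fun _ h => h.elim
    r1 := by
      intro K a b c h1 _ _ _ _ _
      have := hnc _ h1.1
      omega
    r2 := fun _ _ _ _ h => h.elim
    n0 := fun _ _ => rfl
    tr := by
      intro w hw
      have h1 := hnc _ hw.1
      have h2 := S.hN
      omega }
  obtain ⟨e, he, -, h⟩ := hE.embed hQ ∅ (good_empty Q D)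
  refine ⟨e, he, fun i j => ?_⟩
  have h1 := congrFun (congrFun (congrArg Dat.E h) i) j
  exact iff_of_eq h1

end Dat

end Pool.Agent.H725.UG
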