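import Pool.Agent.H725.UG.Glue
import Pool.Agent.H725.UG.Hom

/-!
# The pattern
-/

set_option autoImplicit false

namespace Pool.Agent.H725.UG

open Function
open Pool.Agent.E8helper92.BP (blk)

/-- pairs of distinct colours -/
abbrev Th : Type := {θ : Fin 3 × Fin 3 // θ.1 ≠ θ.2}

instance : Nonempty Th := ⟨⟨(0, 1), by decide⟩⟩

/-- the first ends of the edges of the pattern -/
def psrc : Fin 6 → Fin 5 := ![0, 0, 1, 1, 2, 3]

/-- the second ends of the edges of the pattern -/
def ptgt : Fin 6 → Fin 5 := ![1, 2, 2, 3, 3, 4]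

theorem p_ne : ∀ e, psrc e ≠ ptgt e := by decide

theorem p_dist : ∀ e e' v, (psrc e = 0 ∨ ptgt e = 0) → (psrc e' = 4 ∨ ptgt e' = 4) →
    (psrc e = v ∨ ptgt e = v) → (psrc e' = v ∨ ptgt e' = v) → False := by decide

theorem p_edge : ∀ v, ∃ e, psrc e = v ∨ ptgt e = v := by decide

/-- proper colourings of the pattern -/
def Proper (κ : Fin 5 → Fin 3) : Prop := ∀ e, κ (psrc e) ≠ κ (ptgt e)

theorem p_col (i j : Fin 3) (hij : i ≠ j) : ∃ κ, Proper κ ∧ κ 0 = i ∧ κ 4 = j := by
  have h : ∀ i j : Fin 3, i ≠ j → ∃ k : Fin 3, ∀ e, (![i, j, k, i, j] : Fin 5 → Fin 3) (psrc e) ≠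
      (![i, j, k, i, j] : Fin 5 → Fin 3) (ptgt e) := by decide
  obtain ⟨k, hk⟩ := h i j hij
  exact ⟨_, hk, rfl, rfl⟩

theorem p_sep (κ : Fin 5 → Fin 3) (h : Proper κ) : κ 0 ≠ κ 4 := by
  have h0 := h 0
  have h1 := h 1
  have h2 := h 2
  have h3 := h 3
  have h4 := h 4
  have h5 := h 5
  have key : ∀ a b c d e : Fin 3, (a ≠ b ∧ a ≠ c ∧ b ≠ c ∧ b ≠ d ∧ c ≠ d ∧ d ≠ e) → a ≠ e := by
    decide
  exact key (κ 0) (κ 1) (κ 2) (κ 3) (κ 4) ⟨h0, h1, h2, h3, h4, h5⟩

theorem exists_th1 : ∀ i : Fin 3, ∃ θ : Th, θ.1.1 = i := by decide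

theorem exists_th2 : ∀ i : Fin 3, ∃ θ : Th, θ.1.2 = i := by decide

/-- the values of the classes of coordinates and of the classes of variables -/
structure Frame (Sc Uc : Type) where
  /-- values of the classes of coordinates -/
  vS : Sc → Fin 3 → ℕ
  /-- values of the classes of variables -/
  vU : Uc → Th → ℕ
  /-- the first copy -/
  X : Sc → Uc
  /-- the second copy -/
  Y : Sc → Uc
  hvS : Injective vS
  hvU : Injective vU
  hX : ∀ s θ, vU (X s) θ = vS s θ.1.1
  hY : ∀ s θ, vU (Y s) θ = vS s θ.1.2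

namespace Frame

variable {Sc Uc : Type} (F : Frame Sc Uc)

/-- the constant classes -/
def cst (s : Sc) : Prop := ∀ i j, F.vS s i = F.vS s j

theorem chart : Chart F.cst F.X F.Y where
  hX := by
    intro s s' h
    apply F.hvS
    funext i
    obtain ⟨θ, rfl⟩ := exists_th1 i
    rw [← F.hX, h, F.hX]
  hY := by
    intro s s' h
    apply F.hvS
    funext i
    obtain ⟨θ, rfl⟩ := exists_th2 i
    rw [← F.hY, h, F.hY]
  hXY := by
    intro s s' h
    have h1 : ∀ i j, i ≠ j → F.vS s i = F.vS s' j := by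
      intro i j hij
      have h2 := F.hX s ⟨(i, j), hij⟩
      rw [h, F.hY] at h2
      exact h2.symm
    have h3 : ∀ i j : Fin 3, ∃ k, i ≠ k ∧ j ≠ k := by decide
    have h4 : F.cst s := by
      intro i j
      obtain ⟨k, hk, hk'⟩ := h3 i j
      rw [h1 i k hk, h1 j k hk']
    refine ⟨F.hvS ?_, h4⟩
    funext i
    obtain ⟨k, hk, -⟩ := h3 i i
    rw [h4 i k, h1 k i hk.symm]
  hc := by
    intro s h
    apply F.hvU
    funext θ
    rw [F.hX, F.hY]
    exact h _ _

/-- the type of points of the pattern -/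
abbrev Pt : Type := Bs F.cst (Fin 5) ⊕ (Fin 6 × Uc)

/-- the copies of the classes of variables in the pattern -/
noncomputable def em : Fin 6 → Uc → F.Pt := emb F.X F.Y psrc ptgt

/-- the copies of the classes of coordinates in the pattern -/
noncomputable def ba (v : Fin 5) (s : Sc) : F.Pt := Sum.inl (bs v s)

theorem ba_inj (v : Fin 5) : Injective (F.ba v) := fun _ _ h => bs_inj v (Sum.inl_injective h)

theorem em_inj (e : Fin 6) : Injective (F.em e) := emb_inj F.chart (p_ne e)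

theorem em_X (e : Fin 6) (s : Sc) : F.em e (F.X s) = F.ba (psrc e) s := emb_X F.chart e s

theorem em_Y (e : Fin 6) (s : Sc) : F.em e (F.Y s) = F.ba (ptgt e) s := emb_Y F.chart e s

variable {S : Sp} (D : Dat S ℕ)

/-- the structure on the classes of coordinates -/
def Q0 : Dat S Sc := (D.pow (Fin 3)).pull F.vS

/-- the structure on the classes of variables -/
def QU : Dat S Uc := (D.pow Th).pull F.vU

/-- the structure on the pattern -/
noncomputable def G : Dat S F.Pt := Dat.glue F.em (F.QU D)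

variable {D}

theorem Q0_ok (hD : D.GOk) : (F.Q0 D).GOk := (Dat.pow_ok hD _).pull F.hvS

theorem QU_ok (hD : D.GOk) : (F.QU D).GOk := (Dat.pow_ok hD _).pull F.hvU

theorem QU_X : (F.QU D).pull F.X = F.Q0 D := by
  apply Dat.ext_of
  · funext a b
    apply propext
    constructor
    · intro h i
      obtain ⟨θ, rfl⟩ := exists_th1 i
      have := h θ
      rw [F.hX, F.hX] at this
      exact this
    · intro h θ
      rw [F.hX, F.hX]
      exact h _
  · funext K a b
    apply propext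
    constructor
    · rintro ⟨hne, h⟩
      refine ⟨fun hab => hne (by rw [F.hvS hab]), fun i => ?_⟩
      obtain ⟨θ, rfl⟩ := exists_th1 i
      have := h θ
      simp only [F.hX] at this
      exact this
    · rintro ⟨hne, h⟩
      refine ⟨fun hab => hne (by rw [F.chart.hX (F.hvU hab)]), fun θ => ?_⟩
      simp only [F.hX]
      exact h _
  · funext K
    apply propext
    constructor
    · intro h i
      obtain ⟨θ, rfl⟩ := exists_th1 i
      have := h θ
      simp only [F.hX] at this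
      exact this
    · intro h θ
      simp only [F.hX]
      exact h _
  · rfl

theorem QU_Y : (F.QU D).pull F.Y = F.Q0 D := by
  apply Dat.ext_of
  · funext a b
    apply propext
    constructor
    · intro h i
      obtain ⟨θ, rfl⟩ := exists_th2 i
      have := h θ
      rw [F.hY, F.hY] at this
      exact this
    · intro h θ
      rw [F.hY, F.hY]
      exact h _
  · funext K a b
    apply propext
    constructor
    · rintro ⟨hne, h⟩
      refine ⟨fun hab => hne (by rw [F.hvS hab]), fun i => ?_⟩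
      obtain ⟨θ, rfl⟩ := exists_th2 i
      have := h θ
      simp only [F.hY] at this
      exact this
    · rintro ⟨hne, h⟩
      refine ⟨fun hab => hne (by rw [F.chart.hY (F.hvU hab)]), fun θ => ?_⟩
      simp only [F.hY]
      exact h _
  · funext K
    apply propext
    constructor
    · intro h i
      obtain ⟨θ, rfl⟩ := exists_th2 i
      have := h θ
      simp only [F.hY] at this
      exact this
    · intro h θ
      simp only [F.hY]
      exact h _
  · rfl

/-- the map of the pattern given by a proper colouring -/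
def hom (κ : Fin 5 → Fin 3) (hκ : Proper κ) : F.Pt → ℕ
  | Sum.inl (Sum.inl s) => F.vS s.1 0
  | Sum.inl (Sum.inr (v, s)) => F.vS s.1 (κ v)
  | Sum.inr (e, u) => F.vU u ⟨(κ (psrc e), κ (ptgt e)), hκ e⟩

theorem hom_ba {κ : Fin 5 → Fin 3} (hκ : Proper κ) (v : Fin 5) (s : Sc) :
    F.hom κ hκ (F.ba v s) = F.vS s (κ v) := by
  unfold ba
  by_cases h : F.cst s
  · rw [bs_cst v h]
    exact h _ _
  · rw [bs_ncst v h]
    rfl

theorem hom_em {κ : Fin 5 → Fin 3} (hκ : Proper κ) (e : Fin 6) (u : Uc) :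
    F.hom κ hκ (F.em e u) = F.vU u ⟨(κ (psrc e), κ (ptgt e)), hκ e⟩ := by
  rcases cases_U F.X F.Y u with ⟨s, rfl⟩ | ⟨s, rfl⟩ | ⟨h1, h2⟩
  · rw [em_X, hom_ba, F.hX]
  · rw [em_Y, hom_ba, F.hY]
  · unfold em
    rw [emb_other h1 h2]
    rfl

theorem hom_em_whom {κ : Fin 5 → Fin 3} (hκ : Proper κ) (e : Fin 6) :
    Dat.WHom (F.QU D) D (fun u => F.hom κ hκ (F.em e u)) := by
  have h1 := (Dat.pow_proj D Th ⟨(κ (psrc e), κ (ptgt e)), hκ e⟩).comp_pull F.vU
  have h2 : (fun u => F.hom κ hκ (F.em e u)) = fun u => F.vU u ⟨(κ (psrc e), κ (ptgt e)), hκ e⟩ :=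
    funext fun u => F.hom_em hκ e u
  rw [h2]
  exact h1

theorem hom_whom (hD : D.GOk) {κ : Fin 5 → Fin 3} (hκ : Proper κ) : Dat.WHom (F.G D) D (F.hom κ hκ) :=
  Dat.glue_whom hD _ (fun e => F.hom_em_whom hκ e)

theorem G_ok (hD : D.GOk) : (F.G D).GOk := by
  obtain ⟨κ, hκ, -⟩ := p_col 0 1 (by decide)
  exact Dat.glue_ok hD (F.QU_ok hD) F.em_inj _ (fun e => F.hom_em_whom hκ e)

/-- the copies of the coordinates at the two ends of the pattern carry the right structure -/
theorem G_ba (hD : D.GOk) (v : Fin 5) (hv : ∀ i, ∃ κ, Proper κ ∧ κ v = i) :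
    (F.G D).pull (F.ba v) = F.Q0 D := by
  have hGok := F.G_ok hD
  obtain ⟨e, he⟩ := p_edge v
  have hchart : ∃ f : Sc → Uc, (∀ s, F.em e (f s) = F.ba v s) ∧ (F.QU D).pull f = F.Q0 D := by
    rcases he with he | he
    · exact ⟨F.X, fun s => by rw [em_X, he], F.QU_X⟩
    · exact ⟨F.Y, fun s => by rw [em_Y, he], F.QU_Y⟩
  obtain ⟨f, hf, hfQ⟩ := hchart
  have hpw : ∀ {i : Fin 3} {κ : Fin 5 → Fin 3} (hκ : Proper κ), κ v = i → ∀ s, F.hom κ hκ (F.ba v s) = F.vS s i := by
    intro i κ hκ h s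
    rw [hom_ba, h]
  apply Dat.ext_of
  · funext a b
    apply propext
    constructor
    · intro h i
      obtain ⟨κ, hκ, hi⟩ := hv i
      have h1 := (F.hom_whom hD hκ).e _ _ h
      rw [hpw hκ hi, hpw hκ hi] at h1
      exact h1
    · intro h
      rw [← hfQ] at h
      exact ⟨e, f a, f b, hf a, hf b, h⟩
  · funext K a b
    apply propext
    constructor
    · intro h
      refine ⟨?_, fun i => ?_⟩
      · intro hab
        apply (hGok.p0 _ _ _ h).2.2.1
        rw [F.hvS hab]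
      · obtain ⟨κ, hκ, hi⟩ := hv i
        have h1 := (F.hom_whom hD hκ).p _ _ _ h
        simp only [hpw hκ hi] at h1
        exact h1
    · intro h
      rw [← hfQ] at h
      exact Or.inl ⟨e, fun x => f (K x), f a, f b, fun x => hf _, hf a, hf b, h⟩
  · funext K
    apply propext
    constructor
    · intro h i
      obtain ⟨κ, hκ, hi⟩ := hv i
      have h1 := (F.hom_whom hD hκ).l _ h
      simp only [hpw hκ hi] at h1
      exact h1
    · intro h
      rw [← hfQ] at h
      exact Or.inl ⟨e, fun x => f (K x), fun x => hf _, h⟩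
  · rfl

theorem p_col0 : ∀ i, ∃ κ, Proper κ ∧ κ 0 = i := by
  intro i
  have h : ∀ i : Fin 3, ∃ j, i ≠ j := by decide
  obtain ⟨j, hj⟩ := h i
  obtain ⟨κ, hκ, h1, -⟩ := p_col i j hj
  exact ⟨κ, hκ, h1⟩

theorem p_col4 : ∀ i, ∃ κ, Proper κ ∧ κ 4 = i := by
  intro i
  have h : ∀ i : Fin 3, ∃ j, j ≠ i := by decide
  obtain ⟨j, hj⟩ := h i
  obtain ⟨κ, hκ, -, h1⟩ := p_col j i hj
  exact ⟨κ, hκ, h1⟩

/-- the two ends of the pattern -/
def en (b : Bool) : Fin 5 := cond b 4 0

theorem G_en (hD : D.GOk) (b : Bool) : (F.G D).pull (F.ba (en b)) = F.Q0 D := by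
  cases b
  · exact F.G_ba hD 0 p_col0
  · exact F.G_ba hD 4 p_col4

/-- the two ends of the pattern together -/
noncomputable def two (y : Bs F.cst Bool) : F.Pt := Sum.inl (bmap en y)

theorem en_inj : Injective en := by
  intro a b h
  cases a <;> cases b <;> simp_all [en]

theorem two_inj : Injective F.two := fun _ _ h => bmap_inj en_inj (Sum.inl_injective h)

theorem two_bs (b : Bool) (s : Sc) : F.two (bs b s) = F.ba (en b) s := by
  unfold two ba
  rw [bmap_bs]

theorem touch {e : Fin 6} {u : Uc} {b : Bool} {s : Sc} (hs : ¬ F.cst s)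
    (h : F.em e u = F.ba (en b) s) : psrc e = en b ∨ ptgt e = en b := emb_base F.chart hs h

theorem two_h1 (a b : Bs F.cst Bool) (h : (F.G D).E (F.two a) (F.two b)) :
    bcomp a = none ∨ bcomp b = none ∨ bcomp a = bcomp b := by
  rcases ha : bcomp a with _ | i
  · exact Or.inl rfl
  rcases hb : bcomp b with _ | j
  · exact Or.inr (Or.inl rfl)
  right; right
  by_cases hij : i = j
  · rw [hij]
  exfalso
  obtain ⟨s, hs, rfl⟩ := bcomp_ncst ha
  obtain ⟨s', hs', rfl⟩ := bcomp_ncst hb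
  obtain ⟨e, u, u', h1, h2, -⟩ := h
  rw [two_bs] at h1 h2
  have t1 := F.touch hs h1
  have t2 := F.touch hs' h2
  cases i <;> cases j
  · exact hij rfl
  · exact p_dist e e 0 t1 t2 t1 t1
  · exact p_dist e e 0 t2 t1 t2 t2
  · exact hij rfl

theorem two_path {K : Fin S.t → F.Pt} {a c : Bs F.cst Bool} {i j : Bool} (ha : bcomp a = some i)
    (hc : bcomp c = some j) (hij : i ≠ j) (b : F.Pt) (h1 : (F.G D).E (F.two a) b)
    (h2 : (F.G D).E b (F.two c)) : ∃ y, b = F.two y := by
  obtain ⟨s, hs, rfl⟩ := bcomp_ncst ha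
  obtain ⟨s', hs', rfl⟩ := bcomp_ncst hc
  obtain ⟨e, u, u', g1, g2, -⟩ := h1
  obtain ⟨e', v, v', g3, g4, -⟩ := h2
  rw [two_bs] at g1 g4
  have t1 := F.touch hs g1
  have t2 := F.touch hs' g4
  rcases emb_common F.chart (g2.trans g3.symm) with ⟨y, hy⟩ | ⟨w, hw1, hw2⟩
  · refine ⟨Sum.inl y, ?_⟩
    rw [← g2]
    exact hy
  · exfalso
    cases i <;> cases j
    · exact hij rfl
    · exact p_dist e e' w t1 t2 hw1 hw2
    · exact p_dist e' e w t2 t1 hw2 hw1
    · exact hij rfl

theorem two_h3 (hD : D.GOk) (K : Fin S.t → Bs F.cst Bool) (a c : Bs F.cst Bool) (i j : Bool)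
    (ha : bcomp a = some i) (hc : bcomp c = some j) (hij : i ≠ j) :
    ((F.G D).pull F.two).P K a c ↔ ((F.G D).pull F.two).Lk K a ∧ ((F.G D).pull F.two).Lk K c ∧
      ∃ b, ((F.G D).pull F.two).Lk K b ∧ ((F.G D).pull F.two).E a b ∧ ((F.G D).pull F.two).E b c := by
  have hGok := F.G_ok hD
  constructor
  · intro h
    obtain ⟨h1, h2, -⟩ := hGok.p0 _ _ _ h
    refine ⟨h1, h2, ?_⟩
    rcases h with ⟨e, K', a', c', -, g1, g2, -⟩ | ⟨-, -, -, b, g3, g4, g5⟩
    · exfalso
      obtain ⟨s, hs, rfl⟩ := bcomp_ncst ha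
      obtain ⟨s', hs', rfl⟩ := bcomp_ncst hc
      rw [two_bs] at g1 g2
      have t1 := F.touch hs g1
      have t2 := F.touch hs' g2
      cases i <;> cases j
      · exact hij rfl
      · exact p_dist e e 0 t1 t2 t1 t1
      · exact p_dist e e 0 t2 t1 t2 t2
      · exact hij rfl
    · obtain ⟨y, rfl⟩ := F.two_path (K := fun x => F.two (K x)) ha hc hij b g4 g5
      exact ⟨y, g3, g4, g5⟩
  · rintro ⟨h1, h2, b, h3, h4, h5⟩
    refine hGok.r1 _ _ _ _ h1 h3 h2 h4 h5 ?_
    intro h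
    have := F.two_inj h
    rw [this, hc] at ha
    exact hij (Option.some.inj ha).symm

end Frame

end Pool.Agent.H725.UG
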