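import Pool.Agent.H725.UG.Amal

/-!
# The generic structure
-/

set_option autoImplicit false

namespace Pool.Agent.H725.UG

open Function
open Pool.Agent.E8helper92.BP (blk)

namespace Dat

variable {S : Sp} {X Y : Type}

/-- the one-point extension property -/
def Ext (D : Dat S ℕ) : Prop :=
  ∀ (Z : Type) [Finite Z] (Q : Dat S (Option Z)) (e : Z → ℕ) (G : Finset ℕ), Q.Ok → Injective e →
    Q.pull some = D.pull e → ∃ n, n ∉ G ∧ (∀ z, e z ≠ n) ∧ Q = D.pull (fun o => o.elim n e)

/-- the tasks -/
abbrev Task (S : Sp) : Type := Σ j : ℕ, Dat S (Option (Fin j)) × (Fin j → ℕ)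

theorem countable_dat [Countable S.A] [Finite X] : Countable (Dat S X) := by
  let f : Dat S X → (X → X → Prop) × ((Fin S.t → X) → X → X → Prop) × ((Fin S.t → X) → Prop) ×
      ((Fin S.m → X) → S.A) := fun D => (D.E, D.P, D.L, D.lab)
  have hf : Injective f := by
    intro D D' h
    simp only [f, Prod.mk.injEq] at h
    exact ext_of h.1 h.2.1 h.2.2.1 h.2.2.2
  exact hf.countable

/-- one step of the construction -/
theorem step {n : ℕ} (D : Dat S (Fin n)) (hD : D.Ok) (τ : Task S) :
    ∃ D' : Dat S (Fin (n + 1)), D'.Ok ∧ D'.pull Fin.castSucc = D ∧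
      ∀ h : ∀ i, τ.2.2 i < n, Injective τ.2.2 → τ.2.1.Ok →
        τ.2.1.pull some = D.pull (fun i => ⟨τ.2.2 i, h i⟩) →
        τ.2.1 = D'.pull (fun o => o.elim (Fin.last n) (fun i => Fin.castSucc ⟨τ.2.2 i, h i⟩)) := by
  classical
  -- the amalgam of `D` with a structure `Q` on `Option Z`
  have key : ∀ (Z : Type) (Q : Dat S (Option Z)) (e : Z → Fin n), Injective e → Q.Ok →
      Q.pull some = D.pull e → ∃ D' : Dat S (Fin (n + 1)), D'.Ok ∧ D'.pull Fin.castSucc = D ∧
        Q = D'.pull (fun o => o.elim (Fin.last n) (fun i => Fin.castSucc (e i))) := by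
    intro Z Q e he hQ hQD
    let el : Option Z → Fin (n + 1) := fun o => o.elim (Fin.last n) (fun i => Fin.castSucc (e i))
    have hel : Injective el := by
      rintro (_ | a) (_ | b) h
      · rfl
      · exact absurd h.symm (Fin.castSucc_lt_last _).ne
      · exact absurd h (Fin.castSucc_lt_last _).ne
      · exact congrArg some (he (Fin.castSucc_injective _ h))
    let comp : Fin (n + 1) → Option Bool := fun x => if x = Fin.last n then some true
      else if ∃ z, Fin.castSucc (e z) = x then none else some false
    let Z' : Bool → Type := fun b => match b with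
      | true => Option Z
      | false => Fin n
    let f : ∀ b, Z' b → Fin (n + 1) := fun b => match b with
      | true => el
      | false => Fin.castSucc
    let Q' : ∀ b, Dat S (Z' b) := fun b => match b with
      | true => Q
      | false => D
    have hov : ∀ (o : Option Z) (x : Fin n), el o = Fin.castSucc x → ∃ z, o = some z ∧ e z = x := by
      rintro (_ | z) x h
      · exact absurd h.symm (Fin.castSucc_lt_last _).ne
      · exact ⟨z, rfl, Fin.castSucc_injective _ h⟩
    have hc1 : Q.pull (fun p : {p : Option Z × Fin n // el p.1 = Fin.castSucc p.2} => p.1.1) =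
        D.pull (fun p : {p : Option Z × Fin n // el p.1 = Fin.castSucc p.2} => p.1.2) := by
      choose g hg1 hg2 using fun p : {p : Option Z × Fin n // el p.1 = Fin.castSucc p.2} =>
        hov p.1.1 p.1.2 p.2
      have h1 : (fun p : {p : Option Z × Fin n // el p.1 = Fin.castSucc p.2} => p.1.1) =
          fun p => some (g p) := funext hg1
      have h2 : (fun p : {p : Option Z × Fin n // el p.1 = Fin.castSucc p.2} => p.1.2) =
          fun p => e (g p) := funext fun p => (hg2 p).symm
      rw [h1, h2]
      exact congrArg (fun B : Dat S Z => B.pull g) hQD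
    obtain ⟨D', hD', hpull, -, -⟩ := amalgam comp Z' f (by
        rintro (_ | _)
        · exact Fin.castSucc_injective _
        · exact hel) (by
        rintro (_ | _) y
        · show (∃ z, Fin.castSucc z = y) ↔ _
          rw [Fin.exists_castSucc_eq]
          simp only [comp]
          split_ifs with h h' <;> simp [h]
        · show (∃ z, el z = y) ↔ _
          simp only [comp]
          constructor
          · rintro ⟨_ | z, rfl⟩
            · exact Or.inr (if_pos rfl)
            · left
              have h1 : el (some z) ≠ Fin.last n := (Fin.castSucc_lt_last (e z)).ne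
              rw [if_neg h1, if_pos ⟨z, rfl⟩]
          · intro h
            by_cases h1 : y = Fin.last n
            · exact ⟨none, h1.symm⟩
            · by_cases h2 : ∃ z, Fin.castSucc (e z) = y
              · obtain ⟨z, hz⟩ := h2
                exact ⟨some z, hz⟩
              · rw [if_neg h1, if_neg h2] at h
                simp at h) Q' (by
        rintro (_ | _)
        · exact hD
        · exact hQ) (by
        rintro (_ | _) (_ | _)
        · congr 1
          funext p
          exact Fin.castSucc_injective _ p.2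
        · have h1 := hc1
          have h3 := congrArg (fun B : Dat S {p : Option Z × Fin n // el p.1 = Fin.castSucc p.2} =>
            B.pull (fun p : {p : Fin n × Option Z // Fin.castSucc p.1 = el p.2} =>
              (⟨(p.1.2, p.1.1), p.2.symm⟩ : {p : Option Z × Fin n // el p.1 = Fin.castSucc p.2}))) h1
          exact h3.symm
        · exact hc1
        · congr 1
          funext p
          exact hel p.2)
    exact ⟨D', hD', hpull false, (hpull true).symm⟩
  by_cases hval : ∃ h : ∀ i, τ.2.2 i < n, Injective τ.2.2 ∧ τ.2.1.Ok ∧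
      τ.2.1.pull some = D.pull (fun i => ⟨τ.2.2 i, h i⟩)
  · obtain ⟨h, h3, h4, h5⟩ := hval
    obtain ⟨D', a1, a2, a3⟩ := key (Fin τ.1) τ.2.1 (fun i => ⟨τ.2.2 i, h i⟩) (by
      intro i j hij
      exact h3 (congrArg Fin.val hij)) h4 h5
    exact ⟨D', a1, a2, fun _ _ _ _ => a3⟩
  · obtain ⟨D', a1, a2, -⟩ := key Empty (triv S _) (fun x => x.elim) (fun x => x.elim) triv_ok (by
      apply ext_cover (fun _ => Set.univ) monotone_const (fun _ => ⟨0, trivial⟩)
      intro n
      apply ext_of
      · funext a
        exact a.1.elim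
      · funext K a
        exact a.1.elim
      · funext K
        exact (K ⟨0, S.ht⟩).1.elim
      · funext K
        exact (K ⟨0, by have := S.hm; omega⟩).1.elim)
    exact ⟨D', a1, a2, fun h h3 h4 h5 => absurd ⟨h, h3, h4, h5⟩ hval⟩

/-- the limit of a sequence of structures -/
theorem exists_limit (s : ∀ n, Dat S (Fin n)) (hs : ∀ n, (s n).Ok)
    (hext : ∀ n, (s (n + 1)).pull Fin.castSucc = s n) :
    ∃ D : Dat S ℕ, D.Ok ∧ ∀ n, D.pull (Fin.val : Fin n → ℕ) = s n := by
  have hle : ∀ n k (h : n ≤ k), (s k).pull (Fin.castLE h) = s n := by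
    intro n k h
    induction k, h using Nat.le_induction with
    | base => rfl
    | succ k hk ih =>
      rw [← ih, ← hext k]
      rfl
  let D : Dat S ℕ := {
    E := fun a b => (s (max a b + 1)).E ⟨a, by omega⟩ ⟨b, by omega⟩
    P := fun K a c => (s (max (Finset.univ.sup K) (max a c) + 1)).P
      (fun i => ⟨K i, by
        have := Finset.le_sup (f := K) (Finset.mem_univ i)
        omega⟩) ⟨a, by omega⟩ ⟨c, by omega⟩
    L := fun K => (s (Finset.univ.sup K + 1)).L (fun i => ⟨K i, by
        have := Finset.le_sup (f := K) (Finset.mem_univ i)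
        omega⟩)
    lab := fun K => (s (Finset.univ.sup K + 1)).lab (fun i => ⟨K i, by
        have := Finset.le_sup (f := K) (Finset.mem_univ i)
        omega⟩) }
  have hsup : ∀ {r n : ℕ} (K : Fin r → Fin n), 0 < n → Finset.univ.sup (fun i => (K i : ℕ)) + 1 ≤ n := by
    intro r n K hn
    have : Finset.univ.sup (fun i => (K i : ℕ)) < n := by
      rw [Finset.sup_lt_iff (by simpa using hn)]
      intro i _
      exact (K i).2
    omega
  have hpull : ∀ n, D.pull (Fin.val : Fin n → ℕ) = s n := by
    intro n
    apply ext_of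
    · funext a b
      have h : max a.1 b.1 + 1 ≤ n := by omega
      have h1 := congrArg Dat.E (hle _ _ h)
      show (s (max a.1 b.1 + 1)).E _ _ = (s n).E a b
      rw [← h1]
      rfl
    · funext K a c
      have h : max (Finset.univ.sup (fun i => (K i : ℕ))) (max a.1 c.1) + 1 ≤ n := by
        have ha := a.2
        have hc := c.2
        have := hsup K (lt_of_le_of_lt (Nat.zero_le _) ha)
        omega
      have h1 := congrArg Dat.P (hle _ _ h)
      show (s (max (Finset.univ.sup (fun i => (K i : ℕ))) (max a.1 c.1) + 1)).P _ _ _ = (s n).P K a c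
      rw [← h1]
      rfl
    · funext K
      have h : Finset.univ.sup (fun i => (K i : ℕ)) + 1 ≤ n := by
        exact hsup K (by have := (K ⟨0, S.ht⟩).2; omega)
      have h1 := congrArg Dat.L (hle _ _ h)
      show (s (Finset.univ.sup (fun i => (K i : ℕ)) + 1)).L _ = (s n).L K
      rw [← h1]
      rfl
    · funext K
      have h : Finset.univ.sup (fun i => (K i : ℕ)) + 1 ≤ n := by
        have hm := S.hm
        exact hsup K (by have := (K ⟨0, by omega⟩).2; omega)
      have h1 := congrArg Dat.lab (hle _ _ h)
      show (s (Finset.univ.sup (fun i => (K i : ℕ)) + 1)).lab _ = (s n).lab K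
      rw [← h1]
      rfl
  refine ⟨D, ?_, hpull⟩
  apply ok_cover (fun n => {x | x < n}) (fun n k h x hx => lt_of_lt_of_le hx h)
    (fun x => ⟨x + 1, Nat.lt_succ_self x⟩)
  intro n
  apply okOn_of (f := (Fin.val : Fin n → ℕ))
  · rw [hpull]
    exact hs n
  · intro x hx
    exact ⟨⟨x, hx⟩, rfl⟩

/-- existence of the generic structure -/
theorem exists_ext [Countable S.A] : ∃ D : Dat S ℕ, D.Ok ∧ D.Ext := by
  classical
  have hc : ∀ j, Countable (Dat S (Option (Fin j))) := fun j => countable_dat
  have : Nonempty (Task S) := ⟨⟨0, triv S _, Fin.elim0⟩⟩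
  obtain ⟨en, hen⟩ := exists_surjective_nat (Task S × ℕ)
  choose nx h1 h2 h3 using fun (n : ℕ) (D : {D : Dat S (Fin n) // D.Ok}) => step D.1 D.2 (en n).1
  let s : ∀ n, {D : Dat S (Fin n) // D.Ok} := fun n =>
    Nat.rec ⟨triv S _, triv_ok⟩ (fun k D => ⟨nx k D, h1 k D⟩) n
  obtain ⟨D, hD, hpull⟩ := exists_limit (fun n => (s n).1) (fun n => (s n).2) (fun n => h2 n (s n))
  refine ⟨D, hD, ?_⟩
  intro Z _ Q e G hQ he hcomp
  obtain ⟨j, ⟨ε⟩⟩ := Finite.exists_equiv_fin Z
  let τ : Task S := ⟨j, Q.pull (Option.map ε.symm), fun i => e (ε.symm i)⟩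
  have hinf : {n : ℕ | (en n).1 = τ}.Infinite := by
    choose p hp using fun k : ℕ => hen (τ, k)
    refine Set.infinite_of_injective_forall_mem (f := p) ?_ ?_
    · intro k l hkl
      have h1 := hp k
      rw [hkl, hp l] at h1
      exact (congrArg Prod.snd h1).symm
    · intro k
      show (en (p k)).1 = τ
      rw [hp k]
  obtain ⟨n, hn, hnG⟩ := hinf.exists_gt (max (G.sup id) (Finset.univ.sup τ.2.2))
  have hn' : (en n).1 = τ := hn
  have hlt : ∀ i, τ.2.2 i < n := by
    intro i
    have := Finset.le_sup (f := τ.2.2) (Finset.mem_univ i)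
    omega
  have key := h3 n (s n)
  rw [hn'] at key
  have key2 := key hlt (he.comp ε.symm.injective) (hQ.pull (Option.map_injective ε.symm.injective)) (by
    rw [← hpull n]
    have h4 := congrArg (fun B : Dat S Z => B.pull ε.symm) hcomp
    exact h4)
  refine ⟨n, ?_, ?_, ?_⟩
  · intro hG
    have := Finset.le_sup (f := id) hG
    simp only [id] at this
    omega
  · intro z hz
    have := hlt (ε z)
    have h5 : τ.2.2 (ε z) = e z := congrArg e (ε.symm_apply_apply z)
    rw [h5] at this
    omega
  · have h6 : (s (n + 1)).1 = D.pull (Fin.val : Fin (n + 1) → ℕ) := (hpull (n + 1)).symm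
    have h7 : Q = (Q.pull (Option.map ε.symm)).pull (Option.map ε) := by
      rw [pull_pull]
      have : (fun x => Option.map ε.symm (Option.map ε x)) = id := by
        funext x
        rw [Option.map_map]
        simp
      rw [this]
      rfl
    rw [h7]
    have key3 : Q.pull (Option.map ε.symm) = (s (n + 1)).1.pull (fun o => o.elim (Fin.last n)
      (fun i => Fin.castSucc ⟨τ.2.2 i, hlt i⟩)) := key2
    rw [key3, h6, pull_pull, pull_pull]
    congr 1
    funext o
    rcases o with _ | z
    · rfl
    · exact congrArg e (ε.symm_apply_apply z)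

end Dat

end Pool.Agent.H725.UG
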