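import Pool.Agent.H725.UG.Pow

/-!
# Gluing copies of a structure along the edges of a digraph
-/

set_option autoImplicit false

namespace Pool.Agent.H725.UG

open Function
open Pool.Agent.E8helper92.BP (blk)

section base

variable {Sc : Type} (cst : Sc → Prop)

/-- copies of `Sc` with common points `{s // cst s}` -/
abbrev Bs (I : Type) : Type := {s // cst s} ⊕ (I × {s // ¬ cst s})

variable {cst} {I J : Type}

open Classical in
/-- the copy with number `i` -/
noncomputable def bs (i : I) (s : Sc) : Bs cst I :=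
  if h : cst s then Sum.inl ⟨s, h⟩ else Sum.inr (i, ⟨s, h⟩)

theorem bs_cst (i : I) {s : Sc} (h : cst s) : bs (cst := cst) i s = Sum.inl ⟨s, h⟩ := dif_pos h

theorem bs_ncst (i : I) {s : Sc} (h : ¬ cst s) : bs (cst := cst) i s = Sum.inr (i, ⟨s, h⟩) := dif_neg h

theorem bs_eq {i j : I} {s s' : Sc} (h : bs (cst := cst) i s = bs j s') :
    s = s' ∧ (cst s ∨ i = j) := by
  by_cases h1 : cst s <;> by_cases h2 : cst s'
  · rw [bs_cst i h1, bs_cst j h2] at h
    simp only [Sum.inl.injEq, Subtype.mk.injEq] at h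
    exact ⟨h, Or.inl h1⟩
  · rw [bs_cst i h1, bs_ncst j h2] at h
    simp at h
  · rw [bs_ncst i h1, bs_cst j h2] at h
    simp at h
  · rw [bs_ncst i h1, bs_ncst j h2] at h
    simp only [Sum.inr.injEq, Prod.mk.injEq, Subtype.mk.injEq] at h
    exact ⟨h.2, Or.inr h.1⟩

theorem bs_inj (i : I) : Injective (bs (cst := cst) i) := fun _ _ h => (bs_eq h).1

theorem bs_of_cst {i j : I} {s : Sc} (h : cst s) : bs (cst := cst) i s = bs j s := by
  rw [bs_cst i h, bs_cst j h]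

/-- the number of the copy -/
def bcomp : Bs cst I → Option I
  | Sum.inl _ => none
  | Sum.inr x => some x.1

theorem bran (i : I) (y : Bs cst I) : (∃ s, bs i s = y) ↔ bcomp y = none ∨ bcomp y = some i := by
  constructor
  · rintro ⟨s, rfl⟩
    by_cases h : cst s
    · rw [bs_cst i h]
      exact Or.inl rfl
    · rw [bs_ncst i h]
      exact Or.inr rfl
  · rcases y with s | ⟨j, s⟩
    · intro _
      exact ⟨s.1, bs_cst i s.2⟩
    · rintro (h | h)
      · simp [bcomp] at h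
      · simp only [bcomp, Option.some.injEq] at h
        subst h
        exact ⟨s.1, bs_ncst _ s.2⟩

theorem bcomp_ncst {i : I} {y : Bs cst I} (h : bcomp y = some i) :
    ∃ s, ¬ cst s ∧ y = bs i s := by
  rcases y with s | ⟨j, s⟩
  · simp [bcomp] at h
  · simp only [bcomp, Option.some.injEq] at h
    subst h
    exact ⟨s.1, s.2, (bs_ncst _ s.2).symm⟩

theorem bcomp_none {y : Bs cst I} (h : bcomp y = none) (i : I) : ∃ s, cst s ∧ y = bs i s := by
  rcases y with s | ⟨j, s⟩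
  · exact ⟨s.1, s.2, (bs_cst _ s.2).symm⟩
  · simp [bcomp] at h

/-- renaming of the copies -/
def bmap (f : I → J) : Bs cst I → Bs cst J := Sum.map id (Prod.map f id)

theorem bmap_bs (f : I → J) (i : I) (s : Sc) : bmap f (bs (cst := cst) i s) = bs (f i) s := by
  by_cases h : cst s
  · rw [bs_cst i h, bs_cst _ h]
    rfl
  · rw [bs_ncst i h, bs_ncst _ h]
    rfl

theorem bmap_inj {f : I → J} (hf : Injective f) : Injective (bmap (cst := cst) f) := by
  rintro (a | ⟨i, a⟩) (b | ⟨j, b⟩) h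
  · simpa [bmap] using h
  · simp [bmap] at h
  · simp [bmap] at h
  · simp only [bmap, Sum.map_inr, Prod.map_apply, id, Sum.inr.injEq, Prod.mk.injEq] at h
    rw [hf h.1, h.2]

theorem bcomp_bmap (f : I → J) (y : Bs cst I) : bcomp (bmap f y) = (bcomp y).map f := by
  rcases y with s | ⟨j, s⟩ <;> rfl

end base

/-- the two embeddings of the copies of `Sc` into `Uc` -/
structure Chart {Sc Uc : Type} (cst : Sc → Prop) (X Y : Sc → Uc) : Prop where
  hX : Injective X
  hY : Injective Y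
  hXY : ∀ s s', X s = Y s' → s = s' ∧ cst s
  hc : ∀ s, cst s → X s = Y s

section emb

variable {Sc Uc I Ed : Type} {cst : Sc → Prop} (X Y : Sc → Uc) (src tgt : Ed → I)

open Classical in
/-- the copy of `Uc` which belongs to an edge -/
noncomputable def emb (e : Ed) (u : Uc) : Bs cst I ⊕ (Ed × Uc) :=
  if hx : ∃ s, X s = u then Sum.inl (bs (src e) hx.choose)
  else if hy : ∃ s, Y s = u then Sum.inl (bs (tgt e) hy.choose) else Sum.inr (e, u)

variable {X Y} {src tgt}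

theorem emb_X (hC : Chart cst X Y) (e : Ed) (s : Sc) :
    emb (cst := cst) X Y src tgt e (X s) = Sum.inl (bs (src e) s) := by
  have hx : ∃ s', X s' = X s := ⟨s, rfl⟩
  unfold emb
  rw [dif_pos hx, hC.hX hx.choose_spec]

theorem emb_Y (hC : Chart cst X Y) (e : Ed) (s : Sc) :
    emb (cst := cst) X Y src tgt e (Y s) = Sum.inl (bs (tgt e) s) := by
  by_cases hx : ∃ s', X s' = Y s
  · obtain ⟨s', hs'⟩ := hx
    obtain ⟨rfl, h⟩ := hC.hXY _ _ hs'
    rw [← hs', emb_X hC, bs_of_cst h]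
  · have hy : ∃ s', Y s' = Y s := ⟨s, rfl⟩
    unfold emb
    rw [dif_neg hx, dif_pos hy, hC.hY hy.choose_spec]

theorem emb_other {e : Ed} {u : Uc} (h1 : ∀ s, X s ≠ u) (h2 : ∀ s, Y s ≠ u) :
    emb (cst := cst) X Y src tgt e u = Sum.inr (e, u) := by
  unfold emb
  rw [dif_neg (fun ⟨s, h⟩ => h1 s h), dif_neg (fun ⟨s, h⟩ => h2 s h)]

theorem cases_U (X Y : Sc → Uc) (u : Uc) : (∃ s, u = X s) ∨ (∃ s, u = Y s) ∨
    ((∀ s, X s ≠ u) ∧ ∀ s, Y s ≠ u) := by
  by_cases h1 : ∃ s, u = X s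
  · exact Or.inl h1
  · by_cases h2 : ∃ s, u = Y s
    · exact Or.inr (Or.inl h2)
    · exact Or.inr (Or.inr ⟨fun s h => h1 ⟨s, h.symm⟩, fun s h => h2 ⟨s, h.symm⟩⟩)

theorem emb_inj (hC : Chart cst X Y) {e : Ed} (he : src e ≠ tgt e) :
    Injective (emb (cst := cst) X Y src tgt e) := by
  intro u u' h
  rcases cases_U X Y u with ⟨s, rfl⟩ | ⟨s, rfl⟩ | ⟨h1, h2⟩ <;>
    rcases cases_U X Y u' with ⟨s', rfl⟩ | ⟨s', rfl⟩ | ⟨h1', h2'⟩
  · rw [emb_X hC, emb_X hC, Sum.inl.injEq] at h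
    rw [bs_inj _ h]
  · rw [emb_X hC, emb_Y hC, Sum.inl.injEq] at h
    obtain ⟨rfl, h3⟩ := bs_eq h
    exact hC.hc _ (h3.resolve_right he)
  · rw [emb_X hC, emb_other h1' h2'] at h
    simp at h
  · rw [emb_X hC, emb_Y hC, Sum.inl.injEq] at h
    obtain ⟨rfl, h3⟩ := bs_eq h.symm
    exact (hC.hc _ (h3.resolve_right he)).symm
  · rw [emb_Y hC, emb_Y hC, Sum.inl.injEq] at h
    rw [bs_inj _ h]
  · rw [emb_Y hC, emb_other h1' h2'] at h
    simp at h
  · rw [emb_X hC, emb_other h1 h2] at h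
    simp at h
  · rw [emb_Y hC, emb_other h1 h2] at h
    simp at h
  · rw [emb_other h1 h2, emb_other h1' h2'] at h
    simpa using h

theorem emb_base (hC : Chart cst X Y) {e : Ed} {u : Uc} {v : I} {s : Sc} (hs : ¬ cst s)
    (h : emb (cst := cst) X Y src tgt e u = Sum.inl (bs v s)) : src e = v ∨ tgt e = v := by
  rcases cases_U X Y u with ⟨s', rfl⟩ | ⟨s', rfl⟩ | ⟨h1, h2⟩
  · rw [emb_X hC, Sum.inl.injEq] at h
    obtain ⟨rfl, h3⟩ := bs_eq h
    exact Or.inl (h3.resolve_left hs)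
  · rw [emb_Y hC, Sum.inl.injEq] at h
    obtain ⟨rfl, h3⟩ := bs_eq h
    exact Or.inr (h3.resolve_left hs)
  · rw [emb_other h1 h2] at h
    simp at h

theorem emb_inner (hC : Chart cst X Y) {e e' : Ed} {u u' : Uc} 
    (h : emb (cst := cst) X Y src tgt e u = Sum.inr (e', u')) : e = e' := by
  rcases cases_U X Y u with ⟨s', rfl⟩ | ⟨s', rfl⟩ | ⟨h1, h2⟩
  · rw [emb_X hC] at h
    simp at h
  · rw [emb_Y hC] at h
    simp at h
  · rw [emb_other h1 h2] at h
    simp only [Sum.inr.injEq, Prod.mk.injEq] at h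
    exact h.1

/-- a point which belongs to two copies is a common point, or the edges have a common vertex -/
theorem emb_common (hC : Chart cst X Y) {e e' : Ed} {u u' : Uc} 
    (h : emb (cst := cst) X Y src tgt e u = emb X Y src tgt e' u') :
    (∃ s, emb (cst := cst) X Y src tgt e u = Sum.inl (Sum.inl s)) ∨
      ∃ v, (src e = v ∨ tgt e = v) ∧ (src e' = v ∨ tgt e' = v) := by
  rcases hz : emb (cst := cst) X Y src tgt e u with (s | ⟨v, s⟩) | ⟨e'', u''⟩
  · exact Or.inl ⟨s, rfl⟩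
  · right
    have h1 : (Sum.inr (v, s) : Bs cst I) = bs v s.1 := (bs_ncst v s.2).symm
    rw [h1] at hz
    exact ⟨v, emb_base hC s.2 hz, emb_base hC s.2 (h.symm.trans hz)⟩
  · right
    have h1 := emb_inner hC hz
    have h2 := emb_inner hC (h.symm.trans hz)
    subst h1
    subst h2
    exact ⟨src e', Or.inl rfl, Or.inl rfl⟩

end emb

namespace Dat

variable {S : Sp}

section glue

variable {T Uc Ed : Type} (em : Ed → Uc → T) (Q : Dat S Uc)

/-- the edges of the glued structure -/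
def gE (a b : T) : Prop := ∃ e u u', em e u = a ∧ em e u' = b ∧ Q.E u u'

/-- the links of the glued structure -/
def gLk (K : Fin S.t → T) (a : T) : Prop :=
  (∀ i j, i ≠ j → gE em Q (K i) (K j)) ∧ ∀ i, gE em Q (K i) a

/-- the relation `P` of the glued structure -/
def gP (K : Fin S.t → T) (a c : T) : Prop :=
  (∃ e, ∃ (K' : Fin S.t → Uc) (a' c' : Uc), (∀ x, em e (K' x) = K x) ∧ em e a' = a ∧ em e c' = c ∧
    Q.P K' a' c') ∨
  (a ≠ c ∧ gLk em Q K a ∧ gLk em Q K c ∧ ∃ b, gLk em Q K b ∧ gE em Q a b ∧ gE em Q b c)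

/-- the relation `L` of the glued structure -/
def gL (K : Fin S.t → T) : Prop :=
  (∃ e, ∃ (K' : Fin S.t → Uc), (∀ x, em e (K' x) = K x) ∧ Q.L K') ∨
  ∃ a c d, gP em Q K a c ∧ gE em Q c d ∧ gLk em Q K d ∧ gP em Q K d a

/-- the glued structure -/
def glue : Dat S T where
  E := gE em Q
  P := gP em Q
  L := gL em Q
  lab _ := S.a₀

variable {em Q}

theorem glue_lk {e : Ed} {K : Fin S.t → Uc} {a : Uc} (h : Q.Lk K a) :
    (glue em Q).Lk (fun x => em e (K x)) (em e a) :=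
  ⟨fun i j hij => ⟨e, _, _, rfl, rfl, h.1 i j hij⟩, fun i => ⟨e, _, _, rfl, rfl, h.2 i⟩⟩

theorem glue_whom {Y : Type} {D : Dat S Y} (hD : D.GOk) (h : T → Y)
    (hh : ∀ e, WHom Q D (fun u => h (em e u))) : WHom (glue em Q) D h := by
  have hE : ∀ a b, gE em Q a b → D.E (h a) (h b) := by
    rintro a b ⟨e, u, u', rfl, rfl, h1⟩
    exact (hh e).e _ _ h1
  have hLk : ∀ K a, gLk em Q K a → D.Lk (fun i => h (K i)) (h a) := fun K a h1 =>
    ⟨fun i j hij => hE _ _ (h1.1 i j hij), fun i => hE _ _ (h1.2 i)⟩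
  have hP : ∀ K a c, gP em Q K a c → D.Pw (fun i => h (K i)) (h a) (h c) := by
    rintro K a c (⟨e, K', a', c', h0, rfl, rfl, h1⟩ | ⟨-, h1, h2, b, h3, h4, h5⟩)
    · have h2 := (hh e).p _ _ _ h1
      have h3 : (fun i => h (em e (K' i))) = fun i => h (K i) := funext fun i => by rw [h0]
      rw [h3] at h2
      exact h2
    · exact hD.r1w (hLk _ _ h1) (hLk _ _ h3) (hLk _ _ h2) (hE _ _ h4) (hE _ _ h5)
  refine ⟨hE, hP, ?_⟩
  rintro K (⟨e, K', h0, h1⟩ | ⟨a, c, d, h1, h2, h3, h4⟩)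
  · have h2 := (hh e).l _ h1
    have h3 : (fun i => h (em e (K' i))) = fun i => h (K i) := funext fun i => by rw [h0]
    rw [h3] at h2
    exact h2
  · exact hD.r2w (hP _ _ _ h1) (hE _ _ h2) (hLk _ _ h3) (hP _ _ _ h4)

theorem glue_ok {Y : Type} {D : Dat S Y} (hD : D.GOk) (hQ : Q.GOk) (hinj : ∀ e, Injective (em e))
    (h : T → Y) (hh : ∀ e, WHom Q D (fun u => h (em e u))) : (glue em Q).GOk := by
  have hw := glue_whom hD h hh
  have hsymm : ∀ a b, gE em Q a b → gE em Q b a := by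
    rintro a b ⟨e, u, u', rfl, rfl, h1⟩
    exact ⟨e, u', u, rfl, rfl, hQ.symm _ _ h1⟩
  have hchart : ∀ (K : Fin S.t → T) e (K' : Fin S.t → Uc) (a' : Uc), (∀ x, em e (K' x) = K x) →
      Q.Lk K' a' → (glue em Q).Lk K (em e a') := by
    intro K e K' a' h0 h1
    have h3 : (fun i => em e (K' i)) = K := funext h0
    rw [← h3]
    exact glue_lk h1
  constructor
  · exact hsymm
  · intro a ha
    exact hD.irr _ (hw.e _ _ ha)
  · intro K a c hP
    have hPw := hw.p _ _ _ hP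
    have hne : ¬ (glue em Q).E a c := fun hE => hD.pw_not hPw (hw.e _ _ hE)
    rcases hP with ⟨e, K', a', c', h0, rfl, rfl, h1⟩ | ⟨hac, h1, h2, b, h3, h4, h5⟩
    · obtain ⟨g1, g2, g3, g4, g5⟩ := hQ.p0 _ _ _ h1
      exact ⟨hchart K e K' a' h0 g1, hchart K e K' c' h0 g2, fun h => g3 (hinj e h), hne,
        Or.inl ⟨e, K', c', a', h0, rfl, rfl, g5⟩⟩
    · exact ⟨h1, h2, hac, hne, Or.inr ⟨hac.symm, h2, h1, b, h3, hsymm _ _ h5, hsymm _ _ h4⟩⟩
  · rintro K (⟨e, K', h0, h1⟩ | ⟨a, c, d, h1, h2, h3, h4⟩)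
    · have h5 := hQ.l0 _ h1
      intro i j hij
      exact ⟨e, K' i, K' j, h0 i, h0 j, h5 i j hij⟩
    · exact h3.1
  · intro K a b c h1 h2 h3 h4 h5 h6
    exact Or.inr ⟨h6, h1, h3, b, h2, h4, h5⟩
  · intro K a c d h1 h2 h3 h4
    exact Or.inr ⟨a, c, d, h1, h2, h3, h4⟩

end glue

end Dat

end Pool.Agent.H725.UG
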