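import Pool.Agent.H725.UG.RedOK

/-!
# The graph pp-constructs the template: the infinite system of constraints
-/

set_option autoImplicit false

namespace Pool.Agent.H725.UG

open Function

/-- the blocks: elements of the template, blocks of the constraints which belong to tuples of the
template, private blocks of links -/
inductive Blo (A T : Type) : Type
  | old (a : A)
  | main (t : T) (b : ℕ)
  | priv (t : T) (c b : ℕ)

theorem blo_countable (A T : Type) [Countable A] [Countable T] : Countable (Blo A T) := by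
  let f : Blo A T → A ⊕ (T × ℕ × ℕ × ℕ) := fun x => match x with
    | .old a => Sum.inl a
    | .main t b => Sum.inr (t, 0, b, 0)
    | .priv t c b => Sum.inr (t, 1, c, b)
  apply Function.Injective.countable (f := f)
  rintro (a | ⟨t, b⟩ | ⟨t, c, b⟩) (a' | ⟨t', b'⟩ | ⟨t', c', b'⟩) h <;> simp_all [f]

variable {A T : Type} {Nb e0 e1 : ℕ} {xv : T → ℕ → A} {pv : T → ℕ → ℕ} {C : Type} {kt : C → T}
  {kc : C → ℕ}

/-- the blocks of a constraint -/
def FI (e0 e1 : ℕ) (xv : T → ℕ → A) (pv : T → ℕ → ℕ) (t : T) (c b : ℕ) : Blo A T :=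
  if c = 0 then .main t b
  else if b = e0 then .old (xv t (c - 1))
  else if b = e1 then .main t (pv t (c - 1))
  else .priv t c b

theorem FI_cases (t : T) (c b : ℕ) :
    (c ≠ 0 ∧ b = e0 ∧ FI e0 e1 xv pv t c b = .old (xv t (c - 1))) ∨
    (c ≠ 0 ∧ b ≠ e0 ∧ b = e1 ∧ FI e0 e1 xv pv t c b = .main t (pv t (c - 1))) ∨
    (c = 0 ∧ FI e0 e1 xv pv t c b = .main t b) ∨
    (c ≠ 0 ∧ b ≠ e0 ∧ b ≠ e1 ∧ FI e0 e1 xv pv t c b = .priv t c b) := by
  unfold FI
  by_cases h0 : c = 0
  · rw [if_pos h0]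
    exact Or.inr (Or.inr (Or.inl ⟨h0, rfl⟩))
  · rw [if_neg h0]
    by_cases h1 : b = e0
    · rw [if_pos h1]
      exact Or.inl ⟨h0, h1, rfl⟩
    · rw [if_neg h1]
      by_cases h2 : b = e1
      · rw [if_pos h2]
        exact Or.inr (Or.inl ⟨h0, h1, h2, rfl⟩)
      · rw [if_neg h2]
        exact Or.inr (Or.inr (Or.inr ⟨h0, h1, h2, rfl⟩))

theorem FI_priv {t t' : T} {c b c' b' : ℕ} (h : FI e0 e1 xv pv t c b = .priv t' c' b') :
    t = t' ∧ c = c' ∧ b = b' := by
  rcases FI_cases (e0 := e0) (e1 := e1) (xv := xv) (pv := pv) t c b with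
    ⟨-, -, h3⟩ | ⟨-, -, -, h3⟩ | ⟨-, h3⟩ | ⟨-, -, -, h3⟩ <;> rw [h3] at h <;> simp at h
  exact h

theorem FI_old {t : T} {c b : ℕ} {a : A} (h : FI e0 e1 xv pv t c b = .old a) :
    c ≠ 0 ∧ b = e0 ∧ xv t (c - 1) = a := by
  rcases FI_cases (e0 := e0) (e1 := e1) (xv := xv) (pv := pv) t c b with
    ⟨h1, h2, h3⟩ | ⟨-, -, -, h3⟩ | ⟨-, h3⟩ | ⟨-, -, -, h3⟩ <;> rw [h3] at h <;> simp at h
  exact ⟨h1, h2, h⟩

theorem FI_main {t t' : T} {c b b' : ℕ} (h : FI e0 e1 xv pv t c b = .main t' b') :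
    t = t' ∧ ((c = 0 ∧ b = b') ∨ (c ≠ 0 ∧ b = e1 ∧ pv t (c - 1) = b')) := by
  rcases FI_cases (e0 := e0) (e1 := e1) (xv := xv) (pv := pv) t c b with
    ⟨h1, h2, h3⟩ | ⟨h1, h0, h2, h3⟩ | ⟨h1, h3⟩ | ⟨-, -, -, h3⟩ <;> rw [h3] at h <;> simp at h
  · exact ⟨h.1, Or.inr ⟨h1, h2, h.2⟩⟩
  · exact ⟨h.1, Or.inl ⟨h1, h.2⟩⟩

/-- the system of constraints -/
def famI (he0 : e0 < Nb) (he : e0 ≠ e1)
    (hx : ∀ c, kc c ≠ 0 → pv (kt c) (kc c - 1) < Nb ∧ pv (kt c) (kc c - 1) ≠ e0 ∧
      pv (kt c) (kc c - 1) ≠ e1) (he1 : e1 < Nb) : Sys Nb (Blo A T) where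
  C := C
  Bc c b := FI e0 e1 xv pv (kt c) (kc c) b
  inj := by
    intro c b b' h
    simp only at h
    apply Fin.ext
    rcases FI_cases (e0 := e0) (e1 := e1) (xv := xv) (pv := pv) (kt c) (kc c) b with
      ⟨h1, h2, h3⟩ | ⟨h1, h0, h2, h3⟩ | ⟨h1, h3⟩ | ⟨h1, h0, h2, h3⟩
    · rw [h3] at h
      rw [h2, (FI_old h.symm).2.1]
    · rw [h3] at h
      rcases (FI_main h.symm).2 with h4 | h4
      · exact absurd h4.1 h1
      · rw [h2, h4.2.1]
    · rw [h3] at h
      rcases (FI_main h.symm).2 with h4 | h4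
      · exact h4.2.symm
      · exact absurd h1 h4.1
    · rw [h3] at h
      exact (FI_priv h.symm).2.2.symm
  hI := by
    intro c c' h
    have heq : kt c = kt c' → kc c = kc c' → (fun b : Fin Nb => FI e0 e1 xv pv (kt c) (kc c) b) =
        fun b : Fin Nb => FI e0 e1 xv pv (kt c') (kc c') b := by
      intro h1 h2
      rw [h1, h2]
    by_cases h0 : kc c = 0
    · obtain ⟨j, hj⟩ := h ⟨e0, he0⟩
      simp only at hj
      have h1 : FI e0 e1 xv pv (kt c) (kc c) e0 = .main (kt c) e0 := by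
        unfold FI
        rw [if_pos h0]
      rw [h1] at hj
      obtain ⟨h2, h3⟩ := FI_main hj
      rcases h3 with h3 | h3
      · exact heq h2.symm (h0.trans h3.1.symm)
      · exact absurd h3.2.2 (hx c' h3.1).2.1
    · obtain ⟨j, hj⟩ := h ⟨pv (kt c) (kc c - 1), (hx c h0).1⟩
      simp only at hj
      have h1 : FI e0 e1 xv pv (kt c) (kc c) (pv (kt c) (kc c - 1)) =
          .priv (kt c) (kc c) (pv (kt c) (kc c - 1)) := by
        unfold FI
        rw [if_neg h0, if_neg (hx c h0).2.1, if_neg (hx c h0).2.2]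
      rw [h1] at hj
      obtain ⟨h2, h3, -⟩ := FI_priv hj
      exact heq h2.symm h3.symm
  hH := by
    classical
    intro Z hZ hco
    have hNb : 2 ≤ Nb := by omega
    have hother : ∀ B ∈ Z, ∃ B' ∈ Z, B' ≠ B := by
      intro B hB
      have h1 : 1 < Z.card := by omega
      obtain ⟨a, ha, b, hb, hab⟩ := Finset.one_lt_card.1 h1
      by_cases h2 : a = B
      · exact ⟨b, hb, fun e => hab (h2.trans e.symm)⟩
      · exact ⟨a, ha, h2⟩
    -- it suffices that the constraints for the pairs with a fixed block agree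
    have hfin : ∀ B ∈ Z, (∀ (c c' : C) (B' B'' : Blo A T), B' ∈ Z → B'' ∈ Z → B' ≠ B → B'' ≠ B →
        (∃ j : Fin Nb, FI e0 e1 xv pv (kt c) (kc c) j = B) →
        (∃ j : Fin Nb, FI e0 e1 xv pv (kt c) (kc c) j = B') →
        (∃ j : Fin Nb, FI e0 e1 xv pv (kt c') (kc c') j = B) →
        (∃ j : Fin Nb, FI e0 e1 xv pv (kt c') (kc c') j = B'') →
        kt c = kt c' ∧ kc c = kc c') →
        ∃ c : C, ∀ B ∈ Z, ∃ j : Fin Nb, FI e0 e1 xv pv (kt c) (kc c) j = B := by
      intro B hB hagree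
      obtain ⟨B₁, hB₁, hne₁⟩ := hother B hB
      obtain ⟨c, h1, h2⟩ := hco B hB B₁ hB₁ hne₁.symm
      refine ⟨c, fun B₂ hB₂ => ?_⟩
      by_cases h3 : B₂ = B
      · rw [h3]
        exact h1
      · obtain ⟨c', h4, h5⟩ := hco B hB B₂ hB₂ (Ne.symm h3)
        obtain ⟨h6, h7⟩ := hagree c c' B₁ B₂ hB₁ hB₂ hne₁ h3 h1 h2 h4 h5
        rw [h6, h7]
        exact h5
    by_cases hpriv : ∃ t c b, Blo.priv t c b ∈ Z
    · obtain ⟨t, c, b, hB⟩ := hpriv
      apply hfin _ hB
      rintro c₁ c₂ _ _ _ _ _ _ ⟨j₁, hj₁⟩ - ⟨j₂, hj₂⟩ -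
      have h1 := FI_priv hj₁
      have h2 := FI_priv hj₂
      exact ⟨h1.1.trans h2.1.symm, h1.2.1.trans h2.2.1.symm⟩
    · -- two main blocks belong to the same main constraint
      have hmm : ∀ t b t' b' (c : C), (Blo.main t b : Blo A T) ≠ .main t' b' →
          (∃ j : Fin Nb, FI e0 e1 xv pv (kt c) (kc c) j = .main t b) →
          (∃ j : Fin Nb, FI e0 e1 xv pv (kt c) (kc c) j = .main t' b') →
          kt c = t ∧ t = t' ∧ kc c = 0 := by
        rintro t b t' b' c hne ⟨j, hj⟩ ⟨j', hj'⟩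
        obtain ⟨h1, h2⟩ := FI_main hj
        obtain ⟨h1', h2'⟩ := FI_main hj'
        refine ⟨h1, h1.symm.trans h1', ?_⟩
        rcases h2 with h2 | h2
        · exact h2.1
        · rcases h2' with h2' | h2'
          · exact h2'.1
          · exfalso
            apply hne
            rw [← h1, ← h1', ← h2.2.2, ← h2'.2.2]
      by_cases hold : ∃ x, Blo.old x ∈ Z
      · exfalso
        obtain ⟨x, hxZ⟩ := hold
        -- the other blocks are main blocks different from the two special ones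
        have hrest : ∀ B ∈ Z, B ≠ .old x → ∃ t b, b < Nb ∧ b ≠ e0 ∧ b ≠ e1 ∧ B = .main t b := by
          intro B hB hBx
          obtain ⟨c, ⟨j, hj⟩, ⟨j', hj'⟩⟩ := hco _ hxZ B hB (Ne.symm hBx)
          have h1 := FI_old hj
          rcases B with a | ⟨t, b⟩ | ⟨t, c', b⟩
          · exfalso
            have h3 := FI_old hj'
            apply hBx
            rw [← h1.2.2, ← h3.2.2]
          · obtain ⟨h4, h5⟩ := FI_main hj'
            rcases h5 with h5 | h5
            · exact absurd h5.1 h1.1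
            · have h6 := hx c h1.1
              rw [h5.2.2] at h6
              exact ⟨t, b, h6.1, h6.2.1, h6.2.2, rfl⟩
          · exact absurd ⟨t, c', b, hB⟩ hpriv
        obtain ⟨B₁, hB₁, hne₁⟩ := hother _ hxZ
        obtain ⟨t₁, b₁, hb₁, -, -, hB₁e⟩ := hrest B₁ hB₁ hne₁
        have hsub : Z.erase (.old x) ⊆ (((Finset.range Nb).erase e0).erase e1).image
            (fun b => (.main t₁ b : Blo A T)) := by
          intro B hB
          rw [Finset.mem_erase] at hB
          obtain ⟨t, b, hb, hb0, hb1, rfl⟩ := hrest B hB.2 hB.1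
          have ht : t = t₁ := by
            by_cases h1 : (Blo.main t b : Blo A T) = B₁
            · rw [hB₁e] at h1
              simp only [Blo.main.injEq] at h1
              exact h1.1
            · obtain ⟨c, h2, h3⟩ := hco _ hB.2 B₁ hB₁ h1
              rw [hB₁e] at h3 h1
              exact (hmm t b t₁ b₁ c h1 h2 h3).2.1
          subst ht
          refine Finset.mem_image.2 ⟨b, ?_, rfl⟩
          simp only [Finset.mem_erase, Finset.mem_range]
          exact ⟨hb1, hb0, hb⟩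
        have h1 := Finset.card_le_card hsub
        have h2 := Finset.card_image_le (s := ((Finset.range Nb).erase e0).erase e1)
          (f := fun b => (.main t₁ b : Blo A T))
        rw [Finset.card_erase_of_mem hxZ] at h1
        rw [Finset.card_erase_of_mem (by simp [he.symm, he1]), Finset.card_erase_of_mem (by simp [he0]),
          Finset.card_range] at h2
        omega
      · have hT0 : ∃ B, B ∈ Z := by
          have : 0 < Z.card := by omega
          exact Finset.card_pos.1 this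
        have htype : ∀ B ∈ Z, ∃ t b, B = .main t b := by
          rintro (a | ⟨t, b⟩ | ⟨t, c, b⟩) hB
          · exact absurd ⟨a, hB⟩ hold
          · exact ⟨t, b, rfl⟩
          · exact absurd ⟨t, c, b, hB⟩ hpriv
        obtain ⟨B, hB⟩ := hT0
        apply hfin B hB
        intro c₁ c₂ B₁ B₂ hB₁ hB₂ hne₁ hne₂ h1 h2 h3 h4
        obtain ⟨t, b, rfl⟩ := htype B hB
        obtain ⟨t₁, b₁, rfl⟩ := htype B₁ hB₁
        obtain ⟨t₂, b₂, rfl⟩ := htype B₂ hB₂
        have a1 := hmm t b t₁ b₁ c₁ hne₁.symm h1 h2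
        have a2 := hmm t b t₂ b₂ c₂ hne₂.symm h3 h4
        exact ⟨a1.1.trans a2.1.symm, a1.2.2.trans a2.2.2.symm⟩

end Pool.Agent.H725.UG
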