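import Pool.Agent.H725.UG.Frame

/-!
# pp-constructions of `K_3` descend from the graph
-/

set_option autoImplicit false

namespace Pool.Agent.H725.UG

open Function Pool.Agent.W994.AR
open Pool.Agent.E8helper92.BP (blk k3_of_finite)

namespace Dat

variable {S : Sp} {X Y : Type}

open Classical in
/-- the structure with new labels -/
noncomputable def withLab (G : Dat S X) (γ : (Fin S.m → X) → S.A) : Dat S X where
  E := G.E
  P := G.P
  L := G.L
  lab v := if G.Clq v then γ v else S.a₀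

theorem withLab_pull (G : Dat S X) (γ : (Fin S.m → X) → S.A) (f : Y → X) :
    (G.withLab γ).pull f = (G.pull f).withLab (fun v => γ (fun i => f (v i))) := rfl

theorem clq_blk {G : Dat S X} {w : Fin (S.Nb * S.m) → X} (hw : G.Clq w) (j : Fin S.Nb) :
    G.Clq (blk w j) := by
  intro a b hab
  apply hw
  intro h
  exact hab (congrArg Prod.snd (finProdFinEquiv.injective h))

theorem withLab_ok {G : Dat S X} (hG : G.GOk) {γ : (Fin S.m → X) → S.A}
    (h : ∀ w, G.Trig w → (fun j => γ (blk w j)) ∈ S.W) : (G.withLab γ).Ok where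
  symm := hG.symm
  irr := hG.irr
  p0 := hG.p0
  l0 := hG.l0
  r1 := hG.r1
  r2 := hG.r2
  n0 v hv := if_neg hv
  tr w hw := by
    have h2 : (fun j => (G.withLab γ).lab (blk w j)) = fun j => γ (blk w j) := by
      funext j
      exact if_pos (clq_blk hw.1 j)
    rw [h2]
    exact h w hw

theorem withLab_congr (G : Dat S X) {γ γ' : (Fin S.m → X) → S.A}
    (h : ∀ v, G.Clq v → γ v = γ' v) : G.withLab γ = G.withLab γ' := by
  refine ext_of (D₁ := G.withLab γ) (D₂ := G.withLab γ') rfl rfl rfl ?_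
  funext v
  by_cases hv : G.Clq v
  · exact (if_pos hv).trans ((h v hv).trans (if_pos hv).symm)
  · exact (if_neg hv).trans (if_neg hv).symm

end Dat

namespace Frame

variable {Sc Uc : Type} (F : Frame Sc Uc) {S : Sp} {D : Dat S ℕ}

/-- the relation between labellings of the coordinates -/
def psi (D : Dat S ℕ) : Set ((Fin S.m → Sc) ⊕ (Fin S.m → Sc) → S.A) :=
  {z | ∃ γ : (Fin S.m → F.Pt) → S.A,
    (∀ s, γ (fun a => F.ba 0 (s a)) = z (Sum.inl s)) ∧
    (∀ s, γ (fun a => F.ba 4 (s a)) = z (Sum.inr s)) ∧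
    ∀ w, (F.G D).Trig w → (fun j => γ (blk w j)) ∈ S.W}

theorem psi_pp [Finite Sc] [Finite Uc] {ι : Type} {ar : ι → ℕ} {𝔸 : Str ι ar S.A}
    (hW : PP 𝔸 S.W) : PP 𝔸 (F.psi D) := by
  have : Finite F.Pt := inferInstance
  have h1 : F.psi D = {z | ∃ γ : (Fin S.m → F.Pt) → S.A, Sum.elim z γ ∈
      ({y : ((Fin S.m → Sc) ⊕ (Fin S.m → Sc)) ⊕ (Fin S.m → F.Pt) → S.A |
        (∀ s ∈ (Set.univ : Set (Fin S.m → Sc)), y ∈ {y | y (Sum.inr (fun a => F.ba 0 (s a))) =
          y (Sum.inl (Sum.inl s))}) ∧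
        (∀ s ∈ (Set.univ : Set (Fin S.m → Sc)), y ∈ {y | y (Sum.inr (fun a => F.ba 4 (s a))) =
          y (Sum.inl (Sum.inr s))}) ∧
        (∀ w ∈ {w | (F.G D).Trig w}, y ∈ {y | (y ∘ fun j => Sum.inr (blk w j)) ∈ S.W})} : Set _)} := by
    ext z
    constructor
    · rintro ⟨γ, g1, g2, g3⟩
      exact ⟨γ, fun s _ => g1 s, fun s _ => g2 s, fun w hw => g3 w hw⟩
    · rintro ⟨γ, g1, g2, g3⟩
      exact ⟨γ, fun s => g1 s trivial, fun s => g2 s trivial, fun w hw => g3 w hw⟩
  rw [h1]
  apply PP.ex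
  refine (PP.iInter _ (Set.toFinite _) _ (fun s _ => PP.eq _ _)).inter
    ((PP.iInter _ (Set.toFinite _) _ (fun s _ => PP.eq _ _)).inter
      (PP.iInter _ (Set.toFinite _) _ (fun w _ => hW.subst _)))

/-- the structure on the coordinates with a labelling -/
noncomputable def Qα (D : Dat S ℕ) (α : (Fin S.m → Sc) → S.A) : Dat S Sc := (F.Q0 D).withLab α

/-- the data given by a solution -/
theorem psi_ok (hD : D.GOk) {γ : (Fin S.m → F.Pt) → S.A}
    (h : ∀ w, (F.G D).Trig w → (fun j => γ (blk w j)) ∈ S.W) : ((F.G D).withLab γ).Ok :=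
  Dat.withLab_ok (F.G_ok hD) h

theorem pull_en (hD : D.GOk) {γ : (Fin S.m → F.Pt) → S.A} (b : Bool) {α : (Fin S.m → Sc) → S.A}
    (h : ∀ s, γ (fun a => F.ba (en b) (s a)) = α s) :
    ((F.G D).withLab γ).pull (F.ba (en b)) = F.Qα D α := by
  rw [Dat.withLab_pull, F.G_en hD b]
  exact Dat.withLab_congr _ (fun v _ => h v)

/-- Realisation: there are points for all labellings with prescribed values at the common points, such that
the pairs in the relation `psi` are ends of a copy of the pattern. -/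
theorem realise (hD : D.Ok) (hE : D.Ext) [Finite Sc] [Finite Uc] {J : Type} [Countable J]
    [Nonempty J] (α : J → (Fin S.m → Sc) → S.A) (hα : ∀ j, (F.Qα D (α j)).Ok)
    (hχ : ∀ j j' (s : Fin S.m → Sc), (∀ a, F.cst (s a)) → α j s = α j' s) :
    ∃ t : J → Sc → ℕ, ∀ j j', j ≠ j' → Sum.elim (α j) (α j') ∈ F.psi D →
      ∃ e : F.Pt → ℕ, (∀ s, e (F.ba 0 s) = t j s) ∧ (∀ s, e (F.ba 4 s) = t j' s) ∧
        ∀ a b, (F.G D).E a b → D.E (e a) (e b) := by
  classical
  obtain ⟨D', hD', hpull, h1', h3'⟩ := Dat.amalgam (bcomp (cst := F.cst) (I := J)) (fun _ => Sc)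
    (fun j => bs j) (fun j => bs_inj j) (fun j y => bran j y) (fun j => F.Qα D (α j)) hα (by
      intro i j
      have h1 : (fun p : {p : Sc × Sc // bs (cst := F.cst) i p.1 = bs j p.2} => p.1.2) =
          fun p => p.1.1 := funext fun p => (bs_eq p.2).1.symm
      rw [h1]
      by_cases hij : i = j
      · subst hij
        rfl
      · unfold Qα
        rw [Dat.withLab_pull, Dat.withLab_pull]
        apply Dat.withLab_congr
        intro v _
        apply hχ
        intro a
        exact (bs_eq (v a).2).2.resolve_right hij)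
  obtain ⟨e₀, he₀, -, hpull₀⟩ := hE.embed hD' ∅ (Dat.good_empty _ D)
  refine ⟨fun j s => e₀ (bs j s), ?_⟩
  rintro j j' hjj ⟨γ, g1, g2, g3⟩
  have hTok := F.psi_ok hD.toGOk g3
  set T' := (F.G D).withLab γ with hT'
  let f : Bool → J := fun b => cond b j' j
  have hf : Injective f := by
    intro a b h
    cases a <;> cases b
    · rfl
    · exact absurd h hjj
    · exact absurd h.symm hjj
    · rfl
  have hg : Injective (bmap (cst := F.cst) f) := bmap_inj hf
  have hkey : T'.pull F.two = D'.pull (bmap f) := by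
    refine Dat.amalgam_unique (bcomp (cst := F.cst) (I := Bool)) (fun _ => Sc) (fun b => bs b)
      (fun b y => bran b y) _ _ (hTok.toGOk.pull F.two_inj) (hD'.toGOk.pull hg)
      (hTok.pull F.two_inj).n0 (hD'.pull hg).n0 ?_ (fun a b h => F.two_h1 a b h) ?_
      (F.two_h3 hD.toGOk) ?_
    · intro b
      rw [Dat.pull_pull, Dat.pull_pull]
      have e1 : (fun x => F.two (bs b x)) = F.ba (en b) := funext fun x => F.two_bs b x
      have e2 : (fun x => bmap f (bs (cst := F.cst) b x)) = bs (f b) := funext fun x => bmap_bs f b x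
      rw [e1, e2, hpull]
      cases b
      · exact F.pull_en hD.toGOk false g1
      · exact F.pull_en hD.toGOk true g2
    · intro a b h
      have h2 := h1' _ _ h
      rw [bcomp_bmap, bcomp_bmap] at h2
      rcases ha : bcomp a with _ | i
      · exact Or.inl rfl
      rcases hb : bcomp b with _ | i'
      · exact Or.inr (Or.inl rfl)
      right; right
      rw [ha, hb] at h2
      simp only [Option.map_some, reduceCtorEq, Option.some.injEq, false_or] at h2
      rw [hf h2]
    · intro K a c i i' ha hc hii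
      have ha' : bcomp (bmap f a) = some (f i) := by rw [bcomp_bmap, ha]; rfl
      have hc' : bcomp (bmap f c) = some (f i') := by rw [bcomp_bmap, hc]; rfl
      have h2 := h3' (fun x => bmap f (K x)) (bmap f a) (bmap f c) _ _ ha' hc' (fun h => hii (hf h))
      constructor
      · intro h
        obtain ⟨k1, k2, b, k3, k4, k5⟩ := h2.1 h
        refine ⟨k1, k2, ?_⟩
        have hb : bcomp b = none := by
          rcases hb : bcomp b with _ | l
          · rfl
          exfalso
          have l1 := h1' _ _ k4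
          have l2 := h1' _ _ k5
          rw [ha', hb] at l1
          rw [hb, hc'] at l2
          simp only [reduceCtorEq, Option.some.injEq, false_or] at l1 l2
          exact hii (hf (l1.trans l2))
        obtain ⟨s, hs, rfl⟩ := bcomp_none hb (f i)
        refine ⟨bs i s, ?_, ?_, ?_⟩
        · show D'.Lk _ (bmap f (bs i s))
          rw [bmap_bs]
          exact k3
        · show D'.E _ (bmap f (bs i s))
          rw [bmap_bs]
          exact k4
        · show D'.E (bmap f (bs i s)) _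
          rw [bmap_bs]
          exact k5
      · rintro ⟨k1, k2, b, k3, k4, k5⟩
        exact h2.2 ⟨k1, k2, bmap f b, k3, k4, k5⟩
  have : Fintype (Bs F.cst Bool) := Fintype.ofFinite _
  obtain ⟨e, he, he', hpe⟩ := hE.embed hTok _ (Dat.good_of_pull (Q := T') (D := D) F.two
    (fun y => e₀ (bmap f y)) F.two_inj (he₀.comp hg) (by
      rw [hkey, ← hpull₀, Dat.pull_pull]))
  have hev : ∀ y, e (F.two y) = e₀ (bmap f y) := fun y =>
    he' _ (Finset.mem_image_of_mem (fun y => (F.two y, e₀ (bmap f y))) (Finset.mem_univ y))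
  refine ⟨e, ?_, ?_, ?_⟩
  · intro s
    have h1 := hev (bs false s)
    rw [two_bs, bmap_bs] at h1
    exact h1
  · intro s
    have h1 := hev (bs true s)
    rw [two_bs, bmap_bs] at h1
    exact h1
  · intro a b h
    have h1 := congrFun (congrFun (congrArg Dat.E hpe) a) b
    exact cast h1.symm h

end Frame

/-- If the graph pp-constructs `K_3`, then so does every structure in which the constraint is
pp-definable. -/
theorem k3_transfer {S : Sp} [Countable S.A] {D : Dat S ℕ} (hD : D.Ok) (hE : D.Ext) {ι : Type}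
    {ar : ι → ℕ} {𝔸 : Str ι ar S.A} (hW : PP 𝔸 S.W) {ar' : Fin 1 → ℕ} {𝔾 : Str (Fin 1) ar' ℕ}
    (x₀ x₁ : ∀ i, Fin (ar' i)) (h𝔾 : ∀ i (v : Fin (ar' i) → ℕ), v ∈ 𝔾 i → D.E (v (x₀ i)) (v (x₁ i)))
    (h𝔾' : ∀ i (v : Fin (ar' i) → ℕ), D.E (v (x₀ i)) (v (x₁ i)) → v ∈ 𝔾 i)
    (h : PPConstructsK3 𝔾) : PPConstructsK3 𝔸 := by
  classical
  obtain ⟨n, E, hn, ⟨q, Φ, hEΦ⟩, ⟨p, hp⟩, ⟨c, hc⟩⟩ := h
  have hu : ∀ θ : Th, ∃ u : Fin q → ℕ, ∀ φ ∈ Φ, φ.Holds 𝔾 (Sum.elim (Sum.elim (p θ.1.1) (p θ.1.2)) u) :=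
    fun θ => (hEΦ _).1 (hp _ _ θ.2)
  choose u hu using hu
  let Var := (Fin n ⊕ Fin n) ⊕ Fin q
  let val : Th → Var → ℕ := fun θ => Sum.elim (Sum.elim (p θ.1.1) (p θ.1.2)) (u θ)
  let Sc : Type := Set.range (fun a : Fin n => fun i : Fin 3 => p i a)
  let Uc : Type := Set.range (fun x : Var => fun θ : Th => val θ x)
  let cs : Fin n → Sc := fun a => ⟨fun i => p i a, a, rfl⟩
  let cl : Var → Uc := fun x => ⟨fun θ => val θ x, x, rfl⟩
  let F : Frame Sc Uc := {
    vS := fun s => s.1
    vU := fun u => u.1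
    X := fun s => ⟨fun θ => s.1 θ.1.1, by
      obtain ⟨_, a, rfl⟩ := s
      exact ⟨Sum.inl (Sum.inl a), rfl⟩⟩
    Y := fun s => ⟨fun θ => s.1 θ.1.2, by
      obtain ⟨_, a, rfl⟩ := s
      exact ⟨Sum.inl (Sum.inr a), rfl⟩⟩
    hvS := Subtype.val_injective
    hvU := Subtype.val_injective
    hX := fun _ _ => rfl
    hY := fun _ _ => rfl }
  have hclX : ∀ a, cl (Sum.inl (Sum.inl a)) = F.X (cs a) := fun a => rfl
  have hclY : ∀ a, cl (Sum.inl (Sum.inr a)) = F.Y (cs a) := fun a => rfl
  have hScfin : Finite Sc := Set.finite_range _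
  have hUcfin : Finite Uc := Set.finite_range _
  have hScne : Nonempty Sc := ⟨cs ⟨0, hn⟩⟩
  -- copies of the variables give solutions
  have hsol : ∀ (e : F.Pt → ℕ), (∀ a b, (F.G D).E a b → D.E (e a) (e b)) → ∀ ed : Fin 6,
      Sum.elim (fun a => e (F.ba (psrc ed) (cs a))) (fun a => e (F.ba (ptgt ed) (cs a))) ∈ E := by
    intro e he ed
    rw [hEΦ]
    refine ⟨fun k => e (F.em ed (cl (Sum.inr k))), ?_⟩
    have h1 : (Sum.elim (Sum.elim (fun a => e (F.ba (psrc ed) (cs a)))
        (fun a => e (F.ba (ptgt ed) (cs a)))) (fun k => e (F.em ed (cl (Sum.inr k))))) =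
        fun x => e (F.em ed (cl x)) := by
      funext x
      rcases x with (x | x) | x
      · simp only [Sum.elim_inl]
        rw [hclX, F.em_X]
      · simp only [Sum.elim_inl, Sum.elim_inr]
        rw [hclY, F.em_Y]
      · rfl
    rw [h1]
    intro φ hφ
    cases φ with
    | eq x y =>
      show e (F.em ed (cl x)) = e (F.em ed (cl y))
      have h2 : cl x = cl y := by
        apply Subtype.ext
        funext θ
        exact hu θ _ hφ
      rw [h2]
    | rel k x =>
      show (fun l => e (F.em ed (cl (x l)))) ∈ 𝔾 k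
      apply h𝔾'
      apply he
      refine ⟨ed, _, _, rfl, rfl, ?_⟩
      intro θ
      exact h𝔾 k _ (hu θ _ hφ)
  let Dd := Fin S.m → Sc
  -- the colouring
  let chi : (Dd → S.A) → Dd → S.A := fun α s => if ∀ a, F.cst (s a) then α s else S.a₀
  have hchi : ∀ α β, Sum.elim α β ∈ F.psi D → chi α = chi β := by
    rintro α β ⟨γ, g1, g2, -⟩
    funext s
    simp only [chi]
    split_ifs with hs
    · have h1 := g1 s
      have h2 := g2 s
      simp only [Sum.elim_inl, Sum.elim_inr] at h1 h2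
      rw [← h1, ← h2]
      congr 1
      funext a
      unfold Frame.ba
      rw [bs_of_cst (hs a)]
    · rfl
  have hvalid : ∀ α β, Sum.elim α β ∈ F.psi D → (F.Qα D α).Ok ∧ (F.Qα D β).Ok := by
    rintro α β ⟨γ, g1, g2, g3⟩
    have h1 := F.psi_ok hD.toGOk g3
    constructor
    · have h2 := F.pull_en hD.toGOk false (α := α) g1
      rw [← h2]
      exact h1.pull (F.ba_inj _)
    · have h2 := F.pull_en hD.toGOk true (α := β) g2
      rw [← h2]
      exact h1.pull (F.ba_inj _)
  have hcol : ∀ χ : Dd → S.A, ∃ C : (Dd → S.A) → Fin 4 → Fin 3, ∀ α k β l,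
      (α, k) ≠ (β, l) → chi α = χ → chi β = χ → Sum.elim α β ∈ F.psi D → C α k ≠ C β l := by
    intro χ
    let J := {α : Dd → S.A // (F.Qα D α).Ok ∧ chi α = χ} × Fin 4
    rcases isEmpty_or_nonempty J with hJ | hJ
    · refine ⟨fun _ _ => 0, ?_⟩
      intro α k β l _ h1 _ h3
      exact (hJ.false ⟨⟨α, (hvalid α β h3).1, h1⟩, k⟩).elim
    · obtain ⟨t, ht⟩ := F.realise hD hE (J := J) (fun j => j.1.1) (fun j => j.1.2.1) (by
        intro j j' s hs
        have h1 : chi j.1.1 s = chi j'.1.1 s := by rw [j.1.2.2, j'.1.2.2]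
        simp only [chi] at h1
        rw [if_pos hs, if_pos hs] at h1
        exact h1)
      refine ⟨fun α k => if hα : (F.Qα D α).Ok ∧ chi α = χ then c (fun a => t ⟨⟨α, hα⟩, k⟩ (cs a))
        else 0, ?_⟩
      intro α k β l hne h1 h2 h3
      obtain ⟨v1, v2⟩ := hvalid α β h3
      beta_reduce
      rw [dif_pos ⟨v1, h1⟩, dif_pos ⟨v2, h2⟩]
      obtain ⟨e, he1, he2, he3⟩ := ht ⟨⟨α, v1, h1⟩, k⟩ ⟨⟨β, v2, h2⟩, l⟩ (by
        intro h
        exact hne (Prod.ext (congrArg (fun x : J => x.1.1) h) (congrArg (fun x : J => x.2) h))) h3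
      have h4 : Proper (fun v => c (fun a => e (F.ba v (cs a)))) := fun ed =>
        hc _ _ (hsol e he3 ed)
      have h5 := p_sep _ h4
      simp only [he1, he2] at h5
      exact h5
  choose C hC using hcol
  -- the triangle
  let T : Fin 3 → Dd → S.A := fun i s => D.lab (fun a => (s a).1 i)
  have hT : ∀ i j, i ≠ j → Sum.elim (T i) (T j) ∈ F.psi D := by
    intro i j hij
    obtain ⟨κ, hκ, hi, hj⟩ := p_col i j hij
    refine ⟨fun v => D.lab (fun a => F.hom κ hκ (v a)), ?_, ?_, ?_⟩
    · intro s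
      simp only [F.hom_ba, hi]
      rfl
    · intro s
      simp only [F.hom_ba, hj]
      rfl
    · intro w hw
      exact hD.tr _ ((F.hom_whom hD.toGOk hκ).trig hw)
  have hDne : Nonempty Dd := inferInstance
  have hDfin : Finite Dd := inferInstance
  refine k3_of_finite (F.psi_pp hW) T hT (fun α => C (chi α) α 0) ?_
  intro α β hαβ
  have h1 := hchi α β hαβ
  by_cases hne : α = β
  · exfalso
    subst hne
    have h2 : Injective (fun k : Fin 4 => C (chi α) α k) := by
      intro k l hkl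
      by_contra hne
      exact hC (chi α) α k α l (fun h => hne (congrArg Prod.snd h)) rfl rfl hαβ hkl
    have h3 := Fintype.card_le_of_injective _ h2
    simp at h3
  · rw [← h1]
    exact hC (chi α) α 0 β 0 (fun h => hne (congrArg Prod.fst h)) rfl h1.symm hαβ

end Pool.Agent.H725.UG
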