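import Pool.Agent.H725.UG.Comp
import Pool.Agent.H725.UG.Back

/-!
# The main construction
-/

set_option autoImplicit false

namespace Pool.Agent.H725.UG

open Function Pool.Agent.W994.AR Pool.Agent.NPC
open Pool.Agent.H593R3.FBC (Inst IsInst CSP Rels)
open Pool.Agent.E8helper92.BP (blk Blk CSPOf NoAlgebraicity csp_empty)

theorem Wset_pp {n : ℕ} {A : Type} {ar : Fin n → ℕ} {Nb : ℕ} (ε : Blk ar ≃ Fin Nb)
    (𝔸 : Str (Fin n) ar A) : PP 𝔸 (Wset ε 𝔸) :=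
  (PP.iInter {i | (𝔸 i).Nonempty} (Set.toFinite _)
    (fun i => {z : Fin Nb → A | (z ∘ fun j => ε (Sum.inr ⟨i, j⟩)) ∈ 𝔸 i})
    (fun i _ => PP.rel i _)).inter (PP.eq _ _)

theorem Wset_inv {σ B : Type} {ar : σ → ℕ} {𝔹 : Str σ ar B} {n : ℕ} {s : Fin n → σ} {Nb : ℕ}
    (ε : Blk (fun i => ar (s i)) ≃ Fin Nb) : ∀ α ∈ autGroup 𝔹, ∀ z ∈ Wset ε (fun i => 𝔹 (s i)),
      (fun j => α (z j)) ∈ Wset ε (fun i => 𝔹 (s i)) := by
  rintro α hα z ⟨h1, h2⟩
  refine ⟨fun i hi => ?_, ?_⟩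
  · exact (hα (s i) _).1 (h1 i hi)
  · simp only
    rw [h2]

/-- The properties of the graph templates: `E` is one of the relations of `𝔹`. -/
structure Nice (k : ℕ) {σ : Type} {ar : σ → ℕ} {V : Type} (𝔹 : Str σ ar V) (E : V → V → Prop) :
    Prop where
  isRel : ∃ (r : σ) (hr : ar r = 2), ∀ v : Fin (ar r) → V,
    v ∈ 𝔹 r ↔ E (v (Fin.cast hr.symm 0)) (v (Fin.cast hr.symm 1))
  symm : ∀ x y, E x y → E y x
  irrefl : ∀ x, ¬ E x x
  homog : ∀ j ≤ k, ∀ u v : Fin j → V, Injective u → Injective v →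
    (∀ a b, E (u a) (u b) ↔ E (v a) (v b)) → ∃ g ∈ autGroup 𝔹, ∀ a, g (u a) = v a
  clique : ∃ u : Fin k → V, ∀ a b, a ≠ b → E (u a) (u b)
  noClique : ∃ M : ℕ, ∀ u : Fin M → V, ∃ a b, a ≠ b ∧ ¬ E (u a) (u b)
  embed : ∀ (X : Type) [Countable X] (R : X → X → Prop), (∀ x y, R x y → R y x) →
    ∀ φ : X → V, (∀ x y, R x y → E (φ x) (φ y)) → ∃ e : X → V, Injective e ∧
      ∀ x y, R x y ↔ E (e x) (e y)
  noAlg : NoAlgebraicity (autGroup 𝔹)
  pol : ∀ d, 0 < d → ∃ h : (Fin d → V) → V, Injective h ∧ IsPol 𝔹 h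

/-- The main construction. -/
theorem main {σ : Type} [Finite σ] {ar : σ → ℕ} {B : Type} [Countable B] [Nonempty B]
    (𝔹 : Str σ ar B) (hhom : Homogeneous 𝔹) (hfb : FinitelyBounded 𝔹) {n : ℕ} (s : Fin n → σ)
    (k : ℕ) : ∃ (σ' : Type) (_ : Finite σ') (ar' : σ' → ℕ) (𝔹' : Str σ' ar' ℕ) (E : ℕ → ℕ → Prop),
      Homogeneous 𝔹' ∧ FinitelyBounded 𝔹' ∧ Nice k 𝔹' E ∧ PPCons (gstr E) (fun i => 𝔹 (s i)) ∧
      (PPConstructsK3 (gstr E) ↔ PPConstructsK3 (fun i => 𝔹 (s i))) ∧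
      (∃ g : Inst → Inst, Poly g ∧ ∀ I, CSPOf (fun i => 𝔹 (s i)) I ↔ CSPOf (gstr E) (g I)) ∧
      (∃ g : Inst → Inst, Poly g ∧ ∀ J, CSPOf (gstr E) J ↔ CSPOf (fun i => 𝔹 (s i)) (g J)) := by
  classical
  let m := k + 3
  let 𝔸 : Str (Fin n) (fun i => ar (s i)) B := fun i => 𝔹 (s i)
  let Nb := Fintype.card (Blk (fun i => ar (s i)))
  let ε : Blk (fun i => ar (s i)) ≃ Fin Nb := Fintype.equivFin _
  have hNb : 2 ≤ Nb := by
    have h1 := (ε (Sum.inl 0)).2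
    have h2 := (ε (Sum.inl 1)).2
    have h3 : (ε (Sum.inl 0)).1 ≠ (ε (Sum.inl 1)).1 := by
      intro h
      have := ε.injective (Fin.ext h)
      simp at this
    omega
  have hNbm : 2 * (k + 3) ≤ Nb * m := Nat.mul_le_mul_right _ hNb
  let S : Sp := {
    t := Nb * m - 2
    m := m
    Nb := Nb
    A := B
    a₀ := Classical.arbitrary B
    Mk := MkSet Nb m (Nb * m - 2)
    W := Wset ε 𝔸
    ht := by omega
    hm := by simp only [m]; omega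
    hN := by omega }
  have : Countable S.A := inferInstanceAs (Countable B)
  obtain ⟨D, hD, hE⟩ := Dat.exists_ext (S := S)
  have hW : ∀ α ∈ autGroup (𝔹 : Str σ ar S.A), ∀ z ∈ S.W, (fun j => α (z j)) ∈ S.W := Wset_inv ε
  have hkt : k < S.t := by
    show k < Nb * m - 2
    omega
  have hkm : k < S.m := by
    show k < k + 3
    omega
  have hcons : PPCons (gstr D.E) 𝔸 :=
    graph_cons (S := S) (by show 3 ≤ k + 3; omega) ε 𝔸 rfl rfl hD hE
  refine ⟨Sg σ, inferInstance, sar S ar, D.str (𝔹 : Str σ ar S.A), D.E,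
    Dat.str_homogeneous hD hE hhom hW, Dat.str_finitelyBounded hD hE hhom hfb hW, ?_, hcons,
    ⟨?_, k3_of_cons hcons⟩, ?_, ?_⟩
  · exact {
      isRel := ⟨.e, rfl, fun v => Iff.rfl⟩
      symm := hD.symm
      irrefl := hD.irr
      homog := fun j hj u v hu hv huv => Dat.graph_homogeneous hD hE _ (by omega) (by omega) u v hu hv huv
      clique := by
        obtain ⟨e, -, he⟩ := Dat.graph_universal hE hkt hkm (fun i j => i ≠ j) (fun _ _ h => h.symm)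
          (fun _ h => h rfl)
        exact ⟨e, fun a b hab => (he a b).2 hab⟩
      noClique := ⟨S.t + 3, Dat.no_large_clique hD.toGOk⟩
      embed := fun X _ R hR φ hφ => Dat.hom_embed hD hE hR hφ
      noAlg := Dat.str_noAlgebraicity hD hE _
      pol := fun d hd => Dat.exists_pol hD hE _ hd }
  · intro h
    exact k3_transfer hD hE (𝔸 := 𝔸) (Wset_pp ε 𝔸) (fun _ => 0) (fun _ => 1) (fun _ _ h => h)
      (fun _ _ h => h) h
  · exact ⟨gredOf m ε 𝔸, poly_gredOf m ε 𝔸,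
      fun I => csp_graph (S := S) (by show 3 ≤ k + 3; omega) ε 𝔸 rfl rfl hD hE I⟩
  · exact ⟨backOf S ε 𝔸, poly_backOf S ε 𝔸, fun J => csp_back (S := S) ε 𝔸 rfl hD hE J⟩

end Pool.Agent.H725.UG
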