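import Pool.Agent.H725.UG.Emb

/-!
# Weak homomorphisms, powers, and uniqueness of free amalgams
-/

set_option autoImplicit false

namespace Pool.Agent.H725.UG

open Function
open Pool.Agent.E8helper92.BP (blk)

namespace Dat

variable {S : Sp} {X Y : Type}

/-- the weak version of `P` -/
def Pw (D : Dat S X) (K : Fin S.t → X) (a c : X) : Prop := D.P K a c ∨ (a = c ∧ D.Lk K a)

theorem GOk.r1w {D : Dat S X} (h : D.GOk) {K : Fin S.t → X} {a b c : X} (h1 : D.Lk K a)
    (h2 : D.Lk K b) (h3 : D.Lk K c) (h4 : D.E a b) (h5 : D.E b c) : D.Pw K a c := by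
  by_cases hac : a = c
  · exact Or.inr ⟨hac, h1⟩
  · exact Or.inl (h.r1 K a b c h1 h2 h3 h4 h5 hac)

theorem GOk.r2w {D : Dat S X} (h : D.GOk) {K : Fin S.t → X} {a c d : X} (h1 : D.Pw K a c)
    (h2 : D.E c d) (h3 : D.Lk K d) (h4 : D.Pw K d a) : D.L K := by
  rcases h1 with h1 | ⟨rfl, -⟩
  · rcases h4 with h4 | ⟨rfl, -⟩
    · exact h.r2 K a c d h1 h2 h3 h4
    · exact absurd (h.symm _ _ h2) (h.p0 _ _ _ h1).2.2.2.1
  · rcases h4 with h4 | ⟨rfl, -⟩
    · exact absurd (h.symm _ _ h2) (h.p0 _ _ _ h4).2.2.2.1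
    · exact absurd h2 (h.irr _)

theorem GOk.pw_symm {D : Dat S X} (h : D.GOk) {K : Fin S.t → X} {a c : X} (h1 : D.Pw K a c) :
    D.Pw K c a := by
  rcases h1 with h1 | ⟨rfl, h1⟩
  · exact Or.inl (h.p0 _ _ _ h1).2.2.2.2
  · exact Or.inr ⟨rfl, h1⟩

theorem GOk.pw_lk {D : Dat S X} (h : D.GOk) {K : Fin S.t → X} {a c : X} (h1 : D.Pw K a c) :
    D.Lk K a ∧ D.Lk K c := by
  rcases h1 with h1 | ⟨rfl, h1⟩
  · exact ⟨(h.p0 _ _ _ h1).1, (h.p0 _ _ _ h1).2.1⟩
  · exact ⟨h1, h1⟩

theorem GOk.pw_not {D : Dat S X} (h : D.GOk) {K : Fin S.t → X} {a c : X} (h1 : D.Pw K a c) :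
    ¬ D.E a c := by
  rcases h1 with h1 | ⟨rfl, h1⟩
  · exact (h.p0 _ _ _ h1).2.2.2.1
  · exact h.irr _

/-- weak homomorphisms -/
structure WHom (Q : Dat S X) (D : Dat S Y) (h : X → Y) : Prop where
  e : ∀ a b, Q.E a b → D.E (h a) (h b)
  p : ∀ K a c, Q.P K a c → D.Pw (fun i => h (K i)) (h a) (h c)
  l : ∀ K, Q.L K → D.L (fun i => h (K i))

theorem WHom.clq {Q : Dat S X} {D : Dat S Y} {h : X → Y} (hh : WHom Q D h) {r : ℕ}
    {v : Fin r → X} (hv : Q.Clq v) : D.Clq (fun i => h (v i)) := fun i j hij => hh.e _ _ (hv i j hij)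

theorem WHom.lk {Q : Dat S X} {D : Dat S Y} {h : X → Y} (hh : WHom Q D h) 
    {K : Fin S.t → X} {a : X} (hv : Q.Lk K a) : D.Lk (fun i => h (K i)) (h a) :=
  ⟨hh.clq hv.1, fun i => hh.e _ _ (hv.2 i)⟩

theorem WHom.trig {Q : Dat S X} {D : Dat S Y} {h : X → Y} (hh : WHom Q D h)
    {w : Fin (S.Nb * S.m) → X} (hw : Q.Trig w) : D.Trig (fun i => h (w i)) :=
  ⟨hh.clq hw.1, fun κ hκ => hh.l _ (hw.2 κ hκ)⟩

/-- powers -/
def pow (D : Dat S X) (I : Type) : Dat S (I → X) where
  E a b := ∀ i, D.E (a i) (b i)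
  P K a c := a ≠ c ∧ ∀ i, D.Pw (fun x => K x i) (a i) (c i)
  L K := ∀ i, D.L (fun x => K x i)
  lab _ := S.a₀

theorem pow_ok {D : Dat S X} (hD : D.GOk) (I : Type) [Nonempty I] : (D.pow I).GOk where
  symm a b h i := hD.symm _ _ (h i)
  irr a h := hD.irr _ (h (Classical.arbitrary I))
  p0 K a c h := by
    obtain ⟨hne, h⟩ := h
    refine ⟨⟨fun x y hxy i => (hD.pw_lk (h i)).1.1 x y hxy, fun x i => (hD.pw_lk (h i)).1.2 x⟩,
      ⟨fun x y hxy i => (hD.pw_lk (h i)).1.1 x y hxy, fun x i => (hD.pw_lk (h i)).2.2 x⟩, hne, ?_,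
      hne.symm, fun i => hD.pw_symm (h i)⟩
    intro hE
    exact hD.pw_not (h (Classical.arbitrary I)) (hE _)
  l0 K h := fun x y hxy i => hD.l0 _ (h i) x y hxy
  r1 K a b c h1 h2 h3 h4 h5 h6 := ⟨h6, fun i => hD.r1w ⟨fun x y hxy => h1.1 x y hxy i, fun x => h1.2 x i⟩
    ⟨fun x y hxy => h2.1 x y hxy i, fun x => h2.2 x i⟩ ⟨fun x y hxy => h3.1 x y hxy i, fun x => h3.2 x i⟩
    (h4 i) (h5 i)⟩
  r2 K a c d h1 h2 h3 h4 := fun i => hD.r2w (h1.2 i) (h2 i)
    ⟨fun x y hxy => h3.1 x y hxy i, fun x => h3.2 x i⟩ (h4.2 i)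

theorem pow_proj (D : Dat S X) (I : Type) (i : I) : WHom (D.pow I) D (fun a => a i) where
  e _ _ h := h i
  p _ _ _ h := h.2 i
  l _ h := h i

theorem WHom.comp_pull {Q : Dat S X} {D : Dat S Y} {h : X → Y} (hh : WHom Q D h) {Z : Type}
    (f : Z → X) : WHom (Q.pull f) D (fun z => h (f z)) where
  e _ _ h := hh.e _ _ h
  p _ _ _ h := hh.p _ _ _ h
  l _ h := hh.l _ h

/-- uniqueness of free amalgams -/
theorem amalgam_unique {I : Type} [Nonempty I] (comp : Y → Option I) (Z : I → Type)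
    (f : ∀ i, Z i → Y)
    (hran : ∀ i y, (∃ z, f i z = y) ↔ comp y = none ∨ comp y = some i)
    (D D' : Dat S Y) (hD : D.GOk) (hD' : D'.GOk)
    (hn : ∀ v : Fin S.m → Y, ¬ D.Clq v → D.lab v = S.a₀)
    (hn' : ∀ v : Fin S.m → Y, ¬ D'.Clq v → D'.lab v = S.a₀)
    (hpull : ∀ i, D.pull (f i) = D'.pull (f i))
    (h1 : ∀ a b, D.E a b → comp a = none ∨ comp b = none ∨ comp a = comp b)
    (h1' : ∀ a b, D'.E a b → comp a = none ∨ comp b = none ∨ comp a = comp b)
    (h3 : ∀ K a c i j, comp a = some i → comp c = some j → i ≠ j →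
      (D.P K a c ↔ D.Lk K a ∧ D.Lk K c ∧ ∃ b, D.Lk K b ∧ D.E a b ∧ D.E b c))
    (h3' : ∀ K a c i j, comp a = some i → comp c = some j → i ≠ j →
      (D'.P K a c ↔ D'.Lk K a ∧ D'.Lk K c ∧ ∃ b, D'.Lk K b ∧ D'.E a b ∧ D'.E b c)) : D = D' := by
  classical
  -- general facts about both structures
  have gen : ∀ F : Dat S Y, F.GOk → (∀ a b, F.E a b → comp a = none ∨ comp b = none ∨ comp a = comp b) →
      (∀ {r : ℕ} (v : Fin r → Y), F.Clq v → ∃ i, ∀ x, comp (v x) = none ∨ comp (v x) = some i) ∧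
      (∀ K a c, F.Lk K a → F.Lk K c →
        (∃ i j, comp a = some i ∧ comp c = some j ∧ i ≠ j) ∨
        ∃ i, (∀ x, comp (K x) = none ∨ comp (K x) = some i) ∧
        (comp a = none ∨ comp a = some i) ∧ (comp c = none ∨ comp c = some i)) ∧
      ∀ a b, F.E a b → ∃ i, (comp a = none ∨ comp a = some i) ∧ (comp b = none ∨ comp b = some i) := by
    intro F hF hF1
    have hclq : ∀ {r : ℕ} (v : Fin r → Y), F.Clq v →
        ∃ i, ∀ x, comp (v x) = none ∨ comp (v x) = some i := by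
      intro r v hv
      by_cases h : ∃ x i, comp (v x) = some i
      · obtain ⟨x, i, hx⟩ := h
        refine ⟨i, fun y => ?_⟩
        by_cases hxy : x = y
        · subst hxy
          exact Or.inr hx
        · rcases hF1 _ _ (hv x y hxy) with h | h | h
          · rw [hx] at h
            simp at h
          · exact Or.inl h
          · exact Or.inr (h.symm.trans hx)
      · push Not at h
        refine ⟨Classical.arbitrary I, fun y => Or.inl ?_⟩
        rcases hc : comp (v y) with _ | i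
        · rfl
        · exact absurd hc (h y i)
    have hadj : ∀ a b i, comp a = some i → F.E b a → comp b = none ∨ comp b = some i := by
      intro a b i ha hab
      rcases hF1 _ _ hab with h | h | h
      · exact Or.inl h
      · rw [ha] at h
        simp at h
      · exact Or.inr (h.trans ha)
    refine ⟨hclq, ?_, ?_⟩
    · intro K a c hKa hKc
      rcases ha : comp a with _ | i
      · rcases hb : comp c with _ | j
        · obtain ⟨i', hi'⟩ := hclq K hKa.1
          exact Or.inr ⟨i', hi', Or.inl rfl, Or.inl rfl⟩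
        · exact Or.inr ⟨j, fun x => hadj c _ j hb (hKc.2 x), Or.inl rfl, Or.inr rfl⟩
      · rcases hb : comp c with _ | j
        · exact Or.inr ⟨i, fun x => hadj a _ i ha (hKa.2 x), Or.inr rfl, Or.inl rfl⟩
        · by_cases hij : i = j
          · subst hij
            exact Or.inr ⟨i, fun x => hadj a _ i ha (hKa.2 x), Or.inr rfl, Or.inr rfl⟩
          · exact Or.inl ⟨i, j, rfl, rfl, hij⟩
    · intro a b hab
      rcases ha : comp a with _ | i
      · rcases hb : comp b with _ | j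
        · exact ⟨Classical.arbitrary I, Or.inl rfl, Or.inl rfl⟩
        · exact ⟨j, Or.inl rfl, Or.inr rfl⟩
      · exact ⟨i, Or.inr rfl, hadj a b i ha (hF.symm _ _ hab)⟩
  obtain ⟨g1, g2, g3⟩ := gen D hD h1
  obtain ⟨g1', g2', g3'⟩ := gen D' hD' h1'
  have hE : ∀ a b, D.E a b ↔ D'.E a b := by
    have hE1 : ∀ i a b, (comp a = none ∨ comp a = some i) → (comp b = none ∨ comp b = some i) →
        (D.E a b ↔ D'.E a b) := by
      intro i a b ha hb
      obtain ⟨z, rfl⟩ := (hran i a).2 ha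
      obtain ⟨z', rfl⟩ := (hran i b).2 hb
      exact iff_of_eq (congrFun (congrFun (congrArg Dat.E (hpull i)) z) z')
    intro a b
    constructor
    · intro h
      obtain ⟨i, ha, hb⟩ := g3 a b h
      exact (hE1 i a b ha hb).1 h
    · intro h
      obtain ⟨i, ha, hb⟩ := g3' a b h
      exact (hE1 i a b ha hb).2 h
  have hEq : D.E = D'.E := by
    funext a b
    exact propext (hE a b)
  have hC : ∀ {r : ℕ} (v : Fin r → Y), D.Clq v ↔ D'.Clq v := fun v =>
    forall_congr' fun i => forall_congr' fun j => imp_congr_right fun _ => hE _ _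
  have hL : ∀ K a, D.Lk K a ↔ D'.Lk K a := fun K a => and_congr (hC K) (forall_congr' fun i => hE _ _)
  apply ext_of hEq
  · funext K a c
    apply propext
    have hP1 : ∀ i, (∀ x, comp (K x) = none ∨ comp (K x) = some i) →
        (comp a = none ∨ comp a = some i) → (comp c = none ∨ comp c = some i) →
        (D.P K a c ↔ D'.P K a c) := by
      intro i hK ha hc
      choose K' hK' using fun x => (hran i (K x)).2 (hK x)
      obtain ⟨z, rfl⟩ := (hran i a).2 ha
      obtain ⟨z', rfl⟩ := (hran i c).2 hc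
      have h4 : K = fun x => f i (K' x) := funext fun x => (hK' x).symm
      rw [h4]
      exact iff_of_eq (congrFun (congrFun (congrFun (congrArg Dat.P (hpull i)) K') z) z')
    have hP2 : ∀ i j, comp a = some i → comp c = some j → i ≠ j → (D.P K a c ↔ D'.P K a c) := by
      intro i j ha hc hij
      rw [h3 K a c i j ha hc hij, h3' K a c i j ha hc hij, hL, hL]
      simp only [hL, hE]
    constructor
    · intro h
      obtain ⟨ha, hc, -⟩ := hD.p0 _ _ _ h
      rcases g2 K a c ha hc with ⟨i, j, hi, hj, hij⟩ | ⟨i, hi, hj, hk⟩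
      · exact (hP2 i j hi hj hij).1 h
      · exact (hP1 i hi hj hk).1 h
    · intro h
      obtain ⟨ha, hc, -⟩ := hD'.p0 _ _ _ h
      rcases g2' K a c ha hc with ⟨i, j, hi, hj, hij⟩ | ⟨i, hi, hj, hk⟩
      · exact (hP2 i j hi hj hij).2 h
      · exact (hP1 i hi hj hk).2 h
  · funext K
    apply propext
    have hL1 : ∀ i, (∀ x, comp (K x) = none ∨ comp (K x) = some i) → (D.L K ↔ D'.L K) := by
      intro i hK
      choose K' hK' using fun x => (hran i (K x)).2 (hK x)
      have h4 : K = fun x => f i (K' x) := funext fun x => (hK' x).symm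
      rw [h4]
      exact iff_of_eq (congrFun (congrArg Dat.L (hpull i)) K')
    constructor
    · intro h
      obtain ⟨i, hi⟩ := g1 K (hD.l0 _ h)
      exact (hL1 i hi).1 h
    · intro h
      obtain ⟨i, hi⟩ := g1' K (hD'.l0 _ h)
      exact (hL1 i hi).2 h
  · funext K
    by_cases hK : D.Clq K
    · obtain ⟨i, hi⟩ := g1 K hK
      choose K' hK' using fun x => (hran i (K x)).2 (hi x)
      have h4 : K = fun x => f i (K' x) := funext fun x => (hK' x).symm
      rw [h4]
      exact congrFun (congrArg Dat.lab (hpull i)) K'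
    · rw [hn K hK, hn' K (fun h => hK ((hC K).2 h))]

/-- finite partial isomorphisms given by finite types -/
theorem good_of_pull {Z : Type} [Fintype Z] [DecidableEq (Y × ℕ)] {Q : Dat S Y} {D : Dat S ℕ}
    (g : Z → Y) (g' : Z → ℕ)
    (hg : Injective g) (hg' : Injective g') (h : Q.pull g = D.pull g') :
    Good Q D (Finset.univ.image (fun z => (g z, g' z))) := by
  constructor
  · intro x hx y hy
    rw [Finset.mem_image] at hx hy
    obtain ⟨x, -, rfl⟩ := hx
    obtain ⟨y, -, rfl⟩ := hy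
    simp only
    rw [hg.eq_iff, hg'.eq_iff]
  · have hz : ∀ z : {z // z ∈ Finset.univ.image (fun z => (g z, g' z))}, ∃ y, (g y, g' y) = z.1 := by
      rintro ⟨z, hz⟩
      rw [Finset.mem_image] at hz
      obtain ⟨y, -, hy⟩ := hz
      exact ⟨y, hy⟩
    choose r hr using hz
    have h1 : (fun z : {z // z ∈ Finset.univ.image (fun z => (g z, g' z))} => z.1.1) =
        fun z => g (r z) := funext fun z => (congrArg Prod.fst (hr z)).symm
    have h2 : (fun z : {z // z ∈ Finset.univ.image (fun z => (g z, g' z))} => z.1.2) =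
        fun z => g' (r z) := funext fun z => (congrArg Prod.snd (hr z)).symm
    rw [h1, h2]
    exact congrArg (fun B : Dat S Z => B.pull r) h

end Dat

end Pool.Agent.H725.UG
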