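import Pool.Agent.H725.UG.SysOk
import Pool.Agent.H725.UG.Fam

/-!
# The reduction
-/

set_option autoImplicit false

namespace Pool.Agent.H725.UG

open Function Pool.Agent.W994.AR Pool.Agent.NPC
open Pool.Agent.H593R3.FBC (Inst IsInst CSP Rels)
open Pool.Agent.E8helper92.BP (blk Blk tup tup_eq tup_length mainB linkB newC mem_newC okI okI_iff
  poly_okI CSPOf cspOf_iff redOf red badL mem_badL tabL tabL_get exists_ofFn single csp_red blk_tup
  mainB_eq)

/-- the constraints of the graph instance: cliques, and cycles of length five attached to subsets of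
the cliques -/
def gC (PL : List (ℕ × ℕ)) (GG : List (List ℕ)) (base : ℕ) (L : List (ℕ × List ℕ)) :
    List (ℕ × List ℕ) :=
  L.zipIdx.flatMap (fun p => PL.map (fun xy => (0, [p.1.2.getD xy.1 0, p.1.2.getD xy.2 0])) ++
    GG.zipIdx.flatMap (fun pp => (List.range 5).flatMap (fun i =>
      (0, [base + (p.2 * GG.length + pp.2) * 5 + i,
        base + (p.2 * GG.length + pp.2) * 5 + (i + 1) % 5]) ::
        pp.1.map (fun x => (0, [p.1.2.getD x 0, base + (p.2 * GG.length + pp.2) * 5 + i])))))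

theorem mem_gC {PL : List (ℕ × ℕ)} {GG : List (List ℕ)} {base : ℕ} {L : List (ℕ × List ℕ)}
    {p : ℕ × List ℕ} : p ∈ gC PL GG base L ↔ ∃ ci z l, L[ci]? = some (z, l) ∧
      ((∃ x y, (x, y) ∈ PL ∧ p = (0, [l.getD x 0, l.getD y 0])) ∨
        ∃ gi cp, GG[gi]? = some cp ∧ ∃ i < 5,
          (p = (0, [base + (ci * GG.length + gi) * 5 + i,
            base + (ci * GG.length + gi) * 5 + (i + 1) % 5]) ∨
            ∃ x ∈ cp, p = (0, [l.getD x 0, base + (ci * GG.length + gi) * 5 + i]))) := by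
  unfold gC
  simp only [List.mem_flatMap, List.mem_append, List.mem_map, Prod.exists,
    List.mem_zipIdx_iff_getElem?, List.mem_cons, List.mem_range]
  constructor
  · rintro ⟨z, l, ci, h1, h2⟩
    refine ⟨ci, z, l, h1, ?_⟩
    rcases h2 with ⟨x, y, h3, h4⟩ | ⟨cp, gi, h3, i, hi, h4⟩
    · exact Or.inl ⟨x, y, h3, h4.symm⟩
    · refine Or.inr ⟨gi, cp, h3, i, hi, ?_⟩
      rcases h4 with h4 | ⟨x, hx, h4⟩
      · exact Or.inl h4
      · exact Or.inr ⟨x, hx, h4.symm⟩
  · rintro ⟨ci, z, l, h1, h2⟩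
    refine ⟨z, l, ci, h1, ?_⟩
    rcases h2 with ⟨x, y, h3, h4⟩ | ⟨gi, cp, h3, i, hi, h4⟩
    · exact Or.inl ⟨x, y, h3, h4.symm⟩
    · refine Or.inr ⟨cp, gi, h3, i, hi, ?_⟩
      rcases h4 with h4 | ⟨x, hx, h4⟩
      · exact Or.inl h4
      · exact Or.inr ⟨x, hx, h4.symm⟩

/-- the number of points of the blocks -/
def baseN (m Nb K : ℕ) (I : Inst) : ℕ := (I.1.length + I.2.length * (K * Nb)) * m

/-- the reduction to the graph -/
def gred (τ bad : List ℕ) (m Nb K e0 e1 : ℕ) (tab : List (List ℕ)) (PL : List (ℕ × ℕ))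
    (GG : List (List ℕ)) (I : Inst) : Inst :=
  if okI τ bad I then
    (List.replicate (baseN m Nb K I + (newC m Nb K e0 e1 tab I).length * (GG.length * 5)) (),
      gC PL GG (baseN m Nb K I) (newC m Nb K e0 e1 tab I))
  else ([], [(1, [])])

theorem poly_newC (m Nb K e0 e1 : ℕ) (tab : List (List ℕ)) : Poly (newC m Nb K e0 e1 tab) := by
  unfold newC tup mainB linkB
  fun_prop

theorem poly_gred (τ bad : List ℕ) (m Nb K e0 e1 : ℕ) (tab : List (List ℕ)) (PL : List (ℕ × ℕ))
    (GG : List (List ℕ)) : Poly (gred τ bad m Nb K e0 e1 tab PL GG) := by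
  have h0 : Poly (newC m Nb K e0 e1 tab) := poly_newC m Nb K e0 e1 tab
  have h1 : Poly (fun I : Inst => List.replicate (baseN m Nb K I +
      (newC m Nb K e0 e1 tab I).length * (GG.length * 5)) ()) := by
    have h2 : UPoly (fun I : Inst => baseN m Nb K I +
        (newC m Nb K e0 e1 tab I).length * (GG.length * 5)) := by
      unfold baseN
      exact UPoly.add (UPoly.mul (UPoly.add (UPoly.length (Poly.fst Poly.id))
        (UPoly.mul (UPoly.length (Poly.snd Poly.id)) (UPoly.const _))) (UPoly.const _))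
        (UPoly.mul (UPoly.length h0) (UPoly.const _))
    exact h2
  have h3 : Poly (okI τ bad) := poly_okI τ bad
  have hb : Poly (fun I : Inst => baseN m Nb K I) := by
    unfold baseN
    fun_prop
  have h4 : Poly (fun I : Inst => gC PL GG (baseN m Nb K I) (newC m Nb K e0 e1 tab I)) := by
    unfold gC
    fun_prop
  have h5 : Poly (fun I => bif okI τ bad I then
    (List.replicate (baseN m Nb K I + (newC m Nb K e0 e1 tab I).length * (GG.length * 5)) (),
      gC PL GG (baseN m Nb K I) (newC m Nb K e0 e1 tab I))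
    else (([], [(1, [])]) : Inst)) := by fun_prop
  refine h5.congr fun I => ?_
  unfold gred
  cases okI τ bad I <;> rfl

end Pool.Agent.H725.UG
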