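import Pool.Agent.H725.UG.Red

/-!
# Correctness of the reduction
-/

set_option autoImplicit false

namespace Pool.Agent.H725.UG

open Function Pool.Agent.W994.AR Pool.Agent.NPC
open Pool.Agent.H593R3.FBC (Inst IsInst CSP Rels)
open Pool.Agent.E8helper92.BP (blk Blk tup tup_eq tup_length mainB linkB newC mem_newC okI okI_iff
  poly_okI CSPOf cspOf_iff redOf badL mem_badL tabL tabL_get exists_ofFn single csp_red blk_tup
  mainB_eq)

theorem bi_val {Nb m : ℕ} (x : Fin (Nb * m)) : (bi x : ℕ) = x / m := rfl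

theorem ai_val {Nb m : ℕ} (x : Fin (Nb * m)) : (ai x : ℕ) = x % m := rfl

open Classical in
/-- the pairs of positions with gadgets -/
noncomputable def prs (Nb m : ℕ) : List (Fin (Nb * m) × Fin (Nb * m)) :=
  ((List.finRange (Nb * m)) ×ˢ (List.finRange (Nb * m))).filter (fun p => Gam p.1 p.2)

theorem mem_prs {Nb m : ℕ} {p : Fin (Nb * m) × Fin (Nb * m)} : p ∈ prs Nb m ↔ Gam p.1 p.2 := by
  obtain ⟨a, b⟩ := p
  unfold prs
  simp [List.mem_filter, List.pair_mem_product]

/-- the pairs of different positions -/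
def PLof (N : ℕ) : List (ℕ × ℕ) := ((List.range N) ×ˢ (List.range N)).filter (fun p => p.1 ≠ p.2)

theorem mem_PLof {N : ℕ} {p : ℕ × ℕ} : p ∈ PLof N ↔ p.1 < N ∧ p.2 < N ∧ p.1 ≠ p.2 := by
  obtain ⟨a, b⟩ := p
  unfold PLof
  simp [List.mem_filter, List.pair_mem_product, and_assoc]

/-- the complements of the pairs with gadgets -/
noncomputable def GGof (Nb m : ℕ) : List (List ℕ) :=
  (prs Nb m).map (fun p => (List.range (Nb * m)).filter (fun x => x ≠ p.1.1 ∧ x ≠ p.2.1))

theorem GGof_length (Nb m : ℕ) : (GGof Nb m).length = (prs Nb m).length := by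
  simp [GGof]

theorem GGof_get {Nb m gi : ℕ} {cp : List ℕ} : (GGof Nb m)[gi]? = some cp ↔
    ∃ p, (prs Nb m)[gi]? = some p ∧ cp = (List.range (Nb * m)).filter (fun x => x ≠ p.1.1 ∧ x ≠ p.2.1) := by
  unfold GGof
  rw [List.getElem?_map]
  cases h : (prs Nb m)[gi]? <;> simp [eq_comm]

variable {n : ℕ} {A : Type} {ar : Fin n → ℕ} {Nb m : ℕ}

/-- the constraint -/
def Wset (ε : Blk ar ≃ Fin Nb) (𝔸 : Str (Fin n) ar A) : Set (Fin Nb → A) :=
  {z | (∀ i, (𝔸 i).Nonempty → (fun j => z (ε (Sum.inr ⟨i, j⟩))) ∈ 𝔸 i) ∧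
    z (ε (Sum.inl 0)) = z (ε (Sum.inl 1))}

theorem tup_getD {L : ℕ} {B : ℕ → ℕ} {x : ℕ} (hx : x < L) :
    (tup m L B).getD x 0 = B (x / m) * m + x % m := by
  unfold tup
  rw [List.getD_eq_getElem?_getD, List.getElem?_map, List.getElem?_range hx]
  rfl

/-- the reduction for a structure -/
noncomputable def gredOf (m : ℕ) (ε : Blk ar ≃ Fin Nb) (𝔸 : Str (Fin n) ar A) : Inst → Inst :=
  gred (List.ofFn ar) (badL 𝔸) m Nb (Finset.univ.sup ar + 1) (ε (Sum.inl 0)).1 (ε (Sum.inl 1)).1
    (tabL ε) (PLof (Nb * m)) (GGof Nb m)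

theorem poly_gredOf (m : ℕ) (ε : Blk ar ≃ Fin Nb) (𝔸 : Str (Fin n) ar A) :
    Poly (gredOf m ε 𝔸) := poly_gred _ _ _ _ _ _ _ _ _ _

/-- the template -/
def gstr {B : Type} (E : B → B → Prop) : Str (Fin 1) (fun _ => 2) B := fun _ => {v | E (v 0) (v 1)}

theorem gstr_csp {B : Type} [Nonempty B] (E : B → B → Prop) (I : Inst) :
    CSPOf (gstr E) I ↔ IsInst [2] I ∧ ∃ h : ℕ → B, ∀ a b, (0, [a, b]) ∈ I.2 → E (h a) (h b) := by
  rw [cspOf_iff]
  have h1 : List.ofFn (fun _ : Fin 1 => 2) = [2] := by simp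
  rw [h1]
  refine and_congr_right fun _ => exists_congr fun h => ?_
  constructor
  · intro h2 a b hab
    exact h2 0 ![a, b] (by simpa using hab)
  · intro h2 i v hv
    obtain rfl : i = 0 := Subsingleton.elim _ _
    apply h2
    have h3 : List.ofFn v = [v 0, v 1] := by simp
    rw [h3] at hv
    exact hv

/-- the data of the constraints of the new instance -/
theorem newC_kind (hm : 0 < m) (ε : Blk ar ≃ Fin Nb) (I : Inst)
    (hI : IsInst (List.ofFn ar) I) :
    ∃ xv pv : ℕ → ℕ → ℕ, ∀ p ∈ newC m Nb (Finset.univ.sup ar + 1) (ε (Sum.inl 0)).1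
      (ε (Sum.inl 1)).1 (tabL ε) I, ∃ t k, k < Finset.univ.sup ar + 1 ∧
      (k ≠ 0 → xv t (k - 1) < I.1.length ∧ pv t (k - 1) < Nb ∧ pv t (k - 1) ≠ (ε (Sum.inl 0)).1 ∧
        pv t (k - 1) ≠ (ε (Sum.inl 1)).1) ∧
      p = (0, tup m (Nb * m) (Fb I.1.length (Finset.univ.sup ar + 1) Nb (ε (Sum.inl 0)).1
        (ε (Sum.inl 1)).1 xv pv t k)) := by
  classical
  have hKar : ∀ i, ar i < Finset.univ.sup ar + 1 := fun i =>
    Nat.lt_succ_of_le (Finset.le_sup (f := ar) (Finset.mem_univ i))
  have hεi : ∀ (i : Fin n) (j : Fin (ar i)) (x : Fin 2),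
      (ε (Sum.inr ⟨i, j⟩)).1 ≠ (ε (Sum.inl x)).1 := by
    intro i j x h
    have := ε.injective (Fin.ext h)
    simp at this
  refine ⟨fun t j => ((I.2.getD t (0, [])).2).getD j 0,
    fun t j => ((tabL ε).getD (I.2.getD t (0, [])).1 []).getD j 0, ?_⟩
  intro p hp
  obtain ⟨t, i, l, htl, hp⟩ := mem_newC.1 hp
  have hget : I.2.getD t (0, []) = (i, l) := by
    rw [List.getD_eq_getElem?_getD, htl]
    rfl
  rcases hp with hp | ⟨j, x, hjx, hp⟩
  · refine ⟨t, 0, Nat.succ_pos _, fun h => absurd rfl h, ?_⟩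
    rw [hp]
    have h1 : mainB Nb (Finset.univ.sup ar + 1) I.1.length t = Fb I.1.length (Finset.univ.sup ar + 1) Nb
        (ε (Sum.inl 0)).1 (ε (Sum.inl 1)).1 (fun t j => ((I.2.getD t (0, [])).2).getD j 0)
        (fun t j => ((tabL ε).getD (I.2.getD t (0, [])).1 []).getD j 0) t 0 := by
      funext b
      rw [mainB_eq]
      unfold Fb
      rw [if_pos rfl]
    rw [h1]
  · have hpI : (i, l) ∈ I.2 := List.mem_of_getElem? htl
    have h1 := (hI _ hpI).1
    rw [List.getElem?_ofFn] at h1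
    split_ifs at h1 with hi
    simp only [Option.some.injEq] at h1
    have hi' : i < n := hi
    have hj : j < ar ⟨i, hi'⟩ := by
      have := (List.getElem?_eq_some_iff.1 hjx).1
      rw [← h1] at this
      exact this
    have hgl : l.getD j 0 = x := by
      rw [List.getD_eq_getElem?_getD, hjx]
      rfl
    have htab := tabL_get ε ⟨i, hi'⟩ ⟨j, hj⟩
    simp only at htab
    refine ⟨t, j + 1, ?_, ?_, ?_⟩
    · have := hKar ⟨i, hi'⟩
      omega
    · intro _
      simp only [hget, Nat.add_sub_cancel, hgl, htab]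
      refine ⟨?_, Fin.isLt _, hεi _ _ _, hεi _ _ _⟩
      apply (hI _ hpI).2
      simp only
      have := (List.getElem?_eq_some_iff.1 hjx)
      rw [← this.2]
      exact List.getElem_mem _
    · rw [hp]
      congr 2
      funext b
      unfold Fb linkB
      simp only [Nat.succ_ne_zero, if_false, hget, Nat.add_sub_cancel, hgl, Nat.add_zero]

theorem csp_graph {S : Sp} (hS3 : 3 ≤ S.m) (ε : Blk ar ≃ Fin S.Nb) (𝔸 : Str (Fin n) ar S.A)
    [Countable S.A] (hW : S.W = Wset ε 𝔸) (hMk : S.Mk = MkSet S.Nb S.m S.t) {D : Dat S ℕ} (hD : D.Ok)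
    (hE : D.Ext) (I : Inst) : CSPOf 𝔸 I ↔ CSPOf (gstr D.E) (gredOf S.m ε 𝔸 I) := by
  classical
  have hm : 0 < S.m := by omega
  have ha0 : Nonempty S.A := ⟨S.a₀⟩
  have hNb : 2 ≤ S.Nb := by
    have h1 := (ε (Sum.inl 0)).2
    have h2 := (ε (Sum.inl 1)).2
    have h3 : (ε (Sum.inl 0)).1 ≠ (ε (Sum.inl 1)).1 := by
      intro h
      have := ε.injective (Fin.ext h)
      simp at this
    omega
  have hNbm : S.m ≤ S.Nb * S.m := Nat.le_mul_of_pos_left _ (by omega)
  have hε01 : (ε (Sum.inl 0)).1 ≠ (ε (Sum.inl 1)).1 := by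
    intro h
    have := ε.injective (Fin.ext h)
    simp at this
  set K := Finset.univ.sup ar + 1 with hK
  have hKar : ∀ i, ar i < K := fun i => Nat.lt_succ_of_le (Finset.le_sup (f := ar) (Finset.mem_univ i))
  by_cases hok : okI (List.ofFn ar) (badL 𝔸) I = true
  swap
  · have hred : gredOf S.m ε 𝔸 I = ([], [(1, [])]) := by
      unfold gredOf gred
      rw [if_neg hok]
    rw [hred, cspOf_iff]
    constructor
    · rintro ⟨hI, h, hh⟩
      exfalso
      apply hok
      rw [okI_iff]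
      refine ⟨hI, fun p hp hbad => ?_⟩
      have h1 := (hI p hp).1
      rw [List.getElem?_ofFn] at h1
      split_ifs at h1 with hi
      simp only [Option.some.injEq] at h1
      obtain ⟨v, hv⟩ := exists_ofFn h1.symm
      have h2 := (mem_badL 𝔸 ⟨p.1, hi⟩).1 hbad
      apply h2
      refine ⟨_, hh ⟨p.1, hi⟩ v ?_⟩
      rw [← hv]
      exact hp
    · intro h
      rw [gstr_csp] at h
      have h1 := (h.1 (1, []) (by simp)).1
      simp at h1
  set L := newC S.m S.Nb K (ε (Sum.inl 0)).1 (ε (Sum.inl 1)).1 (tabL ε) I with hLdef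
  set base := baseN S.m S.Nb K I with hbase
  set GG := GGof S.Nb S.m with hGG
  have hred : gredOf S.m ε 𝔸 I = (List.replicate (base + L.length * (GG.length * 5)) (),
      gC (PLof (S.Nb * S.m)) GG base L) := by
    unfold gredOf gred
    rw [if_pos hok]
  have hok' := okI_iff.1 hok
  obtain ⟨hI, hbad⟩ := hok'
  rw [hred, gstr_csp]
  obtain ⟨xv, pv, hkind⟩ := newC_kind hm ε I hI
  constructor
  · intro hcsp
    -- a solution of the instance with tuples
    obtain ⟨f, hf⟩ := Pool.Agent.E8helper92.BP.exists_ext (m := S.m) (A := S.A)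
    have h1 := (csp_red hm hf 𝔸 ε I).1 hcsp
    rw [cspOf_iff] at h1
    have hred' : redOf S.m ε 𝔸 I = (List.replicate base (), L) := by
      unfold redOf Pool.Agent.E8helper92.BP.red
      rw [if_pos hok]
      rfl
    rw [hred'] at h1
    obtain ⟨hJ, e, he⟩ := h1
    let val : ℕ → S.A := fun B => f (fun a : Fin S.m => e (B * S.m + a))
    have hvalW : ∀ B : ℕ → ℕ, (0, tup S.m (S.Nb * S.m) B) ∈ L →
        (fun j : Fin S.Nb => val (B j)) ∈ S.W := by
      intro B hB
      have h2 := he 0 (fun y : Fin (S.Nb * S.m) => B (y / S.m) * S.m + y % S.m) (by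
        rw [tup_eq] at hB
        exact hB)
      obtain ⟨-, h3, h4⟩ := h2
      simp only [blk_tup hm] at h3 h4
      rw [hW]
      exact ⟨h3, h4⟩
    have hkind' : ∀ c : Fin L.length, ∃ t k, k < K ∧
        (k ≠ 0 → xv t (k - 1) < I.1.length ∧ pv t (k - 1) < S.Nb ∧ pv t (k - 1) ≠ (ε (Sum.inl 0)).1 ∧
        pv t (k - 1) ≠ (ε (Sum.inl 1)).1) ∧
        L[c.1] = (0, tup S.m (S.Nb * S.m) (Fb I.1.length K S.Nb (ε (Sum.inl 0)).1
        (ε (Sum.inl 1)).1 xv pv t k)) := fun c => hkind _ (List.getElem_mem _)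
    choose kt kc hkc hkx hLc using hkind'
    let Y : Sys S.Nb ℕ := famSys (n₀ := I.1.length) (K := K) (e0 := (ε (Sum.inl 0)).1)
      (e1 := (ε (Sum.inl 1)).1) (xv := xv) (pv := pv) (C := Fin L.length) (kt := kt) (kc := kc)
      (Nat.succ_pos _) (Fin.isLt _) (Fin.isLt _) hε01 hkc hkx
    have hYB : ∀ c j, Y.Bc c j = Fb I.1.length K S.Nb (ε (Sum.inl 0)).1
        (ε (Sum.inl 1)).1 xv pv (kt c) (kc c) j := fun c j => rfl
    have hYW : ∀ c, (fun j => val (Y.Bc c j)) ∈ S.W := by
      intro c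
      apply hvalW (Fb I.1.length K S.Nb (ε (Sum.inl 0)).1 (ε (Sum.inl 1)).1 xv pv (kt c) (kc c))
      rw [← hLc c]
      exact List.getElem_mem _
    have hQ := Sys.sys_ok (Y := Y) hS3 hNb hMk val hYW
    have : Countable Y.C := inferInstanceAs (Countable (Fin L.length))
    obtain ⟨φ₀, -, -, hφ₀⟩ := hE.embed hQ ∅ (Dat.good_empty _ D)
    have hadj : ∀ a b : Y.Vt S.m, Y.adj a b → D.E (φ₀ a) (φ₀ b) := by
      intro a b hab
      have h1 := congrFun (congrFun (congrArg Dat.E hφ₀) a) b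
      exact cast h1.symm hab
    -- decoding
    have hprs : ∀ g : Fin (prs S.Nb S.m).length, Gam ((prs S.Nb S.m)[g.1]).1 ((prs S.Nb S.m)[g.1]).2 :=
      fun g => mem_prs.1 (List.getElem_mem _)
    let dec : ℕ → Y.Vt S.m := fun x => if x < base then Sum.inl (x / S.m, ⟨x % S.m, Nat.mod_lt _ hm⟩)
      else if h : (x - base) / 5 / (prs S.Nb S.m).length < L.length ∧
        (x - base) / 5 % (prs S.Nb S.m).length < (prs S.Nb S.m).length then
        Sum.inr ((⟨(x - base) / 5 / (prs S.Nb S.m).length, h.1⟩ : Fin L.length),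
          ⟨(prs S.Nb S.m)[(x - base) / 5 % (prs S.Nb S.m).length]'h.2, hprs ⟨_, h.2⟩⟩,
          ⟨(x - base) % 5, Nat.mod_lt _ (by norm_num)⟩)
      else Sum.inl (0, ⟨0, hm⟩)
    have hdec1 : ∀ x, x < base → dec x = Sum.inl (x / S.m, ⟨x % S.m, Nat.mod_lt _ hm⟩) :=
      fun x hx => if_pos hx
    have hdec2 : ∀ (ci : Fin L.length) (g : Fin (prs S.Nb S.m).length) (i : ℕ) (hi : i < 5),
        dec (base + (ci.1 * (prs S.Nb S.m).length + g.1) * 5 + i) =
          Sum.inr (ci, ⟨(prs S.Nb S.m)[g.1], hprs g⟩, ⟨i, hi⟩) := by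
      intro ci g i hi
      have h1 : base + (ci.1 * (prs S.Nb S.m).length + g.1) * 5 + i - base =
          (ci.1 * (prs S.Nb S.m).length + g.1) * 5 + i := by omega
      have h2 : ((ci.1 * (prs S.Nb S.m).length + g.1) * 5 + i) / 5 =
          ci.1 * (prs S.Nb S.m).length + g.1 := by omega
      have h3 : ((ci.1 * (prs S.Nb S.m).length + g.1) * 5 + i) % 5 = i := by omega
      have hgpos : 0 < (prs S.Nb S.m).length := lt_of_le_of_lt (Nat.zero_le _) g.2
      have h4 : (ci.1 * (prs S.Nb S.m).length + g.1) / (prs S.Nb S.m).length = ci.1 := by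
        rw [Nat.mul_comm, Nat.mul_add_div hgpos, Nat.div_eq_of_lt g.2, Nat.add_zero]
      have h5 : (ci.1 * (prs S.Nb S.m).length + g.1) % (prs S.Nb S.m).length = g.1 := by
        rw [Nat.mul_comm, Nat.mul_add_mod, Nat.mod_eq_of_lt g.2]
      have h6 : ¬ (base + (ci.1 * (prs S.Nb S.m).length + g.1) * 5 + i < base) := by omega
      simp only [dec]
      rw [if_neg h6]
      simp only [h1, h2, h3, h4, h5]
      rw [dif_pos ⟨ci.2, g.2⟩]
      rfl
    -- the points of the cliques
    have hlt : ∀ (ci : ℕ) z l, L[ci]? = some (z, l) → ∀ x, x < S.Nb * S.m → ∃ (c : Fin L.length)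
        (hx : x < S.Nb * S.m), c.1 = ci ∧ l.getD x 0 < base ∧
        dec (l.getD x 0) = Sum.inl (Y.w c ⟨x, hx⟩) := by
      intro ci z l hl x hx
      obtain ⟨hci, hLci⟩ := List.getElem?_eq_some_iff.1 hl
      refine ⟨⟨ci, hci⟩, hx, rfl, ?_⟩
      have h1 := hLc ⟨ci, hci⟩
      rw [hLci] at h1
      simp only [Prod.mk.injEq] at h1
      have hmem : (z, l) ∈ (List.replicate base (), L).2 := List.mem_of_getElem? hl
      have h2 : l.getD x 0 < base := by
        have h3 := (hJ _ hmem).2 (l.getD x 0) (by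
          rw [List.getD_eq_getElem?_getD]
          have h4 : x < l.length := by
            rw [h1.2, tup_length]
            exact hx
          rw [List.getElem?_eq_getElem h4]
          exact List.getElem_mem _)
        simpa using h3
      refine ⟨h2, ?_⟩
      rw [hdec1 _ h2]
      congr 1
      rw [h1.2, tup_getD hx]
      have h5 : (Fb I.1.length K S.Nb (ε (Sum.inl 0)).1 (ε (Sum.inl 1)).1 xv pv (kt ⟨ci, hci⟩)
          (kc ⟨ci, hci⟩) (x / S.m) * S.m + x % S.m) / S.m = Fb I.1.length K S.Nb (ε (Sum.inl 0)).1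
          (ε (Sum.inl 1)).1 xv pv (kt ⟨ci, hci⟩) (kc ⟨ci, hci⟩) (x / S.m) := by
        rw [Nat.mul_comm, Nat.mul_add_div hm, Nat.div_eq_of_lt (Nat.mod_lt _ hm), Nat.add_zero]
      have h6 : (Fb I.1.length K S.Nb (ε (Sum.inl 0)).1 (ε (Sum.inl 1)).1 xv pv (kt ⟨ci, hci⟩)
          (kc ⟨ci, hci⟩) (x / S.m) * S.m + x % S.m) % S.m = x % S.m := by
        rw [Nat.mul_comm, Nat.mul_add_mod, Nat.mod_mod]
      apply Prod.ext
      · exact h5
      · apply Fin.ext
        exact h6
    refine ⟨?_, fun x => φ₀ (dec x), ?_⟩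
    · -- well-formedness
      intro p hp
      obtain ⟨ci, z, l, hl, hp⟩ := mem_gC.1 hp
      have hci : ci < L.length := (List.getElem?_eq_some_iff.1 hl).1
      simp only [List.length_replicate]
      rcases hp with ⟨x, y, hxy, rfl⟩ | ⟨gi, cp, hgi, i, hi, hp⟩
      · have hxy' := mem_PLof.1 hxy
        obtain ⟨-, -, -, h1, -⟩ := hlt ci z l hl x hxy'.1
        obtain ⟨-, -, -, h2, -⟩ := hlt ci z l hl y hxy'.2.1
        refine ⟨by simp, ?_⟩
        intro a ha
        simp only [List.mem_cons, List.not_mem_nil, or_false] at ha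
        rcases ha with rfl | rfl <;> omega
      · have hgi' : gi < GG.length := (List.getElem?_eq_some_iff.1 hgi).1
        have hb : (ci * GG.length + gi) * 5 + 5 ≤ L.length * (GG.length * 5) := by
          have h1 : (ci + 1) * GG.length ≤ L.length * GG.length := Nat.mul_le_mul_right _ hci
          have h2 : L.length * (GG.length * 5) = (L.length * GG.length) * 5 := by ring
          rw [Nat.add_mul] at h1
          omega
        have hmod : (i + 1) % 5 < 5 := Nat.mod_lt _ (by norm_num)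
        rcases hp with rfl | ⟨x, hx, rfl⟩
        · refine ⟨by simp, ?_⟩
          intro a ha
          simp only [List.mem_cons, List.not_mem_nil, or_false] at ha
          rcases ha with rfl | rfl <;> omega
        · obtain ⟨p, -, rfl⟩ := GGof_get.1 hgi
          simp only [List.mem_filter, List.mem_range] at hx
          obtain ⟨-, -, -, h1, -⟩ := hlt ci z l hl x hx.1
          refine ⟨by simp, ?_⟩
          intro a ha
          simp only [List.mem_cons, List.not_mem_nil, or_false] at ha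
          rcases ha with rfl | rfl <;> omega
    · intro a b hab
      obtain ⟨ci, z, l, hl, hp⟩ := mem_gC.1 hab
      have hci : ci < L.length := (List.getElem?_eq_some_iff.1 hl).1
      rcases hp with ⟨x, y, hxy, hp⟩ | ⟨gi, cp, hgi, i, hi, hp⟩
      · simp only [Prod.mk.injEq, List.cons.injEq, and_true, true_and] at hp
        obtain ⟨rfl, rfl⟩ := hp
        have hxy' := mem_PLof.1 hxy
        obtain ⟨c, hx, hc, -, h1⟩ := hlt ci z l hl x hxy'.1
        obtain ⟨c', hy, hc', -, h2⟩ := hlt ci z l hl y hxy'.2.1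
        obtain rfl : c = c' := Fin.ext (hc.trans hc'.symm)
        beta_reduce
        rw [h1, h2]
        apply hadj
        refine ⟨?_, c, Sys.T_w _ _, Sys.T_w _ _⟩
        intro h3
        have h4 := Sys.w_inj (Y := Y) c h3
        exact hxy'.2.2 (congrArg Fin.val h4)
      · have hgi' : gi < GG.length := (List.getElem?_eq_some_iff.1 hgi).1
        have hgi2 : gi < (prs S.Nb S.m).length := by rw [← GGof_length]; exact hgi'
        have hmod : (i + 1) % 5 < 5 := Nat.mod_lt _ (by norm_num)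
        have hglen : GG.length = (prs S.Nb S.m).length := GGof_length _ _
        rcases hp with hp | ⟨x, hx, hp⟩
        · simp only [Prod.mk.injEq, List.cons.injEq, and_true, true_and] at hp
          obtain ⟨rfl, rfl⟩ := hp
          have e1 := hdec2 ⟨ci, hci⟩ ⟨gi, hgi2⟩ i hi
          have e2 := hdec2 ⟨ci, hci⟩ ⟨gi, hgi2⟩ _ hmod
          beta_reduce
          rw [hglen]
          simp only at e1 e2
          rw [e1, e2]
          apply hadj
          refine ⟨rfl, rfl, Or.inl ?_⟩
          apply Fin.ext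
          simp only [Fin.val_add]
          rfl
        · simp only [Prod.mk.injEq, List.cons.injEq, and_true, true_and] at hp
          obtain ⟨rfl, rfl⟩ := hp
          obtain ⟨p, hp1, rfl⟩ := GGof_get.1 hgi
          simp only [List.mem_filter, List.mem_range, decide_eq_true_eq] at hx
          obtain ⟨c, hxl, hc, -, h1⟩ := hlt ci z l hl x hx.1
          have e1 := hdec2 ⟨ci, hci⟩ ⟨gi, hgi2⟩ i hi
          beta_reduce
          rw [hglen, h1]
          simp only at e1
          rw [e1]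
          apply hadj
          have h2 : (prs S.Nb S.m)[gi] = p := (List.getElem?_eq_some_iff.1 hp1).2
          refine ⟨⟨x, hxl⟩, ?_, ?_, ?_⟩
          · intro h3
            have h4 := congrArg Fin.val h3
            simp only [h2] at h4
            exact hx.2.1 h4
          · intro h3
            have h4 := congrArg Fin.val h3
            simp only [h2] at h4
            exact hx.2.2 h4
          · have h5 : c = ⟨ci, hci⟩ := Fin.ext hc
            rw [h5]
  · rintro ⟨-, φ, hφ⟩
    rw [cspOf_iff]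
    let h : ℕ → S.A := fun B => D.lab (fun a : Fin S.m => φ (B * S.m + a))
    -- all constraints hold
    have hWB : ∀ B : ℕ → ℕ, (0, tup S.m (S.Nb * S.m) B) ∈ L → (fun j : Fin S.Nb => h (B j)) ∈ S.W := by
      intro B hB
      obtain ⟨ci, hci⟩ := List.mem_iff_getElem?.1 hB
      have hcl : D.Clq (fun y : Fin (S.Nb * S.m) => φ (B (y / S.m) * S.m + y % S.m)) := by
        intro x y hxy
        have h1 := hφ ((tup S.m (S.Nb * S.m) B).getD x 0) ((tup S.m (S.Nb * S.m) B).getD y 0) (by
          apply mem_gC.2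
          refine ⟨ci, 0, _, hci, Or.inl ⟨x, y, ?_, rfl⟩⟩
          rw [mem_PLof]
          exact ⟨x.2, y.2, fun e => hxy (Fin.ext e)⟩)
        rw [tup_getD x.2, tup_getD y.2] at h1
        exact h1
      have htr : D.Trig (fun y : Fin (S.Nb * S.m) => φ (B (y / S.m) * S.m + y % S.m)) := by
        refine ⟨hcl, ?_⟩
        intro κ hκ
        rw [hMk] at hκ
        obtain ⟨p, q, hpq, hp, hq⟩ := exists_pair S.hN κ
        have hG := hκ.2 p q hpq hp hq
        obtain ⟨gi, hgi⟩ := List.mem_iff_getElem?.1 (mem_prs.2 hG : (p, q) ∈ prs S.Nb S.m)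
        have hgg : GG[gi]? = some ((List.range (S.Nb * S.m)).filter (fun x => x ≠ p.1 ∧ x ≠ q.1)) :=
          GGof_get.2 ⟨(p, q), hgi, rfl⟩
        apply forced hD.toGOk (g := fun j : Fin 5 => φ (base + (ci * GG.length + gi) * 5 + j.1))
        · intro i j hij
          exact hcl _ _ (fun e => hij (hκ.1 e))
        · intro i j
          have h1 := hφ ((tup S.m (S.Nb * S.m) B).getD (κ i) 0)
            (base + (ci * GG.length + gi) * 5 + j.1) (by
            apply mem_gC.2
            refine ⟨ci, 0, _, hci, Or.inr ⟨gi, _, hgg, j.1, j.2, Or.inr ⟨(κ i).1, ?_, rfl⟩⟩⟩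
            simp only [List.mem_filter, List.mem_range, decide_eq_true_eq]
            exact ⟨(κ i).2, fun e => hp i (Fin.ext e), fun e => hq i (Fin.ext e)⟩)
          rw [tup_getD (κ i).2] at h1
          exact h1
        · intro j
          have h1 := hφ (base + (ci * GG.length + gi) * 5 + j.1)
            (base + (ci * GG.length + gi) * 5 + (j.1 + 1) % 5) (by
            apply mem_gC.2
            exact ⟨ci, 0, _, hci, Or.inr ⟨gi, _, hgg, j.1, j.2, Or.inl rfl⟩⟩)
          have h2 : ((j + 1 : Fin 5) : ℕ) = (j.1 + 1) % 5 := by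
            rw [Fin.val_add]
            rfl
          rw [h2]
          exact h1
      have h1 := hD.tr _ htr
      have h2 : (fun j : Fin S.Nb => D.lab (blk (fun y : Fin (S.Nb * S.m) =>
          φ (B (y / S.m) * S.m + y % S.m)) j)) = fun j : Fin S.Nb => h (B j) := by
        funext j
        rw [blk_tup hm]
      rw [h2] at h1
      exact h1
    refine ⟨hI, h, ?_⟩
    intro i v hv
    obtain ⟨t, ht⟩ := List.mem_iff_getElem?.1 hv
    have hne : (𝔸 i).Nonempty := by
      by_contra hcon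
      exact hbad _ hv ((mem_badL 𝔸 i).2 hcon)
    have hm1 := hWB (mainB S.Nb K I.1.length t) (by
      apply mem_newC.2
      exact ⟨t, i.1, List.ofFn v, ht, Or.inl rfl⟩)
    rw [hW] at hm1
    have hm2 := hm1.1 i hne
    convert hm2 using 1
    funext j
    have hl := hWB (linkB S.Nb K (ε (Sum.inl 0)).1 (ε (Sum.inl 1)).1 (tabL ε)
      I.1.length t i.1 j.1 (v j)) (by
      apply mem_newC.2
      refine ⟨t, i.1, List.ofFn v, ht, Or.inr ⟨j.1, v j, ?_, rfl⟩⟩
      simp)
    rw [hW] at hl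
    have hl2 := hl.2
    have h1 : linkB S.Nb K (ε (Sum.inl 0)).1 (ε (Sum.inl 1)).1 (tabL ε) I.1.length t i.1 j.1 (v j)
        (ε (Sum.inl 0)).1 = v j := by
      unfold linkB
      rw [if_pos rfl]
    have h2 : linkB S.Nb K (ε (Sum.inl 0)).1 (ε (Sum.inl 1)).1 (tabL ε) I.1.length t i.1 j.1 (v j)
        (ε (Sum.inl 1)).1 = mainB S.Nb K I.1.length t (ε (Sum.inr ⟨i, j⟩)).1 := by
      unfold linkB mainB
      rw [if_neg hε01.symm, if_pos rfl, tabL_get ε i j]
    simp only [h1, h2] at hl2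
    exact hl2

end Pool.Agent.H725.UG
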