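import Pool.Agent.H725.UG.Emb

/-!
# The threshold graph on the positions
-/

set_option autoImplicit false

namespace Pool.Agent.H725.UG

open Function

variable {Nb m : ℕ}

/-- the number of the block of a position -/
def bi (x : Fin (Nb * m)) : Fin Nb := (finProdFinEquiv.symm x).1

/-- the place of a position in its block -/
def ai (x : Fin (Nb * m)) : Fin m := (finProdFinEquiv.symm x).2

theorem bi_mk (j : Fin Nb) (a : Fin m) : bi (finProdFinEquiv (j, a)) = j := by
  simp [bi]

theorem ai_mk (j : Fin Nb) (a : Fin m) : ai (finProdFinEquiv (j, a)) = a := by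
  simp [ai]

theorem pos_ext {x y : Fin (Nb * m)} (h1 : bi x = bi y) (h2 : ai x = ai y) : x = y :=
  finProdFinEquiv.symm.injective (Prod.ext h1 h2)

/-- the threshold graph -/
def Gam (p q : Fin (Nb * m)) : Prop := p ≠ q ∧ Nb ≤ (bi p : ℕ) + bi q

theorem Gam.symm {p q : Fin (Nb * m)} (h : Gam p q) : Gam q p := ⟨h.1.symm, by have := h.2; omega⟩

theorem card_blocks (β : ℕ) (hβ : β ≤ Nb) :
    (Finset.univ.filter (fun j : Fin Nb => Nb ≤ β + j)).card = β := by
  classical
  have h1 : (Finset.univ.filter (fun j : Fin Nb => Nb ≤ β + j)).card =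
      (Finset.univ : Finset (Fin β)).card := by
    symm
    apply Finset.card_bij (fun (i : Fin β) _ => (⟨Nb - β + i, by omega⟩ : Fin Nb))
    · intro i _
      simp only [Finset.mem_filter, Finset.mem_univ, true_and]
      omega
    · intro i _ j _ h
      simp only [Fin.mk.injEq] at h
      exact Fin.ext (by omega)
    · intro j hj
      simp only [Finset.mem_filter, Finset.mem_univ, true_and] at hj
      exact ⟨⟨j - (Nb - β), by have := j.2; omega⟩, Finset.mem_univ _, Fin.ext (by simp only; omega)⟩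
  rw [h1]
  simp

theorem card_nbr (β : ℕ) (hβ : β ≤ Nb) :
    (Finset.univ.filter (fun q : Fin (Nb * m) => Nb ≤ β + (bi q : ℕ))).card = β * m := by
  classical
  have h1 : (Finset.univ.filter (fun q : Fin (Nb * m) => Nb ≤ β + (bi q : ℕ))).card =
      ((Finset.univ.filter (fun j : Fin Nb => Nb ≤ β + j)) ×ˢ (Finset.univ : Finset (Fin m))).card := by
    apply Finset.card_bij (fun q _ => (bi q, ai q))
    · intro q hq
      simp only [Finset.mem_filter, Finset.mem_univ, true_and] at hq
      simp only [Finset.mem_product, Finset.mem_filter, Finset.mem_univ, true_and, and_true]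
      exact hq
    · intro q _ q' _ h
      simp only [Prod.mk.injEq] at h
      exact pos_ext h.1 h.2
    · rintro ⟨j, a⟩ h
      simp only [Finset.mem_product, Finset.mem_filter, Finset.mem_univ, true_and, and_true] at h
      refine ⟨finProdFinEquiv (j, a), ?_, ?_⟩
      · simp only [Finset.mem_filter, Finset.mem_univ, true_and]
        rw [bi_mk]
        exact h
      · rw [bi_mk, ai_mk]
  rw [h1, Finset.card_product, card_blocks β hβ]
  simp

/-- injective maps which preserve the threshold graph preserve the blocks -/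
theorem rigid (hm : 2 ≤ m) (π : Fin (Nb * m) → Fin (Nb * m)) (hπ : Injective π)
    (h : ∀ p q, Gam p q → Gam (π p) (π q)) (p : Fin (Nb * m)) : bi (π p) = bi p := by
  classical
  have hle : ∀ p, (bi p : ℕ) ≤ bi (π p) := by
    intro p
    have h1 : ((Finset.univ.filter (fun q : Fin (Nb * m) => Nb ≤ (bi p : ℕ) + (bi q : ℕ))).erase p).card ≤
        (Finset.univ.filter (fun q : Fin (Nb * m) => Nb ≤ (bi (π p) : ℕ) + (bi q : ℕ))).card := by
      apply Finset.card_le_card_of_injOn π
      · intro q hq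
        simp only [Finset.coe_erase, Finset.coe_filter, Finset.mem_univ, true_and,
          Set.mem_sdiff, Set.mem_ofPred_eq, Set.mem_singleton_iff] at hq
        simp only [Finset.coe_filter, Finset.mem_univ, true_and, Set.mem_ofPred_eq]
        exact (h p q ⟨fun e => hq.2 e.symm, hq.1⟩).2
      · exact hπ.injOn
    have h2 := Finset.pred_card_le_card_erase
      (s := Finset.univ.filter (fun q : Fin (Nb * m) => Nb ≤ (bi p : ℕ) + (bi q : ℕ))) (a := p)
    rw [card_nbr _ (bi p).2.le] at h2
    rw [card_nbr _ (bi (π p)).2.le] at h1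
    have h3 : (bi p : ℕ) * m - 1 ≤ (bi (π p) : ℕ) * m := h2.trans h1
    by_contra hcon
    push Not at hcon
    have h4 : ((bi (π p) : ℕ) + 1) * m ≤ (bi p : ℕ) * m := Nat.mul_le_mul_right m hcon
    rw [Nat.add_mul] at h4
    omega
  have hbij : Bijective π := Finite.injective_iff_bijective.1 hπ
  have hsum : ∑ p, (bi (π p) : ℕ) = ∑ p, (bi p : ℕ) :=
    Equiv.sum_comp (Equiv.ofBijective π hbij) (fun p => (bi p : ℕ))
  have h5 := (Finset.sum_eq_sum_iff_of_le (fun p _ => hle p)).1 hsum.symm p (Finset.mem_univ p)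
  exact Fin.ext h5.symm

/-- the positions outside a pair -/
theorem exists_compl {t : ℕ} (ht : t + 2 = Nb * m) {p q : Fin (Nb * m)} (hpq : p ≠ q) :
    ∃ κ : Fin t → Fin (Nb * m), Injective κ ∧ ∀ x, (∃ i, κ i = x) ↔ x ≠ p ∧ x ≠ q := by
  classical
  have hcard : Fintype.card {x : Fin (Nb * m) // x ≠ p ∧ x ≠ q} = t := by
    rw [Fintype.card_subtype]
    have h1 : (Finset.univ.filter (fun x : Fin (Nb * m) => x ≠ p ∧ x ≠ q)) =
        (Finset.univ.erase p).erase q := by
      ext x
      simp only [Finset.mem_filter, Finset.mem_univ, true_and, Finset.mem_erase, and_true]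
      exact and_comm
    rw [h1, Finset.card_erase_of_mem (by simp [hpq.symm]), Finset.card_erase_of_mem (by simp)]
    rw [Finset.card_univ, Fintype.card_fin]
    omega
  have e : Fin t ≃ {x : Fin (Nb * m) // x ≠ p ∧ x ≠ q} := (Fintype.equivFinOfCardEq hcard).symm
  refine ⟨fun i => (e i).1, Subtype.val_injective.comp e.injective, ?_⟩
  intro x
  constructor
  · rintro ⟨i, rfl⟩
    exact (e i).2
  · intro hx
    exact ⟨e.symm ⟨x, hx⟩, by simp⟩

theorem exists_pair {t : ℕ} (ht : t + 2 = Nb * m) (κ : Fin t → Fin (Nb * m)) :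
    ∃ p q, p ≠ q ∧ (∀ i, κ i ≠ p) ∧ ∀ i, κ i ≠ q := by
  classical
  have h1 : (Finset.univ.image κ).card ≤ t := by
    refine Finset.card_image_le.trans ?_
    simp
  have h2 : 1 < (Finset.univ \ Finset.univ.image κ).card := by
    rw [Finset.card_sdiff_of_subset (Finset.subset_univ _), Finset.card_univ, Fintype.card_fin]
    omega
  obtain ⟨p, hp, q, hq, hpq⟩ := Finset.one_lt_card.1 h2
  simp only [Finset.mem_sdiff, Finset.mem_univ, Finset.mem_image, true_and, not_exists] at hp hq
  exact ⟨p, q, hpq, hp, hq⟩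

/-- the positions of the marked subsets -/
def MkSet (Nb m t : ℕ) : Set (Fin t → Fin (Nb * m)) :=
  {κ | Injective κ ∧ ∀ p q, p ≠ q → (∀ i, κ i ≠ p) → (∀ i, κ i ≠ q) → Gam p q}

theorem compl_mem {t : ℕ} {p q : Fin (Nb * m)} (h : Gam p q)
    {κ : Fin t → Fin (Nb * m)} (hκ : Injective κ) (hx : ∀ x, (∃ i, κ i = x) ↔ x ≠ p ∧ x ≠ q) :
    κ ∈ MkSet Nb m t := by
  refine ⟨hκ, ?_⟩
  intro p' q' hne hp' hq'
  have h1 : ∀ y, (∀ i, κ i ≠ y) → y = p ∨ y = q := by
    intro y hy
    by_contra hcon
    push Not at hcon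
    obtain ⟨i, hi⟩ := (hx y).2 hcon
    exact hy i hi
  rcases h1 p' hp' with rfl | rfl <;> rcases h1 q' hq' with rfl | rfl
  · exact absurd rfl hne
  · exact h
  · exact h.symm
  · exact absurd rfl hne

end Pool.Agent.H725.UG
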