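import Pool.Agent.H725.UG.Rigid

/-!
# The graph of a system of constraints
-/

set_option autoImplicit false

namespace Pool.Agent.H725.UG

open Function
open Pool.Agent.E8helper92.BP (blk)

/-- Systems of constraints: every constraint is a tuple of `Nb` different blocks; a set of at least `Nb`
blocks any two of which occur in a common constraint is contained in one constraint, and
a constraint is determined by the set of its blocks. -/
structure Sys (Nb : ℕ) (𝔅 : Type) where
  /-- the constraints -/
  C : Type
  /-- the blocks of a constraint -/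
  Bc : C → Fin Nb → 𝔅
  inj : ∀ c, Injective (Bc c)
  hH : ∀ T : Finset 𝔅, Nb ≤ T.card →
    (∀ B ∈ T, ∀ B' ∈ T, B ≠ B' → ∃ c, (∃ j, Bc c j = B) ∧ ∃ j, Bc c j = B') →
    ∃ c, ∀ B ∈ T, ∃ j, Bc c j = B
  hI : ∀ c c', (∀ j, ∃ j', Bc c' j' = Bc c j) → Bc c = Bc c'

/-- adjacency in the cycle of length five -/
def cyc (i j : Fin 5) : Prop := j = i + 1 ∨ i = j + 1

instance : DecidableRel cyc := fun _ _ => inferInstanceAs (Decidable (_ ∨ _))

theorem cyc_clique : ∀ s : Finset (Fin 5), (∀ i ∈ s, ∀ j ∈ s, i ≠ j → cyc i j) → s.card ≤ 2 := by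
  decide

theorem cyc_nbr : ∀ i : Fin 5, (Finset.univ.filter (fun s => s = i ∨ cyc i s)).card ≤ 3 := by decide

theorem cyc_irr : ∀ i : Fin 5, ¬ cyc i i := by decide

theorem cyc_symm : ∀ i j : Fin 5, cyc i j → cyc j i := by
  intro i j h
  exact h.symm

namespace Sys

variable {Nb m : ℕ} {𝔅 : Type} (Y : Sys Nb 𝔅)

/-- the pairs of positions which have gadgets -/
abbrev Pr (Nb m : ℕ) : Type := {x : Fin (Nb * m) × Fin (Nb * m) // Gam x.1 x.2}

/-- the vertices: the points of the blocks, and the points of the gadgets -/
abbrev Vt (m : ℕ) : Type := (𝔅 × Fin m) ⊕ (Y.C × Pr Nb m × Fin 5)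

/-- the clique of a constraint -/
def w (c : Y.C) (x : Fin (Nb * m)) : 𝔅 × Fin m := (Y.Bc c (bi x), ai x)

/-- the point belongs to the clique of the constraint -/
def T (c : Y.C) (u : 𝔅 × Fin m) : Prop := ∃ j, Y.Bc c j = u.1

/-- adjacency -/
def adj : Y.Vt m → Y.Vt m → Prop
  | Sum.inl u, Sum.inl v => u ≠ v ∧ ∃ c, Y.T c u ∧ Y.T c v
  | Sum.inl u, Sum.inr g => ∃ x, x ≠ g.2.1.1.1 ∧ x ≠ g.2.1.1.2 ∧ Y.w g.1 x = u
  | Sum.inr g, Sum.inl u => ∃ x, x ≠ g.2.1.1.1 ∧ x ≠ g.2.1.1.2 ∧ Y.w g.1 x = u
  | Sum.inr g, Sum.inr g' => g.1 = g'.1 ∧ g.2.1 = g'.2.1 ∧ cyc g.2.2 g'.2.2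

variable {Y}

theorem adj_symm : ∀ a b : Y.Vt m, Y.adj a b → Y.adj b a := by
  rintro (a | a) (b | b) h
  · exact ⟨h.1.symm, h.2.imp fun c hc => hc.symm⟩
  · exact h
  · exact h
  · exact ⟨h.1.symm, h.2.1.symm, h.2.2.symm⟩

theorem adj_irr : ∀ a : Y.Vt m, ¬ Y.adj a a := by
  rintro (a | a) h
  · exact h.1 rfl
  · exact cyc_irr _ h.2.2

theorem w_inj (c : Y.C) : Injective (Y.w (m := m) c) := by
  intro x y h
  have h1 := congrArg Prod.fst h
  have h2 := congrArg Prod.snd h
  exact pos_ext (Y.inj c h1) h2

theorem T_w (c : Y.C) (x : Fin (Nb * m)) : Y.T c (Y.w c x) := ⟨bi x, rfl⟩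

theorem exists_w {c : Y.C} {u : 𝔅 × Fin m} (h : Y.T c u) : ∃ x, Y.w c x = u := by
  obtain ⟨j, hj⟩ := h
  refine ⟨finProdFinEquiv (j, u.2), ?_⟩
  unfold w
  rw [bi_mk, ai_mk]
  exact Prod.ext hj rfl

open Classical in
/-- large sets of points meet many blocks -/
theorem many_blocks {r : ℕ} {v : Fin r → 𝔅 × Fin m} (hv : Injective v) (hr : (Nb - 1) * m < r) :
    Nb ≤ (Finset.univ.image (fun i => (v i).1)).card := by
  classical
  by_contra hcon
  have h1 : (Finset.univ : Finset (Fin r)).card ≤
      m * (Finset.univ.image (fun i => (v i).1)).card := by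
    apply Finset.card_le_mul_card_image
    intro B _
    have h2 : (Finset.univ.filter (fun i => (v i).1 = B)).card ≤ (Finset.univ : Finset (Fin m)).card := by
      apply Finset.card_le_card_of_injOn (fun i => (v i).2) (fun _ _ => Finset.mem_coe.2 (Finset.mem_univ _))
      intro i hi j hj hij
      simp only [Finset.coe_filter, Finset.mem_univ, true_and, Set.mem_ofPred_eq] at hi hj
      exact hv (Prod.ext (hi.trans hj.symm) hij)
    simpa using h2
  rw [Finset.card_univ, Fintype.card_fin] at h1
  have h3 : (Finset.univ.image (fun i => (v i).1)).card ≤ Nb - 1 := by omega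
  have h4 : m * (Finset.univ.image (fun i => (v i).1)).card ≤ m * (Nb - 1) := Nat.mul_le_mul_left m h3
  rw [Nat.mul_comm m (Nb - 1)] at h4
  omega

/-- large cliques belong to one constraint -/
theorem core_clique {r : ℕ} {v : Fin r → 𝔅 × Fin m} (hv : Injective v) (hr : (Nb - 1) * m < r)
    (h : ∀ i j, i ≠ j → ∃ c, Y.T c (v i) ∧ Y.T c (v j)) : ∃ c, ∀ i, Y.T c (v i) := by
  classical
  obtain ⟨c, hc⟩ := Y.hH (Finset.univ.image (fun i => (v i).1)) (many_blocks hv hr) (by
    intro B hB B' hB' hne
    rw [Finset.mem_image] at hB hB'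
    obtain ⟨i, -, rfl⟩ := hB
    obtain ⟨j, -, rfl⟩ := hB'
    exact h i j (fun e => hne (by rw [e])))
  exact ⟨c, fun i => hc _ (Finset.mem_image_of_mem (fun i => (v i).1) (Finset.mem_univ i))⟩

/-- the constraint is unique -/
theorem core_unique {r : ℕ} {v : Fin r → 𝔅 × Fin m} (hv : Injective v) (hr : (Nb - 1) * m < r)
    {c c' : Y.C} (h : ∀ i, Y.T c (v i)) (h' : ∀ i, Y.T c' (v i)) : Y.Bc c = Y.Bc c' := by
  classical
  apply Y.hI
  have h1 := many_blocks hv hr
  have h2 : Finset.univ.image (fun i => (v i).1) ⊆ Finset.univ.image (Y.Bc c) := by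
    intro B hB
    rw [Finset.mem_image] at hB
    obtain ⟨i, -, rfl⟩ := hB
    obtain ⟨j, hj⟩ := h i
    exact Finset.mem_image.2 ⟨j, Finset.mem_univ j, hj⟩
  have h3 : (Finset.univ.image (Y.Bc c)).card = Nb := by
    rw [Finset.card_image_of_injective _ (Y.inj c)]
    simp
  have h4 := Finset.eq_of_subset_of_card_le h2 (by rw [h3]; exact h1)
  intro j
  have h5 : Y.Bc c j ∈ Finset.univ.image (fun i => (v i).1) := by
    rw [h4]
    exact Finset.mem_image_of_mem _ (Finset.mem_univ j)
  rw [Finset.mem_image] at h5
  obtain ⟨i, -, hi⟩ := h5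
  obtain ⟨j', hj'⟩ := h' i
  exact ⟨j', hj'.trans hi⟩

theorem core_card {r : ℕ} {v : Fin r → 𝔅 × Fin m} (hv : Injective v) {c : Y.C}
    (h : ∀ i, Y.T c (v i)) : r ≤ Nb * m := by
  choose x hx using fun i => exists_w (h i)
  have h1 : Injective x := by
    intro i j hij
    apply hv
    rw [← hx i, ← hx j, hij]
  simpa using Fintype.card_le_of_injective _ h1

/-- the closed neighbourhood of a point of a gadget -/
theorem gadget_card {t : ℕ} (ht : t + 2 = Nb * m) {r : ℕ} {v : Fin r → Y.Vt m} (hv : Injective v)
    (g : Y.C × Pr Nb m × Fin 5) (h : ∀ i, v i = Sum.inr g ∨ Y.adj (Sum.inr g) (v i)) :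
    ∃ s : Finset (Fin 5), r ≤ t + s.card ∧ ∀ i ∈ s, ∃ k, v k = Sum.inr (g.1, g.2.1, i) := by
  classical
  let s : Finset (Fin 5) := Finset.univ.filter (fun i => ∃ k, v k = Sum.inr (g.1, g.2.1, i))
  refine ⟨s, ?_, ?_⟩
  swap
  · intro i hi
    simpa [s] using hi
  let s1 : Finset (Fin r) := Finset.univ.filter (fun k => ∃ i, v k = Sum.inr (g.1, g.2.1, i))
  let s2 : Finset (Fin r) := Finset.univ.filter (fun k => ∃ x, x ≠ g.2.1.1.1 ∧ x ≠ g.2.1.1.2 ∧
    v k = Sum.inl (Y.w g.1 x))
  have hcov : ∀ k, k ∈ s1 ∪ s2 := by
    intro k
    rw [Finset.mem_union]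
    rcases h k with hk | hk
    · left
      simp only [s1, Finset.mem_filter, Finset.mem_univ, true_and]
      exact ⟨g.2.2, hk⟩
    · rcases hvk : v k with u | g'
      · right
        rw [hvk] at hk
        obtain ⟨x, h1, h2, h3⟩ := hk
        simp only [s2, Finset.mem_filter, Finset.mem_univ, true_and]
        exact ⟨x, h1, h2, by rw [hvk, h3]⟩
      · left
        rw [hvk] at hk
        obtain ⟨h1, h2, -⟩ := hk
        simp only [s1, Finset.mem_filter, Finset.mem_univ, true_and]
        refine ⟨g'.2.2, ?_⟩
        rw [hvk, h1, h2]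
  have hr : r ≤ s1.card + s2.card := by
    have h1 : (Finset.univ : Finset (Fin r)).card ≤ (s1 ∪ s2).card :=
      Finset.card_le_card (fun k _ => hcov k)
    rw [Finset.card_univ, Fintype.card_fin] at h1
    exact h1.trans (Finset.card_union_le _ _)
  have hs1 : s1.card ≤ s.card := by
    have h1 : ∀ k ∈ s1, ∃ i, v k = Sum.inr (g.1, g.2.1, i) := by
      intro k hk
      simpa [s1] using hk
    apply Finset.card_le_card_of_injOn (fun k => if hk : k ∈ s1 then (h1 k hk).choose else 0)
    · intro k hk
      have hk' : k ∈ s1 := hk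
      simp only [dif_pos hk', s, Finset.coe_filter, Finset.mem_univ, true_and, Set.mem_ofPred_eq]
      exact ⟨k, (h1 k hk').choose_spec⟩
    · intro k hk l hl hkl
      have hk' : k ∈ s1 := hk
      have hl' : l ∈ s1 := hl
      simp only [dif_pos hk', dif_pos hl'] at hkl
      apply hv
      rw [(h1 k hk').choose_spec, (h1 l hl').choose_spec, hkl]
  have hs2 : s2.card ≤ t := by
    have h1 : ∀ k ∈ s2, ∃ x, x ≠ g.2.1.1.1 ∧ x ≠ g.2.1.1.2 ∧ v k = Sum.inl (Y.w g.1 x) := by
      intro k hk
      simpa [s2] using hk
    have h2 : ((Finset.univ.erase g.2.1.1.1).erase g.2.1.1.2).card = t := by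
      rw [Finset.card_erase_of_mem (by simp [g.2.1.2.1.symm]), Finset.card_erase_of_mem (by simp)]
      rw [Finset.card_univ, Fintype.card_fin]
      omega
    rw [← h2]
    apply Finset.card_le_card_of_injOn (fun k => if hk : k ∈ s2 then (h1 k hk).choose else g.2.1.1.1)
    · intro k hk
      have hk' : k ∈ s2 := hk
      simp only [dif_pos hk', Finset.coe_erase, Finset.coe_univ]
      exact ⟨⟨trivial, (h1 k hk').choose_spec.1⟩, (h1 k hk').choose_spec.2.1⟩
    · intro k hk l hl hkl
      have hk' : k ∈ s2 := hk
      have hl' : l ∈ s2 := hl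
      simp only [dif_pos hk', dif_pos hl'] at hkl
      apply hv
      rw [(h1 k hk').choose_spec.2.2, (h1 l hl').choose_spec.2.2, hkl]
  omega

/-- pairwise adjacent tuples are injective -/
theorem inj_of_adj {r : ℕ} {v : Fin r → Y.Vt m} (h : ∀ i j, i ≠ j → Y.adj (v i) (v j)) :
    Injective v := by
  intro i j hij
  by_contra hne
  have := h i j hne
  rw [hij] at this
  exact adj_irr _ this

/-- there are no large cliques -/
theorem no_clique {t : ℕ} (ht : t + 2 = Nb * m) (hm : 3 ≤ m) (hNb : 1 ≤ Nb) {v : Fin (t + 3) → Y.Vt m}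
    (h : ∀ i j, i ≠ j → Y.adj (v i) (v j)) : False := by
  classical
  have hv := inj_of_adj h
  by_cases hg : ∃ i g, v i = Sum.inr g
  · obtain ⟨i, g, hi⟩ := hg
    obtain ⟨s, hs, hs'⟩ := gadget_card ht hv g (by
      intro j
      by_cases hij : i = j
      · subst hij
        exact Or.inl hi
      · right
        have := h i j hij
        rw [hi] at this
        exact this)
    have h2 := cyc_clique s (by
      intro a ha b hb hab
      obtain ⟨k, hk⟩ := hs' a ha
      obtain ⟨l, hl⟩ := hs' b hb
      have hkl : k ≠ l := by
        rintro rfl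
        rw [hk] at hl
        simp only [Sum.inr.injEq, Prod.mk.injEq, true_and] at hl
        exact hab hl
      have := h k l hkl
      rw [hk, hl] at this
      exact this.2.2)
    omega
  · have hcore : ∀ i, ∃ u, v i = Sum.inl u := by
      intro i
      rcases hi : v i with u | g
      · exact ⟨u, rfl⟩
      · exact absurd ⟨i, g, hi⟩ hg
    choose u hu using hcore
    have hui : Injective u := by
      intro i j hij
      apply hv
      rw [hu i, hu j, hij]
    have hNm : (Nb - 1) * m + m = Nb * m := by
      have : Nb = (Nb - 1) + 1 := by omega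
      conv_rhs => rw [this, Nat.add_mul, Nat.one_mul]
    obtain ⟨c, hc⟩ := core_clique (Y := Y) hui (by omega) (by
      intro i j hij
      have := h i j hij
      rw [hu i, hu j] at this
      exact this.2)
    have := core_card hui hc
    omega

/-- cliques with four points in the link are the marked ones -/
theorem four_link {t : ℕ} (ht : t + 2 = Nb * m) (hm : 3 ≤ m) (hNb : 1 ≤ Nb) {K : Fin t → Y.Vt m}
    (hK : ∀ i j, i ≠ j → Y.adj (K i) (K j)) {z : Fin 4 → Y.Vt m} (hz : Injective z)
    (hKz : ∀ i j, Y.adj (K i) (z j)) :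
    ∃ (c : Y.C) (p q : Fin (Nb * m)), Gam p q ∧
      ∀ i, ∃ x, x ≠ p ∧ x ≠ q ∧ K i = Sum.inl (Y.w c x) := by
  classical
  have hKi := inj_of_adj hK
  have hNm : (Nb - 1) * m + m = Nb * m := by
    have : Nb = (Nb - 1) + 1 := by omega
    conv_rhs => rw [this, Nat.add_mul, Nat.one_mul]
  have hv : Injective (Fin.append K z) := by
    intro i j
    refine Fin.addCases (fun i => ?_) (fun i => ?_) i <;>
      refine Fin.addCases (fun j => ?_) (fun j => ?_) j
    · intro h
      rw [Fin.append_left, Fin.append_left] at h
      rw [hKi h]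
    · intro h
      rw [Fin.append_left, Fin.append_right] at h
      have := hKz i j
      rw [h] at this
      exact absurd this (adj_irr _)
    · intro h
      rw [Fin.append_left, Fin.append_right] at h
      have := hKz j i
      rw [← h] at this
      exact absurd this (adj_irr _)
    · intro h
      rw [Fin.append_right, Fin.append_right] at h
      rw [hz h]
  by_cases hg : ∃ i g, K i = Sum.inr g
  · exfalso
    obtain ⟨i, g, hi⟩ := hg
    obtain ⟨s, hs, hs'⟩ := gadget_card ht hv g (by
      intro j
      refine Fin.addCases (fun j => ?_) (fun j => ?_) j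
      · rw [Fin.append_left]
        by_cases hij : i = j
        · subst hij
          exact Or.inl hi
        · right
          have := hK i j hij
          rw [hi] at this
          exact this
      · rw [Fin.append_right]
        right
        rw [← hi]
        exact hKz i j)
    have h2 : s ⊆ Finset.univ.filter (fun k => k = g.2.2 ∨ cyc g.2.2 k) := by
      intro a ha
      obtain ⟨k, hk⟩ := hs' a ha
      simp only [Finset.mem_filter, Finset.mem_univ, true_and]
      have h3 : Fin.append K z k = Sum.inr g ∨ Y.adj (Sum.inr g) (Fin.append K z k) := by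
        refine Fin.addCases (fun j => ?_) (fun j => ?_) k
        · rw [Fin.append_left]
          by_cases hij : i = j
          · subst hij
            exact Or.inl hi
          · right
            have := hK i j hij
            rw [hi] at this
            exact this
        · rw [Fin.append_right]
          right
          rw [← hi]
          exact hKz i j
      rw [hk] at h3
      rcases h3 with h3 | h3
      · left
        simp only [Sum.inr.injEq] at h3
        rw [← h3]
      · exact Or.inr h3.2.2
    have h3 := (Finset.card_le_card h2).trans (cyc_nbr g.2.2)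
    omega
  · have hcore : ∀ i, ∃ u, K i = Sum.inl u := by
      intro i
      rcases hi : K i with u | g
      · exact ⟨u, rfl⟩
      · exact absurd ⟨i, g, hi⟩ hg
    choose u hu using hcore
    have hui : Injective u := by
      intro i j hij
      apply hKi
      rw [hu i, hu j, hij]
    have hpair : ∀ i j, i ≠ j → ∃ c, Y.T c (u i) ∧ Y.T c (u j) := by
      intro i j hij
      have := hK i j hij
      rw [hu i, hu j] at this
      exact this.2
    by_cases hgz : ∃ j g, z j = Sum.inr g
    · obtain ⟨j, g, hj⟩ := hgz
      refine ⟨g.1, g.2.1.1.1, g.2.1.1.2, g.2.1.2, ?_⟩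
      intro i
      have := hKz i j
      rw [hj, hu i] at this
      obtain ⟨x, h1, h2, h3⟩ := this
      exact ⟨x, h1, h2, by rw [hu i, h3]⟩
    · exfalso
      have hcorez : ∀ i, ∃ u, z i = Sum.inl u := by
        intro i
        rcases hi : z i with u | g
        · exact ⟨u, rfl⟩
        · exact absurd ⟨i, g, hi⟩ hgz
      choose y hy using hcorez
      obtain ⟨c, hc⟩ := core_clique (Y := Y) hui (by omega) hpair
      have hzc : ∀ j, Y.T c (y j) := by
        intro j
        have hne : ∀ i, u i ≠ y j := by
          intro i hi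
          have := hKz i j
          rw [hu i, hy j, hi] at this
          exact this.1 rfl
        have hinj : Injective (Fin.append u (fun _ : Fin 1 => y j)) := by
          intro i i'
          refine Fin.addCases (fun i => ?_) (fun i => ?_) i <;>
            refine Fin.addCases (fun i' => ?_) (fun i' => ?_) i'
          · intro h
            rw [Fin.append_left, Fin.append_left] at h
            rw [hui h]
          · intro h
            rw [Fin.append_left, Fin.append_right] at h
            exact absurd h (hne _)
          · intro h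
            rw [Fin.append_left, Fin.append_right] at h
            exact absurd h.symm (hne _)
          · intro _
            have : i = i' := Subsingleton.elim _ _
            rw [this]
        obtain ⟨c', hc'⟩ := core_clique (Y := Y) hinj (by omega) (by
          intro i i'
          refine Fin.addCases (fun i => ?_) (fun i => ?_) i <;>
            refine Fin.addCases (fun i' => ?_) (fun i' => ?_) i'
          · intro h
            rw [Fin.append_left, Fin.append_left]
            exact hpair i i' (fun e => h (by rw [e]))
          · intro _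
            rw [Fin.append_left, Fin.append_right]
            have := hKz i j
            rw [hu i, hy j] at this
            exact this.2
          · intro _
            rw [Fin.append_left, Fin.append_right]
            have := hKz i' j
            rw [hu i', hy j] at this
            exact this.2.imp fun c hc => hc.symm
          · intro h
            exact absurd (by rw [Subsingleton.elim i i']) h)
        have h1 : ∀ i, Y.T c' (u i) := by
          intro i
          have := hc' (Fin.castAdd 1 i)
          rw [Fin.append_left] at this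
          exact this
        have h2 : Y.T c' (y j) := by
          have := hc' (Fin.natAdd t 0)
          rw [Fin.append_right] at this
          exact this
        have h3 := core_unique hui (by omega) hc h1
        unfold T at h2 ⊢
        rw [h3]
        exact h2
      have hall : Injective (Fin.append u y) := by
        intro i j hij
        apply hv
        refine Fin.addCases (fun i => ?_) (fun i => ?_) i hij <;>
          refine Fin.addCases (fun j => ?_) (fun j => ?_) j
        · intro h
          rw [Fin.append_left, Fin.append_left] at h ⊢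
          rw [hu, hu, h]
        · intro h
          rw [Fin.append_left, Fin.append_right] at h ⊢
          rw [hu, hy, h]
        · intro h
          rw [Fin.append_left, Fin.append_right] at h ⊢
          rw [hu, hy, h]
        · intro h
          rw [Fin.append_right, Fin.append_right] at h ⊢
          rw [hy, hy, h]
      have := core_card (Y := Y) hall (c := c) (by
        intro i
        refine Fin.addCases (fun i => ?_) (fun i => ?_) i
        · rw [Fin.append_left]
          exact hc i
        · rw [Fin.append_right]
          exact hzc i)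
      omega

end Sys

end Pool.Agent.H725.UG
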