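import Pool.Agent.H725.UG.Sys
import Pool.Agent.H725.UG.K3

/-!
# The graph of a satisfiable system of constraints embeds
-/

set_option autoImplicit false

namespace Pool.Agent.H725.UG

open Function
open Pool.Agent.E8helper92.BP (blk)

namespace Sys

variable {S : Sp} {𝔅 : Type} (Y : Sys S.Nb 𝔅)

/-- links in the graph of the system -/
def lk (K : Fin S.t → Y.Vt S.m) (a : Y.Vt S.m) : Prop :=
  (∀ i j, i ≠ j → Y.adj (K i) (K j)) ∧ ∀ i, Y.adj (K i) a

/-- paths of length two in links -/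
def pa (K : Fin S.t → Y.Vt S.m) (a c : Y.Vt S.m) : Prop :=
  Y.lk K a ∧ Y.lk K c ∧ a ≠ c ∧ ∃ b, Y.lk K b ∧ Y.adj a b ∧ Y.adj b c

/-- the structure of the system -/
def gr : Dat S (Y.Vt S.m) where
  E := Y.adj
  P := Y.pa
  L K := ∃ a c d, Y.pa K a c ∧ Y.adj c d ∧ Y.lk K d ∧ Y.pa K d a
  lab _ := S.a₀

variable {Y}

theorem pa_not (hm : 3 ≤ S.m) (hNb : 1 ≤ S.Nb) {K : Fin S.t → Y.Vt S.m} {a c : Y.Vt S.m}
    (h : Y.pa K a c) : ¬ Y.adj a c := by
  obtain ⟨h1, h2, -, b, h3, h4, h5⟩ := h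
  intro h6
  apply no_clique (Y := Y) S.hN hm hNb (v := Fin.append K ![a, b, c])
  have hK : ∀ i (j : Fin 3), Y.adj (K i) ((![a, b, c] : Fin 3 → Y.Vt S.m) j) := by
    intro i j
    fin_cases j
    · exact h1.2 i
    · exact h3.2 i
    · exact h2.2 i
  intro i j
  refine Fin.addCases (fun i => ?_) (fun i => ?_) i <;>
    refine Fin.addCases (fun j => ?_) (fun j => ?_) j
  · intro h
    rw [Fin.append_left, Fin.append_left]
    exact h1.1 i j (fun e => h (by rw [e]))
  · intro _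
    rw [Fin.append_left, Fin.append_right]
    exact hK i j
  · intro _
    rw [Fin.append_left, Fin.append_right]
    exact adj_symm _ _ (hK j i)
  · intro h
    rw [Fin.append_right, Fin.append_right]
    have hij : i ≠ j := fun e => h (by rw [e])
    fin_cases i <;> fin_cases j
    · exact absurd rfl hij
    · exact h4
    · exact h6
    · exact adj_symm _ _ h4
    · exact absurd rfl hij
    · exact h5
    · exact adj_symm _ _ h6
    · exact adj_symm _ _ h5
    · exact absurd rfl hij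

theorem gr_ok (hm : 3 ≤ S.m) (hNb : 1 ≤ S.Nb) : (Y.gr).GOk where
  symm := adj_symm
  irr := adj_irr
  p0 K a c h := ⟨h.1, h.2.1, h.2.2.1, pa_not hm hNb h, h.2.1, h.1, h.2.2.1.symm, by
    obtain ⟨-, -, -, b, h3, h4, h5⟩ := h
    exact ⟨b, h3, adj_symm _ _ h5, adj_symm _ _ h4⟩⟩
  l0 K h := by
    obtain ⟨a, c, d, -, -, h, -⟩ := h
    exact h.1
  r1 K a b c h1 h2 h3 h4 h5 h6 := ⟨h1, h3, h6, b, h2, h4, h5⟩
  r2 K a c d h1 h2 h3 h4 := ⟨a, c, d, h1, h2, h3, h4⟩

theorem gr_L (hm : 3 ≤ S.m) (hNb : 1 ≤ S.Nb) {K : Fin S.t → Y.Vt S.m} (h : Y.gr.L K) :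
    ∃ (c : Y.C) (p q : Fin (S.Nb * S.m)), Gam p q ∧
      ∀ i, ∃ x, x ≠ p ∧ x ≠ q ∧ K i = Sum.inl (Y.w c x) := by
  obtain ⟨a, c, d, h1, h2, h3, h4⟩ := h
  have n1 := pa_not hm hNb h4
  obtain ⟨g1, g2, g3, b, g4, g5, g6⟩ := h1
  have hab : a ≠ b := fun e => adj_irr b (e ▸ g5)
  have hbc : b ≠ c := fun e => adj_irr c (e ▸ g6)
  have hcd : c ≠ d := fun e => adj_irr d (e ▸ h2)
  have hda : d ≠ a := h4.2.2.1
  have hbd : b ≠ d := fun e => n1 (adj_symm _ _ (e ▸ g5))
  refine four_link (Y := Y) S.hN hm hNb h3.1 (z := ![a, b, c, d]) ?_ ?_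
  · intro i j hij
    fin_cases i <;> fin_cases j
    · rfl
    · exact absurd hij hab
    · exact absurd hij g3
    · exact absurd hij hda.symm
    · exact absurd hij hab.symm
    · rfl
    · exact absurd hij hbc
    · exact absurd hij hbd
    · exact absurd hij g3.symm
    · exact absurd hij hbc.symm
    · rfl
    · exact absurd hij hcd
    · exact absurd hij hda
    · exact absurd hij hbd.symm
    · exact absurd hij hcd.symm
    · rfl
  · intro i j
    fin_cases j
    · exact g1.2 i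
    · exact g4.2 i
    · exact g2.2 i
    · exact h3.2 i

/-- the label of a vertex -/
def lv (val : 𝔅 → S.A) : Y.Vt S.m → S.A
  | Sum.inl u => val u.1
  | Sum.inr _ => S.a₀

theorem exists_two {m : ℕ} (hm : 3 ≤ m) (a : Fin m) : ∃ a₁ a₂ : Fin m, a₁ ≠ a₂ ∧ a₁ ≠ a ∧ a₂ ≠ a := by
  by_cases h0 : a.1 = 0
  · exact ⟨⟨1, by omega⟩, ⟨2, by omega⟩, by simp, fun h => by
      have := congrArg Fin.val h; simp only at this; omega, fun h => by
      have := congrArg Fin.val h; simp only at this; omega⟩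
  · by_cases h1 : a.1 = 1
    · exact ⟨⟨0, by omega⟩, ⟨2, by omega⟩, by simp, fun h => by
        have := congrArg Fin.val h; simp only at this; omega, fun h => by
        have := congrArg Fin.val h; simp only at this; omega⟩
    · exact ⟨⟨0, by omega⟩, ⟨1, by omega⟩, by simp, fun h => by
        have := congrArg Fin.val h; simp only at this; omega, fun h => by
        have := congrArg Fin.val h; simp only at this; omega⟩

theorem sys_ok (hm : 3 ≤ S.m) (hNb : 2 ≤ S.Nb) (hMk : S.Mk = MkSet S.Nb S.m S.t) (val : 𝔅 → S.A)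
    (hval : ∀ c, (fun j => val (Y.Bc c j)) ∈ S.W) :
    ((Y.gr).withLab (fun v => lv (Y := Y) val (v ⟨0, by omega⟩))).Ok := by
  classical
  have hNb1 : 1 ≤ S.Nb := by omega
  have hgr : (Y.gr).GOk := gr_ok hm hNb1
  have hNm : (S.Nb - 1) * S.m + S.m = S.Nb * S.m := by
    have : S.Nb = (S.Nb - 1) + 1 := by omega
    conv_rhs => rw [this, Nat.add_mul, Nat.one_mul]
  have ht := S.hN
  apply Dat.withLab_ok hgr
  intro w' hw'
  obtain ⟨hcl, hL⟩ := hw'
  rw [hMk] at hL
  -- the marked subsets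
  have hmark : ∀ p q, Gam p q → ∃ κ : Fin S.t → Fin (S.Nb * S.m), Injective κ ∧
      (∀ x, (∃ i, κ i = x) ↔ x ≠ p ∧ x ≠ q) ∧ ∃ (c : Y.C) (p' q' : Fin (S.Nb * S.m)), Gam p' q' ∧
      ∀ i, ∃ x, x ≠ p' ∧ x ≠ q' ∧ w' (κ i) = Sum.inl (Y.w c x) := by
    intro p q hpq
    obtain ⟨κ, h1, h2⟩ := exists_compl S.hN hpq.1
    exact ⟨κ, h1, h2, gr_L hm hNb1 (hL κ (compl_mem hpq h1 h2))⟩
  -- all points are points of blocks
  have hcore : ∀ x, ∃ u, w' x = Sum.inl u := by
    intro x
    obtain ⟨a₁, a₂, h1, h2, h3⟩ := exists_two hm (ai x)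
    let last : Fin S.Nb := ⟨S.Nb - 1, by omega⟩
    obtain ⟨κ, -, hκ, c, p', q', -, h4⟩ := hmark (finProdFinEquiv (last, a₁))
      (finProdFinEquiv (last, a₂)) ⟨fun h => h1 (congrArg Prod.snd (finProdFinEquiv.injective h)), by
        rw [bi_mk, bi_mk]
        simp only [last]
        omega⟩
    obtain ⟨i, hi⟩ := (hκ x).2 ⟨fun h => h2 (by rw [h, ai_mk]), fun h => h3 (by rw [h, ai_mk])⟩
    obtain ⟨y, -, -, hy⟩ := h4 i
    rw [hi] at hy
    exact ⟨_, hy⟩
  choose u hu using hcore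
  have hw'i : Injective w' := inj_of_adj hcl
  have hui : Injective u := by
    intro i j hij
    apply hw'i
    rw [hu i, hu j, hij]
  obtain ⟨c, hc⟩ := core_clique (Y := Y) hui (by omega) (by
    intro i j hij
    have := hcl i j hij
    rw [hu i, hu j] at this
    exact this.2)
  choose π hπ using fun x => exists_w (hc x)
  have hπi : Injective π := by
    intro x y h
    apply hui
    rw [← hπ x, ← hπ y, h]
  have hπs : Surjective π := (Finite.injective_iff_surjective).1 hπi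
  have hGam : ∀ p q, Gam p q → Gam (π p) (π q) := by
    intro p q hpq
    obtain ⟨κ, hκi, hκ, c', p', q', hG, h4⟩ := hmark p q hpq
    choose y hy1 hy2 hy3 using h4
    have hyu : ∀ i, u (κ i) = Y.w c' (y i) := by
      intro i
      have := hy3 i
      rw [hu] at this
      exact Sum.inl_injective this
    have h5 : Y.Bc c = Y.Bc c' := core_unique (v := fun i => u (κ i)) (hui.comp hκi) (by omega)
      (fun i => hc _) (fun i => by rw [hyu i]; exact T_w _ _)
    have h6 : ∀ i, π (κ i) = y i := by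
      intro i
      apply w_inj (Y := Y) c
      rw [hπ, hyu]
      unfold w
      rw [h5]
    have h7 : ∀ x, (∀ i, y i ≠ x) → x = π p ∨ x = π q := by
      intro x hx
      obtain ⟨z, rfl⟩ := hπs x
      have h8 : ¬ ∃ i, κ i = z := by
        rintro ⟨i, rfl⟩
        exact hx i (h6 i).symm
      rw [hκ] at h8
      by_cases h9 : z = p
      · left; rw [h9]
      · right
        by_contra h10
        exact h8 ⟨h9, fun e => h10 (by rw [e])⟩
    rcases h7 p' hy1 with e1 | e1 <;> rcases h7 q' hy2 with e2 | e2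
    · rw [e1, e2] at hG
      exact absurd rfl hG.1
    · rw [e1, e2] at hG
      exact hG
    · rw [e1, e2] at hG
      exact hG.symm
    · rw [e1, e2] at hG
      exact absurd rfl hG.1
  have hbi := rigid (by omega) π hπi hGam
  have hlab : (fun j => lv (Y := Y) val (blk w' j ⟨0, by omega⟩)) = fun j => val (Y.Bc c j) := by
    funext j
    have h1 : blk w' j ⟨0, by omega⟩ = w' (finProdFinEquiv (j, ⟨0, by omega⟩)) := rfl
    rw [h1, hu]
    show val (u _).1 = _
    rw [← hπ]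
    show val (Y.Bc c (bi (π _))) = _
    rw [hbi, bi_mk]
  show (fun j => lv (Y := Y) val (blk w' j ⟨0, by omega⟩)) ∈ S.W
  rw [hlab]
  exact hval c

end Sys

/-- triggers are forced by the gadgets -/
theorem forced {S : Sp} {X : Type} {D : Dat S X} (hD : D.GOk) {K : Fin S.t → X} (hK : D.Clq K)
    (g : Fin 5 → X) (h1 : ∀ i j, D.E (K i) (g j)) (h2 : ∀ j, D.E (g j) (g (j + 1))) : D.L K := by
  have hl : ∀ j, D.Lk K (g j) := fun j => ⟨hK, fun i => h1 i j⟩
  have a1 : D.Pw K (g 0) (g 2) := hD.r1w (hl 0) (hl 1) (hl 2) (h2 0) (h2 1)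
  have a2 : D.Pw K (g 3) (g 0) := hD.r1w (hl 3) (hl 4) (hl 0) (h2 3) (h2 4)
  exact hD.r2w a1 (h2 2) (hl 3) a2

end Pool.Agent.H725.UG
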